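import Pool.Agent.Work.MP_6c3bcd_an.Defs

/-! Bundle of small proof modules (one section per former module). -/

section

namespace Pool.Agent.Work.MP_6c3bcd_an

open Set Topology

variable {𝕜 : Type*} [RCLike 𝕜] {X : Type*} [NormedAddCommGroup X] [NormedSpace 𝕜 X]

/-- Pointwise description of the weak-star closure. -/
theorem mem_wcl_iff {C : Set (StrongDual 𝕜 X)} {f : StrongDual 𝕜 X} :
    f ∈ wcl C ↔ ∀ (s : Finset X) (ε : ℝ), 0 < ε → ∃ g ∈ C, ∀ x ∈ s, ‖f x - g x‖ < ε := by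
  constructor
  · intro hf s ε hε
    have hopen : IsOpen {g : WeakDual 𝕜 X | ∀ x ∈ s, ‖f x - g x‖ < ε} := by
      have : {g : WeakDual 𝕜 X | ∀ x ∈ s, ‖f x - g x‖ < ε}
          = ⋂ x ∈ s, {g : WeakDual 𝕜 X | ‖f x - g x‖ < ε} := by
        ext g; simp
      rw [this]
      refine isOpen_biInter_finset fun x _ => ?_
      have hc : Continuous fun g : WeakDual 𝕜 X => g x := WeakDual.eval_continuous x
      have hc2 : Continuous fun g : WeakDual 𝕜 X => ‖f x - g x‖ :=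
        Continuous.norm (Continuous.sub continuous_const hc)
      exact isOpen_lt hc2 continuous_const
    have hmem : StrongDual.toWeakDual f ∈ {g : WeakDual 𝕜 X | ∀ x ∈ s, ‖f x - g x‖ < ε} := by
      intro x _
      simp [hε]
    have hf' : StrongDual.toWeakDual f ∈
        closure ((StrongDual.toWeakDual : StrongDual 𝕜 X → WeakDual 𝕜 X) '' C) := hf
    obtain ⟨g, hg1, g', hg', rfl⟩ := mem_closure_iff.1 hf' _ hopen hmem
    exact ⟨g', hg', fun x hx => hg1 x hx⟩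
  · intro h
    change StrongDual.toWeakDual f ∈ closure _
    have hind : IsInducing (fun (g : WeakDual 𝕜 X) (x : X) => g x) := ⟨rfl⟩
    rw [hind.closure_eq_preimage_closure_image, mem_preimage, mem_closure_iff_nhds]
    intro U hU
    rw [nhds_pi, Filter.mem_pi] at hU
    obtain ⟨I, hI, t, ht, htU⟩ := hU
    choose ε hε hball using fun x => Metric.mem_nhds_iff.1 (ht x)
    obtain ⟨δ, hδ, hδI⟩ : ∃ δ : ℝ, 0 < δ ∧ ∀ x ∈ hI.toFinset, δ ≤ ε x := by
      have : ∀ s : Finset X, ∃ δ : ℝ, 0 < δ ∧ ∀ x ∈ s, δ ≤ ε x := by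
        intro s
        classical
        induction s using Finset.induction_on with
        | empty => exact ⟨1, one_pos, by simp⟩
        | insert a s _ ih =>
          obtain ⟨δ, hδ, h⟩ := ih
          refine ⟨min δ (ε a), lt_min hδ (hε a), ?_⟩
          intro x hx
          rcases Finset.mem_insert.1 hx with rfl | hx
          · exact min_le_right _ _
          · exact (min_le_left _ _).trans (h x hx)
      exact this _
    obtain ⟨g, hg, hgI⟩ := h hI.toFinset δ hδ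
    refine ⟨fun x => g x, htU ?_, StrongDual.toWeakDual g, mem_image_of_mem _ hg, rfl⟩
    intro x hx
    apply hball x
    rw [Metric.mem_ball, dist_comm, dist_eq_norm]
    have hx' : x ∈ hI.toFinset := hI.mem_toFinset.2 hx
    exact (hgI x hx').trans_le (hδI x hx')

theorem subset_wcl (C : Set (StrongDual 𝕜 X)) : C ⊆ wcl C := fun f hf =>
  mem_wcl_iff.2 fun s ε hε => ⟨f, hf, fun x _ => by simpa using hε⟩

theorem wcl_mono {C C' : Set (StrongDual 𝕜 X)} (h : C ⊆ C') : wcl C ⊆ wcl C' := fun f hf =>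
  mem_wcl_iff.2 fun s ε hε => by
    obtain ⟨g, hg, hg'⟩ := mem_wcl_iff.1 hf s ε hε
    exact ⟨g, h hg, hg'⟩

theorem wcl_wcl_subset {C : Set (StrongDual 𝕜 X)} : wcl (wcl C) ⊆ wcl C := fun f hf =>
  mem_wcl_iff.2 fun s ε hε => by
    obtain ⟨g, hg, hg'⟩ := mem_wcl_iff.1 hf s (ε / 2) (by positivity)
    obtain ⟨k, hk, hk'⟩ := mem_wcl_iff.1 hg s (ε / 2) (by positivity)
    refine ⟨k, hk, fun x hx => ?_⟩
    calc ‖f x - k x‖ = ‖(f x - g x) + (g x - k x)‖ := by ring_nf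
      _ ≤ ‖f x - g x‖ + ‖g x - k x‖ := norm_add_le _ _
      _ < ε / 2 + ε / 2 := add_lt_add (hg' x hx) (hk' x hx)
      _ = ε := by ring

theorem wcl_subset_of_subset_wcl {C C' : Set (StrongDual 𝕜 X)} (h : C ⊆ wcl C') :
    wcl C ⊆ wcl C' := (wcl_mono h).trans wcl_wcl_subset

theorem closure_subset_wcl (C : Set (StrongDual 𝕜 X)) : closure C ⊆ wcl C := fun f hf =>
  mem_wcl_iff.2 fun s ε hε => by
    obtain ⟨M, hM, hMs⟩ : ∃ M : ℝ, 0 < M ∧ ∀ x ∈ s, ‖x‖ ≤ M := by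
      refine ⟨∑ x ∈ s, ‖x‖ + 1, by positivity, fun x hx => ?_⟩
      have := Finset.single_le_sum (f := fun x : X => ‖x‖) (fun i _ => norm_nonneg i) hx
      have h2 : ‖x‖ ≤ ∑ x ∈ s, ‖x‖ := this
      linarith
    obtain ⟨g, hg, hfg⟩ := Metric.mem_closure_iff.1 hf (ε / M) (by positivity)
    refine ⟨g, hg, fun x hx => ?_⟩
    calc ‖f x - g x‖ = ‖(f - g) x‖ := rfl
      _ ≤ ‖f - g‖ * ‖x‖ := (f - g).le_opNorm x
      _ ≤ ‖f - g‖ * M := by gcongr; exact hMs x hx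
      _ < ε / M * M := by
          gcongr
          rwa [← dist_eq_norm]
      _ = ε := by field_simp

theorem wcl_closure_subset (C : Set (StrongDual 𝕜 X)) : wcl (closure C) ⊆ wcl C :=
  wcl_subset_of_subset_wcl (closure_subset_wcl C)

/-- `wcl` and sums. -/
theorem wcl_add {C C' C'' : Set (StrongDual 𝕜 X)} (h : ∀ f ∈ C, ∀ g ∈ C', f + g ∈ C'')
    {f g : StrongDual 𝕜 X} (hf : f ∈ wcl C) (hg : g ∈ wcl C') : f + g ∈ wcl C'' :=
  mem_wcl_iff.2 fun s ε hε => by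
    obtain ⟨f', hf', hf''⟩ := mem_wcl_iff.1 hf s (ε / 2) (by positivity)
    obtain ⟨g', hg', hg''⟩ := mem_wcl_iff.1 hg s (ε / 2) (by positivity)
    refine ⟨f' + g', h _ hf' _ hg', fun x hx => ?_⟩
    calc ‖(f + g) x - (f' + g') x‖ = ‖(f x - f' x) + (g x - g' x)‖ := by
          congr 1; rw [add_apply, add_apply]; ring
      _ ≤ ‖f x - f' x‖ + ‖g x - g' x‖ := norm_add_le _ _
      _ < ε / 2 + ε / 2 := add_lt_add (hf'' x hx) (hg'' x hx)
      _ = ε := by ring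

/-- `wcl` and scalar multiples. -/
theorem wcl_smul {C C' : Set (StrongDual 𝕜 X)} (c : 𝕜) (h : ∀ f ∈ C, c • f ∈ wcl C')
    {f : StrongDual 𝕜 X} (hf : f ∈ wcl C) : c • f ∈ wcl C' :=
  wcl_wcl_subset <| mem_wcl_iff.2 fun s ε hε => by
    obtain ⟨f', hf', hf''⟩ := mem_wcl_iff.1 hf s (ε / (‖c‖ + 1)) (by positivity)
    refine ⟨c • f', h _ hf', fun x hx => ?_⟩
    calc ‖(c • f) x - (c • f') x‖ = ‖c‖ * ‖f x - f' x‖ := by
          rw [← norm_mul]; congr 1; rw [smul_apply, smul_apply, smul_eq_mul, smul_eq_mul]; ring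
      _ ≤ (‖c‖ + 1) * ‖f x - f' x‖ := by gcongr; linarith
      _ < (‖c‖ + 1) * (ε / (‖c‖ + 1)) := by gcongr; exact hf'' x hx
      _ = ε := by field_simp

/-- If all elements of `C` vanish at `x`, so do all elements of `wcl C`. -/
theorem wcl_apply_eq_zero {C : Set (StrongDual 𝕜 X)} {x : X} (h : ∀ f ∈ C, f x = 0)
    {f : StrongDual 𝕜 X} (hf : f ∈ wcl C) : f x = 0 := by
  by_contra hne
  obtain ⟨g, hg, hg'⟩ := mem_wcl_iff.1 hf {x} ‖f x‖ (norm_pos_iff.2 hne)
  have := hg' x (Finset.mem_singleton_self x)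
  rw [h g hg, sub_zero] at this
  exact lt_irrefl _ this

/-- Submodules: the weak-star closure of a submodule. -/
def wclSub (L : Submodule 𝕜 (StrongDual 𝕜 X)) : Submodule 𝕜 (StrongDual 𝕜 X) where
  carrier := wcl (L : Set (StrongDual 𝕜 X))
  add_mem' hf hg := wcl_add (fun _ hf _ hg => L.add_mem hf hg) hf hg
  zero_mem' := subset_wcl _ L.zero_mem
  smul_mem' c _ hf := wcl_smul c (fun _ hf => subset_wcl _ (L.smul_mem c hf)) hf

theorem coe_wclSub (L : Submodule 𝕜 (StrongDual 𝕜 X)) :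
    (wclSub L : Set (StrongDual 𝕜 X)) = wcl (L : Set (StrongDual 𝕜 X)) := rfl

/-- Functionals which are weak-star limits of countable subsets of `Y`. -/
def ctblSub (Y : Submodule 𝕜 (StrongDual 𝕜 X)) : Submodule 𝕜 (StrongDual 𝕜 X) where
  carrier := {f | ∃ C : Set (StrongDual 𝕜 X), C ⊆ Y ∧ C.Countable ∧ f ∈ wcl C}
  add_mem' := by
    rintro f g ⟨C, hC, hCc, hf⟩ ⟨C', hC', hCc', hg⟩
    refine ⟨(fun p : StrongDual 𝕜 X × StrongDual 𝕜 X => p.1 + p.2) '' (C ×ˢ C'), ?_,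
      (hCc.prod hCc').image _, ?_⟩
    · rintro _ ⟨⟨a, b⟩, ⟨ha, hb⟩, rfl⟩
      exact Y.add_mem (hC ha) (hC' hb)
    · exact wcl_add (fun a ha b hb => mem_image_of_mem
        (fun p : StrongDual 𝕜 X × StrongDual 𝕜 X => p.1 + p.2) (mk_mem_prod ha hb)) hf hg
  zero_mem' := ⟨{0}, by simp, countable_singleton _, subset_wcl _ rfl⟩
  smul_mem' := by
    rintro c f ⟨C, hC, hCc, hf⟩
    refine ⟨(fun a => c • a) '' C, ?_, hCc.image _, ?_⟩
    · rintro _ ⟨a, ha, rfl⟩
      exact Y.smul_mem c (hC ha)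
    · exact wcl_smul c (fun a ha => subset_wcl _ (mem_image_of_mem (fun a => c • a) ha)) hf

theorem ctblSub_closed (Y : Submodule 𝕜 (StrongDual 𝕜 X)) :
    WeakStarCountablyClosed (ctblSub Y : Set (StrongDual 𝕜 X)) := by
  intro C hC hCc f hf
  have hC' : ∀ g : StrongDual 𝕜 X, ∃ K : Set (StrongDual 𝕜 X),
      g ∈ C → (K ⊆ Y ∧ K.Countable ∧ g ∈ wcl K) := by
    intro g
    by_cases hg : g ∈ C
    · obtain ⟨K, hK⟩ := hC hg
      exact ⟨K, fun _ => hK⟩
    · exact ⟨∅, fun h => absurd h hg⟩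
  choose K hK using hC'
  refine ⟨⋃ g ∈ C, K g, iUnion₂_subset fun g hg => (hK g hg).1,
    hCc.biUnion fun g hg => (hK g hg).2.1, ?_⟩
  refine wcl_subset_of_subset_wcl (fun g hg => ?_) hf
  exact wcl_mono (subset_biUnion_of_mem (u := fun g => K g) hg) (hK g hg).2.2

theorem le_hull (Y : Submodule 𝕜 (StrongDual 𝕜 X)) : Y ≤ hull Y :=
  le_sInf fun _ hD => hD.1

theorem hull_closed (Y : Submodule 𝕜 (StrongDual 𝕜 X)) :
    WeakStarCountablyClosed (hull Y : Set (StrongDual 𝕜 X)) := by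
  intro C hC hCc f hf
  rw [hull, SetLike.mem_coe, Submodule.mem_sInf]
  intro D hD
  refine hD.2 C (fun g hg => ?_) hCc hf
  have := hC hg
  rw [hull, SetLike.mem_coe, Submodule.mem_sInf] at this
  exact this D hD

theorem hull_eq_ctblSub (Y : Submodule 𝕜 (StrongDual 𝕜 X)) : hull Y = ctblSub Y := by
  apply le_antisymm
  · refine sInf_le ⟨fun y hy => ⟨{y}, by simpa using hy, countable_singleton _,
      subset_wcl _ rfl⟩, ctblSub_closed Y⟩
  · rintro f ⟨C, hC, hCc, hf⟩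
    exact hull_closed Y C (hC.trans (le_hull Y)) hCc hf

theorem mem_hull_iff {Y : Submodule 𝕜 (StrongDual 𝕜 X)} {f : StrongDual 𝕜 X} :
    f ∈ hull Y ↔ ∃ C : Set (StrongDual 𝕜 X), C ⊆ Y ∧ C.Countable ∧ f ∈ wcl C := by
  rw [hull_eq_ctblSub]; rfl

theorem isClosed_hull (Y : Submodule 𝕜 (StrongDual 𝕜 X)) :
    IsClosed (hull Y : Set (StrongDual 𝕜 X)) := by
  rw [← closure_subset_iff_isClosed]
  intro f hf
  obtain ⟨u, hu, hlim⟩ := mem_closure_iff_seq_limit.1 hf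
  refine hull_closed Y (range u) ?_ (countable_range u) ?_
  · rintro _ ⟨n, rfl⟩
    exact hu n
  · exact closure_subset_wcl _ (mem_closure_of_tendsto hlim
      (Filter.Eventually.of_forall fun n => mem_range_self n))

theorem IsNorming.mono {D D' : Submodule 𝕜 (StrongDual 𝕜 X)} (hD : IsNorming D) (h : D ≤ D') :
    IsNorming D' := by
  obtain ⟨c, hc, hx⟩ := hD
  refine ⟨c, hc, fun x => (hx x).trans ?_⟩
  refine csSup_le_csSup ⟨‖x‖, ?_⟩ ⟨0, 0, D.zero_mem, by simp, by simp⟩ ?_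
  · rintro r ⟨f, _, hf1, rfl⟩
    calc ‖f x‖ ≤ ‖f‖ * ‖x‖ := f.le_opNorm x
      _ ≤ 1 * ‖x‖ := by gcongr
      _ = ‖x‖ := one_mul _
  · rintro r ⟨f, hf, hf1, rfl⟩
    exact ⟨f, h hf, hf1, rfl⟩

/-- The separation property in terms of subsets of the dual. -/
theorem IsProjectionalGenerator.separates' {D : Submodule 𝕜 (StrongDual 𝕜 X)} {Φ : D → Set X}
    (h : IsProjectionalGenerator D Φ) {A : Set (StrongDual 𝕜 X)} (hA : A ⊆ D)
    (L : Submodule 𝕜 (StrongDual 𝕜 X)) (hL : closure A = L) {f : StrongDual 𝕜 X}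
    (hf : f ∈ wcl A) (hf0 : ∀ y (hy : y ∈ A), ∀ x ∈ Φ ⟨y, hA hy⟩, f x = 0) : f = 0 := by
  have himg : (fun y : D => (y : StrongDual 𝕜 X)) '' {y : D | (y : StrongDual 𝕜 X) ∈ A} = A := by
    ext g
    constructor
    · rintro ⟨y, hy, rfl⟩
      exact hy
    · intro hg
      exact ⟨⟨g, hA hg⟩, hg, rfl⟩
  have := h.separates {y : D | (y : StrongDual 𝕜 X) ∈ A} ⟨L, by rw [himg, hL]⟩
  rw [himg] at this
  have hmem : f ∈ perp (⋃ y ∈ {y : D | (y : StrongDual 𝕜 X) ∈ A}, Φ y) ∩ wcl A := by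
    refine ⟨fun x hx => ?_, hf⟩
    obtain ⟨y, hy, hx⟩ := mem_iUnion₂.1 hx
    exact hf0 y hy x hx
  rw [this] at hmem
  exact hmem

/-- A set closed under addition and under multiplication by a dense set of scalars has a norm
closure which is a linear subspace. -/
def closureSub (A : Set (StrongDual 𝕜 X)) (hne : A.Nonempty)
    (hadd : ∀ f ∈ A, ∀ g ∈ A, f + g ∈ A)
    (hsmul : ∀ (n : ℕ), ∀ f ∈ A, TopologicalSpace.denseSeq 𝕜 n • f ∈ A) :
    Submodule 𝕜 (StrongDual 𝕜 X) :=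
  have hs : ∀ c : 𝕜, ∀ f ∈ closure A, c • f ∈ closure A := by
    intro c f hf
    have h1 : ∀ f ∈ A, ∀ c : 𝕜, c • f ∈ closure A := by
      intro f hf c
      have hc : c ∈ closure (range (TopologicalSpace.denseSeq 𝕜)) :=
        TopologicalSpace.denseRange_denseSeq 𝕜 c
      have hcont : Continuous fun c : 𝕜 => c • f := continuous_id.smul continuous_const
      have := image_closure_subset_closure_image hcont (mem_image_of_mem _ hc)
      refine closure_mono ?_ this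
      rintro _ ⟨_, ⟨n, rfl⟩, rfl⟩
      exact hsmul n f hf
    have hcont : Continuous fun f : StrongDual 𝕜 X => c • f := continuous_const_smul c
    have := image_closure_subset_closure_image hcont (mem_image_of_mem _ hf)
    have h2 := closure_mono (s := (fun f : StrongDual 𝕜 X => c • f) '' A) (t := closure A)
      (by rintro _ ⟨g, hg, rfl⟩; exact h1 g hg c) this
    rwa [closure_closure] at h2
  { carrier := closure A
    add_mem' := by
      intro f g hf hg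
      have hcont : Continuous fun p : StrongDual 𝕜 X × StrongDual 𝕜 X => p.1 + p.2 :=
        continuous_fst.add continuous_snd
      have hmem : ((f, g) : StrongDual 𝕜 X × StrongDual 𝕜 X) ∈ closure (A ×ˢ A) := by
        rw [closure_prod_eq]; exact ⟨hf, hg⟩
      have := image_closure_subset_closure_image hcont (mem_image_of_mem _ hmem)
      refine closure_mono ?_ this
      rintro _ ⟨⟨a, b⟩, ⟨ha, hb⟩, rfl⟩
      exact hadd a ha b hb
    zero_mem' := by
      obtain ⟨f, hf⟩ := hne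
      have h1 := hs 0 f (subset_closure hf)
      have h0 : (0 : 𝕜) • f = 0 := zero_smul 𝕜 f
      rwa [h0] at h1
    smul_mem' := fun c f hf => hs c f hf }

theorem coe_closureSub (A : Set (StrongDual 𝕜 X)) (hne hadd hsmul) :
    (closureSub A hne hadd hsmul : Set (StrongDual 𝕜 X)) = closure A := rfl

end Pool.Agent.Work.MP_6c3bcd_an

end

section

namespace Pool.Agent.Work.MP_6c3bcd_an

open Set Topology

variable {𝕜 : Type*} [RCLike 𝕜] {X : Type*} [NormedAddCommGroup X] [NormedSpace 𝕜 X]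

/-- Basic extension criterion. -/
theorem extension_base {Y : Submodule 𝕜 (StrongDual 𝕜 X)} {Φ : Y → Set X}
    (hΦ : IsProjectionalGenerator Y Φ) (N : StrongDual 𝕜 X → Set X)
    (hNc : ∀ z ∈ hull Y, (N z).Countable)
    (hN : ∀ L : Submodule 𝕜 (StrongDual 𝕜 X), L ≤ hull Y →
      ∀ A₀ : Set (StrongDual 𝕜 X), A₀ ⊆ Y → ∀ A₁ : Set (StrongDual 𝕜 X), (∀ a ∈ A₁, a ∉ Y) →
      closure (A₀ ∪ A₁) = (L : Set (StrongDual 𝕜 X)) →
      closure A₀ ≠ (L : Set (StrongDual 𝕜 X)) →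
      ∀ f ∈ wcl (L : Set (StrongDual 𝕜 X)), (∀ a ∈ A₁, ∀ x ∈ N a, f x = 0) → f = 0) :
    ∃ Ψ : hull Y → Set X, IsProjectionalGenerator (hull Y) Ψ ∧
      ∀ y : Y, Ψ ⟨y, le_hull Y y.2⟩ = Φ y := by
  classical
  let Ψ : hull Y → Set X := fun z =>
    if h : (z : StrongDual 𝕜 X) ∈ Y then Φ ⟨z, h⟩ else N z
  have hΨ1 : ∀ (z : hull Y) (h : (z : StrongDual 𝕜 X) ∈ Y), Ψ z = Φ ⟨z, h⟩ := fun z h => dif_pos h
  have hΨ2 : ∀ (z : hull Y), (z : StrongDual 𝕜 X) ∉ Y → Ψ z = N z := fun z h => dif_neg h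
  refine ⟨Ψ, ⟨hΦ.norming.mono (le_hull Y), ?_, ?_⟩, fun y => hΨ1 _ y.2⟩
  · intro z
    by_cases h : (z : StrongDual 𝕜 X) ∈ Y
    · rw [hΨ1 z h]
      exact hΦ.countable _
    · rw [hΨ2 z h]
      exact hNc _ z.2
  · rintro A ⟨L, hL⟩
    set A' : Set (StrongDual 𝕜 X) := (fun y : hull Y => (y : StrongDual 𝕜 X)) '' A with hA'
    have hA'hull : A' ⊆ hull Y := by
      rintro _ ⟨a, _, rfl⟩
      exact a.2
    have hLhull : L ≤ hull Y := by
      intro l hl
      have : l ∈ closure A' := by rw [hL]; exact hl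
      exact (isClosed_hull Y).closure_subset_iff.2 hA'hull this
    apply Subset.antisymm
    · rintro f ⟨hf0, hf⟩
      rw [mem_singleton_iff]
      set A₀ : Set (StrongDual 𝕜 X) := {a | a ∈ A' ∧ a ∈ Y} with hA₀
      set A₁ : Set (StrongDual 𝕜 X) := {a | a ∈ A' ∧ a ∉ Y} with hA₁
      have hunion : A₀ ∪ A₁ = A' := by
        ext a
        simp only [hA₀, hA₁, mem_union, mem_ofPred_eq]
        tauto
      by_cases hcase : closure A₀ = (L : Set (StrongDual 𝕜 X))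
      · have hA₀Y : A₀ ⊆ (Y : Set (StrongDual 𝕜 X)) := fun a ha => ha.2
        refine hΦ.separates' hA₀Y L hcase ?_ ?_
        · refine wcl_subset_of_subset_wcl ?_ hf
          intro a ha
          have : a ∈ closure A' := subset_closure ha
          rw [hL, ← hcase] at this
          exact closure_subset_wcl _ this
        · intro y hy x hx
          obtain ⟨⟨z, hz, rfl⟩, hy2⟩ := hy
          refine hf0 x (mem_iUnion₂.2 ⟨z, hz, ?_⟩)
          rw [hΨ1 z hy2]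
          exact hx
      · refine hN L hLhull A₀ (fun a ha => ha.2) A₁ (fun a ha => ha.2) (by rw [hunion, hL]) hcase
          f ?_ ?_
        · refine wcl_mono ?_ hf
          rw [← hL]
          exact subset_closure
        · intro a ha x hx
          obtain ⟨⟨z, hz, rfl⟩, hy2⟩ := ha
          refine hf0 x (mem_iUnion₂.2 ⟨z, hz, ?_⟩)
          rw [hΨ2 z hy2]
          exact hx
    · rintro f hf
      rw [mem_singleton_iff] at hf
      subst hf
      refine ⟨fun x _ => by simp, closure_subset_wcl _ ?_⟩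
      rw [hL]
      exact L.zero_mem

/-- Extension criterion with somewhere dense sets. -/
theorem extension_somewhere_dense {Y : Submodule 𝕜 (StrongDual 𝕜 X)} {Φ : Y → Set X}
    (hΦ : IsProjectionalGenerator Y Φ) (N : StrongDual 𝕜 X → Set X)
    (hNc : ∀ z ∈ hull Y, (N z).Countable)
    (hN : ∀ L : Submodule 𝕜 (StrongDual 𝕜 X), L ≤ hull Y →
      ∀ A : Set (StrongDual 𝕜 X), A ⊆ L →
      ∀ U : Set (StrongDual 𝕜 X), IsOpen U → (U ∩ L).Nonempty → U ∩ L ⊆ closure A →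
      ∀ f ∈ wcl (L : Set (StrongDual 𝕜 X)), (∀ a ∈ A, ∀ x ∈ N a, f x = 0) → f = 0) :
    ∃ Ψ : hull Y → Set X, IsProjectionalGenerator (hull Y) Ψ ∧
      ∀ y : Y, Ψ ⟨y, le_hull Y y.2⟩ = Φ y := by
  refine extension_base hΦ N hNc ?_
  intro L hL A₀ hA₀ A₁ hA₁ hcl hne f hf hfN
  have hA₀L : closure A₀ ⊆ L := by
    rw [← hcl]; exact closure_mono subset_union_left
  have hA₁L : A₁ ⊆ L := by
    rw [← hcl]; exact subset_union_right.trans subset_closure
  have hex : ∃ l ∈ L, l ∉ closure A₀ := by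
    by_contra hcon
    push Not at hcon
    exact hne (Subset.antisymm hA₀L hcon)
  obtain ⟨l, hl, hl'⟩ := hex
  refine hN L hL A₁ hA₁L (closure A₀)ᶜ isClosed_closure.isOpen_compl ⟨l, hl', hl⟩ ?_ f hf hfN
  rintro u ⟨hu, huL⟩
  have : u ∈ closure (A₀ ∪ A₁) := by rw [hcl]; exact huL
  rw [closure_union] at this
  exact this.resolve_left hu

/-- A proper relatively closed subspace has empty relative interior, in the form needed below. -/
theorem exists_mem_open_not_mem {L H : Submodule 𝕜 (StrongDual 𝕜 X)} (hLH : ¬ L ≤ H)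
    {U : Set (StrongDual 𝕜 X)} (hU : IsOpen U) (hne : (U ∩ L).Nonempty) :
    ∃ u ∈ U ∩ (L : Set (StrongDual 𝕜 X)), u ∉ H := by
  by_contra hcon
  push Not at hcon
  apply hLH
  intro l hl
  obtain ⟨u, huU, huL⟩ := hne
  have hcont : Continuous fun t : ℝ => u + ((t : ℝ) : 𝕜) • l := by
    have hc1 : Continuous fun t : ℝ => ((t : ℝ) : 𝕜) := RCLike.continuous_ofReal
    have hc2 : Continuous fun t : ℝ => ((t : ℝ) : 𝕜) • l := hc1.smul continuous_const
    exact continuous_const.add hc2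
  have h0 : (fun t : ℝ => u + ((t : ℝ) : 𝕜) • l) 0 ∈ U := by
    have h00 : (0 : 𝕜) • l = 0 := zero_smul 𝕜 l
    change u + ((0 : ℝ) : 𝕜) • l ∈ U
    rw [RCLike.ofReal_zero, h00, add_zero]
    exact huU
  have hev : ∀ᶠ t in 𝓝 (0 : ℝ), u + ((t : ℝ) : 𝕜) • l ∈ U :=
    hcont.continuousAt.eventually_mem (hU.mem_nhds h0)
  obtain ⟨t, ht, ht0⟩ : ∃ t : ℝ, u + ((t : ℝ) : 𝕜) • l ∈ U ∧ t ≠ 0 := by
    have h1 : ∀ᶠ t in 𝓝[≠] (0 : ℝ), u + ((t : ℝ) : 𝕜) • l ∈ U ∧ t ≠ 0 :=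
      (hev.filter_mono nhdsWithin_le_nhds).and self_mem_nhdsWithin
    exact h1.exists
  have h1 : u ∈ H := hcon u ⟨huU, huL⟩
  have h2 : u + ((t : ℝ) : 𝕜) • l ∈ H := hcon _ ⟨ht, L.add_mem huL (L.smul_mem _ hl)⟩
  have h3 : ((t : ℝ) : 𝕜) • l ∈ H := by
    have := H.sub_mem h2 h1
    simpa using this
  have ht' : ((t : ℝ) : 𝕜) ≠ 0 := by exact_mod_cast ht0
  have h4 := H.smul_mem ((t : ℝ) : 𝕜)⁻¹ h3
  rwa [smul_smul, inv_mul_cancel₀ ht', one_smul] at h4

/-- Several proper subspaces at once. -/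
theorem exists_mem_open_not_mem_finset {ι : Type*} {L : Submodule 𝕜 (StrongDual 𝕜 X)}
    {H : ι → Submodule 𝕜 (StrongDual 𝕜 X)}
    (hH : ∀ i, IsClosed (H i : Set (StrongDual 𝕜 X))) (F : Finset ι) (hLH : ∀ i ∈ F, ¬ L ≤ H i)
    {U : Set (StrongDual 𝕜 X)} (hU : IsOpen U) (hne : (U ∩ L).Nonempty) :
    ∃ u ∈ U ∩ (L : Set (StrongDual 𝕜 X)), ∀ i ∈ F, u ∉ H i := by
  classical
  induction F using Finset.induction_on generalizing U with
  | empty =>
    obtain ⟨u, hu⟩ := hne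
    exact ⟨u, hu, by simp⟩
  | insert a F _ ih =>
    obtain ⟨u, hu, huF⟩ := ih (fun i hi => hLH i (Finset.mem_insert_of_mem hi)) hU hne
    have hopen : IsOpen (U ∩ ⋂ i ∈ F, ((H i : Set (StrongDual 𝕜 X)))ᶜ) :=
      hU.inter (isOpen_biInter_finset fun i _ => (hH i).isOpen_compl)
    obtain ⟨v, hv, hva⟩ := exists_mem_open_not_mem (hLH a (Finset.mem_insert_self a F)) hopen
      ⟨u, ⟨hu.1, mem_iInter₂.2 huF⟩, hu.2⟩
    refine ⟨v, ⟨hv.1.1, hv.2⟩, ?_⟩
    intro i hi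
    rcases Finset.mem_insert.1 hi with rfl | hi
    · exact hva
    · exact mem_iInter₂.1 hv.1.2 i hi

end Pool.Agent.Work.MP_6c3bcd_an

end
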