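import Pool.Agent.Work.MP_6c3bcd_an.Bd.B01

/-! Bundle of small proof modules (one section per former module). -/

section

namespace Pool.Agent.Work.MP_6c3bcd_an

open Set Topology

section general

variable {α : Type*}

/-- One closing-off step for a set-valued binary operation. -/
def stepc (op : α → α → Set α) (S : Set α) : Set α := S ∪ ⋃ a ∈ S, ⋃ b ∈ S, op a b

/-- Iterated closing-off. -/
def itc (op : α → α → Set α) (S : Set α) : ℕ → Set α
  | 0 => S
  | n + 1 => stepc op (itc op S n)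

/-- The closure of `S` under a set-valued binary operation. -/
def cls (op : α → α → Set α) (S : Set α) : Set α := ⋃ n, itc op S n

theorem itc_mono (op : α → α → Set α) (S : Set α) : Monotone (itc op S) :=
  monotone_nat_of_le_succ fun _ => subset_union_left

theorem subset_cls (op : α → α → Set α) (S : Set α) : S ⊆ cls op S :=
  subset_iUnion (itc op S) 0

theorem cls_closed (op : α → α → Set α) (S : Set α) {a b : α} (ha : a ∈ cls op S)
    (hb : b ∈ cls op S) : op a b ⊆ cls op S := by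
  obtain ⟨n, hn⟩ := mem_iUnion.1 ha
  obtain ⟨m, hm⟩ := mem_iUnion.1 hb
  have hn' := itc_mono op S (le_max_left n m) hn
  have hm' := itc_mono op S (le_max_right n m) hm
  intro c hc
  refine mem_iUnion.2 ⟨max n m + 1, Or.inr ?_⟩
  exact mem_iUnion₂.2 ⟨a, hn', mem_iUnion₂.2 ⟨b, hm', hc⟩⟩

theorem cls_countable {op : α → α → Set α} (hop : ∀ a b, (op a b).Countable) {S : Set α}
    (hS : S.Countable) : (cls op S).Countable := by
  refine countable_iUnion fun n => ?_
  induction n with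
  | zero => exact hS
  | succ n ih => exact ih.union (ih.biUnion fun a _ => ih.biUnion fun b _ => hop a b)

theorem cls_min {op : α → α → Set α} {S T : Set α} (hST : S ⊆ T)
    (hT : ∀ a ∈ T, ∀ b ∈ T, op a b ⊆ T) : cls op S ⊆ T := by
  refine iUnion_subset fun n => ?_
  induction n with
  | zero => exact hST
  | succ n ih =>
    exact union_subset ih (iUnion₂_subset fun a ha => iUnion₂_subset fun b hb =>
      hT a (ih ha) b (ih hb))

theorem cls_mono {op : α → α → Set α} {S T : Set α} (hST : S ⊆ T) : cls op S ⊆ cls op T :=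
  cls_min (hST.trans (subset_cls op T)) fun _ ha _ hb => cls_closed op T ha hb

theorem cls_finite {op : α → α → Set α} {S : Set α} {x : α} (hx : x ∈ cls op S) :
    ∃ F : Finset α, (F : Set α) ⊆ S ∧ x ∈ cls op (F : Set α) := by
  classical
  have : cls op S ⊆ {x | ∃ F : Finset α, (F : Set α) ⊆ S ∧ x ∈ cls op (F : Set α)} := by
    apply cls_min
    · intro y hy
      exact ⟨{y}, by simpa using hy, subset_cls op _ (by simp)⟩
    · rintro a ⟨F, hF, ha⟩ b ⟨F', hF', hb⟩ c hc
      refine ⟨F ∪ F', by rw [Finset.coe_union]; exact union_subset hF hF', ?_⟩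
      exact cls_closed op _
        (cls_mono (by rw [Finset.coe_union]; exact subset_union_left) ha)
        (cls_mono (by rw [Finset.coe_union]; exact subset_union_right) hb) hc
  exact this hx

end general

variable {𝕜 : Type*} [RCLike 𝕜] {X : Type*} [NormedAddCommGroup X] [NormedSpace 𝕜 X]

/-- Addition and multiplication by a countable dense set of scalars. -/
def opQ (f g : StrongDual 𝕜 X) : Set (StrongDual 𝕜 X) :=
  {f + g} ∪ range fun n : ℕ => TopologicalSpace.denseSeq 𝕜 n • f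

theorem opQ_countable (f g : StrongDual 𝕜 X) : (opQ f g).Countable :=
  (countable_singleton _).union (countable_range _)

/-- The closure of `S ∪ {0}` under addition and a countable dense set of scalars. -/
def qcl (S : Set (StrongDual 𝕜 X)) : Set (StrongDual 𝕜 X) := cls opQ (insert 0 S)

theorem subset_qcl (S : Set (StrongDual 𝕜 X)) : S ⊆ qcl S :=
  (subset_insert _ _).trans (subset_cls _ _)

theorem qcl_nonempty (S : Set (StrongDual 𝕜 X)) : (qcl S).Nonempty :=
  ⟨0, subset_cls _ _ (mem_insert _ _)⟩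

theorem qcl_add (S : Set (StrongDual 𝕜 X)) : ∀ f ∈ qcl S, ∀ g ∈ qcl S, f + g ∈ qcl S :=
  fun _ hf _ hg => cls_closed opQ _ hf hg (Or.inl rfl)

theorem qcl_smul (S : Set (StrongDual 𝕜 X)) :
    ∀ (n : ℕ), ∀ f ∈ qcl S, TopologicalSpace.denseSeq 𝕜 n • f ∈ qcl S :=
  fun n _ hf => cls_closed opQ _ hf hf (Or.inr ⟨n, rfl⟩)

theorem qcl_countable {S : Set (StrongDual 𝕜 X)} (hS : S.Countable) : (qcl S).Countable :=
  cls_countable opQ_countable (hS.insert _)

theorem qcl_mono {S T : Set (StrongDual 𝕜 X)} (h : S ⊆ T) : qcl S ⊆ qcl T :=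
  cls_mono (insert_subset_insert h)

theorem qcl_subset_submodule {S : Set (StrongDual 𝕜 X)} {Y : Submodule 𝕜 (StrongDual 𝕜 X)}
    (h : S ⊆ Y) : qcl S ⊆ Y := by
  refine cls_min (insert_subset Y.zero_mem h) ?_
  rintro a ha b hb c (hc | ⟨n, rfl⟩)
  · rw [mem_singleton_iff] at hc
    rw [hc]
    exact Y.add_mem ha hb
  · exact Y.smul_mem _ ha

theorem qcl_finite {S : Set (StrongDual 𝕜 X)} {f : StrongDual 𝕜 X} (hf : f ∈ qcl S) :
    ∃ F : Finset (StrongDual 𝕜 X), (F : Set (StrongDual 𝕜 X)) ⊆ S ∧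
      f ∈ qcl (F : Set (StrongDual 𝕜 X)) := by
  classical
  obtain ⟨F, hF, hfF⟩ := cls_finite hf
  refine ⟨F.erase 0, ?_, ?_⟩
  · intro g hg
    have hg' := Finset.mem_erase.1 (Finset.mem_coe.1 hg)
    rcases hF (Finset.mem_coe.2 hg'.2) with h | h
    · exact absurd h hg'.1
    · exact h
  · refine cls_mono ?_ hfF
    intro g hg
    by_cases h : g = 0
    · exact Or.inl h
    · exact Or.inr (Finset.mem_coe.2 (Finset.mem_erase.2 ⟨h, Finset.mem_coe.1 hg⟩))

/-- The norm closure of `qcl S`, as a linear subspace. -/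
def qclSub (S : Set (StrongDual 𝕜 X)) : Submodule 𝕜 (StrongDual 𝕜 X) :=
  closureSub (qcl S) (qcl_nonempty S) (qcl_add S) (qcl_smul S)

theorem coe_qclSub (S : Set (StrongDual 𝕜 X)) :
    (qclSub S : Set (StrongDual 𝕜 X)) = closure (qcl S) := rfl

/-- `wcl (qcl S)` contains the weak-star closure of the span of `S`. -/
theorem wcl_span_subset (S : Set (StrongDual 𝕜 X)) :
    wcl (Submodule.span 𝕜 S : Set (StrongDual 𝕜 X)) ⊆ wcl (qcl S) := by
  have h1 : (Submodule.span 𝕜 S : Submodule 𝕜 (StrongDual 𝕜 X)) ≤ qclSub S :=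
    Submodule.span_le.2 ((subset_qcl S).trans subset_closure)
  exact (wcl_mono h1).trans (wcl_closure_subset _)

/-- `wcl (qcl S)` as a linear subspace. -/
def wqSub (S : Set (StrongDual 𝕜 X)) : Submodule 𝕜 (StrongDual 𝕜 X) := wclSub (qclSub S)

theorem coe_wqSub (S : Set (StrongDual 𝕜 X)) :
    (wqSub S : Set (StrongDual 𝕜 X)) = wcl (qcl S) := by
  apply Subset.antisymm
  · exact wcl_closure_subset _
  · exact wcl_mono subset_closure

/-- Separation for sets of the form `qcl S`. -/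
theorem IsProjectionalGenerator.separates_qcl {Y : Submodule 𝕜 (StrongDual 𝕜 X)} {Φ : Y → Set X}
    (h : IsProjectionalGenerator Y Φ) {S : Set (StrongDual 𝕜 X)} (hS : S ⊆ Y)
    {f : StrongDual 𝕜 X} (hf : f ∈ wcl (qcl S))
    (hf0 : ∀ y (hy : y ∈ qcl S), ∀ x ∈ Φ ⟨y, qcl_subset_submodule hS hy⟩, f x = 0) : f = 0 :=
  h.separates' (qcl_subset_submodule hS) (qclSub S) (coe_qclSub S).symm hf hf0

end Pool.Agent.Work.MP_6c3bcd_an

end

section

namespace Pool.Agent.Work.MP_6c3bcd_an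

open Set Topology

variable {𝕜 : Type*} [RCLike 𝕜] {X : Type*} [NormedAddCommGroup X] [NormedSpace 𝕜 X]

/-- A separable subset of `D(Y)` lies in the weak-star closure of a countable subset of `Y`. -/
theorem exists_countable_of_isSeparable {Y : Submodule 𝕜 (StrongDual 𝕜 X)}
    {Z : Set (StrongDual 𝕜 X)} (hZ : Z ⊆ hull Y) (hsep : TopologicalSpace.IsSeparable Z) :
    ∃ C : Set (StrongDual 𝕜 X), C ⊆ Y ∧ C.Countable ∧ Z ⊆ wcl C := by
  obtain ⟨t, htZ, htc, hZt⟩ := hsep.exists_countable_dense_subset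
  have hC' : ∀ g : StrongDual 𝕜 X, ∃ K : Set (StrongDual 𝕜 X),
      g ∈ t → (K ⊆ Y ∧ K.Countable ∧ g ∈ wcl K) := by
    intro g
    by_cases hg : g ∈ t
    · obtain ⟨K, hK⟩ := mem_hull_iff.1 (hZ (htZ hg))
      exact ⟨K, fun _ => hK⟩
    · exact ⟨∅, fun h => absurd h hg⟩
  choose K hK using hC'
  refine ⟨⋃ g ∈ t, K g, iUnion₂_subset fun g hg => (hK g hg).1,
    htc.biUnion fun g hg => (hK g hg).2.1, ?_⟩
  refine hZt.trans ((closure_subset_wcl t).trans (wcl_subset_of_subset_wcl fun g hg => ?_))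
  exact wcl_mono (subset_biUnion_of_mem (u := fun g => K g) hg) (hK g hg).2.2

/-- The union of the `Φ y` over the elements `y ∈ Y` of a set `Q`. -/
def pull {Y : Submodule 𝕜 (StrongDual 𝕜 X)} (Φ : Y → Set X) (Q : Set (StrongDual 𝕜 X)) : Set X :=
  ⋃ y ∈ Q, ⋃ hy : y ∈ Y, Φ ⟨y, hy⟩

theorem pull_countable {Y : Submodule 𝕜 (StrongDual 𝕜 X)} {Φ : Y → Set X}
    (hΦ : IsProjectionalGenerator Y Φ) {Q : Set (StrongDual 𝕜 X)} (hQ : Q.Countable) :
    (pull Φ Q).Countable :=
  hQ.biUnion fun y _ => countable_iUnion fun hy => hΦ.countable ⟨y, hy⟩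

/-- **The case of countable supports.** -/
theorem support_extension {Y : Submodule 𝕜 (StrongDual 𝕜 X)} {Φ : Y → Set X}
    (hΦ : IsProjectionalGenerator Y Φ) {ι : Type*} (H : ι → Submodule 𝕜 (StrongDual 𝕜 X))
    (hH : ∀ i, IsClosed (H i : Set (StrongDual 𝕜 X)))
    (Z : ι → Set (StrongDual 𝕜 X)) (hZ : ∀ i, Z i ⊆ hull Y)
    (hZsep : ∀ i, TopologicalSpace.IsSeparable (Z i))
    (hcount : ∀ z ∈ hull Y, {i | z ∉ H i}.Countable)
    (hgen : ∀ z ∈ hull Y,
      z ∈ wcl (Submodule.span 𝕜 (⋃ i ∈ {i | z ∉ H i}, Z i) : Set (StrongDual 𝕜 X))) :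
    ∃ Ψ : hull Y → Set X, IsProjectionalGenerator (hull Y) Ψ ∧
      ∀ y : Y, Ψ ⟨y, le_hull Y y.2⟩ = Φ y := by
  classical
  choose C hCY hCc hCZ using fun i => exists_countable_of_isSeparable (hZ i) (hZsep i)
  refine extension_somewhere_dense hΦ
    (fun z => pull Φ (qcl (⋃ i ∈ {i | z ∉ H i}, C i))) ?_ ?_
  · intro z hz
    exact pull_countable hΦ (qcl_countable ((hcount z hz).biUnion fun i _ => hCc i))
  · intro L hL A hAL U hU hne hUA f hf hfN
    set CS : Set (StrongDual 𝕜 X) := ⋃ i ∈ {i | ¬ L ≤ H i}, C i with hCS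
    have hCSY : CS ⊆ Y := iUnion₂_subset fun i _ => hCY i
    have h1 : (L : Set (StrongDual 𝕜 X)) ⊆ wcl (qcl CS) := by
      intro l hl
      have hspan : (Submodule.span 𝕜 (⋃ i ∈ {i | l ∉ H i}, Z i) : Submodule 𝕜 (StrongDual 𝕜 X))
          ≤ wqSub CS := by
        refine Submodule.span_le.2 (iUnion₂_subset fun i hi => ?_)
        rw [coe_wqSub]
        refine (hCZ i).trans (wcl_mono ?_)
        refine Subset.trans ?_ (subset_qcl CS)
        exact subset_biUnion_of_mem (u := fun i => C i) (fun h => hi (h hl))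
      have := wcl_mono (C' := wcl (qcl CS)) (by rw [← coe_wqSub]; exact hspan) (hgen l (hL hl))
      exact wcl_wcl_subset this
    have h2 : ∀ y ∈ qcl CS, ∃ a ∈ A, y ∈ qcl (⋃ i ∈ {i | a ∉ H i}, C i) := by
      intro y hy
      obtain ⟨F, hF, hyF⟩ := qcl_finite hy
      have hidx : ∀ g : StrongDual 𝕜 X, ∃ s : Finset ι,
          (∀ i ∈ s, ¬ L ≤ H i) ∧ (g ∈ F → ∃ i ∈ s, g ∈ C i) := by
        intro g
        by_cases hg : g ∈ F
        · obtain ⟨i, hi, hgi⟩ := mem_iUnion₂.1 (hF (Finset.mem_coe.2 hg))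
          refine ⟨{i}, fun j hj => ?_, fun _ => ⟨i, Finset.mem_singleton_self i, hgi⟩⟩
          rw [Finset.mem_singleton.1 hj]
          exact hi
        · exact ⟨∅, by simp, fun h => absurd h hg⟩
      choose s hs1 hs2 using hidx
      obtain ⟨u, hu, huH⟩ := exists_mem_open_not_mem_finset hH (F.biUnion s)
        (fun i hi => by
          obtain ⟨g, _, hgi⟩ := Finset.mem_biUnion.1 hi
          exact hs1 g i hgi) hU hne
      have hopen : IsOpen (⋂ i ∈ F.biUnion s, ((H i : Set (StrongDual 𝕜 X)))ᶜ) :=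
        isOpen_biInter_finset fun i _ => (hH i).isOpen_compl
      obtain ⟨a, ha, haA⟩ := mem_closure_iff.1 (hUA hu) _ hopen (mem_iInter₂.2 huH)
      refine ⟨a, haA, qcl_mono ?_ hyF⟩
      intro g hg
      obtain ⟨i, hi, hgi⟩ := hs2 g (Finset.mem_coe.1 hg)
      refine mem_iUnion₂.2 ⟨i, ?_, hgi⟩
      exact mem_iInter₂.1 ha i (Finset.mem_biUnion.2 ⟨g, Finset.mem_coe.1 hg, hi⟩)
    refine hΦ.separates_qcl hCSY (wcl_subset_of_subset_wcl h1 hf) ?_
    intro y hy x hx
    obtain ⟨a, haA, hya⟩ := h2 y hy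
    refine hfN a haA x (mem_iUnion₂.2 ⟨y, hya, mem_iUnion.2 ⟨_, hx⟩⟩)

end Pool.Agent.Work.MP_6c3bcd_an

end
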