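import Pool.Agent.Work.MP_6c3bcd_an.Bd.B02

/-! Bundle of small proof modules (one section per former module). -/

section

/-!
# Asplund spaces: statements of the lemmas

Every projectional generator on an Asplund space (of any density) extends to one with domain
`D(Y)`. Each `claimX` is proved in its own file `ItemX.lean`.
-/

universe u v w

namespace Pool.Agent.Work.MP_6c3bcd_an.Asp

open Set Topology

/-- `X` is an Asplund space: every norm separable linear subspace has a norm separable dual. -/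
def IsAsplund (𝕜 : Type u) [RCLike 𝕜] (X : Type v) [NormedAddCommGroup X] [NormedSpace 𝕜 X] :
    Prop :=
  ∀ E : Submodule 𝕜 X, TopologicalSpace.IsSeparable (E : Set X) →
    TopologicalSpace.SeparableSpace (StrongDual 𝕜 E)

/-- Elementary weak-star neighbourhoods. -/
def box {𝕜 : Type u} [RCLike 𝕜] {X : Type v} [NormedAddCommGroup X] [NormedSpace 𝕜 X]
    (F : Finset X) (δ : ℝ) (f : StrongDual 𝕜 X) : Set (StrongDual 𝕜 X) :=
  {g | ∀ x ∈ F, ‖f x - g x‖ < δ}

/-- The dual unit ball is fragmented by the norm. -/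
def Frag (𝕜 : Type u) [RCLike 𝕜] (X : Type v) [NormedAddCommGroup X] [NormedSpace 𝕜 X] : Prop :=
  ∀ K : Set (StrongDual 𝕜 X), (∀ f ∈ K, ‖f‖ ≤ 1) → K.Nonempty → ∀ ε : ℝ, 0 < ε →
    ∃ f ∈ K, ∃ (F : Finset X) (δ : ℝ), 0 < δ ∧
      ∀ g ∈ K, ∀ h ∈ K, g ∈ box F δ f → h ∈ box F δ f → ‖g - h‖ ≤ ε

/-- FRAG. -/
def claimFrag : Prop :=
  ∀ (𝕜 : Type u) [RCLike 𝕜] (X : Type v) [NormedAddCommGroup X] [NormedSpace 𝕜 X],
    IsAsplund 𝕜 X → Frag 𝕜 X

/-- A countable set `G F` of functionals for each finite set `F` of vectors such that for every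
set `S` of vectors the functionals in the `G F`, `F ⊆ S`, are, modulo functionals vanishing on
`S`, dense in the unit ball. -/
def IsGen {𝕜 : Type u} [RCLike 𝕜] {X : Type v} [NormedAddCommGroup X] [NormedSpace 𝕜 X]
    (G : Finset X → Set (StrongDual 𝕜 X)) : Prop :=
  (∀ F, (G F).Countable) ∧
    ∀ (S : Set X) (h : StrongDual 𝕜 X), ‖h‖ ≤ 1 → ∀ ε : ℝ, 0 < ε →
      ∃ F : Finset X, (F : Set X) ⊆ S ∧ ∃ g ∈ G F, ∃ k : StrongDual 𝕜 X,
        (∀ x ∈ S, k x = h x) ∧ ‖g - k‖ ≤ ε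

/-- GEN. -/
def claimGen : Prop :=
  ∀ (𝕜 : Type u) [RCLike 𝕜] (X : Type v) [NormedAddCommGroup X] [NormedSpace 𝕜 X],
    Frag 𝕜 X → ∃ G : Finset X → Set (StrongDual 𝕜 X), IsGen G

/-- The union of the `C F` over the finite subsets `F` of `S`. -/
def fin {X : Type v} {E : Type w} (C : Finset X → Set E) (S : Set X) : Set E :=
  ⋃ F ∈ {F : Finset X | (F : Set X) ⊆ S}, C F

/-- As `IsGen`, but with closures which are linear subspaces, and for functionals of any norm. -/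
def IsLin {𝕜 : Type u} [RCLike 𝕜] {X : Type v} [NormedAddCommGroup X] [NormedSpace 𝕜 X]
    (C : Finset X → Set (StrongDual 𝕜 X)) : Prop :=
  (∀ F, (C F).Countable) ∧
    (∀ S : Set X, ∃ L : Submodule 𝕜 (StrongDual 𝕜 X),
      closure (fin C S) = (L : Set (StrongDual 𝕜 X))) ∧
    ∀ (S : Set X) (h : StrongDual 𝕜 X), ∀ ε : ℝ, 0 < ε →
      ∃ c ∈ fin C S, ∃ k : StrongDual 𝕜 X, (∀ x ∈ S, k x = h x) ∧ ‖c - k‖ ≤ ε

/-- LIN. -/
def claimLin : Prop :=
  ∀ (𝕜 : Type u) [RCLike 𝕜] (X : Type v) [NormedAddCommGroup X] [NormedSpace 𝕜 X]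
    (G : Finset X → Set (StrongDual 𝕜 X)), IsGen G → ∃ C : Finset X → Set (StrongDual 𝕜 X), IsLin C

/-- `S` is closed under the finitary set valued operation `M`. -/
def Cl {X : Type v} (M : Finset X → Set X) (S : Set X) : Prop :=
  ∀ F : Finset X, (F : Set X) ⊆ S → M F ⊆ S

/-- CLOS: the closure operator of `M`. -/
def claimClos : Prop :=
  ∀ (X : Type v) (M : Finset X → Set X), (∀ F, (M F).Countable) →
    ∃ cl : Set X → Set X, (∀ S, S ⊆ cl S) ∧ (∀ S, Cl M (cl S)) ∧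
      (∀ S T, S ⊆ T → Cl M T → cl S ⊆ T) ∧
      ∀ S, Cardinal.mk (cl S) ≤ max (Cardinal.mk S) Cardinal.aleph0

/-- A system of norm one projections indexed by the closed sets. -/
structure ProjFam {𝕜 : Type u} [RCLike 𝕜] {X : Type v} {E : Type w} [NormedAddCommGroup E]
    [NormedSpace 𝕜 E] (M : Finset X → Set X) (Q : Set X → E →L[𝕜] E) : Prop where
  norm_le : ∀ S, Cl M S → ∀ z, ‖Q S z‖ ≤ ‖z‖
  left : ∀ S T, Cl M S → Cl M T → S ⊆ T → ∀ z, Q S (Q T z) = Q S z
  right : ∀ S T, Cl M S → Cl M T → S ⊆ T → ∀ z, Q T (Q S z) = Q S z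
  cont : ∀ 𝒞 : Set (Set X), 𝒞.Nonempty → DirectedOn (· ⊆ ·) 𝒞 → (∀ S ∈ 𝒞, Cl M S) →
    ∀ z, Q (⋃₀ 𝒞) z ∈ closure (⋃ S ∈ 𝒞, Set.range (Q S))
  sep : ∀ S, Cl M S → S.Countable → TopologicalSpace.IsSeparable (Set.range (Q S))
  univ : ∀ z, Q Set.univ z = z

/-- PROJ. -/
def claimProj : Prop :=
  ∀ (𝕜 : Type u) [RCLike 𝕜] (X : Type v) [NormedAddCommGroup X] [NormedSpace 𝕜 X]
    (C : Finset X → Set (StrongDual 𝕜 X)), IsLin C →
    ∃ M : Finset X → Set X, (∀ F, (M F).Countable) ∧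
      ∃ Q : Set X → StrongDual 𝕜 X →L[𝕜] StrongDual 𝕜 X, ProjFam M Q

/-- The union of the sets below `i`. -/
def low {X : Type v} {I : Type w} [LinearOrder I] (B : Set X) (T : I → Set X) (i : I) : Set X :=
  B ∪ ⋃ j ∈ {j | j < i}, T j

/-- JUMP: along a well-ordered increasing family only countably many jumps do not vanish, and
they generate. -/
def claimJump : Prop :=
  ∀ (𝕜 : Type u) [RCLike 𝕜] (X : Type v) (E : Type w) [NormedAddCommGroup E] [NormedSpace 𝕜 E]
    (M : Finset X → Set X) (Q : Set X → E →L[𝕜] E), ProjFam M Q →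
    ∀ (I : Type v) [LinearOrder I] [WellFoundedLT I] (B : Set X) (T : I → Set X),
      Cl M B → (∀ i, Cl M (T i)) → (∀ i, B ⊆ T i) → Monotone T →
      (∀ i, Cl M (low B T i)) ∧ Cl M (B ∪ ⋃ i, T i) ∧
      (∀ z, {i | Q (T i) z - Q (low B T i) z ≠ 0}.Countable) ∧
      ∀ z, Q (B ∪ ⋃ i, T i) z ∈ closure (Submodule.span 𝕜
        ({Q B z} ∪ Set.range fun i => Q (T i) z - Q (low B T i) z) : Set E)

/-- A system of countable supports for the elements of `V`. -/
def Sys {𝕜 : Type u} [RCLike 𝕜] {E : Type w} [NormedAddCommGroup E]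
    [NormedSpace 𝕜 E] (V : Set E) (𝓘 : Set (Submodule 𝕜 E × Set E)) : Prop :=
  (∀ p ∈ 𝓘, IsClosed (p.1 : Set E) ∧ p.2.Countable) ∧
    ∀ z ∈ V, {p | p ∈ 𝓘 ∧ z ∉ p.1}.Countable ∧
      z ∈ closure (Submodule.span 𝕜 (⋃ p ∈ {p | p ∈ 𝓘 ∧ z ∉ p.1}, p.2) : Set E)

/-- IND: a system of projections gives a system of supports (induction on the cardinality). -/
def claimInd : Prop :=
  ∀ (𝕜 : Type u) [RCLike 𝕜] (X : Type v) (E : Type w) [NormedAddCommGroup E] [NormedSpace 𝕜 E]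
    (M : Finset X → Set X) (Q : Set X → E →L[𝕜] E), (∀ F, (M F).Countable) → ProjFam M Q →
    ∃ 𝓘 : Set (Submodule 𝕜 E × Set E), Sys Set.univ 𝓘

/-- SUPP: a system of countable supports in the dual, whose countable sets need not lie in
`D(Y)`, gives the extension. -/
def claimSupp : Prop :=
  ∀ (𝕜 : Type u) [RCLike 𝕜] (X : Type v) [NormedAddCommGroup X] [NormedSpace 𝕜 X]
    (Y : Submodule 𝕜 (StrongDual 𝕜 X)) (Φ : Y → Set X), IsProjectionalGenerator Y Φ →
    ∀ 𝓘 : Set (Submodule 𝕜 (StrongDual 𝕜 X) × Set (StrongDual 𝕜 X)),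
      Sys (hull Y : Set (StrongDual 𝕜 X)) 𝓘 →
      ∃ Ψ : hull Y → Set X, IsProjectionalGenerator (hull Y) Ψ ∧
        ∀ y : Y, Ψ ⟨y, le_hull Y y.2⟩ = Φ y

end Pool.Agent.Work.MP_6c3bcd_an.Asp

end

section

universe u v w

namespace Pool.Agent.Work.MP_6c3bcd_an.Asp

open Set Topology

namespace IClos

variable {X : Type v}

/-- One step. -/
def step (M : Finset X → Set X) (S : Set X) : Set X := S ∪ ⋃ F ∈ {F : Finset X | (F : Set X) ⊆ S}, M F

/-- Iterates. -/
def it (M : Finset X → Set X) (S : Set X) : ℕ → Set X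
  | 0 => S
  | n + 1 => step M (it M S n)

/-- Closure. -/
def clo (M : Finset X → Set X) (S : Set X) : Set X := ⋃ n, it M S n

theorem it_mono (M : Finset X → Set X) (S : Set X) : Monotone (it M S) :=
  monotone_nat_of_le_succ fun _ => subset_union_left

theorem fin_sub (M : Finset X → Set X) (S : Set X) (F : Finset X)
    (hF : (F : Set X) ⊆ clo M S) : ∃ n, (F : Set X) ⊆ it M S n := by
  classical
  induction F using Finset.induction_on with
  | empty => exact ⟨0, by simp⟩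
  | insert a F _ ih =>
    rw [Finset.coe_insert, insert_subset_iff] at hF
    obtain ⟨n, hn⟩ := ih hF.2
    obtain ⟨m, hm⟩ := mem_iUnion.1 hF.1
    refine ⟨max n m, ?_⟩
    rw [Finset.coe_insert, insert_subset_iff]
    exact ⟨it_mono M S (le_max_right n m) hm, hn.trans (it_mono M S (le_max_left n m))⟩

theorem card_step (M : Finset X → Set X) (hM : ∀ F, (M F).Countable) (S : Set X) :
    Cardinal.mk (step M S) ≤ max (Cardinal.mk S) Cardinal.aleph0 := by
  have hfin : Cardinal.mk {F : Finset X | (F : Set X) ⊆ S} ≤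
      max (Cardinal.mk S) Cardinal.aleph0 := by
    have h1 : Cardinal.mk {F : Finset X | (F : Set X) ⊆ S} ≤ Cardinal.mk (Finset S) := by
      classical
      refine Cardinal.mk_le_of_injective
        (f := fun F : {F : Finset X | (F : Set X) ⊆ S} => (F.1.subtype (· ∈ S))) ?_
      intro F G h
      apply Subtype.ext
      have h2 : (F.1.subtype (· ∈ S)).map (Function.Embedding.subtype _) =
        (G.1.subtype (· ∈ S)).map (Function.Embedding.subtype _) := by
        rw [show F.1.subtype (· ∈ S) = G.1.subtype (· ∈ S) from h]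
      rw [Finset.subtype_map_of_mem (fun x hx => F.2 (Finset.mem_coe.2 hx)),
        Finset.subtype_map_of_mem (fun x hx => G.2 (Finset.mem_coe.2 hx))] at h2
      exact h2
    refine h1.trans ?_
    rcases finite_or_infinite S with h | h
    · have : Cardinal.mk (Finset S) < Cardinal.aleph0 := Cardinal.lt_aleph0_of_finite _
      exact this.le.trans (le_max_right _ _)
    · rw [Cardinal.mk_finset_of_infinite]
      exact le_max_left _ _
  refine (Cardinal.mk_union_le _ _).trans ?_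
  have hκ : Cardinal.aleph0 ≤ max (Cardinal.mk S) Cardinal.aleph0 := le_max_right _ _
  refine Cardinal.add_le_of_le hκ (le_max_left _ _) ?_
  refine (Cardinal.mk_biUnion_le _ _).trans ?_
  refine (mul_le_mul' hfin (c := _) (d := Cardinal.aleph0) ?_).trans ?_
  · exact ciSup_le' fun F => Cardinal.le_aleph0_iff_set_countable.2 (hM F.1)
  · rw [Cardinal.mul_aleph0_eq hκ]

theorem card_it (M : Finset X → Set X) (hM : ∀ F, (M F).Countable) (S : Set X) (n : ℕ) :
    Cardinal.mk (it M S n) ≤ max (Cardinal.mk S) Cardinal.aleph0 := by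
  induction n with
  | zero => exact le_max_left _ _
  | succ n ih =>
    refine (card_step M hM (it M S n)).trans ?_
    exact max_le ih (le_max_right _ _)

end IClos

open IClos in
theorem prfClos : claimClos.{v} := by
  intro X M hM
  refine ⟨clo M, fun S => subset_iUnion (it M S) 0, ?_, ?_, ?_⟩
  · intro S F hF
    obtain ⟨n, hn⟩ := fin_sub M S F hF
    refine subset_trans ?_ (subset_iUnion (it M S) (n + 1))
    intro x hx
    exact Or.inr (mem_iUnion₂.2 ⟨F, hn, hx⟩)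
  · intro S T hST hT
    refine iUnion_subset fun n => ?_
    induction n with
    | zero => exact hST
    | succ n ih =>
      refine union_subset ih (iUnion₂_subset fun F hF => hT F ?_)
      exact Subset.trans hF ih
  · intro S
    have hκ : Cardinal.aleph0 ≤ max (Cardinal.mk S) Cardinal.aleph0 := le_max_right _ _
    have h1 := Cardinal.mk_iUnion_le_lift (fun n : ℕ => it M S n)
    simp only [Cardinal.lift_uzero, Cardinal.mk_nat, Cardinal.lift_aleph0] at h1
    refine h1.trans ?_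
    refine (mul_le_mul' le_rfl (ciSup_le' fun n => card_it M hM S n)).trans ?_
    rw [Cardinal.aleph0_mul_eq hκ]

end Pool.Agent.Work.MP_6c3bcd_an.Asp

end

section

set_option autoImplicit false

/-!
# FRAG: the dual unit ball of an Asplund space is fragmented by the norm
-/

universe u v w

namespace Pool.Agent.Work.MP_6c3bcd_an.Asp

open Set Topology Filter

namespace IFrag

variable {𝕜 : Type u} [RCLike 𝕜] {X : Type v} [NormedAddCommGroup X] [NormedSpace 𝕜 X]

/-- nodes of the tree -/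
structure Node (𝕜 : Type u) [RCLike 𝕜] (X : Type v) [NormedAddCommGroup X] [NormedSpace 𝕜 X]
    (K : Set (StrongDual 𝕜 X)) where
  f : StrongDual 𝕜 X
  F : Finset X
  δ : ℝ
  mem : f ∈ K
  pos : 0 < δ

theorem ev_add {a δ : ℝ} (h : a < δ) : ∀ᶠ d in 𝓝[>] (0 : ℝ), a + d ≤ δ := by
  filter_upwards [Ioo_mem_nhdsGT (show (0 : ℝ) < δ - a by linarith)] with d hd
  linarith [hd.2]

theorem child {K : Set (StrongDual 𝕜 X)} {ε : ℝ}
    (hK : ∀ f ∈ K, ∀ (F : Finset X) (δ : ℝ), 0 < δ →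
      ∃ g ∈ K, ∃ h ∈ K, g ∈ box F δ f ∧ h ∈ box F δ f ∧ ε < ‖g - h‖) (p : Node 𝕜 X K) :
    ∃ (c : Bool → Node 𝕜 X K) (x : X), ‖x‖ ≤ 1 ∧
      (∀ b, p.F ⊆ (c b).F) ∧ (∀ b, x ∈ (c b).F) ∧
      (∀ b, ∀ y ∈ p.F, ‖p.f y - (c b).f y‖ + (c b).δ ≤ p.δ) ∧
      ε + (c false).δ + (c true).δ ≤ ‖(c false).f x - (c true).f x‖ := by
  classical
  obtain ⟨g, hg, h, hh, hgb, hhb, hgh⟩ := hK p.f p.mem p.F p.δ p.pos
  obtain ⟨x, hx1, hx2⟩ := (g - h).exists_lt_apply_of_lt_opNorm hgh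
  have e1 : ∀ᶠ d in 𝓝[>] (0 : ℝ), ∀ y ∈ p.F, ‖p.f y - g y‖ + d ≤ p.δ := by
    rw [Filter.eventually_all_finset]
    exact fun y hy => ev_add (hgb y hy)
  have e2 : ∀ᶠ d in 𝓝[>] (0 : ℝ), ∀ y ∈ p.F, ‖p.f y - h y‖ + d ≤ p.δ := by
    rw [Filter.eventually_all_finset]
    exact fun y hy => ev_add (hhb y hy)
  have e3 : ∀ᶠ d in 𝓝[>] (0 : ℝ), 2 * d ≤ ‖(g - h) x‖ - ε := by
    filter_upwards [Ioo_mem_nhdsGT (show (0 : ℝ) < (‖(g - h) x‖ - ε) / 2 by linarith)] with d hd
    linarith [hd.2]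
  have e4 : ∀ᶠ d in 𝓝[>] (0 : ℝ), 0 < d := eventually_mem_nhdsWithin
  obtain ⟨d, h1, h2, h3, h4⟩ := (e1.and (e2.and (e3.and e4))).exists
  refine ⟨fun b => ⟨if b then h else g, insert x p.F, d, ?_, h4⟩, x, hx1.le, ?_, ?_, ?_, ?_⟩
  · split_ifs
    · exact hh
    · exact hg
  · intro b
    exact Finset.subset_insert _ _
  · intro b
    exact Finset.mem_insert_self _ _
  · intro b y hy
    cases b
    · simpa using h1 y hy
    · simpa using h2 y hy
  · simp only [Bool.false_eq_true, if_false, if_true]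
    rw [sub_apply] at h3
    linarith

section

variable {K : Set (StrongDual 𝕜 X)} (c : Node 𝕜 X K → Bool → Node 𝕜 X K) (root : Node 𝕜 X K)

/-- the node at a finite sequence -/
def node : List Bool → Node 𝕜 X K
  | [] => root
  | b :: l => c (node l) b

/-- the nodes on a branch -/
def path (σ : ℕ → Bool) : ℕ → Node 𝕜 X K
  | 0 => root
  | n + 1 => c (path σ n) (σ n)

theorem path_mem (σ : ℕ → Bool) (n : ℕ) : ∃ l, node c root l = path c root σ n := by
  induction n with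
  | zero => exact ⟨[], rfl⟩
  | succ n ih =>
    obtain ⟨l, hl⟩ := ih
    exact ⟨σ n :: l, by rw [node, hl, path]⟩

theorem path_congr (σ τ : ℕ → Bool) (n : ℕ) (h : ∀ m < n, σ m = τ m) :
    path c root σ n = path c root τ n := by
  induction n with
  | zero => rfl
  | succ n ih =>
    rw [path, path, ih fun m hm => h m (by omega), h n (by omega)]

variable {c root}

theorem path_mono (h1 : ∀ p b, p.F ⊆ (c p b).F)
    (h2 : ∀ p b, ∀ y ∈ p.F, ‖p.f y - (c p b).f y‖ + (c p b).δ ≤ p.δ) (σ : ℕ → Bool) (n k : ℕ) :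
    (path c root σ n).F ⊆ (path c root σ (n + k)).F ∧
      ∀ y ∈ (path c root σ n).F, ‖(path c root σ n).f y - (path c root σ (n + k)).f y‖ +
        (path c root σ (n + k)).δ ≤ (path c root σ n).δ := by
  induction k with
  | zero =>
    refine ⟨Finset.Subset.refl _, fun y _ => ?_⟩
    simp
  | succ k ih =>
    obtain ⟨i1, i2⟩ := ih
    have e : path c root σ (n + (k + 1)) = c (path c root σ (n + k)) (σ (n + k)) := rfl
    rw [e]
    refine ⟨i1.trans (h1 _ _), fun y hy => ?_⟩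
    have a1 := i2 y hy
    have a2 := h2 (path c root σ (n + k)) (σ (n + k)) y (i1 hy)
    have a3 := norm_sub_le_norm_sub_add_norm_sub ((path c root σ n).f y)
      ((path c root σ (n + k)).f y) ((c (path c root σ (n + k)) (σ (n + k))).f y)
    linarith

end

/-- the limit along a branch -/
theorem limit {K : Set (StrongDual 𝕜 X)} (hK : ∀ f ∈ K, ‖f‖ ≤ 1) (P : ℕ → Node 𝕜 X K)
    (hP : ∀ n k, (P n).F ⊆ (P (n + k)).F ∧
      ∀ y ∈ (P n).F, ‖(P n).f y - (P (n + k)).f y‖ + (P (n + k)).δ ≤ (P n).δ) :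
    ∃ f : StrongDual 𝕜 X, ‖f‖ ≤ 1 ∧ ∀ n, ∀ y ∈ (P n).F, ‖(P n).f y - f y‖ ≤ (P n).δ := by
  set B : Set (WeakDual 𝕜 X) := WeakDual.toStrongDual ⁻¹'
    Metric.closedBall (0 : StrongDual 𝕜 X) 1 with hB
  have hBc : IsCompact B := WeakDual.isCompact_closedBall (0 : StrongDual 𝕜 X) 1
  set C : ℕ → Set (WeakDual 𝕜 X) := fun n => B ∩ {f | ∀ y ∈ (P n).F, ‖(P n).f y - f y‖ ≤ (P n).δ}
    with hC
  have hcl : ∀ n, IsClosed {f : WeakDual 𝕜 X | ∀ y ∈ (P n).F, ‖(P n).f y - f y‖ ≤ (P n).δ} := by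
    intro n
    have : {f : WeakDual 𝕜 X | ∀ y ∈ (P n).F, ‖(P n).f y - f y‖ ≤ (P n).δ} =
        ⋂ y ∈ (P n).F, {f : WeakDual 𝕜 X | ‖(P n).f y - f y‖ ≤ (P n).δ} := by
      ext f
      simp
    rw [this]
    refine isClosed_biInter fun y _ => ?_
    refine isClosed_le ?_ continuous_const
    exact (continuous_const.sub (WeakDual.eval_continuous y)).norm
  have hBcl : IsClosed B := hBc.isClosed
  have hne : ∀ n, (C n).Nonempty := by
    intro n
    refine ⟨StrongDual.toWeakDual (P n).f, ?_, ?_⟩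
    · rw [hB]
      simp only [mem_preimage, Metric.mem_closedBall, dist_zero_right]
      exact hK _ (P n).mem
    · intro y hy
      have := (hP n 0).2 y hy
      simp only [add_zero] at this
      have h0 := (P n).pos
      change ‖(P n).f y - (P n).f y‖ ≤ (P n).δ
      rw [sub_self, norm_zero]
      exact h0.le
  have hmono : ∀ n, C (n + 1) ⊆ C n := by
    intro n f hf
    refine ⟨hf.1, fun y hy => ?_⟩
    obtain ⟨a1, a2⟩ := hP n 1
    have b1 := a2 y hy
    have b2 := hf.2 y (a1 hy)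
    have b3 := norm_sub_le_norm_sub_add_norm_sub ((P n).f y) ((P (n + 1)).f y) (f y)
    linarith
  obtain ⟨f, hf⟩ := IsCompact.nonempty_iInter_of_sequence_nonempty_isCompact_isClosed C hmono hne
    (hBc.inter_right (hcl 0)) (fun n => hBcl.inter (hcl n))
  rw [mem_iInter] at hf
  refine ⟨WeakDual.toStrongDual f, ?_, ?_⟩
  · have := (hf 0).1
    rw [hB] at this
    simpa only [mem_preimage, Metric.mem_closedBall, dist_zero_right] using this
  · intro n y hy
    exact (hf n).2 y hy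

end IFrag

open IFrag in
theorem prfFrag : claimFrag.{u, v} := by
  intro 𝕜 _ X _ _ hA K hKb hKne ε hε
  by_contra hcon
  push Not at hcon
  have hK' : ∀ f ∈ K, ∀ (F : Finset X) (δ : ℝ), 0 < δ →
      ∃ g ∈ K, ∃ h ∈ K, g ∈ box F δ f ∧ h ∈ box F δ f ∧ ε < ‖g - h‖ := by
    intro f hf F δ hδ
    obtain ⟨g, hg, h, hh, h1, h2, h3⟩ := hcon f hf F δ hδ
    exact ⟨g, hg, h, hh, h1, h2, h3⟩
  choose c x hx hF hxF hfδ hsep using fun p : Node 𝕜 X K => child hK' p
  obtain ⟨f0, hf0⟩ := hKne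
  set root : Node 𝕜 X K := ⟨f0, ∅, 1, hf0, one_pos⟩
  have hlim : ∀ σ : ℕ → Bool, ∃ f : StrongDual 𝕜 X, ‖f‖ ≤ 1 ∧ ∀ n, ∀ y ∈ (path c root σ n).F,
      ‖(path c root σ n).f y - f y‖ ≤ (path c root σ n).δ := fun σ =>
    limit hKb _ (path_mono hF hfδ σ)
  choose φ hφ1 hφ2 using hlim
  set E : Submodule 𝕜 X := Submodule.span 𝕜 (Set.range fun l : List Bool => x (node c root l))
    with hE
  have hEsep : TopologicalSpace.IsSeparable (E : Set X) := by
    apply TopologicalSpace.IsSeparable.span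
    exact (Set.countable_range _).isSeparable
  have := hA E hEsep
  -- separation
  have hsepφ : ∀ σ τ : ℕ → Bool, σ ≠ τ →
      ε ≤ ‖(φ σ).comp E.subtypeL - (φ τ).comp E.subtypeL‖ := by
    intro σ τ hne
    obtain ⟨k, hk⟩ := Function.ne_iff.mp hne
    classical
    have hex : ∃ k, σ k ≠ τ k := ⟨k, hk⟩
    set n := Nat.find hex with hn
    have hn1 : σ n ≠ τ n := Nat.find_spec hex
    have hn2 : ∀ m < n, σ m = τ m := fun m hm => not_not.mp (Nat.find_min hex hm)
    have hp := path_congr c root σ τ n hn2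
    set p := path c root σ n with hpd
    have hxE : x p ∈ E := by
      obtain ⟨l, hl⟩ := path_mem c root σ n
      rw [hE]
      apply Submodule.subset_span
      exact ⟨l, by simp only [hl, hpd]⟩
    have a1 : ‖(c p (σ n)).f (x p) - φ σ (x p)‖ ≤ (c p (σ n)).δ := by
      have := hφ2 σ (n + 1) (x p)
      exact this (hxF p (σ n))
    have a2 : ‖(c p (τ n)).f (x p) - φ τ (x p)‖ ≤ (c p (τ n)).δ := by
      have := hφ2 τ (n + 1) (x p)
      have e : path c root τ (n + 1) = c p (τ n) := by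
        rw [path, ← hp]
      rw [e] at this
      exact this (hxF p (τ n))
    have a3 := hsep p
    have a4 : ε ≤ ‖φ σ (x p) - φ τ (x p)‖ := by
      have key : ∀ s t : 𝕜, ‖(c p false).f (x p) - s‖ ≤ (c p false).δ →
          ‖(c p true).f (x p) - t‖ ≤ (c p true).δ → ε ≤ ‖s - t‖ := by
        intro s t h1 h2
        have h3 := norm_sub_le_norm_sub_add_norm_sub ((c p false).f (x p)) s ((c p true).f (x p))
        have h4 := norm_sub_le_norm_sub_add_norm_sub s t ((c p true).f (x p))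
        rw [norm_sub_rev t] at h4
        linarith
      rcases hσ : σ n with _ | _ <;> rcases hτ : τ n with _ | _
      · exact absurd (hσ.trans hτ.symm) hn1
      · rw [hσ] at a1
        rw [hτ] at a2
        exact key _ _ a1 a2
      · rw [hσ] at a1
        rw [hτ] at a2
        rw [norm_sub_rev]
        exact key _ _ a2 a1
      · exact absurd (hσ.trans hτ.symm) hn1
    refine a4.trans ?_
    have h5 := ((φ σ).comp E.subtypeL - (φ τ).comp E.subtypeL).le_opNorm ⟨x p, hxE⟩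
    have h6 : ((φ σ).comp E.subtypeL - (φ τ).comp E.subtypeL) ⟨x p, hxE⟩ =
        φ σ (x p) - φ τ (x p) := rfl
    rw [h6] at h5
    refine h5.trans ?_
    have h7 : ‖(⟨x p, hxE⟩ : E)‖ ≤ 1 := hx p
    calc _ ≤ ‖(φ σ).comp E.subtypeL - (φ τ).comp E.subtypeL‖ * 1 := by gcongr
      _ = _ := mul_one _
  -- counting
  have hd := Metric.denseRange_iff.mp (TopologicalSpace.denseRange_denseSeq (StrongDual 𝕜 E))
  choose N hN using fun σ : ℕ → Bool => hd ((φ σ).comp E.subtypeL) (ε / 2) (by positivity)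
  have hinj : Function.Injective N := by
    intro σ τ hστ
    by_contra hne
    have h1 := hsepφ σ τ hne
    have h2 := hN σ
    have h3 := hN τ
    rw [← hστ] at h3
    rw [← dist_eq_norm] at h1
    have h4 := dist_triangle_right ((φ σ).comp E.subtypeL) ((φ τ).comp E.subtypeL)
      (TopologicalSpace.denseSeq (StrongDual 𝕜 E) (N σ))
    linarith
  classical
  apply Function.cantor_injective (fun S : Set ℕ => N (fun k => decide (k ∈ S)))
  intro S T hST
  have h1 := hinj hST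
  ext k
  have h2 := congrFun h1 k
  simpa using h2

end Pool.Agent.Work.MP_6c3bcd_an.Asp

end

section

set_option autoImplicit false

/-!
# GEN: the generator, from the derivation of the dual unit ball
-/

universe u v w

namespace Pool.Agent.Work.MP_6c3bcd_an.Asp

open Set Topology Filter

namespace IGen

section Abstract

variable {Z : Type w} [TopologicalSpace Z]

/-- the derived set -/
def der (d : Z → Z → ℝ) (ε : ℝ) (A : Set Z) : Set Z :=
  {f | f ∈ A ∧ ∀ U : Set Z, IsOpen U → f ∈ U → ∃ g ∈ A ∩ U, ∃ h ∈ A ∩ U, ε < d g h}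

theorem der_subset (d : Z → Z → ℝ) (ε : ℝ) (A : Set Z) : der d ε A ⊆ A := fun _ h => h.1

theorem der_closed (d : Z → Z → ℝ) (ε : ℝ) {A : Set Z} (hA : IsClosed A) :
    IsClosed (der d ε A) := by
  have h1 : der d ε A = A ∩ (⋃₀ {U : Set Z | IsOpen U ∧ ∀ g ∈ A ∩ U, ∀ h ∈ A ∩ U, d g h ≤ ε})ᶜ := by
    ext f
    simp only [der, mem_ofPred_eq, mem_inter_iff, mem_compl_iff, mem_sUnion, not_exists, not_and]
    constructor
    · rintro ⟨h1, h2⟩
      refine ⟨h1, ?_⟩
      rintro U ⟨hU1, hU2⟩ hfU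
      obtain ⟨g, hg, h, hh, hlt⟩ := h2 U hU1 hfU
      have := hU2 g hg h hh
      linarith
    · rintro ⟨h1, h2⟩
      refine ⟨h1, fun U hU hfU => ?_⟩
      by_contra hcon
      push Not at hcon
      exact h2 U ⟨hU, fun g hg h hh => hcon g hg h hh⟩ hfU
  rw [h1]
  refine hA.inter (IsOpen.isClosed_compl ?_)
  exact isOpen_sUnion fun U hU => hU.1

/-- the transfinite sequence of derived sets -/
noncomputable def Fo (B : Set Z) (D : Set Z → Set Z) : Ordinal.{w} → Set Z :=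
  WellFounded.fix (r := fun a b : Ordinal.{w} => a < b) Ordinal.lt_wf
    fun a ih => B ∩ ⋂ b : {b : Ordinal.{w} // b < a}, D (ih b.1 b.2)

omit [TopologicalSpace Z] in
theorem Fo_eq (B : Set Z) (D : Set Z → Set Z) (a : Ordinal.{w}) :
    Fo B D a = B ∩ ⋂ b : {b : Ordinal.{w} // b < a}, D (Fo B D b.1) := by
  unfold Fo
  rw [WellFounded.fix_eq]

variable {B : Set Z} {D : Set Z → Set Z}

omit [TopologicalSpace Z] in
theorem Fo_subset (a : Ordinal.{w}) : Fo B D a ⊆ B := by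
  rw [Fo_eq]
  exact inter_subset_left

omit [TopologicalSpace Z] in
theorem Fo_lt {a b : Ordinal.{w}} (h : b < a) : Fo B D a ⊆ D (Fo B D b) := by
  rw [Fo_eq]
  exact inter_subset_right.trans (iInter_subset _ (⟨b, h⟩ : {b : Ordinal.{w} // b < a}))

theorem Fo_closed (hB : IsClosed B) (hD : ∀ A, IsClosed A → IsClosed (D A)) (a : Ordinal.{w}) :
    IsClosed (Fo B D a) := by
  induction a using WellFoundedLT.induction with
  | ind a ih =>
    rw [Fo_eq]
    exact hB.inter (isClosed_iInter fun b => hD _ (ih b.1 b.2))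

omit [TopologicalSpace Z] in
theorem Fo_empty (hD0 : ∀ A, D A ⊆ A) (hDne : ∀ A, A ⊆ B → A.Nonempty → D A ≠ A) :
    ∃ a : Ordinal.{w}, Fo B D a = ∅ := by
  by_contra hcon
  push Not at hcon
  apply not_injective_of_ordinal (Fo B D)
  intro a b hab
  by_contra hne
  wlog hlt : b < a generalizing a b with H
  · exact H hab.symm (Ne.symm hne) (lt_of_le_of_ne (not_lt.mp hlt) hne)
  have h1 : Fo B D a ⊆ D (Fo B D b) := Fo_lt hlt
  rw [hab] at h1
  exact hDne (Fo B D b) (Fo_subset b) (hcon b) (Subset.antisymm (hD0 _) h1)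

/-- the index of a closed set -/
theorem index [T2Space Z] (hB : IsCompact B) (hD : ∀ A, IsClosed A → IsClosed (D A))
    (hD0 : ∀ A, D A ⊆ A) (hDne : ∀ A, A ⊆ B → A.Nonempty → D A ≠ A)
    {V : Set Z} (hV : IsClosed V) (hVB : (B ∩ V).Nonempty) :
    ∃ b : Ordinal.{w}, (Fo B D b ∩ V).Nonempty ∧ D (Fo B D b) ∩ V = ∅ := by
  obtain ⟨a0, ha0⟩ := Fo_empty hD0 hDne (B := B)
  have hex : ∃ a : Ordinal.{w}, Fo B D a ∩ V = ∅ := ⟨a0, by rw [ha0, empty_inter]⟩
  obtain ⟨a, ha, hmin⟩ := WellFounded.has_min (Ordinal.lt_wf.{w}) {a | Fo B D a ∩ V = ∅} hex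
  rw [mem_ofPred_eq] at ha
  by_cases hcase : ∃ b < a, D (Fo B D b) ∩ V = ∅
  · obtain ⟨b, hb, hb2⟩ := hcase
    refine ⟨b, ?_, hb2⟩
    rw [nonempty_iff_ne_empty]
    intro h
    exact hmin b h hb
  · exfalso
    push Not at hcase
    have hBc := hB.isClosed
    rcases isEmpty_or_nonempty {b : Ordinal.{w} // b < a} with hE | hE
    · rw [Fo_eq, iInter_of_empty, inter_univ] at ha
      exact hVB.ne_empty ha
    · have hcl : ∀ b : Ordinal.{w}, IsClosed (D (Fo B D b)) := fun b => hD _ (Fo_closed hBc hD b)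
      have hne : (⋂ b : {b : Ordinal.{w} // b < a}, (D (Fo B D b.1) ∩ V)).Nonempty := by
        apply IsCompact.nonempty_iInter_of_directed_nonempty_isCompact_isClosed
        · intro b c
          rcases le_total b.1 c.1 with h | h
          · refine ⟨c, ?_, Subset.refl _⟩
            rcases eq_or_lt_of_le h with h | h
            · have : b = c := Subtype.ext h
              subst this
              exact Subset.refl _
            · exact inter_subset_inter_left _ ((hD0 _).trans (Fo_lt h))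
          · refine ⟨b, Subset.refl _, ?_⟩
            rcases eq_or_lt_of_le h with h | h
            · have : c = b := Subtype.ext h
              subst this
              exact Subset.refl _
            · exact inter_subset_inter_left _ ((hD0 _).trans (Fo_lt h))
        · intro b
          exact hcase b.1 b.2
        · intro b
          apply hB.of_isClosed_subset ((hcl b.1).inter hV)
          exact inter_subset_left.trans ((hD0 _).trans (Fo_subset _))
        · intro b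
          exact (hcl b.1).inter hV
      obtain ⟨z, hz⟩ := hne
      rw [mem_iInter] at hz
      have : z ∈ Fo B D a ∩ V := by
        obtain ⟨b⟩ := hE
        refine ⟨?_, (hz b).2⟩
        rw [Fo_eq]
        refine ⟨Fo_subset b.1 (hD0 _ (hz b).1), ?_⟩
        rw [mem_iInter]
        exact fun c => (hz c).1
      rw [ha] at this
      exact this

omit [TopologicalSpace Z] in
/-- uniqueness of the index -/
theorem index_unique {V : Set Z} {b c : Ordinal.{w}}
    (hb : (Fo B D b ∩ V).Nonempty) (hb' : D (Fo B D b) ∩ V = ∅)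
    (hc : (Fo B D c ∩ V).Nonempty) (hc' : D (Fo B D c) ∩ V = ∅) : b = c := by
  have key : ∀ {b c : Ordinal.{w}}, (Fo B D c ∩ V).Nonempty → D (Fo B D b) ∩ V = ∅ →
      ¬ b < c := by
    intro b c h1 h2 h3
    obtain ⟨z, hz⟩ := h1
    have : z ∈ D (Fo B D b) ∩ V := ⟨Fo_lt h3 hz.1, hz.2⟩
    rw [h2] at this
    exact this
  exact le_antisymm (not_lt.mp (key hb hc')) (not_lt.mp (key hc hb'))

theorem abstract_gen [T2Space Z] (hB : IsCompact B) (d : Z → Z → ℝ) (ε : ℝ)
    (hfrag : ∀ A, A ⊆ B → A.Nonempty → ∃ f ∈ A, ∃ U, IsOpen U ∧ f ∈ U ∧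
      ∀ g ∈ A ∩ U, ∀ h ∈ A ∩ U, d g h ≤ ε) :
    ∃ R : Set Z → Set Z, (∀ V, (R V).Finite) ∧ ∀ K, IsClosed K → (B ∩ K).Nonempty →
      ∃ U, IsOpen U ∧ B ∩ K ⊆ U ∧ ∀ V, IsClosed V → K ⊆ V → B ∩ V ⊆ U →
        ∃ g ∈ R V, ∃ k ∈ K, d g k ≤ ε := by
  set D := der (Z := Z) d ε with hDdef
  have hD : ∀ A, IsClosed A → IsClosed (D A) := fun A hA => der_closed d ε hA
  have hD0 : ∀ A, D A ⊆ A := fun A => der_subset d ε A
  have hDne : ∀ A, A ⊆ B → A.Nonempty → D A ≠ A := by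
    intro A hAB hA hEq
    obtain ⟨f, hf, U, hU, hfU, hU2⟩ := hfrag A hAB hA
    rw [← hEq] at hf
    obtain ⟨g, hg, h, hh, hlt⟩ := hf.2 U hU hfU
    have := hU2 g hg h hh
    linarith
  have hBc := hB.isClosed
  have hex : ∀ V : Set Z, ∃ R : Set Z, R.Finite ∧ (IsClosed V → (B ∩ V).Nonempty →
      ∃ b : Ordinal.{w}, (Fo B D b ∩ V).Nonempty ∧ D (Fo B D b) ∩ V = ∅ ∧
        ∀ f ∈ Fo B D b ∩ V, ∃ g ∈ R, d g f ≤ ε) := by
    intro V
    by_cases hV : IsClosed V ∧ (B ∩ V).Nonempty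
    · obtain ⟨b, hb1, hb2⟩ := index hB hD hD0 hDne hV.1 hV.2
      have hcpt : IsCompact (Fo B D b ∩ V) :=
        hB.of_isClosed_subset ((Fo_closed hBc hD b).inter hV.1)
          (inter_subset_left.trans (Fo_subset b))
      have hU : ∀ f ∈ Fo B D b ∩ V, ∃ U : Set Z, IsOpen U ∧ f ∈ U ∧
          ∀ g ∈ Fo B D b ∩ U, ∀ h ∈ Fo B D b ∩ U, d g h ≤ ε := by
        intro f hf
        by_contra hcon
        push Not at hcon
        have : f ∈ D (Fo B D b) ∩ V := by
          refine ⟨⟨hf.1, fun U hU hfU => ?_⟩, hf.2⟩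
          obtain ⟨g, hg, h, hh, hlt⟩ := hcon U hU hfU
          exact ⟨g, hg, h, hh, hlt⟩
        rw [hb2] at this
        exact this
      choose! U hU1 hU2 hU3 using hU
      obtain ⟨t, ht1, ht2⟩ := hcpt.elim_nhds_subcover U
        (fun f hf => (hU1 f hf).mem_nhds (hU2 f hf))
      refine ⟨(t : Set Z), t.finite_toSet, fun _ _ => ⟨b, hb1, hb2, ?_⟩⟩
      intro f hf
      have h1 := ht2 hf
      rw [mem_iUnion₂] at h1
      obtain ⟨g, hg, hfg⟩ := h1
      have hgV := ht1 g hg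
      exact ⟨g, hg, hU3 g hgV g ⟨hgV.1, hU2 g hgV⟩ f ⟨hf.1, hfg⟩⟩
    · refine ⟨∅, finite_empty, fun h1 h2 => absurd ⟨h1, h2⟩ hV⟩
  choose R hR1 hR2 using hex
  refine ⟨R, hR1, fun K hK hKB => ?_⟩
  obtain ⟨b, hb1, hb2⟩ := index hB hD hD0 hDne hK hKB
  refine ⟨(D (Fo B D b))ᶜ, (hD _ (Fo_closed hBc hD b)).isOpen_compl, ?_, ?_⟩
  · intro z hz hzD
    have : z ∈ D (Fo B D b) ∩ K := ⟨hzD, hz.2⟩
    rw [hb2] at this
    exact this
  · intro V hV hKV hVU
    have hVB : (B ∩ V).Nonempty := hKB.mono (inter_subset_inter_right _ hKV)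
    obtain ⟨c, hc1, hc2, hc3⟩ := hR2 V hV hVB
    have hb1' : (Fo B D b ∩ V).Nonempty := hb1.mono (inter_subset_inter_right _ hKV)
    have hb2' : D (Fo B D b) ∩ V = ∅ := by
      rw [eq_empty_iff_forall_notMem]
      rintro z ⟨hz1, hz2⟩
      exact hVU ⟨Fo_subset b (hD0 _ hz1), hz2⟩ hz1
    have hbc := index_unique hb1' hb2' hc1 hc2
    subst hbc
    obtain ⟨k, hk⟩ := hb1
    obtain ⟨g, hg, hgk⟩ := hc3 k ⟨hk.1, hKV hk.2⟩
    exact ⟨g, hg, k, hk.2, hgk⟩

end Abstract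

end IGen

open IGen in
theorem prfGen : claimGen.{u, v} := by
  intro 𝕜 _ X _ _ hfrag
  classical
  set B : Set (WeakDual 𝕜 X) := WeakDual.toStrongDual ⁻¹'
    Metric.closedBall (0 : StrongDual 𝕜 X) 1 with hB
  have hBc : IsCompact B := WeakDual.isCompact_closedBall (0 : StrongDual 𝕜 X) 1
  have hBmem : ∀ f : WeakDual 𝕜 X, f ∈ B ↔ ‖WeakDual.toStrongDual f‖ ≤ 1 := by
    intro f
    rw [hB, mem_preimage, Metric.mem_closedBall, dist_zero_right]
  set d : WeakDual 𝕜 X → WeakDual 𝕜 X → ℝ := fun g h =>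
    ‖WeakDual.toStrongDual g - WeakDual.toStrongDual h‖ with hd
  have hmain : ∀ m : ℕ, ∃ R : Set (WeakDual 𝕜 X) → Set (WeakDual 𝕜 X), (∀ V, (R V).Finite) ∧
      ∀ K, IsClosed K → (B ∩ K).Nonempty →
      ∃ U, IsOpen U ∧ B ∩ K ⊆ U ∧ ∀ V, IsClosed V → K ⊆ V → B ∩ V ⊆ U →
        ∃ g ∈ R V, ∃ k ∈ K, d g k ≤ 1 / ((m : ℝ) + 1) := by
    intro m
    apply abstract_gen hBc
    intro A hAB hA
    have hK1 : ∀ f ∈ (WeakDual.toStrongDual '' A), ‖f‖ ≤ 1 := by
      rintro _ ⟨f, hf, rfl⟩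
      exact (hBmem f).mp (hAB hf)
    obtain ⟨_, ⟨f, hf, rfl⟩, F, δ, hδ, hbox⟩ := hfrag (WeakDual.toStrongDual '' A) hK1
      (hA.image _) (1 / ((m : ℝ) + 1)) (by positivity)
    refine ⟨f, hf, {g | ∀ x ∈ F, ‖f x - g x‖ < δ}, ?_, ?_, ?_⟩
    · have : {g : WeakDual 𝕜 X | ∀ x ∈ F, ‖f x - g x‖ < δ} =
          ⋂ x ∈ F, {g : WeakDual 𝕜 X | ‖f x - g x‖ < δ} := by
        ext g
        simp
      rw [this]
      refine isOpen_biInter_finset fun x _ => ?_
      exact isOpen_lt (continuous_const.sub (WeakDual.eval_continuous x)).norm continuous_const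
    · intro x _
      rw [sub_self, norm_zero]
      exact hδ
    · intro g hg h hh
      exact hbox _ ⟨g, hg.1, rfl⟩ _ ⟨h, hh.1, rfl⟩ hg.2 hh.2
  choose R hRfin hR using hmain
  set V : (F : Finset X) → (F → ℕ) → ℕ → Set (WeakDual 𝕜 X) := fun F φ n =>
    {f | ∀ x : F, ‖f x - TopologicalSpace.denseSeq 𝕜 (φ x)‖ ≤ 1 / ((n : ℝ) + 1)} with hVdef
  refine ⟨fun F => ⋃ m : ℕ, ⋃ φ : F → ℕ, ⋃ n : ℕ, WeakDual.toStrongDual '' (R m (V F φ n)),
    ?_, ?_⟩
  · intro F
    refine countable_iUnion fun m => countable_iUnion fun φ => countable_iUnion fun n => ?_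
    exact ((hRfin m _).image _).countable
  · intro S h hh ε hε
    obtain ⟨m, hm⟩ := exists_nat_one_div_lt hε
    set K : Set (WeakDual 𝕜 X) := {f | ∀ x ∈ S, f x = h x} with hK
    have hKcl : IsClosed K := by
      have : K = ⋂ x ∈ S, {f : WeakDual 𝕜 X | f x = h x} := by
        ext f
        simp [hK]
      rw [this]
      exact isClosed_biInter fun x _ => isClosed_eq (WeakDual.eval_continuous x) continuous_const
    have hhB : StrongDual.toWeakDual h ∈ B := (hBmem _).mpr hh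
    have hKne : (B ∩ K).Nonempty := ⟨StrongDual.toWeakDual h, hhB, fun x _ => rfl⟩
    obtain ⟨U, hU, hKU, hUV⟩ := hR m K hKcl hKne
    -- the directed family
    set W : {F : Finset X // (F : Set X) ⊆ S} × ℕ → Set (WeakDual 𝕜 X) := fun p =>
      B ∩ {f | ∀ x ∈ p.1.1, ‖f x - h x‖ ≤ 2 / ((p.2 : ℝ) + 1)} with hW
    have hcl : ∀ p : {F : Finset X // (F : Set X) ⊆ S} × ℕ,
        IsClosed {f : WeakDual 𝕜 X | ∀ x ∈ p.1.1, ‖f x - h x‖ ≤ 2 / ((p.2 : ℝ) + 1)} := by
      intro p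
      have : {f : WeakDual 𝕜 X | ∀ x ∈ p.1.1, ‖f x - h x‖ ≤ 2 / ((p.2 : ℝ) + 1)} =
          ⋂ x ∈ p.1.1, {f : WeakDual 𝕜 X | ‖f x - h x‖ ≤ 2 / ((p.2 : ℝ) + 1)} := by
        ext f
        simp
      rw [this]
      refine isClosed_biInter fun x _ => ?_
      exact isClosed_le ((WeakDual.eval_continuous x).sub continuous_const).norm continuous_const
    have hdir : Directed (· ⊇ ·) W := by
      rintro ⟨⟨F, hF⟩, n⟩ ⟨⟨F', hF'⟩, n'⟩
      refine ⟨⟨⟨F ∪ F', by
        rw [Finset.coe_union]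
        exact union_subset hF hF'⟩, max n n'⟩, ?_, ?_⟩
      · rintro f ⟨hf1, hf2⟩
        refine ⟨hf1, fun x hx => (hf2 x (Finset.mem_union_left _ hx)).trans ?_⟩
        have : (n : ℝ) ≤ (max n n' : ℕ) := by exact_mod_cast le_max_left n n'
        gcongr
      · rintro f ⟨hf1, hf2⟩
        refine ⟨hf1, fun x hx => (hf2 x (Finset.mem_union_right _ hx)).trans ?_⟩
        have : (n' : ℝ) ≤ (max n n' : ℕ) := by exact_mod_cast le_max_right n n'
        gcongr
    have hne : Nonempty ({F : Finset X // (F : Set X) ⊆ S} × ℕ) := ⟨⟨⟨∅, by simp⟩, 0⟩⟩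
    obtain ⟨⟨⟨F, hF⟩, n⟩, hFn⟩ := exists_subset_nhds_of_isCompact hdir
      (fun p => hBc.inter_right (hcl p)) (U := U) (by
        intro f hf
        rw [mem_iInter] at hf
        apply hU.mem_nhds
        apply hKU
        refine ⟨(hf ⟨⟨∅, by simp⟩, 0⟩).1, fun x hx => ?_⟩
        have h1 : ∀ n : ℕ, ‖f x - h x‖ ≤ 2 / ((n : ℝ) + 1) := fun n =>
          (hf ⟨⟨{x}, by simpa using hx⟩, n⟩).2 x (Finset.mem_singleton_self x)
        have h2 : ‖f x - h x‖ ≤ 0 := by
          have h3 : Tendsto (fun n : ℕ => 2 / ((n : ℝ) + 1)) atTop (𝓝 0) := by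
            have := (tendsto_one_div_add_atTop_nhds_zero_nat (𝕜 := ℝ)).const_mul 2
            rw [mul_zero] at this
            refine this.congr fun n => ?_
            ring
          exact ge_of_tendsto' h3 h1
        exact sub_eq_zero.mp (norm_le_zero_iff.mp h2))
    -- the approximation
    have hdense := Metric.denseRange_iff.mp (TopologicalSpace.denseRange_denseSeq 𝕜)
    choose φ hφ using fun x : F => hdense (h x) (1 / ((n : ℝ) + 1)) (by positivity)
    have hVcl : IsClosed (V F φ n) := by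
      have : V F φ n = ⋂ x : F, {f : WeakDual 𝕜 X |
          ‖f x - TopologicalSpace.denseSeq 𝕜 (φ x)‖ ≤ 1 / ((n : ℝ) + 1)} := by
        ext f
        simp [hVdef]
      rw [this]
      refine isClosed_iInter fun x => ?_
      exact isClosed_le ((WeakDual.eval_continuous _).sub continuous_const).norm continuous_const
    have hKV : K ⊆ V F φ n := by
      intro f hf x
      have h1 := hφ x
      rw [dist_eq_norm] at h1
      have h2 : f x = h x := hf x (hF x.2)
      rw [h2]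
      exact h1.le
    have hVU : B ∩ V F φ n ⊆ U := by
      refine Subset.trans ?_ hFn
      rintro f ⟨hf1, hf2⟩
      refine ⟨hf1, fun x hx => ?_⟩
      have h1 := hf2 ⟨x, hx⟩
      have h2 := hφ ⟨x, hx⟩
      rw [dist_comm, dist_eq_norm] at h2
      have h3 := norm_sub_le_norm_sub_add_norm_sub (f x)
        (TopologicalSpace.denseSeq 𝕜 (φ ⟨x, hx⟩)) (h x)
      have h4 : (2 : ℝ) / ((n : ℝ) + 1) = 1 / ((n : ℝ) + 1) + 1 / ((n : ℝ) + 1) := by ring
      simp only at h1 h2 ⊢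
      linarith
    obtain ⟨g, hg, k, hk, hgk⟩ := hUV (V F φ n) hVcl hKV hVU
    refine ⟨F, hF, WeakDual.toStrongDual g, ?_, WeakDual.toStrongDual k, fun x hx => hk x hx, ?_⟩
    · rw [mem_iUnion]
      refine ⟨m, ?_⟩
      rw [mem_iUnion]
      refine ⟨φ, ?_⟩
      rw [mem_iUnion]
      exact ⟨n, g, hg, rfl⟩
    · exact hgk.trans hm.le

end Pool.Agent.Work.MP_6c3bcd_an.Asp

end

section

/-!
# IND: a system of projections gives a system of supports
-/

universe u v w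

namespace Pool.Agent.Work.MP_6c3bcd_an.Asp

open Set Topology

namespace IInd

variable {𝕜 : Type u} [RCLike 𝕜] {X : Type v} {E : Type w} [NormedAddCommGroup E]
  [NormedSpace 𝕜 E]

lemma sys_countable {M : Finset X → Set X} {Q : Set X → E →L[𝕜] E} (P : ProjFam M Q)
    {S : Set X} (hS : Cl M S) (hc : S.Countable) :
    ∃ 𝓘 : Set (Submodule 𝕜 E × Set E), Sys (Set.range (Q S)) 𝓘 := by
  obtain ⟨c, hc1, hc2⟩ := P.sep S hS hc
  refine ⟨{(⊥, c)}, ?_, ?_⟩
  · intro p hp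
    rw [Set.mem_singleton_iff] at hp
    subst hp
    refine ⟨?_, hc1⟩
    rw [Submodule.bot_coe]
    exact isClosed_singleton
  · intro z hz
    refine ⟨(Set.countable_singleton _).mono (fun p hp => hp.1), ?_⟩
    by_cases h0 : z = 0
    · rw [h0]
      exact subset_closure (Submodule.zero_mem _)
    · refine closure_mono ?_ (hc2 hz)
      refine Set.Subset.trans ?_ Submodule.subset_span
      intro y hy
      rw [Set.mem_iUnion₂]
      refine ⟨(⊥, c), ⟨Set.mem_singleton _, ?_⟩, hy⟩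
      intro hmem
      exact h0 ((Submodule.mem_bot 𝕜).mp hmem)

/-- the pulled back system -/
def pullS (J : E →L[𝕜] E) (𝓘 : Set (Submodule 𝕜 E × Set E)) : Set (Submodule 𝕜 E × Set E) :=
  (fun q : Submodule 𝕜 E × Set E => (q.1.comap (J : E →ₗ[𝕜] E), q.2)) '' 𝓘

lemma pullS_closed (J : E →L[𝕜] E) {V : Set E} {𝓘 : Set (Submodule 𝕜 E × Set E)} (h : Sys V 𝓘) :
    ∀ p ∈ pullS J 𝓘, IsClosed (p.1 : Set E) ∧ p.2.Countable := by
  rintro p ⟨q, hq, rfl⟩
  obtain ⟨h1, h2⟩ := h.1 q hq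
  refine ⟨?_, h2⟩
  exact h1.preimage J.continuous

lemma pullS_countable (J : E →L[𝕜] E) {V : Set E} {𝓘 : Set (Submodule 𝕜 E × Set E)}
    (h : Sys V 𝓘) (z : E) (hz : J z ∈ V) :
    {p | p ∈ pullS J 𝓘 ∧ z ∉ p.1}.Countable := by
  refine ((h.2 (J z) hz).1.image
    (fun q : Submodule 𝕜 E × Set E => (q.1.comap (J : E →ₗ[𝕜] E), q.2))).mono ?_
  rintro p ⟨⟨q, hq, rfl⟩, hp⟩
  exact ⟨q, ⟨hq, hp⟩, rfl⟩

lemma pullS_span (J : E →L[𝕜] E) {V : Set E} {𝓘 : Set (Submodule 𝕜 E × Set E)}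
    (h : Sys V 𝓘) (z : E) (hz : J z ∈ V) (𝓚 : Set (Submodule 𝕜 E × Set E))
    (hK : pullS J 𝓘 ⊆ 𝓚) :
    J z ∈ closure (Submodule.span 𝕜 (⋃ p ∈ {p | p ∈ 𝓚 ∧ z ∉ p.1}, p.2) : Set E) := by
  refine closure_mono (Submodule.span_mono ?_) (h.2 (J z) hz).2
  intro y hy
  rw [Set.mem_iUnion₂] at hy ⊢
  obtain ⟨q, ⟨hq1, hq2⟩, hy⟩ := hy
  exact ⟨(q.1.comap (J : E →ₗ[𝕜] E), q.2), ⟨hK ⟨q, hq1, rfl⟩, hq2⟩, hy⟩

end IInd

open IInd Cardinal in
theorem prfInd (hC : claimClos.{v}) (hJ : claimJump.{u, v, w}) : claimInd.{u, v, w} := by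
  intro 𝕜 _ X E _ _ M Q hM P
  obtain ⟨cl, hcl1, hcl2, hcl3, hcl4⟩ := hC X M hM
  have main : ∀ (κ : Cardinal.{v}) (S : Set X), Cl M S → #S = κ →
      ∃ 𝓘 : Set (Submodule 𝕜 E × Set E), Sys (Set.range (Q S)) 𝓘 := by
    intro κ
    induction κ using WellFoundedLT.induction with
    | ind κ ih =>
    intro S hS hκ
    by_cases hct : S.Countable
    · exact sys_countable P hS hct
    have hun : ℵ₀ < #S := by
      rw [← not_le]
      intro hle
      exact hct (Cardinal.le_aleph0_iff_set_countable.mp hle)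
    -- the well-order
    obtain ⟨e⟩ : Nonempty ((#S).ord.ToType ≃ S) := by
      rw [← Cardinal.eq, Cardinal.mk_ord_toType]
    set I := (#S).ord.ToType with hI
    let T : I → Set X := fun i => cl ((fun j => ((e j : S) : X)) '' Set.Iic i)
    let B : Set X := cl ∅
    have hclB : Cl M B := hcl2 ∅
    have hclT : ∀ i, Cl M (T i) := fun i => hcl2 _
    have hBT : ∀ i, B ⊆ T i := fun i => hcl3 _ _ (Set.empty_subset _) (hclT i)
    have hmono : Monotone T := by
      intro i j hij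
      apply hcl3 _ _ _ (hclT j)
      exact (Set.image_mono (Set.Iic_subset_Iic.mpr hij)).trans (hcl1 _)
    have hBU : B ∪ ⋃ i, T i = S := by
      apply Set.Subset.antisymm
      · apply Set.union_subset
        · exact hcl3 _ _ (Set.empty_subset _) hS
        · apply Set.iUnion_subset
          intro i
          apply hcl3 _ _ _ hS
          rintro _ ⟨j, _, rfl⟩
          exact (e j).2
      · intro s hs
        apply Set.mem_union_right
        rw [Set.mem_iUnion]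
        refine ⟨e.symm ⟨s, hs⟩, hcl1 _ ⟨e.symm ⟨s, hs⟩, Set.mem_Iic.mpr le_rfl, ?_⟩⟩
        simp
    have hcardB : #B < κ := by
      rw [← hκ]
      refine lt_of_le_of_lt (hcl4 ∅) ?_
      rw [max_lt_iff]
      refine ⟨?_, hun⟩
      rw [Cardinal.mk_eq_zero]
      exact lt_of_lt_of_le Cardinal.aleph0_pos hun.le
    have hcardT : ∀ i, #(T i) < κ := by
      intro i
      rw [← hκ]
      refine lt_of_le_of_lt (hcl4 _) ?_
      rw [max_lt_iff]
      refine ⟨lt_of_le_of_lt Cardinal.mk_image_le ?_, hun⟩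
      have h1 : #(Set.Iio i) < #S := Cardinal.mk_Iio_toType_ord_lt i
      have h2 : #(Set.Iic i) ≤ #(Set.Iio i) + 1 := by
        rw [← Set.Iio_insert]
        exact Cardinal.mk_insert_le
      refine lt_of_le_of_lt h2 ?_
      exact Cardinal.add_lt_of_lt hun.le h1 (lt_of_lt_of_le Cardinal.one_lt_aleph0 hun.le)
    obtain ⟨𝓘B, hIB⟩ := ih _ hcardB B hclB rfl
    choose 𝓘T hIT using fun i => ih _ (hcardT i) (T i) (hclT i) rfl
    obtain ⟨hlow, -, hjc, hjs⟩ := hJ 𝕜 X E M Q P I B T hclB hclT hBT hmono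
    have hlowT : ∀ i, low B T i ⊆ T i := by
      intro i
      apply Set.union_subset (hBT i)
      apply Set.iUnion₂_subset
      intro j hj
      exact hmono (le_of_lt hj)
    let J : I → E →L[𝕜] E := fun i => Q (T i) - Q (low B T i)
    have hJr : ∀ i z, J i z ∈ Set.range (Q (T i)) := by
      intro i z
      refine ⟨J i z, ?_⟩
      change Q (T i) (Q (T i) z - Q (low B T i) z) = Q (T i) z - Q (low B T i) z
      rw [map_sub, P.left _ _ (hclT i) (hclT i) Set.Subset.rfl,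
        P.right _ _ (hlow i) (hclT i) (hlowT i)]
    have hBr : ∀ z, Q B z ∈ Set.range (Q B) := fun z => ⟨z, rfl⟩
    set 𝓚 : Set (Submodule 𝕜 E × Set E) := pullS (Q B) 𝓘B ∪ ⋃ i, pullS (J i) (𝓘T i) with h𝓚
    refine ⟨𝓚, ?_, ?_⟩
    · rintro p (hp | hp)
      · exact pullS_closed _ hIB p hp
      · rw [Set.mem_iUnion] at hp
        obtain ⟨i, hp⟩ := hp
        exact pullS_closed _ (hIT i) p hp
    · rintro _ ⟨w, rfl⟩
      set z := Q S w with hz
      have hSz : Q S z = z := by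
        rw [hz, P.left S S hS hS Set.Subset.rfl]
      constructor
      · have h1 : {p | p ∈ 𝓚 ∧ z ∉ p.1} ⊆ {p | p ∈ pullS (Q B) 𝓘B ∧ z ∉ p.1} ∪
            ⋃ i ∈ {i | Q (T i) z - Q (low B T i) z ≠ 0},
              {p | p ∈ pullS (J i) (𝓘T i) ∧ z ∉ p.1} := by
          rintro p ⟨hp | hp, hzp⟩
          · exact Or.inl ⟨hp, hzp⟩
          · right
            rw [Set.mem_iUnion] at hp
            obtain ⟨i, hp⟩ := hp
            rw [Set.mem_iUnion₂]
            refine ⟨i, ?_, hp, hzp⟩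
            obtain ⟨q, hq, rfl⟩ := hp
            intro h0
            apply hzp
            change J i z ∈ q.1
            have : J i z = 0 := h0
            rw [this]
            exact q.1.zero_mem
        refine Set.Countable.mono h1 ?_
        apply (pullS_countable _ hIB z (hBr z)).union
        apply (hjc z).biUnion
        intro i _
        exact pullS_countable _ (hIT i) z (hJr i z)
      · have h1 := hjs z
        rw [hBU, hSz] at h1
        set W := (Submodule.span 𝕜 (⋃ p ∈ {p | p ∈ 𝓚 ∧ z ∉ p.1}, p.2)).topologicalClosure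
          with hW
        have hWc : (W : Set E) =
            closure (Submodule.span 𝕜 (⋃ p ∈ {p | p ∈ 𝓚 ∧ z ∉ p.1}, p.2) : Set E) :=
          Submodule.topologicalClosure_coe _
        rw [← hWc]
        have hWcl : IsClosed (W : Set E) := Submodule.isClosed_topologicalClosure _
        refine closure_minimal ?_ hWcl h1
        rw [SetLike.coe_subset_coe, Submodule.span_le]
        rintro y (hy | ⟨i, rfl⟩)
        · rw [Set.mem_singleton_iff] at hy
          rw [hy, hWc]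
          exact pullS_span (Q B) hIB z (hBr z) 𝓚 Set.subset_union_left
        · rw [hWc]
          exact pullS_span (J i) (hIT i) z (hJr i z) 𝓚
            ((Set.subset_iUnion (fun i => pullS (J i) (𝓘T i)) i).trans Set.subset_union_right)
  have hU : Cl M (Set.univ : Set X) := fun F _ => Set.subset_univ _
  obtain ⟨𝓘, h1, h2⟩ := main _ Set.univ hU rfl
  refine ⟨𝓘, h1, fun z _ => h2 z ⟨z, P.univ z⟩⟩

end Pool.Agent.Work.MP_6c3bcd_an.Asp

end

section

/-!
# JUMP: along a well-ordered increasing family only countably many jumps do not vanish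
-/

universe u v w

namespace Pool.Agent.Work.MP_6c3bcd_an.Asp

open Set Topology

namespace IJump

theorem cl_sUnion {X : Type v} {M : Finset X → Set X} {𝒞 : Set (Set X)} (hne : 𝒞.Nonempty)
    (hdir : DirectedOn (· ⊆ ·) 𝒞) (h : ∀ S ∈ 𝒞, Cl M S) : Cl M (⋃₀ 𝒞) := by
  intro F hF
  rw [sUnion_eq_biUnion] at hF
  obtain ⟨S, hS, hFS⟩ := DirectedOn.exists_mem_subset_of_finset_subset_biUnion
    (f := fun S : Set X => S) hne hdir hF
  exact (h S hS F hFS).trans (subset_sUnion_of_mem hS)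

section

variable {𝕜 : Type u} [RCLike 𝕜] {X : Type v} {E : Type w} [NormedAddCommGroup E]
  [NormedSpace 𝕜 E] {M : Finset X → Set X} {Q : Set X → E →L[𝕜] E}

theorem approx (hQ : ProjFam M Q) {𝒞 : Set (Set X)} (hne : 𝒞.Nonempty)
    (hdir : DirectedOn (· ⊆ ·) 𝒞) (h : ∀ S ∈ 𝒞, Cl M S) (z : E) {ε : ℝ} (hε : 0 < ε) :
    ∃ P₀ ∈ 𝒞, ∀ P, Cl M P → P₀ ⊆ P → P ⊆ ⋃₀ 𝒞 → ‖Q (⋃₀ 𝒞) z - Q P z‖ ≤ ε := by
  have h1 := hQ.cont 𝒞 hne hdir h z
  rw [Metric.mem_closure_iff] at h1
  obtain ⟨u, hu, hdist⟩ := h1 (ε / 2) (by linarith)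
  rw [mem_iUnion₂] at hu
  obtain ⟨S, hS, v, rfl⟩ := hu
  refine ⟨S, hS, fun P hP hSP hPR => ?_⟩
  have e1 : Q P z = Q P (Q (⋃₀ 𝒞) z) := (hQ.left P (⋃₀ 𝒞) hP (cl_sUnion hne hdir h) hPR z).symm
  have e2 : Q P (Q S v) = Q S v := hQ.right S P (h S hS) hP hSP v
  have e3 : Q (⋃₀ 𝒞) z - Q P z = (Q (⋃₀ 𝒞) z - Q S v) - Q P (Q (⋃₀ 𝒞) z - Q S v) := by
    rw [map_sub, e2, ← e1]
    abel
  rw [e3]
  refine (norm_sub_le _ _).trans ?_
  have h2 := hQ.norm_le P hP (Q (⋃₀ 𝒞) z - Q S v)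
  rw [dist_eq_norm] at hdist
  linarith

variable {I : Type v} [LinearOrder I]

/-- The chain indexed by `D`. -/
def ch (B : Set X) (T : I → Set X) (D : Set I) : Set (Set X) := {B} ∪ T '' D

theorem ch_nonempty (B : Set X) (T : I → Set X) (D : Set I) : (ch B T D).Nonempty :=
  ⟨B, Or.inl rfl⟩

theorem ch_directed {B : Set X} {T : I → Set X} (hB : ∀ i, B ⊆ T i) (hT : Monotone T) (D : Set I) :
    DirectedOn (· ⊆ ·) (ch B T D) := by
  rintro S (rfl | ⟨i, hi, rfl⟩) S' (rfl | ⟨j, hj, rfl⟩)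
  · exact ⟨S', Or.inl rfl, Subset.rfl, Subset.rfl⟩
  · exact ⟨T j, Or.inr ⟨j, hj, rfl⟩, hB j, Subset.rfl⟩
  · exact ⟨T i, Or.inr ⟨i, hi, rfl⟩, Subset.rfl, hB i⟩
  · rcases le_total i j with h | h
    · exact ⟨T j, Or.inr ⟨j, hj, rfl⟩, hT h, Subset.rfl⟩
    · exact ⟨T i, Or.inr ⟨i, hi, rfl⟩, Subset.rfl, hT h⟩

theorem ch_cl {B : Set X} {T : I → Set X} (hB : Cl M B) (hT : ∀ i, Cl M (T i)) (D : Set I) :
    ∀ S ∈ ch B T D, Cl M S := by
  rintro S (rfl | ⟨i, -, rfl⟩)
  · exact hB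
  · exact hT i

theorem low_eq (B : Set X) (T : I → Set X) (i : I) : low B T i = ⋃₀ (ch B T (Iio i)) := by
  unfold low ch
  rw [sUnion_union, sUnion_singleton, sUnion_image]
  rfl

theorem top_eq (B : Set X) (T : I → Set X) : (B ∪ ⋃ i, T i) = ⋃₀ (ch B T univ) := by
  unfold ch
  rw [sUnion_union, sUnion_singleton, sUnion_image]
  simp

theorem no_acc (hQ : ProjFam M Q) {B : Set X} {T : I → Set X} (hB : Cl M B)
    (hT : ∀ i, Cl M (T i)) (hBT : ∀ i, B ⊆ T i) (hmono : Monotone T) (z : E) {ε : ℝ} (hε : 0 < ε)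
    (D : Set I)
    (hinf : ({i | ε < ‖Q (T i) z - Q (low B T i) z‖} ∩ D).Infinite)
    (hfin : ∀ j ∈ D, ({i | ε < ‖Q (T i) z - Q (low B T i) z‖} ∩ Iio j).Finite) : False := by
  obtain ⟨P₀, hP₀, hP⟩ := approx hQ (ch_nonempty B T D) (ch_directed hBT hmono D)
    (ch_cl hB hT D) z (show 0 < ε / 2 by linarith)
  have hj0 : ∃ j0 ∈ D, P₀ ⊆ T j0 := by
    rcases hP₀ with rfl | ⟨j, hj, rfl⟩
    · obtain ⟨j, hj⟩ := hinf.nonempty
      exact ⟨j, hj.2, hBT j⟩
    · exact ⟨j, hj, Subset.rfl⟩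
  obtain ⟨j0, hj0D, hPj0⟩ := hj0
  have h1 : (({i | ε < ‖Q (T i) z - Q (low B T i) z‖} ∩ D) \
      (({i | ε < ‖Q (T i) z - Q (low B T i) z‖} ∩ Iio j0) ∪ {j0})).Nonempty :=
    (hinf.sdiff ((hfin j0 hj0D).union (finite_singleton j0))).nonempty
  obtain ⟨i, ⟨hiA, hiD⟩, hi⟩ := h1
  have hji : j0 < i := by
    rcases lt_trichotomy i j0 with h | h | h
    · exact absurd (Or.inl ⟨hiA, h⟩) hi
    · exact absurd (Or.inr h) hi
    · exact h
  have hTi : T i ⊆ ⋃₀ (ch B T D) := subset_sUnion_of_mem (Or.inr ⟨i, hiD, rfl⟩)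
  have hlow : low B T i ⊆ T i := by
    unfold low
    exact union_subset (hBT i) (iUnion₂_subset fun j hj => hmono (le_of_lt hj))
  have h2 := hP (T i) (hT i) (hPj0.trans (hmono hji.le)) hTi
  have hcl : Cl M (low B T i) := by
    rw [low_eq]
    exact cl_sUnion (ch_nonempty _ _ _) (ch_directed hBT hmono _) (ch_cl hB hT _)
  have h3 := hP (low B T i) hcl (hPj0.trans (by
    unfold low
    exact (subset_iUnion₂ (s := fun j (_ : j ∈ {j | j < i}) => T j) j0 hji).trans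
      subset_union_right)) (hlow.trans hTi)
  have hiA' : ε < ‖Q (T i) z - Q (low B T i) z‖ := hiA
  have h4 : Q (T i) z - Q (low B T i) z =
      (Q (⋃₀ (ch B T D)) z - Q (low B T i) z) - (Q (⋃₀ (ch B T D)) z - Q (T i) z) := by abel
  rw [h4] at hiA'
  have h5 := norm_sub_le (Q (⋃₀ (ch B T D)) z - Q (low B T i) z) (Q (⋃₀ (ch B T D)) z - Q (T i) z)
  linarith

theorem gen_step (hQ : ProjFam M Q) {B : Set X} {T : I → Set X} (hB : Cl M B)
    (hT : ∀ i, Cl M (T i)) (hBT : ∀ i, B ⊆ T i) (hmono : Monotone T) (z : E)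
    (L : Submodule 𝕜 E) (hL : IsClosed (L : Set E)) (hBL : Q B z ∈ L) (D : Set I)
    (hD : ∀ j ∈ D, Q (T j) z ∈ L) : Q (⋃₀ (ch B T D)) z ∈ L := by
  have h1 : Q (⋃₀ (ch B T D)) z ∈ closure (L : Set E) := by
    rw [Metric.mem_closure_iff]
    intro ε hε
    obtain ⟨P₀, hP₀, hP⟩ := approx hQ (ch_nonempty B T D) (ch_directed hBT hmono D)
      (ch_cl hB hT D) z (show 0 < ε / 2 by linarith)
    refine ⟨Q P₀ z, ?_, ?_⟩
    · rcases hP₀ with rfl | ⟨j, hj, rfl⟩
      · exact hBL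
      · exact hD j hj
    · have h2 := hP P₀ (ch_cl hB hT D P₀ hP₀) Subset.rfl (subset_sUnion_of_mem hP₀)
      rw [dist_eq_norm]
      linarith
  rwa [hL.closure_eq] at h1

end

end IJump

open IJump in
theorem prfJump : claimJump.{u, v, w} := by
  intro 𝕜 _ X E _ _ M Q hQ I _ _ B T hB hT hBT hmono
  have hclow : ∀ i, Cl M (low B T i) := by
    intro i
    rw [low_eq]
    exact cl_sUnion (ch_nonempty _ _ _) (ch_directed hBT hmono _) (ch_cl hB hT _)
  refine ⟨hclow, ?_, ?_, ?_⟩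
  · rw [top_eq]
    exact cl_sUnion (ch_nonempty _ _ _) (ch_directed hBT hmono _) (ch_cl hB hT _)
  · intro z
    have h1 : {i | Q (T i) z - Q (low B T i) z ≠ 0} ⊆
        ⋃ n : ℕ, {i | 1 / ((n : ℝ) + 1) < ‖Q (T i) z - Q (low B T i) z‖} := by
      intro i hi
      obtain ⟨n, hn⟩ := exists_nat_one_div_lt (norm_pos_iff.2 hi)
      exact mem_iUnion.2 ⟨n, hn⟩
    refine Set.Countable.mono h1 (countable_iUnion fun n => Set.Finite.countable ?_)
    have hε : (0 : ℝ) < 1 / ((n : ℝ) + 1) := by positivity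
    by_contra hinf
    by_cases hJ : ∃ i : I,
        ({i | 1 / ((n : ℝ) + 1) < ‖Q (T i) z - Q (low B T i) z‖} ∩ Iio i).Infinite
    · have hwf : WellFounded ((· < ·) : I → I → Prop) := wellFounded_lt
      have hmin := hwf.min_mem {i : I |
        ({i | 1 / ((n : ℝ) + 1) < ‖Q (T i) z - Q (low B T i) z‖} ∩ Iio i).Infinite} hJ
      refine no_acc hQ hB hT hBT hmono z hε _ hmin fun j hj => ?_
      by_contra hcon
      exact hwf.not_lt_min {i : I |
        ({i | 1 / ((n : ℝ) + 1) < ‖Q (T i) z - Q (low B T i) z‖} ∩ Iio i).Infinite} hcon hj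
    · push Not at hJ
      refine no_acc hQ hB hT hBT hmono z hε univ ?_ fun j _ => hJ j
      rw [inter_univ]
      exact hinf
  · intro z
    set L : Submodule 𝕜 E := (Submodule.span 𝕜
        ({Q B z} ∪ Set.range fun i => Q (T i) z - Q (low B T i) z)).topologicalClosure with hLdef
    have hLc : IsClosed (L : Set E) := Submodule.isClosed_topologicalClosure _
    have hsub : ({Q B z} ∪ Set.range fun i => Q (T i) z - Q (low B T i) z : Set E) ⊆ L :=
      Submodule.subset_span.trans (Submodule.le_topologicalClosure _)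
    have hBL : Q B z ∈ L := hsub (Or.inl rfl)
    have hall : ∀ i, Q (T i) z ∈ L := by
      intro i
      induction i using WellFoundedLT.induction with
      | ind i ih =>
        have h1 : Q (low B T i) z ∈ L := by
          rw [low_eq]
          exact gen_step hQ hB hT hBT hmono z L hLc hBL _ fun j hj => ih j hj
        have h2 : Q (T i) z - Q (low B T i) z ∈ L := hsub (Or.inr ⟨i, rfl⟩)
        have h3 := L.add_mem h2 h1
        rwa [sub_add_cancel] at h3
    have h4 : Q (B ∪ ⋃ i, T i) z ∈ L := by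
      rw [top_eq]
      exact gen_step hQ hB hT hBT hmono z L hLc hBL _ fun j _ => hall j
    exact h4

end Pool.Agent.Work.MP_6c3bcd_an.Asp

end

section

universe u v w

namespace Pool.Agent.Work.MP_6c3bcd_an.Asp

open Set Topology

namespace ILin

variable {X : Type v} {E : Type w}

theorem fin_countable (C : Finset X → Set E) (hC : ∀ F, (C F).Countable) (F : Finset X) :
    (fin C (F : Set X)).Countable := by
  classical
  refine Set.Countable.biUnion ?_ fun G _ => hC G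
  refine (Set.Finite.subset (Finset.finite_toSet F.powerset) ?_).countable
  intro G hG
  exact Finset.mem_coe.2 (Finset.mem_powerset.2 (Finset.coe_subset.1 hG))

theorem fin_mono (C : Finset X → Set E) {S T : Set X} (h : S ⊆ T) : fin C S ⊆ fin C T :=
  iUnion₂_subset fun F hF => subset_iUnion₂_of_subset F (Subset.trans hF h) Subset.rfl

theorem mem_fin {C : Finset X → Set E} {S : Set X} {x : E} :
    x ∈ fin C S ↔ ∃ F : Finset X, (F : Set X) ⊆ S ∧ x ∈ C F := by
  unfold fin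
  simp only [mem_iUnion, mem_setOf_eq, exists_prop]

/-- a finite subset of `fin C S` lies in `fin C F` for a finite `F ⊆ S` -/
theorem fin_finite (C : Finset X → Set E) (S : Set X) (K : Finset E) (hK : (K : Set E) ⊆ fin C S) :
    ∃ F : Finset X, (F : Set X) ⊆ S ∧ (K : Set E) ⊆ fin C (F : Set X) := by
  classical
  induction K using Finset.induction_on with
  | empty => exact ⟨∅, by simp, by simp⟩
  | insert a K _ ih =>
    rw [Finset.coe_insert, insert_subset_iff] at hK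
    obtain ⟨F, hF, hKF⟩ := ih hK.2
    obtain ⟨G, hG, haG⟩ := mem_fin.1 hK.1
    refine ⟨F ∪ G, by rw [Finset.coe_union]; exact union_subset hF hG, ?_⟩
    rw [Finset.coe_insert, insert_subset_iff]
    refine ⟨mem_fin.2 ⟨G, by rw [Finset.coe_union]; exact subset_union_right, haG⟩, ?_⟩
    exact hKF.trans (fin_mono C (by rw [Finset.coe_union]; exact subset_union_left))

end ILin

open ILin in
theorem prfLin : claimLin.{u, v} := by
  classical
  intro 𝕜 _ X _ _ G hG
  let C : Finset X → Set (StrongDual 𝕜 X) := fun F => qcl (fin G (F : Set X))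
  have hfin : ∀ S : Set X, fin C S = qcl (fin G S) := by
    intro S
    apply Subset.antisymm
    · exact iUnion₂_subset fun F hF => qcl_mono (fin_mono G hF)
    · intro f hf
      obtain ⟨K, hK, hfK⟩ := qcl_finite hf
      obtain ⟨F, hF, hKF⟩ := fin_finite G S K hK
      exact mem_fin.2 ⟨F, hF, qcl_mono hKF hfK⟩
  refine ⟨C, fun F => qcl_countable (fin_countable G hG.1 F), ?_, ?_⟩
  · intro S
    exact ⟨qclSub (fin G S), by rw [hfin S, coe_qclSub]⟩
  · intro S h ε hε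
    obtain ⟨n, hn⟩ := exists_nat_ge (max ‖h‖ 1)
    have hn1 : (1 : ℝ) ≤ n := (le_max_right _ _).trans hn
    have hn0 : (0 : ℝ) < n := lt_of_lt_of_le one_pos hn1
    have hnK : (n : 𝕜) ≠ 0 := by
      intro h0
      have h1 : ‖(n : 𝕜)‖ = 0 := by rw [h0, norm_zero]
      rw [RCLike.norm_natCast] at h1
      exact hn0.ne' h1
    have hle : ‖((n : 𝕜)⁻¹) • h‖ ≤ 1 := by
      rw [norm_smul, norm_inv, RCLike.norm_natCast, inv_mul_le_iff₀ hn0, mul_one]
      exact (le_max_left _ _).trans hn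
    obtain ⟨F, hF, g, hg, k, hk, hgk⟩ := hG.2 S _ hle (ε / n) (div_pos hε hn0)
    have hmul : ∀ m : ℕ, m • g ∈ qcl (fin G S) := by
      intro m
      induction m with
      | zero =>
        rw [zero_nsmul]
        exact subset_cls _ _ (mem_insert _ _)
      | succ m ih =>
        rw [succ_nsmul]
        exact qcl_add _ _ ih _ (subset_qcl _ (mem_fin.2 ⟨F, hF, hg⟩))
    refine ⟨n • g, by rw [hfin S]; exact hmul n, (n : 𝕜) • k, ?_, ?_⟩
    · intro x hx
      rw [ContinuousLinearMap.smul_apply, hk x hx, ContinuousLinearMap.smul_apply, smul_smul,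
        mul_inv_cancel₀ hnK, one_smul]
    · have : (n • g : StrongDual 𝕜 X) = (n : 𝕜) • g := (Nat.cast_smul_eq_nsmul 𝕜 n g).symm
      have e : (n : 𝕜) • g - (n : 𝕜) • k = (n : 𝕜) • (g - k) := (smul_sub (n : 𝕜) g k).symm
      rw [this, e, norm_smul, RCLike.norm_natCast]
      calc (n : ℝ) * ‖g - k‖ ≤ n * (ε / n) := by gcongr
        _ = ε := by field_simp

end Pool.Agent.Work.MP_6c3bcd_an.Asp

end

section

/-!
# PROJ: the norm one projections
-/

universe u v

namespace Pool.Agent.Work.MP_6c3bcd_an.Asp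

open Set Topology

namespace IProj

variable {𝕜 : Type u} [RCLike 𝕜] {X : Type v} [NormedAddCommGroup X] [NormedSpace 𝕜 X]

theorem exN (c : StrongDual 𝕜 X) : ∃ N : Set X, N.Countable ∧ (∀ x ∈ N, ‖x‖ ≤ 1) ∧
    ∀ r : ℝ, r < ‖c‖ → ∃ x ∈ N, r < ‖c x‖ := by
  have h1 : ∀ n : ℕ, ∃ x : X, ‖x‖ < 1 ∧ ‖c‖ - 1 / ((n : ℝ) + 1) < ‖c x‖ := by
    intro n
    apply ContinuousLinearMap.exists_lt_apply_of_lt_opNorm
    have : (0 : ℝ) < 1 / ((n : ℝ) + 1) := by positivity
    linarith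
  choose f hf1 hf2 using h1
  refine ⟨range f, countable_range f, ?_, ?_⟩
  · rintro _ ⟨n, rfl⟩
    exact (hf1 n).le
  · intro r hr
    obtain ⟨n, hn⟩ := exists_nat_one_div_lt (show 0 < ‖c‖ - r by linarith)
    refine ⟨f n, ⟨n, rfl⟩, ?_⟩
    have := hf2 n
    linarith

/-- Closed sets: the functionals in the closure of `fin C S` are normed by `S`. -/
def Nrm (C : Finset X → Set (StrongDual 𝕜 X)) (S : Set X) : Prop :=
  ∀ c ∈ fin C S, ∀ r : ℝ, r < ‖c‖ → ∃ x ∈ S, ‖x‖ ≤ 1 ∧ r < ‖c x‖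

theorem nrm_closure {C : Finset X → Set (StrongDual 𝕜 X)} {S : Set X} (h : Nrm C S)
    (Z : StrongDual 𝕜 X) (hZ : Z ∈ closure (fin C S)) (r : ℝ) (hr : r < ‖Z‖) :
    ∃ x ∈ S, ‖x‖ ≤ 1 ∧ r < ‖Z x‖ := by
  rw [Metric.mem_closure_iff] at hZ
  obtain ⟨c, hc, hd⟩ := hZ ((‖Z‖ - r) / 3) (by linarith)
  rw [dist_eq_norm] at hd
  have h1 : ‖Z‖ ≤ ‖Z - c‖ + ‖c‖ := by
    have := norm_add_le (Z - c) c
    rwa [sub_add_cancel] at this
  obtain ⟨x, hxS, hx1, hx2⟩ := h c hc (r + (‖Z‖ - r) / 3) (by linarith)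
  refine ⟨x, hxS, hx1, ?_⟩
  have h2 : ‖(Z - c) x‖ ≤ ‖Z - c‖ * ‖x‖ := (Z - c).le_opNorm x
  have h3 : ‖Z - c‖ * ‖x‖ ≤ ‖Z - c‖ * 1 := mul_le_mul_of_nonneg_left hx1 (norm_nonneg _)
  have h4 : ‖c x‖ ≤ ‖(Z - c) x‖ + ‖Z x‖ := by
    have e : c x = Z x - (Z - c) x := by simp
    rw [e]
    have := norm_sub_le (Z x) ((Z - c) x)
    linarith
  linarith

theorem norm_le_of {C : Finset X → Set (StrongDual 𝕜 X)} {S : Set X} (h : Nrm C S)
    (Z : StrongDual 𝕜 X) (hZ : Z ∈ closure (fin C S)) (b : ℝ) (hb : 0 ≤ b)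
    (hS : ∀ x ∈ S, ‖Z x‖ ≤ b * ‖x‖) : ‖Z‖ ≤ b := by
  by_contra hcon
  obtain ⟨x, hxS, hx1, hx2⟩ := nrm_closure h Z hZ b (not_le.1 hcon)
  have h1 := hS x hxS
  have h2 : b * ‖x‖ ≤ b * 1 := mul_le_mul_of_nonneg_left hx1 hb
  linarith

theorem uniq {C : Finset X → Set (StrongDual 𝕜 X)} (hC : IsLin C) {S : Set X} (h : Nrm C S)
    {u u' : StrongDual 𝕜 X} (hu : u ∈ closure (fin C S)) (hu' : u' ∈ closure (fin C S))
    (he : ∀ x ∈ S, u x = u' x) : u = u' := by
  obtain ⟨L, hL⟩ := hC.2.1 S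
  rw [hL] at hu hu'
  have h1 : u - u' ∈ closure (fin C S) := by
    rw [hL]
    exact L.sub_mem hu hu'
  have h2 := norm_le_of h (u - u') h1 0 le_rfl (by
    intro x hx
    simp [he x hx])
  exact sub_eq_zero.1 (norm_le_zero_iff.1 h2)

theorem exists_u {C : Finset X → Set (StrongDual 𝕜 X)} (hC : IsLin C) {S : Set X} (h : Nrm C S)
    (z : StrongDual 𝕜 X) : ∃ u ∈ closure (fin C S), ∀ x ∈ S, u x = z x := by
  obtain ⟨L, hL⟩ := hC.2.1 S
  have h1 : ∀ n : ℕ, ∃ c ∈ fin C S, ∃ k : StrongDual 𝕜 X, (∀ x ∈ S, k x = z x) ∧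
      ‖c - k‖ ≤ 1 / ((n : ℝ) + 1) := fun n => hC.2.2 S z _ (by positivity)
  choose c hc k hk hck using h1
  have hcx : ∀ n, ∀ x ∈ S, ‖c n x - z x‖ ≤ 1 / ((n : ℝ) + 1) * ‖x‖ := by
    intro n x hx
    have e : c n x - z x = (c n - k n) x := by
      rw [ContinuousLinearMap.sub_apply, hk n x hx]
    rw [e]
    exact ((c n - k n).le_opNorm x).trans (mul_le_mul_of_nonneg_right (hck n) (norm_nonneg _))
  have hcauchy : CauchySeq c := by
    refine cauchySeq_of_le_tendsto_0 (fun N : ℕ => 2 * (1 / ((N : ℝ) + 1))) ?_ ?_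
    · intro n m N hn hm
      rw [dist_eq_norm]
      have h2 : c n - c m ∈ closure (fin C S) := by
        have e1 : c n ∈ closure (fin C S) := subset_closure (hc n)
        have e2 : c m ∈ closure (fin C S) := subset_closure (hc m)
        rw [hL] at e1 e2 ⊢
        exact L.sub_mem e1 e2
      have hN : (0 : ℝ) < (N : ℝ) + 1 := by positivity
      have e3 : 1 / ((n : ℝ) + 1) ≤ 1 / ((N : ℝ) + 1) :=
        one_div_le_one_div_of_le hN (by have : (N : ℝ) ≤ n := by exact_mod_cast hn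
                                        linarith)
      have e4 : 1 / ((m : ℝ) + 1) ≤ 1 / ((N : ℝ) + 1) :=
        one_div_le_one_div_of_le hN (by have : (N : ℝ) ≤ m := by exact_mod_cast hm
                                        linarith)
      apply norm_le_of h _ h2 _ (by positivity)
      intro x hx
      have e5 : (c n - c m) x = (c n x - z x) - (c m x - z x) := by simp
      rw [e5]
      have e6 := norm_sub_le (c n x - z x) (c m x - z x)
      have e7 := hcx n x hx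
      have e8 := hcx m x hx
      have e9 : 1 / ((n : ℝ) + 1) * ‖x‖ ≤ 1 / ((N : ℝ) + 1) * ‖x‖ :=
        mul_le_mul_of_nonneg_right e3 (norm_nonneg _)
      have e10 : 1 / ((m : ℝ) + 1) * ‖x‖ ≤ 1 / ((N : ℝ) + 1) * ‖x‖ :=
        mul_le_mul_of_nonneg_right e4 (norm_nonneg _)
      linarith
    · have := (tendsto_one_div_add_atTop_nhds_zero_nat (𝕜 := ℝ)).const_mul 2
      rwa [mul_zero] at this
  obtain ⟨u, hu⟩ := cauchySeq_tendsto_of_complete hcauchy
  refine ⟨u, mem_closure_of_tendsto hu (Filter.Eventually.of_forall hc), ?_⟩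
  intro x hx
  have t1 : Filter.Tendsto (fun n => c n x) Filter.atTop (𝓝 (u x)) :=
    ((ContinuousLinearMap.apply 𝕜 𝕜 x).continuous.tendsto u).comp hu
  have t2 : Filter.Tendsto (fun n => c n x) Filter.atTop (𝓝 (z x)) := by
    rw [tendsto_iff_norm_sub_tendsto_zero]
    refine squeeze_zero (fun _ => norm_nonneg _) (fun n => hcx n x hx) ?_
    have := (tendsto_one_div_add_atTop_nhds_zero_nat (𝕜 := ℝ)).mul_const ‖x‖
    rwa [zero_mul] at this
  exact tendsto_nhds_unique t1 t2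

theorem exQ {C : Finset X → Set (StrongDual 𝕜 X)} (hC : IsLin C) {S : Set X} (h : Nrm C S) :
    ∃ q : StrongDual 𝕜 X →L[𝕜] StrongDual 𝕜 X, ∀ z, q z ∈ closure (fin C S) ∧
      (∀ x ∈ S, q z x = z x) ∧ ‖q z‖ ≤ ‖z‖ := by
  obtain ⟨L, hL⟩ := hC.2.1 S
  choose f hf1 hf2 using exists_u hC h
  have hf1' : ∀ z, f z ∈ L := fun z => by
    have := hf1 z
    rw [hL] at this
    exact this
  have hnorm : ∀ z, ‖f z‖ ≤ ‖z‖ := by
    intro z
    apply norm_le_of h _ (hf1 z) _ (norm_nonneg _)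
    intro x hx
    rw [hf2 z x hx]
    exact z.le_opNorm x
  let g : StrongDual 𝕜 X →ₗ[𝕜] StrongDual 𝕜 X :=
    { toFun := f
      map_add' := by
        intro a b
        apply uniq hC h (hf1 _)
        · rw [hL]
          exact L.add_mem (hf1' a) (hf1' b)
        · intro x hx
          rw [hf2 _ x hx, ContinuousLinearMap.add_apply, ContinuousLinearMap.add_apply,
            hf2 _ x hx, hf2 _ x hx]
      map_smul' := by
        intro r a
        apply uniq hC h (hf1 _)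
        · rw [hL]
          exact L.smul_mem _ (hf1' a)
        · intro x hx
          rw [hf2 _ x hx, RingHom.id_apply, ContinuousLinearMap.smul_apply,
            ContinuousLinearMap.smul_apply, hf2 _ x hx] }
  refine ⟨g.mkContinuous 1 fun z => by rw [one_mul]; exact hnorm z, fun z => ?_⟩
  exact ⟨hf1 z, hf2 z, hnorm z⟩

theorem fin_mono (C : Finset X → Set (StrongDual 𝕜 X)) {S T : Set X} (h : S ⊆ T) :
    fin C S ⊆ fin C T :=
  biUnion_subset_biUnion_left fun _ hF => Subset.trans hF h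

end IProj

open IProj in
theorem prfProj : claimProj.{u, v} := by
  classical
  intro 𝕜 _ X _ _ C hC
  choose N hN1 hN2 hN3 using fun c : StrongDual 𝕜 X => exN c
  refine ⟨fun F => ⋃ c ∈ C F, N c, fun F => (hC.1 F).biUnion fun c _ => hN1 c, ?_⟩
  have hNrm : ∀ S : Set X, Cl (fun F : Finset X => ⋃ c ∈ C F, N c) S → Nrm C S := by
    intro S hS c hc r hr
    rw [fin, mem_iUnion₂] at hc
    obtain ⟨F, hF, hcF⟩ := hc
    obtain ⟨x, hx, hrx⟩ := hN3 c r hr
    exact ⟨x, hS F hF (mem_iUnion₂.2 ⟨c, hcF, hx⟩), hN2 c x hx, hrx⟩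
  obtain ⟨Q, hQdef⟩ : ∃ Q : Set X → StrongDual 𝕜 X →L[𝕜] StrongDual 𝕜 X,
      ∀ S, Cl (fun F : Finset X => ⋃ c ∈ C F, N c) S → ∀ z, Q S z ∈ closure (fin C S) ∧
      (∀ x ∈ S, Q S z x = z x) ∧ ‖Q S z‖ ≤ ‖z‖ := by
    refine ⟨fun S => if h : Cl (fun F : Finset X => ⋃ c ∈ C F, N c) S then
      Classical.choose (exQ hC (hNrm S h)) else 0, ?_⟩
    intro S hS z
    simp only [dif_pos hS]
    exact Classical.choose_spec (exQ hC (hNrm S hS)) z
  have hfix : ∀ S, Cl (fun F : Finset X => ⋃ c ∈ C F, N c) S → ∀ w ∈ closure (fin C S),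
      Q S w = w := by
    intro S hS w hw
    exact uniq hC (hNrm S hS) (hQdef S hS w).1 hw (hQdef S hS w).2.1
  refine ⟨Q, ⟨?_, ?_, ?_, ?_, ?_, ?_⟩⟩
  · intro S hS z
    exact (hQdef S hS z).2.2
  · intro S T hS hT hST z
    apply uniq hC (hNrm S hS) (hQdef S hS _).1 (hQdef S hS _).1
    intro x hx
    rw [(hQdef S hS _).2.1 x hx, (hQdef T hT z).2.1 x (hST hx), (hQdef S hS z).2.1 x hx]
  · intro S T hS hT hST z
    exact hfix T hT _ (closure_mono (fin_mono C hST) (hQdef S hS z).1)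
  · intro 𝒞 hne hdir h𝒞 z
    have hcl : Cl (fun F : Finset X => ⋃ c ∈ C F, N c) (⋃₀ 𝒞) := by
      intro F hF
      rw [sUnion_eq_biUnion] at hF
      obtain ⟨S, hS, hFS⟩ := DirectedOn.exists_mem_subset_of_finset_subset_biUnion
        (f := fun S : Set X => S) hne hdir hF
      exact (h𝒞 S hS F hFS).trans (subset_sUnion_of_mem hS)
    refine closure_mono ?_ (hQdef _ hcl z).1
    intro c hc
    rw [fin, mem_iUnion₂] at hc
    obtain ⟨F, hF, hcF⟩ := hc
    have hF' : (F : Set X) ⊆ ⋃ S ∈ 𝒞, S := by rw [← sUnion_eq_biUnion]; exact hF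
    obtain ⟨S, hS, hFS⟩ := DirectedOn.exists_mem_subset_of_finset_subset_biUnion
      (f := fun S : Set X => S) hne hdir hF'
    refine mem_iUnion₂.2 ⟨S, hS, c, ?_⟩
    exact hfix S (h𝒞 S hS) c (subset_closure (mem_iUnion₂.2 ⟨F, hFS, hcF⟩))
  · intro S hS hcount
    have h1 : (fin C S).Countable := by
      have h2 : {F : Finset X | (F : Set X) ⊆ S}.Countable := by
        have h3 := Set.countable_setOf_finite_subset hcount
        refine (h3.preimage_of_injOn (f := fun F : Finset X => (F : Set X))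
          (fun a _ b _ h => Finset.coe_injective h)).mono ?_
        intro F hF
        exact ⟨F.finite_toSet, hF⟩
      exact h2.biUnion fun F _ => hC.1 F
    refine (h1.isSeparable.closure).mono ?_
    rintro _ ⟨z, rfl⟩
    exact (hQdef S hS z).1
  · intro z
    have hcl : Cl (fun F : Finset X => ⋃ c ∈ C F, N c) univ := fun F _ => subset_univ _
    ext x
    exact (hQdef univ hcl z).2.1 x (mem_univ x)

end Pool.Agent.Work.MP_6c3bcd_an.Asp

end

section

/-!
# Asplund spaces: a system of countable supports in the dual gives the extension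
-/

universe u v

namespace Pool.Agent.Work.MP_6c3bcd_an.Asp

open Set Topology

namespace ISupp

variable {𝕜 : Type u} [RCLike 𝕜] {X : Type v} [NormedAddCommGroup X] [NormedSpace 𝕜 X]

/-- Almost nearest points. -/
theorem exists_near (Y : Submodule 𝕜 (StrongDual 𝕜 X)) (c : StrongDual 𝕜 X) (n : ℕ) :
    ∃ d ∈ hull Y, ‖c - d‖ ≤ Metric.infDist c (hull Y : Set (StrongDual 𝕜 X)) + 1 / (n + 1) := by
  have hpos : (0 : ℝ) < 1 / ((n : ℝ) + 1) := by positivity
  have hne : (hull Y : Set (StrongDual 𝕜 X)).Nonempty := ⟨0, (hull Y).zero_mem⟩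
  obtain ⟨d, hd, hcd⟩ := (Metric.infDist_lt_iff hne).1
    (lt_add_of_pos_right (Metric.infDist c (hull Y : Set (StrongDual 𝕜 X))) hpos)
  exact ⟨d, hd, by rw [← dist_eq_norm]; exact hcd.le⟩

/-- The countable sets of nearest points approximate the elements of the hull. -/
theorem fact {ι : Type*} (Y : Submodule 𝕜 (StrongDual 𝕜 X))
    (H : ι → Submodule 𝕜 (StrongDual 𝕜 X)) (W : ι → Set (StrongDual 𝕜 X))
    (d : StrongDual 𝕜 X → ℕ → StrongDual 𝕜 X)
    (hd : ∀ c n, ‖c - d c n‖ ≤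
      Metric.infDist c (hull Y : Set (StrongDual 𝕜 X)) + 1 / ((n : ℝ) + 1))
    {z : StrongDual 𝕜 X} (hz : z ∈ hull Y)
    (hgen : z ∈ closure (Submodule.span 𝕜 (⋃ i ∈ {i | z ∉ H i}, W i) :
      Set (StrongDual 𝕜 X))) :
    z ∈ closure (⋃ F ∈ {F : Finset ι | ∀ i ∈ F, z ∉ H i},
      ⋃ c ∈ qcl (⋃ i ∈ F, W i), range (d c)) := by
  classical
  rw [Metric.mem_closure_iff]
  intro ε hε
  obtain ⟨s, hs, hzs⟩ := Metric.mem_closure_iff.1 hgen (ε / 8) (by positivity)
  have h1 : (Submodule.span 𝕜 (⋃ i ∈ {i | z ∉ H i}, W i) : Submodule 𝕜 (StrongDual 𝕜 X)) ≤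
      qclSub (⋃ i ∈ {i | z ∉ H i}, W i) :=
    Submodule.span_le.2 ((subset_qcl _).trans subset_closure)
  have hs' : s ∈ closure (qcl (⋃ i ∈ {i | z ∉ H i}, W i)) := by
    rw [← coe_qclSub]; exact h1 hs
  obtain ⟨c, hc, hsc⟩ := Metric.mem_closure_iff.1 hs' (ε / 8) (by positivity)
  obtain ⟨F', hF', hcF'⟩ := qcl_finite hc
  have hidx : ∀ g : StrongDual 𝕜 X, ∃ s : Finset ι,
      (∀ i ∈ s, z ∉ H i) ∧ (g ∈ F' → ∃ i ∈ s, g ∈ W i) := by
    intro g
    by_cases hg : g ∈ F'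
    · obtain ⟨i, hi, hgi⟩ := mem_iUnion₂.1 (hF' (Finset.mem_coe.2 hg))
      refine ⟨{i}, fun j hj => ?_, fun _ => ⟨i, Finset.mem_singleton_self i, hgi⟩⟩
      rw [Finset.mem_singleton.1 hj]
      exact hi
    · exact ⟨∅, by simp, fun h => absurd h hg⟩
  choose t ht1 ht2 using hidx
  have hcK : c ∈ qcl (⋃ i ∈ F'.biUnion t, W i) := by
    refine qcl_mono ?_ hcF'
    intro g hg
    obtain ⟨i, hi, hgi⟩ := ht2 g (Finset.mem_coe.1 hg)
    exact mem_iUnion₂.2 ⟨i, Finset.mem_biUnion.2 ⟨g, Finset.mem_coe.1 hg, hi⟩, hgi⟩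
  obtain ⟨n, hn⟩ := exists_nat_one_div_lt (show (0 : ℝ) < ε / 4 by positivity)
  have hzc : dist z c < ε / 4 := by
    calc dist z c ≤ dist z s + dist s c := dist_triangle _ _ _
      _ < ε / 8 + ε / 8 := add_lt_add hzs hsc
      _ = ε / 4 := by ring
  have hinf : Metric.infDist c (hull Y : Set (StrongDual 𝕜 X)) < ε / 4 := by
    refine lt_of_le_of_lt (Metric.infDist_le_dist_of_mem (y := z) hz) ?_
    rw [dist_comm]; exact hzc
  refine ⟨d c n, ?_, ?_⟩
  · refine mem_iUnion₂.2 ⟨F'.biUnion t, ?_, mem_iUnion₂.2 ⟨c, hcK, mem_range_self n⟩⟩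
    intro i hi
    obtain ⟨g, _, hgi⟩ := Finset.mem_biUnion.1 hi
    exact ht1 g i hgi
  · have h3 : dist c (d c n) ≤ Metric.infDist c (hull Y : Set (StrongDual 𝕜 X)) +
        1 / ((n : ℝ) + 1) := by
      rw [dist_eq_norm]; exact hd c n
    have h4 := dist_triangle z c (d c n)
    linarith

end ISupp

open ISupp in
theorem prfSupp : claimSupp.{u, v} := by
  intro 𝕜 _ X _ _ Y Φ hΦ 𝓘 h𝓘
  classical
  let H : {p // p ∈ 𝓘} → Submodule 𝕜 (StrongDual 𝕜 X) := fun i => i.1.1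
  let W : {p // p ∈ 𝓘} → Set (StrongDual 𝕜 X) := fun i => i.1.2
  have hH : ∀ i, IsClosed (H i : Set (StrongDual 𝕜 X)) := fun i => (h𝓘.1 i.1 i.2).1
  have hW : ∀ i, (W i).Countable := fun i => (h𝓘.1 i.1 i.2).2
  have hcount : ∀ z ∈ hull Y, {i | z ∉ H i}.Countable := by
    intro z hz
    have h1 := (h𝓘.2 z hz).1
    have h2 : {i : {p // p ∈ 𝓘} | z ∉ H i} ⊆
        Subtype.val ⁻¹' {p | p ∈ 𝓘 ∧ z ∉ p.1} := fun i hi => ⟨i.2, hi⟩
    exact (h1.preimage Subtype.val_injective).mono h2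
  have hgen : ∀ z ∈ hull Y, z ∈ closure (Submodule.span 𝕜 (⋃ i ∈ {i | z ∉ H i}, W i) :
      Set (StrongDual 𝕜 X)) := by
    intro z hz
    have h1 := (h𝓘.2 z hz).2
    have h2 : (⋃ p ∈ {p | p ∈ 𝓘 ∧ z ∉ p.1}, p.2) = ⋃ i ∈ {i | z ∉ H i}, W i := by
      ext f
      simp only [mem_iUnion, exists_prop]
      constructor
      · rintro ⟨p, ⟨hp, hzp⟩, hf⟩
        exact ⟨⟨p, hp⟩, hzp, hf⟩
      · rintro ⟨i, hi, hf⟩
        exact ⟨i.1, ⟨i.2, hi⟩, hf⟩
    rw [h2] at h1
    exact h1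
  choose d hdY hd using exists_near Y
  let Z : Finset {p // p ∈ 𝓘} → Set (StrongDual 𝕜 X) :=
    fun F => ⋃ c ∈ qcl (⋃ i ∈ F, W i), range (d c)
  have hZY : ∀ F, Z F ⊆ hull Y := by
    intro F
    refine iUnion₂_subset fun c _ => ?_
    rintro _ ⟨n, rfl⟩
    exact hdY c n
  have hZc : ∀ F, (Z F).Countable := fun F =>
    (qcl_countable (F.countable_toSet.biUnion fun i _ => hW i)).biUnion fun c _ =>
      countable_range _
  choose C hCY hCc hCZ using fun F =>
    exists_countable_of_isSeparable (hZY F) (hZc F).isSeparable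
  refine extension_somewhere_dense hΦ
    (fun z => pull Φ (qcl (⋃ F ∈ {F : Finset {p // p ∈ 𝓘} | ∀ i ∈ F, z ∉ H i}, C F))) ?_ ?_
  · intro z hz
    refine pull_countable hΦ (qcl_countable (Countable.biUnion ?_ fun F _ => hCc F))
    have h1 : {F : Finset {p // p ∈ 𝓘} | ∀ i ∈ F, z ∉ H i} ⊆
        (fun F : Finset {p // p ∈ 𝓘} => (F : Set {p // p ∈ 𝓘})) ⁻¹'
          {t | t.Finite ∧ t ⊆ {i | z ∉ H i}} := fun F hF => ⟨F.finite_toSet, hF⟩
    exact ((countable_ofPred_finite_subset (hcount z hz)).preimage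
      Finset.coe_injective).mono h1
  · intro L hL A hAL U hU hne hUA f hf hfN
    set CS : Set (StrongDual 𝕜 X) :=
      ⋃ F ∈ {F : Finset {p // p ∈ 𝓘} | ∀ i ∈ F, ¬ L ≤ H i}, C F with hCS
    have hCSY : CS ⊆ Y := iUnion₂_subset fun F _ => hCY F
    have h1 : (L : Set (StrongDual 𝕜 X)) ⊆ wcl (qcl CS) := by
      intro l hl
      have h2 := fact Y H W d hd (hL hl) (hgen l (hL hl))
      have h3 : (⋃ F ∈ {F : Finset {p // p ∈ 𝓘} | ∀ i ∈ F, l ∉ H i},
          ⋃ c ∈ qcl (⋃ i ∈ F, W i), range (d c)) ⊆ wcl (qcl CS) := by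
        refine iUnion₂_subset fun F hF => ?_
        refine (hCZ F).trans (wcl_mono ?_)
        refine Subset.trans ?_ (subset_qcl CS)
        exact subset_biUnion_of_mem (u := fun F => C F)
          (show F ∈ {F : Finset {p // p ∈ 𝓘} | ∀ i ∈ F, ¬ L ≤ H i} from
            fun i hi h => hF i hi (h hl))
      exact wcl_wcl_subset (closure_subset_wcl _ (closure_mono h3 h2))
    have h2 : ∀ y ∈ qcl CS, ∃ a ∈ A,
        y ∈ qcl (⋃ F ∈ {F : Finset {p // p ∈ 𝓘} | ∀ i ∈ F, a ∉ H i}, C F) := by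
      intro y hy
      obtain ⟨F, hF, hyF⟩ := qcl_finite hy
      have hidx : ∀ g : StrongDual 𝕜 X, ∃ s : Finset {p // p ∈ 𝓘},
          (∀ i ∈ s, ¬ L ≤ H i) ∧ (g ∈ F → g ∈ C s) := by
        intro g
        by_cases hg : g ∈ F
        · obtain ⟨s, hs, hgs⟩ := mem_iUnion₂.1 (hF (Finset.mem_coe.2 hg))
          exact ⟨s, hs, fun _ => hgs⟩
        · exact ⟨∅, by simp, fun h => absurd h hg⟩
      choose s hs1 hs2 using hidx
      obtain ⟨u, hu, huH⟩ := exists_mem_open_not_mem_finset hH (F.biUnion s)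
        (fun i hi => by
          obtain ⟨g, _, hgi⟩ := Finset.mem_biUnion.1 hi
          exact hs1 g i hgi) hU hne
      have hopen : IsOpen (⋂ i ∈ F.biUnion s, ((H i : Set (StrongDual 𝕜 X)))ᶜ) :=
        isOpen_biInter_finset fun i _ => (hH i).isOpen_compl
      obtain ⟨a, ha, haA⟩ := mem_closure_iff.1 (hUA hu) _ hopen (mem_iInter₂.2 huH)
      refine ⟨a, haA, qcl_mono ?_ hyF⟩
      intro g hg
      refine mem_iUnion₂.2 ⟨s g, ?_, hs2 g (Finset.mem_coe.1 hg)⟩
      intro i hi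
      exact mem_iInter₂.1 ha i (Finset.mem_biUnion.2 ⟨g, Finset.mem_coe.1 hg, hi⟩)
    refine hΦ.separates_qcl hCSY (wcl_subset_of_subset_wcl h1 hf) ?_
    intro y hy x hx
    obtain ⟨a, haA, hya⟩ := h2 y hy
    exact hfN a haA x (mem_iUnion₂.2 ⟨y, hya, mem_iUnion.2 ⟨_, hx⟩⟩)

end Pool.Agent.Work.MP_6c3bcd_an.Asp

end
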