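import Pool.Agent.Work.MP_6c3bcd_an.Bd.B02

/-! Bundle of small proof modules (one section per former module). -/

section

namespace Pool.Agent.Work.MP_6c3bcd_an

open Set Topology

variable {𝕜 : Type*} [RCLike 𝕜] {X : Type*} [NormedAddCommGroup X] [NormedSpace 𝕜 X]

/-- The bipolar theorem for subspaces of the dual. -/
theorem mem_wcl_of_annih {M : Submodule 𝕜 (StrongDual 𝕜 X)} {h : StrongDual 𝕜 X}
    (hh : ∀ x : X, (∀ a ∈ M, a x = 0) → h x = 0) : h ∈ wcl (M : Set (StrongDual 𝕜 X)) := by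
  classical
  refine mem_wcl_iff.2 fun s ε hε => ?_
  let R : StrongDual 𝕜 X →ₗ[𝕜] (s → 𝕜) :=
    { toFun := fun g x => g (x : X)
      map_add' := fun _ _ => rfl
      map_smul' := fun _ _ => rfl }
  by_cases hR : R h ∈ M.map R
  · obtain ⟨m, hm, hmR⟩ := hR
    refine ⟨m, hm, fun x hx => ?_⟩
    have : m x = h x := congrFun hmR ⟨x, hx⟩
    rw [this, sub_self, norm_zero]
    exact hε
  · exfalso
    obtain ⟨φ, hφ, hM⟩ := Submodule.exists_le_ker_of_notMem hR
    let x₀ : X := ∑ x : s, φ (fun j => if j = x then 1 else 0) • (x : X)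
    have key : ∀ g : StrongDual 𝕜 X, g x₀ = φ (R g) := by
      intro g
      have h1 := LinearMap.pi_apply_eq_sum_univ φ (R g)
      rw [h1, map_sum]
      refine Finset.sum_congr rfl fun x _ => ?_
      rw [map_smul, smul_eq_mul, smul_eq_mul, mul_comm]
      congr 2
      ext j
      congr 1
      exact propext eq_comm
    apply hφ
    rw [← key h]
    apply hh
    intro a ha
    rw [key a]
    exact hM (Submodule.mem_map_of_mem ha)

/-- Extension of functionals: if `A` norms `B`, each functional agrees on `B` with an element of the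
weak-star closure of `A`. -/
theorem exists_mem_wcl_eqOn {M : Submodule 𝕜 (StrongDual 𝕜 X)} {B : Submodule 𝕜 X} {K : ℝ}
    (hK : ∀ b ∈ B, ∀ w : X, (∀ a ∈ M, a w = 0) → ‖b‖ ≤ K * ‖b + w‖) (z : StrongDual 𝕜 X) :
    ∃ z' ∈ wcl (M : Set (StrongDual 𝕜 X)), ∀ b ∈ B, z' b = z b := by
  let W : Submodule 𝕜 X :=
    { carrier := {x | ∀ a ∈ M, a x = 0}
      add_mem' := fun {x y} hx hy a ha => by rw [map_add, hx a ha, hy a ha, add_zero]
      zero_mem' := fun a _ => map_zero a
      smul_mem' := fun c x hx a ha => by rw [map_smul, hx a ha, smul_zero] }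
  have hWc : IsClosed (W : Set X) := by
    have : (W : Set X) = ⋂ a ∈ M, {x | a x = 0} := by
      ext x
      rw [mem_iInter₂]
      exact Iff.rfl
    rw [this]
    exact isClosed_biInter fun a _ => isClosed_eq a.continuous continuous_const
  let T : B →ₗ[𝕜] X ⧸ W := W.mkQ.comp B.subtype
  have hTb : ∀ b : B, ‖(b : X)‖ ≤ K * ‖T b‖ := by
    intro b
    by_contra hcon
    push Not at hcon
    have hK0 : 0 ≤ K := by
      by_contra hneg
      push Not at hneg
      have h1 := hK b b.2 0 (fun a _ => map_zero a)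
      rw [add_zero] at h1
      have h2 : 0 ≤ ‖(b : X)‖ := norm_nonneg _
      have h3 : ‖(b : X)‖ = 0 := by nlinarith
      have h4 : (b : X) = 0 := norm_eq_zero.1 h3
      have h5 : T b = 0 := by
        change W.mkQ (b : X) = 0
        rw [h4, map_zero]
      rw [h5, norm_zero, mul_zero] at hcon
      linarith
    obtain ⟨ε, hε, hεlt⟩ : ∃ ε : ℝ, 0 < ε ∧ K * (‖T b‖ + ε) < ‖(b : X)‖ := by
      refine ⟨(‖(b : X)‖ - K * ‖T b‖) / (2 * (K + 1)), by
        have : 0 < ‖(b : X)‖ - K * ‖T b‖ := by linarith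
        positivity, ?_⟩
      have h1 : 0 < ‖(b : X)‖ - K * ‖T b‖ := by linarith
      have h2 : K * ((‖(b : X)‖ - K * ‖T b‖) / (2 * (K + 1)))
          ≤ (‖(b : X)‖ - K * ‖T b‖) / 2 := by
        rw [← mul_div_assoc, div_le_div_iff₀ (by positivity) (by positivity)]
        nlinarith
      rw [mul_add]
      linarith
    obtain ⟨m, hm, hmn⟩ := Submodule.Quotient.norm_mk_lt (T b) hε
    have hmb : m - (b : X) ∈ W := by
      rw [← Submodule.Quotient.mk_eq_zero W, Submodule.Quotient.mk_sub, hm]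
      exact sub_self _
    have h1 := hK b b.2 (m - (b : X)) hmb
    rw [add_sub_cancel] at h1
    have h2 : K * ‖m‖ ≤ K * (‖T b‖ + ε) := mul_le_mul_of_nonneg_left hmn.le hK0
    linarith
  have hTinj : Function.Injective T := by
    rw [injective_iff_map_eq_zero]
    intro b hb
    have := hTb b
    rw [hb, norm_zero, mul_zero] at this
    have h0 : (b : X) = 0 := norm_le_zero_iff.1 this
    exact Subtype.ext h0
  let e : B ≃ₗ[𝕜] LinearMap.range T := LinearEquiv.ofInjective T hTinj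
  have heT : ∀ v : LinearMap.range T, T (e.symm v) = v := by
    intro v
    have := LinearEquiv.apply_symm_apply e v
    have h2 : ((e (e.symm v) : LinearMap.range T) : X ⧸ W) = T (e.symm v) := rfl
    rw [← h2, this]
  let g₀ : LinearMap.range T →ₗ[𝕜] 𝕜 :=
    ((z : X →ₗ[𝕜] 𝕜).comp B.subtype).comp e.symm.toLinearMap
  have hg₀ : ∀ v, ‖g₀ v‖ ≤ (‖z‖ * K) * ‖v‖ := by
    intro v
    have h1 : ‖g₀ v‖ ≤ ‖z‖ * ‖((e.symm v : B) : X)‖ := z.le_opNorm _
    have h2 := hTb (e.symm v)
    rw [heT v] at h2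
    calc ‖g₀ v‖ ≤ ‖z‖ * ‖((e.symm v : B) : X)‖ := h1
      _ ≤ ‖z‖ * (K * ‖(v : X ⧸ W)‖) := by gcongr
      _ = (‖z‖ * K) * ‖v‖ := by rw [mul_assoc]; rfl
  let g : StrongDual 𝕜 (LinearMap.range T) := g₀.mkContinuous (‖z‖ * K) hg₀
  obtain ⟨g', hg', _⟩ := exists_extension_norm_eq (LinearMap.range T) g
  refine ⟨g'.comp W.mkQL, ?_, ?_⟩
  · apply mem_wcl_of_annih
    intro x hx
    have hxW : x ∈ W := hx
    change g' (W.mkQ x) = 0
    have : W.mkQ x = 0 := (Submodule.Quotient.mk_eq_zero W).2 hxW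
    rw [this, map_zero]
  · intro b hb
    change g' (W.mkQ b) = z b
    have h1 := hg' (e ⟨b, hb⟩)
    have h2 : ((e ⟨b, hb⟩ : LinearMap.range T) : X ⧸ W) = W.mkQ b := rfl
    rw [h2] at h1
    rw [h1]
    change z ((e.symm (e ⟨b, hb⟩) : B) : X) = z b
    rw [LinearEquiv.symm_apply_apply]

end Pool.Agent.Work.MP_6c3bcd_an

end

section

namespace Pool.Agent.Work.MP_6c3bcd_an

open Set Topology

variable {𝕜 : Type*} [RCLike 𝕜] {X : Type*} [NormedAddCommGroup X] [NormedSpace 𝕜 X]

/-- From a norming subspace, a single almost norming functional for each vector. -/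
theorem exists_norming_functional {Y : Submodule 𝕜 (StrongDual 𝕜 X)} (hY : IsNorming Y) :
    ∃ c : ℝ, 0 < c ∧ ∃ nm : X → StrongDual 𝕜 X, ∀ x, nm x ∈ Y ∧ ‖nm x‖ ≤ 1 ∧ c * ‖x‖ ≤ ‖nm x x‖ := by
  obtain ⟨c, hc, hx⟩ := hY
  refine ⟨c / 2, by positivity, ?_⟩
  have : ∀ x : X, ∃ f : StrongDual 𝕜 X, f ∈ Y ∧ ‖f‖ ≤ 1 ∧ c / 2 * ‖x‖ ≤ ‖f x‖ := by
    intro x
    by_cases hx0 : x = 0
    · exact ⟨0, Y.zero_mem, by simp, by simp [hx0]⟩
    · have hpos : 0 < ‖x‖ := norm_pos_iff.2 hx0
      have h1 : c / 2 * ‖x‖ < sSup {r : ℝ | ∃ f ∈ Y, ‖f‖ ≤ 1 ∧ r = ‖f x‖} :=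
        lt_of_lt_of_le (by nlinarith) (hx x)
      obtain ⟨r, ⟨f, hf, hf1, rfl⟩, hr⟩ := exists_lt_of_lt_csSup
        (s := {r : ℝ | ∃ f ∈ Y, ‖f‖ ≤ 1 ∧ r = ‖f x‖}) ⟨0, 0, Y.zero_mem, by simp, by simp⟩ h1
      exact ⟨f, hf, hf1, hr.le⟩
  choose nm hnm using this
  exact ⟨nm, hnm⟩

/-- The closing-off operation on `X ⊕ X*`. -/
def opT {Y : Submodule 𝕜 (StrongDual 𝕜 X)} (Φ : Y → Set X) (nm : X → StrongDual 𝕜 X) :
    X ⊕ StrongDual 𝕜 X → X ⊕ StrongDual 𝕜 X → Set (X ⊕ StrongDual 𝕜 X)
  | Sum.inl x, Sum.inl y =>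
      {Sum.inl (x + y)} ∪ (range fun n : ℕ => Sum.inl (TopologicalSpace.denseSeq 𝕜 n • x)) ∪
        {Sum.inr (nm x)}
  | Sum.inr f, Sum.inr g =>
      {Sum.inr (f + g)} ∪ (range fun n : ℕ => Sum.inr (TopologicalSpace.denseSeq 𝕜 n • f)) ∪
        Sum.inl '' (pull Φ {f})
  | _, _ => ∅

theorem opT_countable {Y : Submodule 𝕜 (StrongDual 𝕜 X)} {Φ : Y → Set X}
    (hΦ : IsProjectionalGenerator Y Φ) (nm : X → StrongDual 𝕜 X) (a b : X ⊕ StrongDual 𝕜 X) :
    (opT Φ nm a b).Countable := by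
  rcases a with x | f <;> rcases b with y | g
  · exact ((countable_singleton _).union (countable_range _)).union (countable_singleton _)
  · exact countable_empty
  · exact countable_empty
  · exact ((countable_singleton _).union (countable_range _)).union
      ((pull_countable hΦ (countable_singleton _)).image _)

/-- A set closed under the operation `opT`. -/
structure Closed {Y : Submodule 𝕜 (StrongDual 𝕜 X)} (Φ : Y → Set X) (nm : X → StrongDual 𝕜 X)
    (T : Set (X ⊕ StrongDual 𝕜 X)) : Prop where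
  cl : ∀ a ∈ T, ∀ b ∈ T, opT Φ nm a b ⊆ T
  zl : Sum.inl 0 ∈ T
  zr : Sum.inr 0 ∈ T
  sub : ∀ f, Sum.inr f ∈ T → f ∈ Y

/-- The functional part. -/
def fpart (T : Set (X ⊕ StrongDual 𝕜 X)) : Set (StrongDual 𝕜 X) := {f | Sum.inr f ∈ T}

/-- The vector part. -/
def vpart (T : Set (X ⊕ StrongDual 𝕜 X)) : Set X := {x | Sum.inl x ∈ T}

variable {Y : Submodule 𝕜 (StrongDual 𝕜 X)} {Φ : Y → Set X} {nm : X → StrongDual 𝕜 X}
  {T : Set (X ⊕ StrongDual 𝕜 X)}

theorem Closed.fadd (h : Closed Φ nm T) : ∀ f ∈ fpart T, ∀ g ∈ fpart T, f + g ∈ fpart T :=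
  fun f hf g hg => h.cl (Sum.inr f) hf (Sum.inr g) hg (Or.inl (Or.inl rfl))

theorem Closed.fsmul (h : Closed Φ nm T) :
    ∀ (n : ℕ), ∀ f ∈ fpart T, TopologicalSpace.denseSeq 𝕜 n • f ∈ fpart T :=
  fun n f hf => h.cl (Sum.inr f) hf (Sum.inr f) hf (Or.inl (Or.inr ⟨n, rfl⟩))

theorem Closed.fpull (h : Closed Φ nm T) {f : StrongDual 𝕜 X} (hf : f ∈ fpart T) (hfY : f ∈ Y) :
    Φ ⟨f, hfY⟩ ⊆ vpart T := by
  intro x hx
  refine h.cl (Sum.inr f) hf (Sum.inr f) hf (Or.inr ⟨x, ?_, rfl⟩)
  exact mem_iUnion₂.2 ⟨f, rfl, mem_iUnion.2 ⟨hfY, hx⟩⟩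

theorem Closed.vadd (h : Closed Φ nm T) : ∀ x ∈ vpart T, ∀ y ∈ vpart T, x + y ∈ vpart T :=
  fun x hx y hy => h.cl (Sum.inl x) hx (Sum.inl y) hy (Or.inl (Or.inl rfl))

theorem Closed.vsmul (h : Closed Φ nm T) :
    ∀ (n : ℕ), ∀ x ∈ vpart T, TopologicalSpace.denseSeq 𝕜 n • x ∈ vpart T :=
  fun n x hx => h.cl (Sum.inl x) hx (Sum.inl x) hx (Or.inl (Or.inr ⟨n, rfl⟩))

theorem Closed.vnm (h : Closed Φ nm T) {x : X} (hx : x ∈ vpart T) : nm x ∈ fpart T :=
  h.cl (Sum.inl x) hx (Sum.inl x) hx (Or.inr rfl)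

/-- The norm closure of the functional part. -/
def Closed.fsub (h : Closed Φ nm T) : Submodule 𝕜 (StrongDual 𝕜 X) :=
  closureSub (fpart T) ⟨0, h.zr⟩ h.fadd h.fsmul

/-- The weak-star closure of the functional part. -/
def Closed.wsub (h : Closed Φ nm T) : Submodule 𝕜 (StrongDual 𝕜 X) := wclSub h.fsub

theorem Closed.coe_wsub (h : Closed Φ nm T) :
    (h.wsub : Set (StrongDual 𝕜 X)) = wcl (fpart T) :=
  Subset.antisymm (wcl_closure_subset _) (wcl_mono subset_closure)

theorem Closed.separates (hΦ : IsProjectionalGenerator Y Φ) (h : Closed Φ nm T)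
    {f : StrongDual 𝕜 X} (hf : f ∈ wcl (fpart T)) (hf0 : ∀ x ∈ vpart T, f x = 0) : f = 0 :=
  hΦ.separates' (A := fpart T) (fun g hg => h.sub g hg) h.fsub rfl hf
    fun _ hy x hx => hf0 x (h.fpull hy (h.sub _ hy) hx)

/-- Closure in `X` of a set closed under addition and a dense set of scalars. -/
def closureSubX (B : Set X) (hne : (0 : X) ∈ B)
    (hadd : ∀ f ∈ B, ∀ g ∈ B, f + g ∈ B)
    (hsmul : ∀ (n : ℕ), ∀ f ∈ B, TopologicalSpace.denseSeq 𝕜 n • f ∈ B) :
    Submodule 𝕜 X :=
  { carrier := closure B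
    add_mem' := by
      intro f g hf hg
      have hcont : Continuous fun p : X × X => p.1 + p.2 := continuous_fst.add continuous_snd
      have hmem : ((f, g) : X × X) ∈ closure (B ×ˢ B) := by
        rw [closure_prod_eq]; exact ⟨hf, hg⟩
      have := image_closure_subset_closure_image hcont (mem_image_of_mem _ hmem)
      refine closure_mono ?_ this
      rintro _ ⟨⟨a, b⟩, ⟨ha, hb⟩, rfl⟩
      exact hadd a ha b hb
    zero_mem' := subset_closure hne
    smul_mem' := by
      intro c f hf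
      have h1 : ∀ f ∈ B, ∀ c : 𝕜, c • f ∈ closure B := by
        intro f hf c
        have hc : c ∈ closure (range (TopologicalSpace.denseSeq 𝕜)) :=
          TopologicalSpace.denseRange_denseSeq 𝕜 c
        have hcont : Continuous fun c : 𝕜 => c • f := continuous_id.smul continuous_const
        have := image_closure_subset_closure_image hcont (mem_image_of_mem _ hc)
        refine closure_mono ?_ this
        rintro _ ⟨_, ⟨n, rfl⟩, rfl⟩
        exact hsmul n f hf
      have hcont : Continuous fun f : X => c • f := continuous_const_smul c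
      have := image_closure_subset_closure_image hcont (mem_image_of_mem _ hf)
      have h2 := closure_mono (s := (fun f : X => c • f) '' B) (t := closure B)
        (by rintro _ ⟨g, hg, rfl⟩; exact h1 g hg c) this
      rwa [closure_closure] at h2 }

/-- Each functional agrees on the vector part of a closed set with an element of the weak-star
closure of the functional part. -/
theorem Closed.exists_eqOn {c : ℝ} (hc : 0 < c)
    (hnm : ∀ x, nm x ∈ Y ∧ ‖nm x‖ ≤ 1 ∧ c * ‖x‖ ≤ ‖nm x x‖) (h : Closed Φ nm T)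
    (z : StrongDual 𝕜 X) : ∃ z' ∈ wcl (fpart T), ∀ b ∈ vpart T, z' b = z b := by
  obtain ⟨z', hz', hb⟩ := exists_mem_wcl_eqOn (M := h.fsub)
    (B := closureSubX (𝕜 := 𝕜) (vpart T) h.zl h.vadd h.vsmul) (K := c⁻¹) (by
      intro b hb w hw
      have hclosed : IsClosed {b : X | ‖b‖ ≤ c⁻¹ * ‖b + w‖} :=
        isClosed_le continuous_norm (continuous_const.mul
          (continuous_norm.comp (continuous_id.add continuous_const)))
      have hsub : vpart T ⊆ {b : X | ‖b‖ ≤ c⁻¹ * ‖b + w‖} := by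
        intro b hb
        have h1 := (hnm b).2.2
        have h2 : nm b w = 0 := hw _ (subset_closure (h.vnm hb))
        have h3 : ‖nm b b‖ ≤ ‖b + w‖ := by
          have h4 : nm b b = nm b (b + w) := by rw [map_add, h2, add_zero]
          rw [h4]
          calc ‖nm b (b + w)‖ ≤ ‖nm b‖ * ‖b + w‖ := (nm b).le_opNorm _
            _ ≤ 1 * ‖b + w‖ := by gcongr; exact (hnm b).2.1
            _ = ‖b + w‖ := one_mul _
        change ‖b‖ ≤ c⁻¹ * ‖b + w‖
        rw [inv_mul_eq_div, le_div_iff₀ hc]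
        linarith
      exact closure_minimal hsub hclosed hb) z
  exact ⟨z', wcl_closure_subset _ hz', fun b hb' => hb b (subset_closure hb')⟩

end Pool.Agent.Work.MP_6c3bcd_an

end

section

namespace Pool.Agent.Work.MP_6c3bcd_an

open Set Topology

variable {𝕜 : Type*} [RCLike 𝕜] {X : Type*} [NormedAddCommGroup X] [NormedSpace 𝕜 X]
variable {Y : Submodule 𝕜 (StrongDual 𝕜 X)} {Φ : Y → Set X} {nm : X → StrongDual 𝕜 X}
variable {ι : Type*} [LinearOrder ι] [WellFoundedLT ι]

/-- The seed at stage `i`. -/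
def seed (𝕜 : Type*) [RCLike 𝕜] {X : Type*} [NormedAddCommGroup X] [NormedSpace 𝕜 X]
    (v : X) : Set (X ⊕ StrongDual 𝕜 X) := {Sum.inl v, Sum.inl 0, Sum.inr 0}

/-- The increasing chain of countable closed sets. -/
noncomputable def chainT (Φ : Y → Set X) (nm : X → StrongDual 𝕜 X) (e : ι → X) :
    ι → Set (X ⊕ StrongDual 𝕜 X) :=
  (wellFounded_lt (α := ι)).fix fun i rec =>
    cls (opT Φ nm) (seed 𝕜 (e i) ∪ ⋃ j : ι, ⋃ hj : j < i, rec j hj)

theorem chainT_eq (e : ι → X) (i : ι) :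
    chainT Φ nm e i =
      cls (opT Φ nm) (seed 𝕜 (e i) ∪ ⋃ j : ι, ⋃ _ : j < i, chainT Φ nm e j) := by
  unfold chainT
  rw [WellFounded.fix_eq]

theorem chainT_mono (e : ι → X) {i j : ι} (h : i ≤ j) : chainT Φ nm e i ⊆ chainT Φ nm e j := by
  rcases h.eq_or_lt with rfl | h
  · exact Subset.rfl
  · rw [chainT_eq e j]
    refine Subset.trans ?_ (subset_cls _ _)
    intro a ha
    exact Or.inr (mem_iUnion.2 ⟨i, mem_iUnion.2 ⟨h, ha⟩⟩)

theorem mem_chainT_e (e : ι → X) (i : ι) : Sum.inl (e i) ∈ chainT Φ nm e i := by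
  rw [chainT_eq e i]
  exact subset_cls _ _ (Or.inl (Or.inl rfl))

theorem chainT_good (hnm : ∀ x, nm x ∈ Y) (e : ι → X) (i : ι) :
    ∀ f, Sum.inr f ∈ chainT Φ nm e i → f ∈ Y := by
  have key : ∀ i, chainT Φ nm e i ⊆ {a | ∀ f, a = Sum.inr f → f ∈ Y} := by
    intro i
    induction i using WellFoundedLT.induction with
    | ind i ih =>
      rw [chainT_eq e i]
      refine cls_min ?_ ?_
      · rintro a (ha | ha) f rfl
        · rcases ha with h | h | h
          · exact absurd h (by simp)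
          · exact absurd h (by simp)
          · have : f = 0 := by simpa using h
            rw [this]
            exact Y.zero_mem
        · obtain ⟨j, hj⟩ := mem_iUnion.1 ha
          obtain ⟨hji, hj⟩ := mem_iUnion.1 hj
          exact ih j hji hj f rfl
      · rintro (x | f) ha (y | g) hb c hc k rfl
        · rcases hc with (hc | ⟨n, hn⟩) | hc
          · exact absurd hc (by simp)
          · exact absurd hn (by simp)
          · have : k = nm x := by simpa using hc
            rw [this]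
            exact hnm x
        · exact absurd hc (by simp [opT])
        · exact absurd hc (by simp [opT])
        · rcases hc with (hc | ⟨n, hn⟩) | ⟨w, _, hw⟩
          · have : k = f + g := by simpa using hc
            rw [this]
            exact Y.add_mem (ha f rfl) (hb g rfl)
          · have : TopologicalSpace.denseSeq 𝕜 n • f = k := by simpa using hn
            rw [← this]
            exact Y.smul_mem _ (ha f rfl)
          · exact absurd hw (by simp)
  intro f hf
  exact key i hf f rfl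

theorem chainT_countable (hΦ : IsProjectionalGenerator Y Φ)
    (hι : ∀ i : ι, (Iic i).Countable) (e : ι → X) (i : ι) : (chainT Φ nm e i).Countable := by
  induction i using WellFoundedLT.induction with
  | ind i ih =>
    rw [chainT_eq e i]
    refine cls_countable (opT_countable hΦ nm) (Countable.union ?_ ?_)
    · exact ((countable_singleton _).insert _).insert _
    · have : (⋃ j : ι, ⋃ _ : j < i, chainT Φ nm e j) = ⋃ j ∈ Iio i, chainT Φ nm e j := rfl
      rw [this]
      exact ((hι i).mono Iio_subset_Iic_self).biUnion fun j hj => ih j hj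

/-- The union of the chain over a set of indices. -/
def uni (Φ : Y → Set X) (nm : X → StrongDual 𝕜 X) (e : ι → X) (S : Set ι) :
    Set (X ⊕ StrongDual 𝕜 X) := ⋃ i ∈ S, chainT Φ nm e i

theorem uni_mono (e : ι → X) {S S' : Set ι} (h : S ⊆ S') :
    uni Φ nm e S ⊆ uni Φ nm e S' := biUnion_subset_biUnion_left h

theorem uni_closed (hnm : ∀ x, nm x ∈ Y) (e : ι → X) {S : Set ι} (hS : S.Nonempty) :
    Closed Φ nm (uni Φ nm e S) := by
  obtain ⟨i₀, hi₀⟩ := hS
  refine ⟨?_, ?_, ?_, ?_⟩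
  · intro a ha b hb
    obtain ⟨i, hi, ha⟩ := mem_iUnion₂.1 ha
    obtain ⟨j, hj, hb⟩ := mem_iUnion₂.1 hb
    rcases le_total i j with hij | hij
    · have ha' := chainT_mono e hij ha
      intro c hc
      refine mem_iUnion₂.2 ⟨j, hj, ?_⟩
      rw [chainT_eq e j] at ha' hb ⊢
      exact cls_closed _ _ ha' hb hc
    · have hb' := chainT_mono e hij hb
      intro c hc
      refine mem_iUnion₂.2 ⟨i, hi, ?_⟩
      rw [chainT_eq e i] at ha hb' ⊢
      exact cls_closed _ _ ha hb' hc
  · refine mem_iUnion₂.2 ⟨i₀, hi₀, ?_⟩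
    rw [chainT_eq e i₀]
    exact subset_cls _ _ (Or.inl (Or.inr (Or.inl rfl)))
  · refine mem_iUnion₂.2 ⟨i₀, hi₀, ?_⟩
    rw [chainT_eq e i₀]
    exact subset_cls _ _ (Or.inl (Or.inr (Or.inr rfl)))
  · intro f hf
    obtain ⟨i, _, hf⟩ := mem_iUnion₂.1 hf
    exact chainT_good hnm e i f hf

theorem fpart_countable {T : Set (X ⊕ StrongDual 𝕜 X)} (h : T.Countable) : (fpart T).Countable :=
  h.preimage Sum.inr_injective

theorem vpart_countable {T : Set (X ⊕ StrongDual 𝕜 X)} (h : T.Countable) : (vpart T).Countable :=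
  h.preimage Sum.inl_injective

/-- The lower set generated by a set of indices. -/
def low (R : Set ι) : Set ι := ⋃ r ∈ R, Iic r

theorem subset_low (R : Set ι) : R ⊆ low R := fun r hr => mem_iUnion₂.2 ⟨r, hr, le_refl r⟩

/-- **Exhaustion.** Each element of `D(Y)` is in the weak-star closure of the functional part of the
union of the chain over a countable nonempty set of indices. -/
theorem exhaust (hΦ : IsProjectionalGenerator Y Φ) {c : ℝ} (hc : 0 < c)
    (hnm : ∀ x, nm x ∈ Y ∧ ‖nm x‖ ≤ 1 ∧ c * ‖x‖ ≤ ‖nm x x‖)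
    (hι : ∀ i : ι, (Iic i).Countable) (i₀ : ι) (e : ι → X) (he : DenseRange e)
    {z : StrongDual 𝕜 X} (hz : z ∈ hull Y) :
    ∃ S : Set ι, S.Countable ∧ S.Nonempty ∧ (∀ i ∈ S, Iic i ⊆ S) ∧
      z ∈ wcl (fpart (uni Φ nm e S)) := by
  obtain ⟨C, hCY, hCc, hzC⟩ := mem_hull_iff.1 hz
  have hJ : ∀ x : X, ∃ J : Set ι, J.Countable ∧ x ∈ closure (e '' J) := by
    intro x
    obtain ⟨u, hu, hlim⟩ := mem_closure_iff_seq_limit.1 (he x)
    choose k hk using hu
    refine ⟨range k, countable_range k, mem_closure_of_tendsto hlim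
      (Filter.Eventually.of_forall fun n => ⟨k n, mem_range_self n, hk n⟩)⟩
  choose J hJc hJcl using hJ
  let g : Set ι → Set ι := fun S =>
    low (S ∪ ⋃ y ∈ qcl (fpart (uni Φ nm e S) ∪ C), ⋃ x ∈ pull Φ {y}, J x)
  let Sn : ℕ → Set ι := fun n => Nat.rec (Iic i₀) (fun _ S => g S) n
  have hSn0 : Sn 0 = Iic i₀ := rfl
  have hSn1 : ∀ n, Sn (n + 1) = g (Sn n) := fun n => rfl
  have hcount : ∀ n, (Sn n).Countable := by
    intro n
    induction n with
    | zero => exact hι i₀
    | succ n ih =>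
      rw [hSn1]
      have huni : (uni Φ nm e (Sn n)).Countable :=
        ih.biUnion fun i _ => chainT_countable hΦ hι e i
      refine Countable.biUnion ?_ fun i _ => hι i
      refine ih.union ((qcl_countable ((fpart_countable huni).union hCc)).biUnion fun y _ => ?_)
      exact (pull_countable hΦ (countable_singleton _)).biUnion fun x _ => hJc x
  have hmono : Monotone Sn := by
    refine monotone_nat_of_le_succ fun n => ?_
    rw [hSn1]
    exact subset_union_left.trans (subset_low _)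
  have hlow : ∀ n, ∀ i ∈ Sn n, Iic i ⊆ Sn n := by
    intro n
    cases n with
    | zero =>
      intro i hi j hj
      exact le_trans hj hi
    | succ n =>
      intro i hi j hj
      rw [hSn1] at hi ⊢
      obtain ⟨r, hr, hir⟩ := mem_iUnion₂.1 hi
      exact mem_iUnion₂.2 ⟨r, hr, le_trans hj hir⟩
  set S : Set ι := ⋃ n, Sn n with hS
  have hSne : S.Nonempty := ⟨i₀, mem_iUnion.2 ⟨0, le_refl i₀⟩⟩
  have hcl : Closed Φ nm (uni Φ nm e S) := uni_closed (fun x => (hnm x).1) e hSne
  refine ⟨S, countable_iUnion hcount, hSne, ?_, ?_⟩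
  · intro i hi
    obtain ⟨n, hn⟩ := mem_iUnion.1 hi
    exact (hlow n i hn).trans (subset_iUnion Sn n)
  · -- the main argument
    set Q : Set (StrongDual 𝕜 X) := fpart (uni Φ nm e S) ∪ C with hQ
    have hQY : Q ⊆ Y := by
      rintro f (hf | hf)
      · exact hcl.sub f hf
      · exact hCY hf
    -- `Φ y` is in the closure of the vector part, for `y ∈ qcl Q`
    have hΦcl : ∀ y (hy : y ∈ qcl Q), ∀ x ∈ Φ ⟨y, qcl_subset_submodule hQY hy⟩,
        x ∈ closure (vpart (uni Φ nm e S)) := by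
      intro y hy x hx
      obtain ⟨F, hF, hyF⟩ := qcl_finite hy
      have hex : ∃ n, (F : Set (StrongDual 𝕜 X)) ⊆ fpart (uni Φ nm e (Sn n)) ∪ C := by
        have : ∀ F : Finset (StrongDual 𝕜 X), (F : Set (StrongDual 𝕜 X)) ⊆ Q →
            ∃ n, (F : Set (StrongDual 𝕜 X)) ⊆ fpart (uni Φ nm e (Sn n)) ∪ C := by
          classical
          intro F
          induction F using Finset.induction_on with
          | empty => exact fun _ => ⟨0, by simp⟩
          | insert a F _ ih =>
            intro hF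
            rw [Finset.coe_insert] at hF
            obtain ⟨n, hn⟩ := ih ((subset_insert _ _).trans hF)
            have ha : ∃ m, a ∈ fpart (uni Φ nm e (Sn m)) ∪ C := by
              rcases hF (mem_insert _ _) with h | h
              · obtain ⟨i, hi, hai⟩ := mem_iUnion₂.1 h
                obtain ⟨m, hm⟩ := mem_iUnion.1 hi
                exact ⟨m, Or.inl (mem_iUnion₂.2 ⟨i, hm, hai⟩)⟩
              · exact ⟨0, Or.inr h⟩
            obtain ⟨m, hm⟩ := ha
            have hmon : ∀ {k l : ℕ}, k ≤ l →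
                fpart (uni Φ nm e (Sn k)) ∪ C ⊆ fpart (uni Φ nm e (Sn l)) ∪ C := by
              intro k l hkl
              refine union_subset_union_left _ ?_
              exact preimage_mono (f := Sum.inr) (uni_mono e (hmono hkl))
            refine ⟨max n m, ?_⟩
            rw [Finset.coe_insert]
            refine insert_subset (hmon (le_max_right _ _) hm) (hn.trans (hmon (le_max_left _ _)))
        exact this F hF
      obtain ⟨n, hn⟩ := hex
      have hyn : y ∈ qcl (fpart (uni Φ nm e (Sn n)) ∪ C) := qcl_mono hn hyF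
      have hJsub : J x ⊆ Sn (n + 1) := by
        rw [hSn1]
        refine Subset.trans ?_ (subset_low _)
        refine Subset.trans ?_ subset_union_right
        intro j hj
        refine mem_iUnion₂.2 ⟨y, hyn, mem_iUnion₂.2 ⟨x, ?_, hj⟩⟩
        exact mem_iUnion₂.2 ⟨y, rfl, mem_iUnion.2 ⟨qcl_subset_submodule hQY hy, hx⟩⟩
      refine closure_mono ?_ (hJcl x)
      rintro _ ⟨j, hj, rfl⟩
      have hjS : j ∈ S := mem_iUnion.2 ⟨n + 1, hJsub hj⟩
      exact mem_iUnion₂.2 ⟨j, hjS, mem_chainT_e e j⟩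
    obtain ⟨z', hz', hzz'⟩ := hcl.exists_eqOn hc hnm z
    have hw : z - z' ∈ wcl (qcl Q) := by
      have h1 : z ∈ wqSub Q := by
        rw [← SetLike.mem_coe, coe_wqSub]
        exact wcl_mono (subset_union_right.trans (subset_qcl Q)) hzC
      have h2 : z' ∈ wqSub Q := by
        rw [← SetLike.mem_coe, coe_wqSub]
        exact wcl_mono (subset_union_left.trans (subset_qcl Q)) hz'
      have h3 := (wqSub Q).sub_mem h1 h2
      rwa [← SetLike.mem_coe, coe_wqSub] at h3
    have hw0 : ∀ x ∈ closure (vpart (uni Φ nm e S)), (z - z') x = 0 := by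
      have hclosed : IsClosed {x : X | (z - z') x = 0} :=
        isClosed_eq (z - z').continuous continuous_const
      refine fun x hx => closure_minimal (fun x hx => ?_) hclosed hx
      change (z - z') x = 0
      rw [sub_apply, hzz' x hx, sub_self]
    have hzero : z - z' = 0 :=
      hΦ.separates_qcl hQY hw fun y hy x hx => hw0 x (hΦcl y hy x hx)
    rw [sub_eq_zero.1 hzero]
    exact hz'

end Pool.Agent.Work.MP_6c3bcd_an

end
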