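import Pool.Agent.Work.MP_6c3bcd_an.Bd.B02
import Pool.Agent.Work.MP_6c3bcd_an.Bd.B05

/-! Bundle of small proof modules (one section per former module). -/

section

namespace Pool.Agent.Work.MP_6c3bcd_an

open Set Topology

variable {𝕜 : Type*} [RCLike 𝕜] {X : Type*} [NormedAddCommGroup X] [NormedSpace 𝕜 X]

/-- Extension criterion when `Y` is norm closed. -/
theorem extension_closed {Y : Submodule 𝕜 (StrongDual 𝕜 X)} {Φ : Y → Set X}
    (hΦ : IsProjectionalGenerator Y Φ) (hY : IsClosed (Y : Set (StrongDual 𝕜 X)))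
    (N : StrongDual 𝕜 X → Set X)
    (hNc : ∀ z ∈ hull Y, (N z).Countable)
    (hN : ∀ L : Submodule 𝕜 (StrongDual 𝕜 X), L ≤ hull Y → ¬ L ≤ Y →
      ∀ A : Set (StrongDual 𝕜 X), A ⊆ L → (L : Set (StrongDual 𝕜 X)) ⊆ closure A →
      ∀ f ∈ wcl (L : Set (StrongDual 𝕜 X)), (∀ a ∈ A, ∀ x ∈ N a, f x = 0) → f = 0) :
    ∃ Ψ : hull Y → Set X, IsProjectionalGenerator (hull Y) Ψ ∧
      ∀ y : Y, Ψ ⟨y, le_hull Y y.2⟩ = Φ y := by
  refine extension_base hΦ N hNc ?_
  intro L hL A₀ hA₀ A₁ hA₁ hcl hne f hf hfN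
  have hA₁L : A₁ ⊆ L := by
    rw [← hcl]; exact subset_union_right.trans subset_closure
  have hLY : ¬ L ≤ Y := by
    intro h
    apply hne
    have hA₁e : A₁ = ∅ := by
      rw [eq_empty_iff_forall_notMem]
      intro a ha
      exact hA₁ a ha (h (hA₁L ha))
    rw [← hcl, hA₁e, union_empty]
  refine hN L hL hLY A₁ hA₁L ?_ f hf hfN
  intro l hl
  rw [mem_closure_iff]
  intro U hU hlU
  obtain ⟨u, hu, huY⟩ := exists_mem_open_not_mem hLY hU ⟨l, hlU, hl⟩
  have huL : u ∈ closure (A₀ ∪ A₁) := by rw [hcl]; exact hu.2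
  obtain ⟨a, ⟨haU, haY⟩, ha⟩ := mem_closure_iff.1 huL (U ∩ (Y : Set (StrongDual 𝕜 X))ᶜ)
    (hU.inter hY.isOpen_compl) ⟨hu.1, huY⟩
  rcases ha with ha | ha
  · exact absurd (hA₀ ha) haY
  · exact ⟨a, haU, ha⟩

/-- For norm closed `Y`, a generator with domain `D(Y)` gives one extending the given one. -/
theorem closed_equiv {Y : Submodule 𝕜 (StrongDual 𝕜 X)} {Φ : Y → Set X}
    (hΦ : IsProjectionalGenerator Y Φ) (hY : IsClosed (Y : Set (StrongDual 𝕜 X)))
    {Θ : hull Y → Set X} (hΘ : IsProjectionalGenerator (hull Y) Θ) :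
    ∃ Ψ : hull Y → Set X, IsProjectionalGenerator (hull Y) Ψ ∧
      ∀ y : Y, Ψ ⟨y, le_hull Y y.2⟩ = Φ y := by
  refine extension_closed hΦ hY (fun z => pull Θ {z}) ?_ ?_
  · intro z _
    exact pull_countable hΘ (countable_singleton z)
  · intro L hL _ A hA hLA f hf hfN
    have hAH : A ⊆ (hull Y : Set (StrongDual 𝕜 X)) := hA.trans hL
    have hclA : closure A ⊆ (hull Y : Set (StrongDual 𝕜 X)) :=
      (isClosed_hull Y).closure_subset_iff.2 hAH
    -- the closure of `A` might be larger than `L` if `L` is not closed; use the closure of `L`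
    have hclL : closure A = ((L.topologicalClosure : Submodule 𝕜 (StrongDual 𝕜 X)) :
        Set (StrongDual 𝕜 X)) := by
      rw [Submodule.topologicalClosure_coe]
      exact Subset.antisymm (closure_mono hA) (closure_minimal hLA isClosed_closure)
    refine hΘ.separates' hAH L.topologicalClosure hclL ?_ ?_
    · exact wcl_subset_of_subset_wcl (hLA.trans (closure_subset_wcl A)) hf
    · intro y hy x hx
      refine hfN y hy x (mem_iUnion₂.2 ⟨y, rfl, mem_iUnion.2 ⟨hAH hy, hx⟩⟩)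

/-- If `Y` is closed and `Y + S` is dense in `H ⊇ Y` with `S` countable, then `H = Y + W` with `W`
a separable subspace of `H`. -/
theorem exists_separable_complement {E : Type*} [NormedAddCommGroup E] [NormedSpace 𝕜 E]
    [CompleteSpace E] {Y H : Submodule 𝕜 E} (hYH : Y ≤ H) (hY : IsClosed (Y : Set E))
    (hH : IsClosed (H : Set E)) {S : Set E} (hS : S.Countable) (hSH : S ⊆ H)
    (hdense : ∀ z ∈ H, ∀ ε > 0, ∃ y ∈ Y, ∃ s ∈ S, ‖z - y - s‖ < ε) :
    ∃ W : Submodule 𝕜 E, W ≤ H ∧ TopologicalSpace.IsSeparable (W : Set E) ∧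
      ∀ z ∈ H, ∃ y ∈ Y, ∃ w ∈ W, z = y + w := by
  classical
  -- almost optimal representatives
  have hrep : ∀ (s : E) (k : ℕ), ∃ y ∈ Y, ‖s - y‖ < Metric.infDist s Y + (1 / 2) ^ k := by
    intro s k
    obtain ⟨y, hy, hlt⟩ := (Metric.infDist_lt_iff ⟨0, Y.zero_mem⟩).1
      (show Metric.infDist s (Y : Set E) < Metric.infDist s Y + (1 / 2) ^ k by
        have : (0 : ℝ) < (1 / 2) ^ k := by positivity
        linarith)
    exact ⟨y, hy, by rwa [← dist_eq_norm]⟩
  choose r hrY hr using hrep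
  let S' : Set E := (fun p : E × ℕ => p.1 - r p.1 p.2) '' (S ×ˢ univ)
  have hS'c : S'.Countable := (hS.prod countable_univ).image _
  have hS'H : S' ⊆ H := by
    rintro _ ⟨⟨s, k⟩, ⟨hs, _⟩, rfl⟩
    exact H.sub_mem (hSH hs) (hYH (hrY s k))
  let W : Submodule 𝕜 E := (Submodule.span 𝕜 S').topologicalClosure
  have hWH : W ≤ H :=
    Submodule.topologicalClosure_minimal _ (Submodule.span_le.2 hS'H) hH
  have hWsep : TopologicalSpace.IsSeparable (W : Set E) := by
    have h1 : TopologicalSpace.IsSeparable (Submodule.span 𝕜 S' : Set E) :=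
      hS'c.isSeparable.span
    rw [show (W : Set E) = closure (Submodule.span 𝕜 S' : Set E) from
      Submodule.topologicalClosure_coe _]
    exact h1.closure
  refine ⟨W, hWH, hWsep, ?_⟩
  -- one step
  have hstep : ∀ (z : E) (n : ℕ), ∃ p : E × E, z ∈ H →
      (p.1 ∈ Y ∧ p.2 ∈ S' ∧ ‖z - p.1 - p.2‖ ≤ (1 / 2) ^ n ∧ ‖p.2‖ ≤ ‖z‖ + 2 * (1 / 2) ^ n) := by
    intro z n
    by_cases hz : z ∈ H
    · obtain ⟨y, hy, s, hs, hlt⟩ := hdense z hz ((1 / 2) ^ n) (by positivity)
      refine ⟨(y + r s n, s - r s n), fun _ => ⟨Y.add_mem hy (hrY s n), ⟨(s, n), ⟨hs, mem_univ _⟩,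
        rfl⟩, ?_, ?_⟩⟩
      · have : z - (y + r s n) - (s - r s n) = z - y - s := by abel
        change ‖z - (y + r s n) - (s - r s n)‖ ≤ _
        rw [this]
        exact hlt.le
      · have h1 : Metric.infDist s (Y : Set E) ≤ ‖z‖ + (1 / 2) ^ n := by
          calc Metric.infDist s (Y : Set E) ≤ dist s (-y) :=
                Metric.infDist_le_dist_of_mem (Y.neg_mem hy)
            _ = ‖s + y‖ := by rw [dist_eq_norm, sub_neg_eq_add]
            _ = ‖z - (z - y - s)‖ := by congr 1; abel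
            _ ≤ ‖z‖ + ‖z - y - s‖ := norm_sub_le _ _
            _ ≤ ‖z‖ + (1 / 2) ^ n := by linarith
        have h2 := (hr s n).le
        change ‖s - r s n‖ ≤ _
        linarith
    · exact ⟨0, fun h => absurd h hz⟩
  choose p hp using hstep
  intro z hz
  let zs : ℕ → E := fun n => Nat.rec z (fun n z' => z' - (p z' n).1 - (p z' n).2) n
  have hzs0 : zs 0 = z := rfl
  have hzs1 : ∀ n, zs (n + 1) = zs n - (p (zs n) n).1 - (p (zs n) n).2 := fun n => rfl
  have hzsH : ∀ n, zs n ∈ H := by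
    intro n
    induction n with
    | zero => exact hz
    | succ n ih =>
      rw [hzs1]
      exact H.sub_mem (H.sub_mem ih (hYH (hp _ n ih).1)) (hS'H (hp _ n ih).2.1)
  have hzsn : ∀ n, ‖zs (n + 1)‖ ≤ (1 / 2) ^ n := by
    intro n
    rw [hzs1]
    exact (hp _ n (hzsH n)).2.2.1
  let ss : ℕ → E := fun n => (p (zs n) n).2
  have hssW : ∀ n, ss n ∈ W := fun n =>
    Submodule.le_topologicalClosure _ (Submodule.subset_span (hp _ n (hzsH n)).2.1)
  have hss : Summable ss := by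
    rw [← summable_nat_add_iff 1]
    refine Summable.of_norm_bounded (g := fun n : ℕ => 3 * (1 / 2 : ℝ) ^ n)
      ((summable_geometric_two).mul_left 3) ?_
    intro n
    have h1 : ‖ss (n + 1)‖ ≤ ‖zs (n + 1)‖ + 2 * (1 / 2) ^ (n + 1) := (hp _ _ (hzsH (n + 1))).2.2.2
    have h2 := hzsn n
    have h3 : (1 / 2 : ℝ) ^ (n + 1) ≤ (1 / 2) ^ n := by
      rw [pow_succ]
      have : (0 : ℝ) < (1 / 2) ^ n := by positivity
      linarith
    linarith
  have htend := hss.hasSum.tendsto_sum_nat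
  have hwW : ∑' n, ss n ∈ W := by
    have hWc : IsClosed (W : Set E) := Submodule.isClosed_topologicalClosure _
    exact hWc.mem_of_tendsto htend (Filter.Eventually.of_forall fun n =>
      W.sum_mem fun i _ => hssW i)
  refine ⟨z - ∑' n, ss n, ?_, ∑' n, ss n, hwW, by abel⟩
  -- partial sums of the `Y`-parts
  have hpart : ∀ n, z - zs n - ∑ i ∈ Finset.range n, ss i ∈ Y := by
    intro n
    induction n with
    | zero => rw [hzs0]; simp
    | succ n ih =>
      have : z - zs (n + 1) - ∑ i ∈ Finset.range (n + 1), ss i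
          = (z - zs n - ∑ i ∈ Finset.range n, ss i) + (p (zs n) n).1 := by
        rw [hzs1, Finset.sum_range_succ]
        abel
      rw [this]
      exact Y.add_mem ih (hp _ n (hzsH n)).1
  have hzs_tend : Filter.Tendsto zs Filter.atTop (𝓝 0) := by
    rw [← Filter.tendsto_add_atTop_iff_nat 1]
    refine squeeze_zero_norm hzsn ?_
    exact tendsto_pow_atTop_nhds_zero_of_lt_one (by norm_num) (by norm_num)
  have hlim : Filter.Tendsto (fun n => z - zs n - ∑ i ∈ Finset.range n, ss i) Filter.atTop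
      (𝓝 (z - 0 - ∑' n, ss n)) := (tendsto_const_nhds.sub hzs_tend).sub htend
  rw [sub_zero] at hlim
  exact hY.mem_of_tendsto hlim (Filter.Eventually.of_forall hpart)

end Pool.Agent.Work.MP_6c3bcd_an

end

section

namespace Pool.Agent.Work.MP_6c3bcd_an

open Set Topology

variable {𝕜 : Type*} [RCLike 𝕜] {X : Type*} [NormedAddCommGroup X] [NormedSpace 𝕜 X]

/-- Elements of `qcl (insert y C)` for `C` closed under the operations. -/
theorem qcl_insert_form {C : Set (StrongDual 𝕜 X)} (hC0 : (0 : StrongDual 𝕜 X) ∈ C)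
    (hCadd : ∀ f ∈ C, ∀ g ∈ C, f + g ∈ C)
    (hCsmul : ∀ (n : ℕ), ∀ f ∈ C, TopologicalSpace.denseSeq 𝕜 n • f ∈ C)
    {y b : StrongDual 𝕜 X} (hb : b ∈ qcl (insert y C)) :
    ∃ (t : 𝕜), ∃ c ∈ C, b = t • y + c := by
  have hsub : qcl (insert y C) ⊆ {b | ∃ (t : 𝕜), ∃ c ∈ C, b = t • y + c} := by
    have hzero : (0 : 𝕜) • y = 0 := zero_smul 𝕜 y
    refine cls_min ?_ ?_
    · rintro a (rfl | rfl | ha)
      · exact ⟨0, 0, hC0, by rw [hzero, add_zero]⟩
      · exact ⟨1, 0, hC0, by rw [one_smul, add_zero]⟩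
      · exact ⟨0, a, ha, by rw [hzero, zero_add]⟩
    · rintro a ⟨t, c, hc, rfl⟩ b ⟨t', c', hc', rfl⟩ d (hd | ⟨n, rfl⟩)
      · rw [mem_singleton_iff] at hd
        refine ⟨t + t', c + c', hCadd c hc c' hc', ?_⟩
        have e : (t + t') • y = t • y + t' • y := add_smul t t' y
        rw [hd, e]
        abel
      · refine ⟨TopologicalSpace.denseSeq 𝕜 n * t, TopologicalSpace.denseSeq 𝕜 n • c,
          hCsmul n c hc, ?_⟩
        change TopologicalSpace.denseSeq 𝕜 n • (t • y + c) = _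
        rw [smul_add, smul_smul]
  exact hsub hb

/-- A separable subspace `W` of `D(Y)` is controlled by a countable subset of `Y`. -/
theorem exists_control {Y : Submodule 𝕜 (StrongDual 𝕜 X)} {W : Submodule 𝕜 (StrongDual 𝕜 X)}
    (hW : W ≤ hull Y) (hWsep : TopologicalSpace.IsSeparable (W : Set (StrongDual 𝕜 X))) :
    ∃ C : Set (StrongDual 𝕜 X), C ⊆ Y ∧ C.Countable ∧ (0 : StrongDual 𝕜 X) ∈ C ∧
      (∀ f ∈ C, ∀ g ∈ C, f + g ∈ C) ∧
      (∀ (n : ℕ), ∀ f ∈ C, TopologicalSpace.denseSeq 𝕜 n • f ∈ C) ∧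
      (W : Set (StrongDual 𝕜 X)) ⊆ wcl C ∧
      ∀ w ∈ W, ∀ y ∈ Y, ∀ δ > 0, ∃ c ∈ C, ‖w - c‖ < ‖w - y‖ + δ := by
  obtain ⟨C₀, hC₀Y, hC₀c, hC₀⟩ := exists_countable_of_isSeparable hW hWsep
  obtain ⟨t, htW, htc, hWt⟩ := hWsep.exists_countable_dense_subset
  have hrep : ∀ (s : StrongDual 𝕜 X) (k : ℕ), ∃ y ∈ Y,
      ‖s - y‖ < Metric.infDist s (Y : Set (StrongDual 𝕜 X)) + (1 / 2) ^ k := by
    intro s k
    obtain ⟨y, hy, hlt⟩ := (Metric.infDist_lt_iff ⟨0, Y.zero_mem⟩).1
      (show Metric.infDist s (Y : Set (StrongDual 𝕜 X)) <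
          Metric.infDist s (Y : Set (StrongDual 𝕜 X)) + (1 / 2) ^ k by
        have : (0 : ℝ) < (1 / 2) ^ k := by positivity
        linarith)
    exact ⟨y, hy, by rwa [← dist_eq_norm]⟩
  choose r hrY hr using hrep
  let C₁ : Set (StrongDual 𝕜 X) :=
    (fun p : StrongDual 𝕜 X × ℕ => r p.1 p.2) '' (t ×ˢ univ)
  have hC₁c : C₁.Countable := (htc.prod countable_univ).image _
  have hC₁Y : C₁ ⊆ Y := by
    rintro _ ⟨⟨s, k⟩, _, rfl⟩
    exact hrY s k
  refine ⟨qcl (C₀ ∪ C₁), qcl_subset_submodule (union_subset hC₀Y hC₁Y),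
    qcl_countable (hC₀c.union hC₁c), subset_cls _ _ (mem_insert _ _), qcl_add _, qcl_smul _,
    hC₀.trans (wcl_mono (subset_union_left.trans (subset_qcl _))), ?_⟩
  intro w hw y hy δ hδ
  obtain ⟨s, hs, hws⟩ := Metric.mem_closure_iff.1 (hWt hw) (δ / 4) (by positivity)
  obtain ⟨k, hk⟩ := exists_pow_lt_of_lt_one (show (0 : ℝ) < δ / 4 by positivity)
    (show (1 / 2 : ℝ) < 1 by norm_num)
  refine ⟨r s k, subset_qcl _ (Or.inr ⟨(s, k), ⟨hs, mem_univ _⟩, rfl⟩), ?_⟩
  rw [dist_eq_norm] at hws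
  have h1 : Metric.infDist s (Y : Set (StrongDual 𝕜 X)) ≤ ‖s - y‖ := by
    rw [← dist_eq_norm]
    exact Metric.infDist_le_dist_of_mem hy
  have h2 : ‖s - y‖ ≤ ‖w - s‖ + ‖w - y‖ := by
    calc ‖s - y‖ = ‖(w - y) - (w - s)‖ := by congr 1; abel
      _ ≤ ‖w - y‖ + ‖w - s‖ := norm_sub_le _ _
      _ = ‖w - s‖ + ‖w - y‖ := add_comm _ _
  have h3 : ‖w - r s k‖ ≤ ‖w - s‖ + ‖s - r s k‖ := norm_sub_le_norm_sub_add_norm_sub _ _ _
  have h4 := hr s k
  linarith

/-- **The case where `Y` is norm closed and `D(Y)/Y` is norm separable.** -/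
theorem codim_extension {Y : Submodule 𝕜 (StrongDual 𝕜 X)} {Φ : Y → Set X}
    (hΦ : IsProjectionalGenerator Y Φ) (hY : IsClosed (Y : Set (StrongDual 𝕜 X)))
    {S : Set (StrongDual 𝕜 X)} (hS : S.Countable) (hSH : S ⊆ hull Y)
    (hdense : ∀ z ∈ hull Y, ∀ ε > 0, ∃ y ∈ Y, ∃ s ∈ S, ‖z - y - s‖ < ε) :
    ∃ Ψ : hull Y → Set X, IsProjectionalGenerator (hull Y) Ψ ∧
      ∀ y : Y, Ψ ⟨y, le_hull Y y.2⟩ = Φ y := by
  classical
  obtain ⟨W, hWH, hWsep, hsum⟩ := exists_separable_complement (le_hull Y) hY (isClosed_hull Y)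
    hS hSH hdense
  obtain ⟨C, hCY, hCc, hC0, hCadd, hCsmul, hWC, hctl⟩ := exists_control hWH hWsep
  have hsum' : ∀ z : StrongDual 𝕜 X, ∃ p : StrongDual 𝕜 X × StrongDual 𝕜 X,
      p.1 ∈ Y ∧ p.2 ∈ W ∧ (z ∈ hull Y → z = p.1 + p.2) := by
    intro z
    by_cases hz : z ∈ hull Y
    · obtain ⟨y, hy, w, hw, h⟩ := hsum z hz
      exact ⟨(y, w), hy, hw, fun _ => h⟩
    · exact ⟨(0, 0), Y.zero_mem, W.zero_mem, fun h => absurd h hz⟩
  choose p hpY hpW hp using hsum'
  have hinsY : ∀ z, insert (p z).1 C ⊆ (Y : Set (StrongDual 𝕜 X)) := fun z =>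
    insert_subset (hpY z) hCY
  refine extension_closed hΦ hY (fun z => pull Φ (qcl (insert (p z).1 C))) ?_ ?_
  · intro z _
    exact pull_countable hΦ (qcl_countable (hCc.insert _))
  · intro L hL hLY A hA hLA f hf hfN
    set B : Set (StrongDual 𝕜 X) := ⋃ a ∈ A, qcl (insert (p a).1 C) with hB
    have hBY : B ⊆ Y := iUnion₂_subset fun a _ => qcl_subset_submodule (hinsY a)
    have hAne : A.Nonempty := by
      by_contra hcon
      rw [not_nonempty_iff_eq_empty] at hcon
      rw [hcon, closure_empty] at hLA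
      exact hLA L.zero_mem
    -- the closure of `B` is closed under addition
    have hadd0 : ∀ b ∈ B, ∀ b' ∈ B, b + b' ∈ closure B := by
      intro b hb b' hb'
      obtain ⟨a, ha, hb⟩ := mem_iUnion₂.1 hb
      obtain ⟨a', ha', hb'⟩ := mem_iUnion₂.1 hb'
      obtain ⟨t, c, hc, rfl⟩ := qcl_insert_form hC0 hCadd hCsmul hb
      obtain ⟨t', c', hc', rfl⟩ := qcl_insert_form hC0 hCadd hCsmul hb'
      rw [Metric.mem_closure_iff]
      intro ε hε
      have hmem : t • a + t' • a' ∈ L := L.add_mem (L.smul_mem t (hA ha)) (L.smul_mem t' (hA ha'))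
      obtain ⟨a'', ha'', hdist⟩ := Metric.mem_closure_iff.1 (hLA hmem) (ε / 3) (by positivity)
      rw [dist_eq_norm] at hdist
      have e1 := hp a (hL (hA ha))
      have e2 := hp a' (hL (hA ha'))
      have e3 := hp a'' (hL (hA ha''))
      set w : StrongDual 𝕜 X := (p a'').2 - t • (p a).2 - t' • (p a').2 with hw
      have hwW : w ∈ W := W.sub_mem (W.sub_mem (hpW a'') (W.smul_mem t (hpW a)))
        (W.smul_mem t' (hpW a'))
      set y₁ : StrongDual 𝕜 X := t • (p a).1 + t' • (p a').1 - (p a'').1 with hy₁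
      have hy₁Y : y₁ ∈ Y := Y.sub_mem (Y.add_mem (Y.smul_mem t (hpY a)) (Y.smul_mem t' (hpY a')))
        (hpY a'')
      have hkey : t • a + t' • a' - a'' = y₁ - w := by
        conv_lhs => rw [e1, e2, e3]
        rw [hy₁, hw, smul_add, smul_add]
        abel
      have hnorm : ‖w - y₁‖ < ε / 3 := by
        rw [norm_sub_rev, ← hkey]
        exact hdist
      obtain ⟨c'', hc'', hwc⟩ := hctl w hwW y₁ hy₁Y (ε / 3) (by positivity)
      refine ⟨(p a'').1 + (c'' + (c + c')), mem_iUnion₂.2 ⟨a'', ha'', ?_⟩, ?_⟩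
      · refine qcl_add _ _ (subset_qcl _ (mem_insert _ _)) _ (subset_qcl _ (mem_insert_of_mem _ ?_))
        exact hCadd _ hc'' _ (hCadd _ hc _ hc')
      · rw [dist_eq_norm]
        have : t • (p a).1 + c + (t' • (p a').1 + c') - ((p a'').1 + (c'' + (c + c')))
            = (w - c'') - (w - y₁) := by
          rw [hy₁]
          abel
        rw [this]
        calc ‖(w - c'') - (w - y₁)‖ ≤ ‖w - c''‖ + ‖w - y₁‖ := norm_sub_le _ _
          _ < ε := by linarith
    have hadd : ∀ b ∈ closure B, ∀ b' ∈ closure B, b + b' ∈ closure B := by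
      intro b hb b' hb'
      have hcont : Continuous fun q : StrongDual 𝕜 X × StrongDual 𝕜 X => q.1 + q.2 :=
        continuous_fst.add continuous_snd
      have hmem : ((b, b') : StrongDual 𝕜 X × StrongDual 𝕜 X) ∈ closure (B ×ˢ B) := by
        rw [closure_prod_eq]; exact ⟨hb, hb'⟩
      have h1 := image_closure_subset_closure_image hcont (mem_image_of_mem _ hmem)
      have h2 := closure_mono (s := (fun q : StrongDual 𝕜 X × StrongDual 𝕜 X => q.1 + q.2) ''
        (B ×ˢ B)) (t := closure B) (by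
          rintro _ ⟨⟨u, v⟩, ⟨hu, hv⟩, rfl⟩
          exact hadd0 u hu v hv) h1
      rwa [closure_closure] at h2
    have hsmul : ∀ (n : ℕ), ∀ b ∈ closure B, TopologicalSpace.denseSeq 𝕜 n • b ∈ closure B := by
      intro n b hb
      have hcont : Continuous fun q : StrongDual 𝕜 X => TopologicalSpace.denseSeq 𝕜 n • q :=
        continuous_const_smul _
      have h1 := image_closure_subset_closure_image hcont (mem_image_of_mem _ hb)
      refine closure_mono ?_ h1
      rintro _ ⟨q, hq, rfl⟩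
      obtain ⟨a, ha, hq⟩ := mem_iUnion₂.1 hq
      exact mem_iUnion₂.2 ⟨a, ha, qcl_smul _ n q hq⟩
    have hBne : (closure B).Nonempty := by
      obtain ⟨a, ha⟩ := hAne
      exact ⟨_, subset_closure (mem_iUnion₂.2 ⟨a, ha, subset_qcl _ (mem_insert _ _)⟩)⟩
    let M : Submodule 𝕜 (StrongDual 𝕜 X) := closureSub (closure B) hBne hadd hsmul
    have hM : (M : Set (StrongDual 𝕜 X)) = closure B := by
      rw [coe_closureSub, closure_closure]
    have hMw : ((wclSub M : Submodule 𝕜 (StrongDual 𝕜 X)) : Set (StrongDual 𝕜 X)) = wcl B := by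
      rw [coe_wclSub, hM]
      exact Subset.antisymm (wcl_closure_subset B) (wcl_mono subset_closure)
    have hAw : A ⊆ wcl B := by
      intro a ha
      rw [← hMw]
      rw [hp a (hL (hA ha))]
      refine (wclSub M).add_mem ?_ ?_
      · rw [← SetLike.mem_coe, hMw]
        exact subset_wcl _ (mem_iUnion₂.2 ⟨a, ha, subset_qcl _ (mem_insert _ _)⟩)
      · rw [← SetLike.mem_coe, hMw]
        refine wcl_mono ?_ (hWC (hpW a))
        intro c hc
        exact mem_iUnion₂.2 ⟨a, ha, subset_qcl _ (mem_insert_of_mem _ hc)⟩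
    have hfB : f ∈ wcl B := by
      refine wcl_subset_of_subset_wcl ?_ hf
      refine hLA.trans ((closure_mono hAw).trans ((closure_subset_wcl _).trans wcl_wcl_subset))
    refine hΦ.separates' hBY M hM.symm hfB ?_
    intro y hy x hx
    obtain ⟨a, ha, hya⟩ := mem_iUnion₂.1 hy
    exact hfN a ha x (mem_iUnion₂.2 ⟨y, hya, mem_iUnion.2 ⟨hBY hy, hx⟩⟩)

end Pool.Agent.Work.MP_6c3bcd_an

end

section

namespace Pool.Agent.Work.MP_6c3bcd_an

open Set Topology

variable {𝕜 : Type*} [RCLike 𝕜]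

/-- Decomposition lemma with explicit almost optimal representatives. -/
theorem exists_decomp {E : Type*} [NormedAddCommGroup E] [NormedSpace 𝕜 E]
    [CompleteSpace E] {Y : Submodule 𝕜 E} (hY : IsClosed (Y : Set E)) {S : Set E}
    {r : E → ℕ → E} (hrY : ∀ s k, r s k ∈ Y)
    (hr : ∀ s k, ‖s - r s k‖ < Metric.infDist s (Y : Set E) + (1 / 2) ^ k)
    {H : Submodule 𝕜 E} (hYH : Y ≤ H) (hSH : S ⊆ H)
    (hdense : ∀ z ∈ H, ∀ ε > 0, ∃ y ∈ Y, ∃ s ∈ S, ‖z - y - s‖ < ε) {z : E} (hz : z ∈ H) :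
    ∃ y ∈ Y, ∃ w ∈ closure (Submodule.span 𝕜 (⋃ s ∈ S, range fun k : ℕ => s - r s k) : Set E),
      z = y + w := by
  classical
  set S' : Set E := ⋃ s ∈ S, range fun k : ℕ => s - r s k with hS'
  have hS'H : S' ⊆ H := by
    intro v hv
    obtain ⟨s, hs, k, rfl⟩ := mem_iUnion₂.1 hv
    exact H.sub_mem (hSH hs) (hYH (hrY s k))
  let W : Submodule 𝕜 E := (Submodule.span 𝕜 S').topologicalClosure
  have hWcl : (W : Set E) = closure (Submodule.span 𝕜 S' : Set E) :=
    Submodule.topologicalClosure_coe _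
  have hstep : ∀ (z : E) (n : ℕ), ∃ p : E × E, z ∈ H →
      (p.1 ∈ Y ∧ p.2 ∈ S' ∧ ‖z - p.1 - p.2‖ ≤ (1 / 2) ^ n ∧ ‖p.2‖ ≤ ‖z‖ + 2 * (1 / 2) ^ n) := by
    intro z n
    by_cases hz : z ∈ H
    · obtain ⟨y, hy, s, hs, hlt⟩ := hdense z hz ((1 / 2) ^ n) (by positivity)
      refine ⟨(y + r s n, s - r s n), fun _ => ⟨Y.add_mem hy (hrY s n),
        mem_iUnion₂.2 ⟨s, hs, n, rfl⟩, ?_, ?_⟩⟩
      · have : z - (y + r s n) - (s - r s n) = z - y - s := by abel
        change ‖z - (y + r s n) - (s - r s n)‖ ≤ _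
        rw [this]
        exact hlt.le
      · have h1 : Metric.infDist s (Y : Set E) ≤ ‖z‖ + (1 / 2) ^ n := by
          calc Metric.infDist s (Y : Set E) ≤ dist s (-y) :=
                Metric.infDist_le_dist_of_mem (Y.neg_mem hy)
            _ = ‖s + y‖ := by rw [dist_eq_norm, sub_neg_eq_add]
            _ = ‖z - (z - y - s)‖ := by congr 1; abel
            _ ≤ ‖z‖ + ‖z - y - s‖ := norm_sub_le _ _
            _ ≤ ‖z‖ + (1 / 2) ^ n := by linarith
        have h2 := (hr s n).le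
        change ‖s - r s n‖ ≤ _
        linarith
    · exact ⟨0, fun h => absurd h hz⟩
  choose p hp using hstep
  let zs : ℕ → E := fun n => Nat.rec z (fun n z' => z' - (p z' n).1 - (p z' n).2) n
  have hzs0 : zs 0 = z := rfl
  have hzs1 : ∀ n, zs (n + 1) = zs n - (p (zs n) n).1 - (p (zs n) n).2 := fun n => rfl
  have hzsH : ∀ n, zs n ∈ H := by
    intro n
    induction n with
    | zero => exact hz
    | succ n ih =>
      rw [hzs1]
      exact H.sub_mem (H.sub_mem ih (hYH (hp _ n ih).1)) (hS'H (hp _ n ih).2.1)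
  have hzsn : ∀ n, ‖zs (n + 1)‖ ≤ (1 / 2) ^ n := by
    intro n
    rw [hzs1]
    exact (hp _ n (hzsH n)).2.2.1
  let ss : ℕ → E := fun n => (p (zs n) n).2
  have hssW : ∀ n, ss n ∈ W := fun n =>
    Submodule.le_topologicalClosure _ (Submodule.subset_span (hp _ n (hzsH n)).2.1)
  have hss : Summable ss := by
    rw [← summable_nat_add_iff 1]
    refine Summable.of_norm_bounded (g := fun n : ℕ => 3 * (1 / 2 : ℝ) ^ n)
      ((summable_geometric_two).mul_left 3) ?_
    intro n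
    have h1 : ‖ss (n + 1)‖ ≤ ‖zs (n + 1)‖ + 2 * (1 / 2) ^ (n + 1) := (hp _ _ (hzsH (n + 1))).2.2.2
    have h2 := hzsn n
    have h3 : (1 / 2 : ℝ) ^ (n + 1) ≤ (1 / 2) ^ n := by
      rw [pow_succ]
      have : (0 : ℝ) < (1 / 2) ^ n := by positivity
      linarith
    linarith
  have htend := hss.hasSum.tendsto_sum_nat
  have hwW : ∑' n, ss n ∈ W := by
    have hWc : IsClosed (W : Set E) := Submodule.isClosed_topologicalClosure _
    exact hWc.mem_of_tendsto htend (Filter.Eventually.of_forall fun n =>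
      W.sum_mem fun i _ => hssW i)
  refine ⟨z - ∑' n, ss n, ?_, ∑' n, ss n, ?_, by abel⟩
  · have hpart : ∀ n, z - zs n - ∑ i ∈ Finset.range n, ss i ∈ Y := by
      intro n
      induction n with
      | zero => rw [hzs0]; simp
      | succ n ih =>
        have : z - zs (n + 1) - ∑ i ∈ Finset.range (n + 1), ss i
            = (z - zs n - ∑ i ∈ Finset.range n, ss i) + (p (zs n) n).1 := by
          rw [hzs1, Finset.sum_range_succ]
          abel
        rw [this]
        exact Y.add_mem ih (hp _ n (hzsH n)).1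
    have hzs_tend : Filter.Tendsto zs Filter.atTop (𝓝 0) := by
      rw [← Filter.tendsto_add_atTop_iff_nat 1]
      refine squeeze_zero_norm hzsn ?_
      exact tendsto_pow_atTop_nhds_zero_of_lt_one (by norm_num) (by norm_num)
    have hlim : Filter.Tendsto (fun n => z - zs n - ∑ i ∈ Finset.range n, ss i) Filter.atTop
        (𝓝 (z - 0 - ∑' n, ss n)) := (tendsto_const_nhds.sub hzs_tend).sub htend
    rw [sub_zero] at hlim
    exact hY.mem_of_tendsto hlim (Filter.Eventually.of_forall hpart)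
  · rw [← hWcl]
    exact hwW

end Pool.Agent.Work.MP_6c3bcd_an

end

section

namespace Pool.Agent.Work.MP_6c3bcd_an

open Set Topology

variable {𝕜 : Type*} [RCLike 𝕜] {X : Type*} [NormedAddCommGroup X] [NormedSpace 𝕜 X]
variable {Y : Submodule 𝕜 (StrongDual 𝕜 X)} {Φ : Y → Set X}

/-- Extension when `X` has a dense sequence indexed by a well-order with countable initial
segments. -/
theorem wellorder_extension {ι : Type*} [LinearOrder ι] [WellFoundedLT ι]
    (hΦ : IsProjectionalGenerator Y Φ) (hι : ∀ i : ι, (Iic i).Countable) (i₀ : ι)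
    (e : ι → X) (he : DenseRange e) :
    ∃ Ψ : hull Y → Set X, IsProjectionalGenerator (hull Y) Ψ ∧
      ∀ y : Y, Ψ ⟨y, le_hull Y y.2⟩ = Φ y := by
  obtain ⟨c, hc, nm, hnm⟩ := exists_norming_functional hΦ.norming
  have hex : ∀ z : StrongDual 𝕜 X, ∃ S : Set ι, z ∈ hull Y → (S.Countable ∧ S.Nonempty ∧
      (∀ i ∈ S, Iic i ⊆ S) ∧ z ∈ wcl (fpart (uni Φ nm e S))) := by
    intro z
    by_cases hz : z ∈ hull Y
    · obtain ⟨S, hS⟩ := exhaust hΦ hc hnm hι i₀ e he hz
      exact ⟨S, fun _ => hS⟩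
    · exact ⟨∅, fun h => absurd h hz⟩
  choose S hS using hex
  refine extension_somewhere_dense hΦ (fun z => vpart (uni Φ nm e (S z))) ?_ ?_
  · intro z hz
    exact vpart_countable ((hS z hz).1.biUnion fun i _ => chainT_countable hΦ hι e i)
  · intro L hL A hAL U hU hne hUA f hf hfN
    set S' : Set ι := ⋃ a ∈ A, S a with hS'
    have hAne : A.Nonempty := by
      obtain ⟨u, hu⟩ := hne
      exact closure_nonempty_iff.1 ⟨u, hUA hu⟩
    have hS'ne : S'.Nonempty := by
      obtain ⟨a, ha⟩ := hAne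
      obtain ⟨i, hi⟩ := (hS a (hL (hAL ha))).2.1
      exact ⟨i, mem_iUnion₂.2 ⟨a, ha, hi⟩⟩
    have hcl : Closed Φ nm (uni Φ nm e S') := uni_closed (fun x => (hnm x).1) e hS'ne
    have hLw : L ≤ hcl.wsub := by
      by_contra hcon
      obtain ⟨u, hu, hu'⟩ := exists_mem_open_not_mem hcon hU hne
      apply hu'
      have h1 : u ∈ closure A := hUA hu
      have h2 : A ⊆ wcl (fpart (uni Φ nm e S')) := by
        intro a ha
        refine wcl_mono ?_ (hS a (hL (hAL ha))).2.2.2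
        exact preimage_mono (f := Sum.inr) (uni_mono e (subset_biUnion_of_mem (u := fun a => S a) ha))
      have h3 : u ∈ wcl (fpart (uni Φ nm e S')) :=
        wcl_wcl_subset (closure_subset_wcl _ (closure_mono h2 h1))
      rwa [← hcl.coe_wsub] at h3
    have hfw : f ∈ wcl (fpart (uni Φ nm e S')) := by
      refine wcl_subset_of_subset_wcl ?_ hf
      rw [← hcl.coe_wsub]
      exact hLw
    refine hcl.separates hΦ hfw fun x hx => ?_
    obtain ⟨i, hi, hxi⟩ := mem_iUnion₂.1 hx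
    obtain ⟨a, ha, hia⟩ := mem_iUnion₂.1 hi
    exact hfN a ha x (mem_iUnion₂.2 ⟨i, hia, hxi⟩)

/-- **Density character at most `ℵ₁`.** -/
theorem aleph_one_extension (hΦ : IsProjectionalGenerator Y Φ)
    (hX : ∃ s : Set X, Dense s ∧ Cardinal.mk s ≤ Cardinal.aleph 1) :
    ∃ Ψ : hull Y → Set X, IsProjectionalGenerator (hull Y) Ψ ∧
      ∀ y : Y, Ψ ⟨y, le_hull Y y.2⟩ = Φ y := by
  obtain ⟨s, hs, hcard⟩ := hX
  let ι := (Cardinal.aleph 1).ord.ToType
  have hιcard : Cardinal.mk ι = Cardinal.aleph 1 := by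
    rw [Cardinal.mk_toType, Cardinal.card_ord]
  have hcard' : Cardinal.mk s ≤ Cardinal.mk ι := by rw [hιcard]; exact hcard
  obtain ⟨emb⟩ := hcard'
  obtain ⟨a₀, ha₀⟩ : s.Nonempty := hs.nonempty
  have _ : Nonempty s := ⟨⟨a₀, ha₀⟩⟩
  have hι : ∀ i : ι, (Iic i).Countable := by
    intro i
    have h1 : (Iio i).Countable := by
      rw [Cardinal.countable_iff_lt_aleph_one]
      have h2 := Cardinal.mk_Iio_lt i (by rw [hιcard]; simp [ι])
      rwa [hιcard] at h2
    have h3 : Iic i = insert i (Iio i) := by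
      rw [Iio_insert]
    rw [h3]
    exact h1.insert i
  refine wellorder_extension hΦ hι (emb ⟨a₀, ha₀⟩)
    (fun i => ((Function.invFun emb i : s) : X)) ?_
  have hsurj : Function.Surjective (Function.invFun emb) :=
    Function.invFun_surjective emb.injective
  intro x
  refine closure_mono ?_ (hs x)
  intro y hy
  obtain ⟨i, hi⟩ := hsurj ⟨y, hy⟩
  exact ⟨i, by simp [hi]⟩

end Pool.Agent.Work.MP_6c3bcd_an

end

section

namespace Pool.Agent.Work.MP_6c3bcd_an

open Set Topology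

variable {𝕜 : Type*} [RCLike 𝕜] {X : Type*} [NormedAddCommGroup X] [NormedSpace 𝕜 X]

/-- Differences with almost optimal representatives. -/
def Rep (r : StrongDual 𝕜 X → ℕ → StrongDual 𝕜 X) (G : Set (StrongDual 𝕜 X)) :
    Set (StrongDual 𝕜 X) := ⋃ s ∈ G, range fun k : ℕ => s - r s k

theorem Rep_mono (r : StrongDual 𝕜 X → ℕ → StrongDual 𝕜 X) {G G' : Set (StrongDual 𝕜 X)}
    (h : G ⊆ G') : Rep r G ⊆ Rep r G' := biUnion_subset_biUnion_left h

theorem Rep_countable (r : StrongDual 𝕜 X → ℕ → StrongDual 𝕜 X) {G : Set (StrongDual 𝕜 X)}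
    (h : G.Countable) : (Rep r G).Countable := h.biUnion fun _ _ => countable_range _

/-- The union of the `t i`, `i ∈ S`, closed under the operations. -/
def Gen {ι : Type*} (t : ι → Set (StrongDual 𝕜 X)) (S : Set ι) : Set (StrongDual 𝕜 X) :=
  qcl (⋃ i ∈ S, t i)

theorem Gen_mono {ι : Type*} (t : ι → Set (StrongDual 𝕜 X)) {S S' : Set ι} (h : S ⊆ S') :
    Gen t S ⊆ Gen t S' := qcl_mono (biUnion_subset_biUnion_left h)

theorem exists_finset_of_biUnion {ι α : Type*} {t : ι → Set α} {S : Set ι} (F : Finset α)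
    (hF : (F : Set α) ⊆ ⋃ i ∈ S, t i) :
    ∃ K : Finset ι, (K : Set ι) ⊆ S ∧ (F : Set α) ⊆ ⋃ i ∈ (K : Set ι), t i := by
  classical
  induction F using Finset.induction_on with
  | empty => exact ⟨∅, by simp, by simp⟩
  | insert a F _ ih =>
    rw [Finset.coe_insert] at hF
    obtain ⟨K, hKS, hK⟩ := ih ((subset_insert _ _).trans hF)
    obtain ⟨i, hi, hai⟩ := mem_iUnion₂.1 (hF (mem_insert _ _))
    refine ⟨insert i K, ?_, ?_⟩
    · rw [Finset.coe_insert]
      exact insert_subset hi hKS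
    · rw [Finset.coe_insert, Finset.coe_insert]
      refine insert_subset (mem_iUnion₂.2 ⟨i, mem_insert _ _, hai⟩) (hK.trans ?_)
      exact biUnion_subset_biUnion_left (subset_insert _ _)

theorem Gen_finite {ι : Type*} {t : ι → Set (StrongDual 𝕜 X)} {S : Set ι} {f : StrongDual 𝕜 X}
    (hf : f ∈ Gen t S) : ∃ K : Finset ι, (K : Set ι) ⊆ S ∧ f ∈ Gen t (K : Set ι) := by
  obtain ⟨F, hF, hfF⟩ := qcl_finite hf
  obtain ⟨K, hKS, hK⟩ := exists_finset_of_biUnion F hF
  exact ⟨K, hKS, qcl_mono hK hfF⟩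

theorem spanRep_finite {ι : Type*} {t : ι → Set (StrongDual 𝕜 X)}
    {r : StrongDual 𝕜 X → ℕ → StrongDual 𝕜 X} {S : Set ι} {v : StrongDual 𝕜 X}
    (hv : v ∈ Submodule.span 𝕜 (Rep r (Gen t S))) :
    ∃ K : Finset ι, (K : Set ι) ⊆ S ∧ v ∈ Submodule.span 𝕜 (Rep r (Gen t (K : Set ι))) := by
  classical
  induction hv using Submodule.span_induction with
  | mem v hv =>
    obtain ⟨s, hs, k, rfl⟩ := mem_iUnion₂.1 hv
    obtain ⟨K, hKS, hK⟩ := Gen_finite hs
    exact ⟨K, hKS, Submodule.subset_span (mem_iUnion₂.2 ⟨s, hK, k, rfl⟩)⟩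
  | zero => exact ⟨∅, by simp, Submodule.zero_mem _⟩
  | add v v' _ _ hv hv' =>
    obtain ⟨K, hKS, hK⟩ := hv
    obtain ⟨K', hKS', hK'⟩ := hv'
    refine ⟨K ∪ K', ?_, Submodule.add_mem _ ?_ ?_⟩
    · rw [Finset.coe_union]
      exact union_subset hKS hKS'
    · refine Submodule.span_mono (Rep_mono r (Gen_mono t ?_)) hK
      rw [Finset.coe_union]
      exact subset_union_left
    · refine Submodule.span_mono (Rep_mono r (Gen_mono t ?_)) hK'
      rw [Finset.coe_union]
      exact subset_union_right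
  | smul c v _ hv =>
    obtain ⟨K, hKS, hK⟩ := hv
    exact ⟨K, hKS, Submodule.smul_mem _ c hK⟩

/-- The control set attached to a set of indices. -/
def Ctl {ι : Type*} (C : Finset ι → Set (StrongDual 𝕜 X)) (S : Set ι) : Set (StrongDual 𝕜 X) :=
  qcl (⋃ K ∈ {K : Finset ι | (K : Set ι) ⊆ S}, C K)

theorem Ctl_mono {ι : Type*} (C : Finset ι → Set (StrongDual 𝕜 X)) {S S' : Set ι} (h : S ⊆ S') :
    Ctl C S ⊆ Ctl C S' :=
  qcl_mono (biUnion_subset_biUnion_left fun _ hK => Subset.trans hK h)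

theorem Ctl_finite {ι : Type*} {C : Finset ι → Set (StrongDual 𝕜 X)} {S : Set ι}
    {f : StrongDual 𝕜 X} (hf : f ∈ Ctl C S) :
    ∃ K : Finset ι, (K : Set ι) ⊆ S ∧ f ∈ Ctl C (K : Set ι) := by
  classical
  obtain ⟨F, hF, hfF⟩ := qcl_finite hf
  obtain ⟨𝒦, h𝒦S, h𝒦⟩ := exists_finset_of_biUnion F hF
  refine ⟨𝒦.biUnion id, ?_, qcl_mono (h𝒦.trans ?_) hfF⟩
  · intro i hi
    obtain ⟨K, hK, hiK⟩ := Finset.mem_biUnion.1 (Finset.mem_coe.1 hi)
    exact h𝒦S (Finset.mem_coe.2 hK) (Finset.mem_coe.2 hiK)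
  · intro g hg
    obtain ⟨K, hK, hgK⟩ := mem_iUnion₂.1 hg
    refine mem_iUnion₂.2 ⟨K, ?_, hgK⟩
    intro i hi
    exact Finset.mem_coe.2 (Finset.mem_biUnion.2 ⟨K, Finset.mem_coe.1 hK, Finset.mem_coe.1 hi⟩)

theorem countable_finsets {ι : Type*} {S : Set ι} (hS : S.Countable) :
    {K : Finset ι | (K : Set ι) ⊆ S}.Countable := by
  have h := Set.countable_ofPred_finite_subset hS
  refine (h.preimage_of_injOn (f := fun K : Finset ι => (K : Set ι))
    (fun a _ b _ hab => Finset.coe_injective hab)).mono ?_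
  intro K hK
  exact ⟨K.finite_toSet, hK⟩

/-- **Relative countable supports, for norm closed `Y`.** -/
theorem rel_extension {Y : Submodule 𝕜 (StrongDual 𝕜 X)} {Φ : Y → Set X}
    (hΦ : IsProjectionalGenerator Y Φ) (hY : IsClosed (Y : Set (StrongDual 𝕜 X)))
    {ι : Type*} (H : ι → Submodule 𝕜 (StrongDual 𝕜 X))
    (hH : ∀ i, IsClosed (H i : Set (StrongDual 𝕜 X)))
    (t : ι → Set (StrongDual 𝕜 X)) (htc : ∀ i, (t i).Countable) (htH : ∀ i, t i ⊆ hull Y)
    (hcount : ∀ z ∈ hull Y, {i | z ∉ H i}.Countable)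
    (hgen : ∀ z ∈ hull Y, ∀ ε > 0, ∃ y ∈ Y, ∃ s ∈ Gen t {i | z ∉ H i}, ‖z - y - s‖ < ε) :
    ∃ Ψ : hull Y → Set X, IsProjectionalGenerator (hull Y) Ψ ∧
      ∀ y : Y, Ψ ⟨y, le_hull Y y.2⟩ = Φ y := by
  classical
  -- almost optimal representatives
  have hrep : ∀ (s : StrongDual 𝕜 X) (k : ℕ), ∃ y ∈ Y,
      ‖s - y‖ < Metric.infDist s (Y : Set (StrongDual 𝕜 X)) + (1 / 2) ^ k := by
    intro s k
    obtain ⟨y, hy, hlt⟩ := (Metric.infDist_lt_iff ⟨0, Y.zero_mem⟩).1
      (show Metric.infDist s (Y : Set (StrongDual 𝕜 X)) <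
          Metric.infDist s (Y : Set (StrongDual 𝕜 X)) + (1 / 2) ^ k by
        have : (0 : ℝ) < (1 / 2) ^ k := by positivity
        linarith)
    exact ⟨y, hy, by rwa [← dist_eq_norm]⟩
  choose r hrY hr using hrep
  have hGenH : ∀ S : Set ι, Gen t S ⊆ hull Y := fun S =>
    qcl_subset_submodule (iUnion₂_subset fun i _ => htH i)
  have hRepH : ∀ S : Set ι, Rep r (Gen t S) ⊆ hull Y := by
    intro S v hv
    obtain ⟨s, hs, k, rfl⟩ := mem_iUnion₂.1 hv
    exact (hull Y).sub_mem (hGenH S hs) (le_hull Y (hrY s k))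
  -- control sets
  have hctl0 : ∀ K : Finset ι, ∃ C : Set (StrongDual 𝕜 X), C ⊆ Y ∧ C.Countable ∧
      ((Submodule.span 𝕜 (Rep r (Gen t (K : Set ι)))).topologicalClosure :
        Set (StrongDual 𝕜 X)) ⊆ wcl C ∧
      ∀ w ∈ (Submodule.span 𝕜 (Rep r (Gen t (K : Set ι)))).topologicalClosure, ∀ y ∈ Y,
        ∀ δ > 0, ∃ c ∈ C, ‖w - c‖ < ‖w - y‖ + δ := by
    intro K
    have hle : (Submodule.span 𝕜 (Rep r (Gen t (K : Set ι)))).topologicalClosure ≤ hull Y :=
      Submodule.topologicalClosure_minimal _ (Submodule.span_le.2 (hRepH _)) (isClosed_hull Y)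
    have hcK : (Gen t (K : Set ι)).Countable :=
      qcl_countable (K.countable_toSet.biUnion fun i _ => htc i)
    have hsep : TopologicalSpace.IsSeparable
        ((Submodule.span 𝕜 (Rep r (Gen t (K : Set ι)))).topologicalClosure :
          Set (StrongDual 𝕜 X)) := by
      rw [Submodule.topologicalClosure_coe]
      exact ((Rep_countable r hcK).isSeparable.span).closure
    obtain ⟨C, hCY, hCc, _, _, _, hC1, hC2⟩ := exists_control hle hsep
    exact ⟨C, hCY, hCc, hC1, hC2⟩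
  choose C hCY hCc hCw hCctl using hctl0
  have hCtlY : ∀ S : Set ι, Ctl C S ⊆ Y := fun S =>
    qcl_subset_submodule (iUnion₂_subset fun K _ => hCY K)
  have hCtlc : ∀ S : Set ι, S.Countable → (Ctl C S).Countable := fun S hS =>
    qcl_countable ((countable_finsets hS).biUnion fun K _ => hCc K)
  -- decomposition of the elements of the hull
  have hdec : ∀ z : StrongDual 𝕜 X, ∃ p : StrongDual 𝕜 X × StrongDual 𝕜 X,
      p.1 ∈ Y ∧ (z ∈ hull Y → z = p.1 + p.2 ∧
        p.2 ∈ closure (Submodule.span 𝕜 (Rep r (Gen t {i | z ∉ H i})) :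
          Set (StrongDual 𝕜 X))) := by
    intro z
    by_cases hz : z ∈ hull Y
    · set S : Set ι := {i | z ∉ H i} with hS
      let H' : Submodule 𝕜 (StrongDual 𝕜 X) := (Y ⊔ Submodule.span 𝕜 (Gen t S)).topologicalClosure
      have hYH' : Y ≤ H' := le_sup_left.trans (Submodule.le_topologicalClosure _)
      have hGH' : Gen t S ⊆ H' := fun s hs =>
        Submodule.le_topologicalClosure _ (Submodule.mem_sup_right (Submodule.subset_span hs))
      have hdense' : ∀ z' ∈ H', ∀ ε > 0, ∃ y ∈ Y, ∃ s ∈ Gen t S, ‖z' - y - s‖ < ε := by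
        intro z' hz' ε hε
        have hz'' : z' ∈ closure ((Y ⊔ Submodule.span 𝕜 (Gen t S) :
            Submodule 𝕜 (StrongDual 𝕜 X)) : Set (StrongDual 𝕜 X)) := by
          rw [← Submodule.topologicalClosure_coe]
          exact hz'
        obtain ⟨q, hq, hdq⟩ := Metric.mem_closure_iff.1 hz'' (ε / 2) (by positivity)
        obtain ⟨y, hy, v, hv, rfl⟩ := Submodule.mem_sup.1 hq
        have hspan : (Submodule.span 𝕜 (Gen t S) : Submodule 𝕜 (StrongDual 𝕜 X))
            ≤ qclSub (⋃ i ∈ S, t i) := Submodule.span_le.2 subset_closure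
        have hv' : v ∈ closure (Gen t S) := hspan hv
        obtain ⟨s, hs, hds⟩ := Metric.mem_closure_iff.1 hv' (ε / 2) (by positivity)
        refine ⟨y, hy, s, hs, ?_⟩
        rw [dist_eq_norm] at hdq hds
        calc ‖z' - y - s‖ = ‖(z' - (y + v)) + (v - s)‖ := by congr 1; abel
          _ ≤ ‖z' - (y + v)‖ + ‖v - s‖ := norm_add_le _ _
          _ < ε := by linarith
      have hzH' : z ∈ H' := by
        have : z ∈ closure ((Y ⊔ Submodule.span 𝕜 (Gen t S) :
            Submodule 𝕜 (StrongDual 𝕜 X)) : Set (StrongDual 𝕜 X)) := by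
          rw [Metric.mem_closure_iff]
          intro ε hε
          obtain ⟨y, hy, s, hs, hlt⟩ := hgen z hz ε hε
          refine ⟨y + s, Submodule.add_mem_sup hy (Submodule.subset_span hs), ?_⟩
          rw [dist_eq_norm]
          rwa [← sub_sub]
        rw [← Submodule.topologicalClosure_coe] at this
        exact this
      obtain ⟨y, hy, w, hw, h⟩ := exists_decomp hY hrY hr hYH' hGH' hdense' hzH'
      exact ⟨(y, w), hy, fun _ => ⟨h, hw⟩⟩
    · exact ⟨(0, 0), Y.zero_mem, fun h => absurd h hz⟩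
  choose p hpY hp using hdec
  have hinsY : ∀ z, insert (p z).1 (Ctl C {i | z ∉ H i}) ⊆ (Y : Set (StrongDual 𝕜 X)) := fun z =>
    insert_subset (hpY z) (hCtlY _)
  -- closures of the `Rep` spans are in the weak-star closures of the control sets
  have hRepCtl : ∀ S : Set ι,
      closure (Submodule.span 𝕜 (Rep r (Gen t S)) : Set (StrongDual 𝕜 X)) ⊆ wcl (Ctl C S) := by
    intro S
    have h1 : (Submodule.span 𝕜 (Rep r (Gen t S)) : Set (StrongDual 𝕜 X)) ⊆ wcl (Ctl C S) := by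
      intro v hv
      obtain ⟨K, hKS, hvK⟩ := spanRep_finite hv
      refine wcl_mono ?_ (hCw K (Submodule.le_topologicalClosure _ hvK))
      refine Subset.trans ?_ (subset_qcl _)
      intro c hc
      exact mem_iUnion₂.2 ⟨K, hKS, hc⟩
    exact (closure_mono h1).trans ((closure_subset_wcl _).trans wcl_wcl_subset)
  refine extension_closed hΦ hY (fun z => pull Φ (qcl (insert (p z).1 (Ctl C {i | z ∉ H i})))) ?_ ?_
  · intro z hz
    exact pull_countable hΦ (qcl_countable ((hCtlc _ (hcount z hz)).insert _))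
  · intro L hL hLY A hA hLA f hf hfN
    set B : Set (StrongDual 𝕜 X) := ⋃ a ∈ A, qcl (insert (p a).1 (Ctl C {i | a ∉ H i})) with hB
    have hBY : B ⊆ Y := iUnion₂_subset fun a _ => qcl_subset_submodule (hinsY a)
    have hAne : A.Nonempty := by
      by_contra hcon
      rw [not_nonempty_iff_eq_empty] at hcon
      rw [hcon, closure_empty] at hLA
      exact hLA L.zero_mem
    have hCtl0 : ∀ S : Set ι, (0 : StrongDual 𝕜 X) ∈ Ctl C S := fun S =>
      subset_cls _ _ (mem_insert _ _)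
    have hadd0 : ∀ b ∈ B, ∀ b' ∈ B, b + b' ∈ closure B := by
      intro b hb b' hb'
      obtain ⟨a, ha, hb⟩ := mem_iUnion₂.1 hb
      obtain ⟨a', ha', hb'⟩ := mem_iUnion₂.1 hb'
      obtain ⟨u, c, hc, rfl⟩ := qcl_insert_form (hCtl0 _) (qcl_add _) (qcl_smul _) hb
      obtain ⟨u', c', hc', rfl⟩ := qcl_insert_form (hCtl0 _) (qcl_add _) (qcl_smul _) hb'
      obtain ⟨K₁, hK₁, hcK⟩ := Ctl_finite hc
      obtain ⟨K₂, hK₂, hcK'⟩ := Ctl_finite hc'
      rw [Metric.mem_closure_iff]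
      intro ε hε
      obtain ⟨e1, e1'⟩ := hp a (hL (hA ha))
      obtain ⟨e2, e2'⟩ := hp a' (hL (hA ha'))
      -- approximate `u • w(a) + u' • w(a')`
      have hcomb : u • (p a).2 + u' • (p a').2 ∈
          closure (Submodule.span 𝕜 (Rep r (Gen t ({i | a ∉ H i} ∪ {i | a' ∉ H i}))) :
            Set (StrongDual 𝕜 X)) := by
        rw [← Submodule.topologicalClosure_coe]
        refine Submodule.add_mem _ (Submodule.smul_mem _ u ?_) (Submodule.smul_mem _ u' ?_)
        · rw [← SetLike.mem_coe, Submodule.topologicalClosure_coe]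
          exact closure_mono (Submodule.span_mono (Rep_mono r (Gen_mono t subset_union_left))) e1'
        · rw [← SetLike.mem_coe, Submodule.topologicalClosure_coe]
          exact closure_mono (Submodule.span_mono (Rep_mono r (Gen_mono t subset_union_right))) e2'
      obtain ⟨v, hv, hdv⟩ := Metric.mem_closure_iff.1 hcomb (ε / 8) (by positivity)
      rw [dist_eq_norm] at hdv
      obtain ⟨K₃, hK₃, hvK⟩ := spanRep_finite hv
      set K : Finset ι := K₁ ∪ K₂ ∪ K₃ with hK
      have hKL : ∀ i ∈ K, ¬ L ≤ H i := by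
        intro i hi hle
        rw [hK, Finset.mem_union, Finset.mem_union] at hi
        rcases hi with (hi | hi) | hi
        · exact hK₁ (Finset.mem_coe.2 hi) (hle (hA ha))
        · exact hK₂ (Finset.mem_coe.2 hi) (hle (hA ha'))
        · rcases hK₃ (Finset.mem_coe.2 hi) with h | h
          · exact h (hle (hA ha))
          · exact h (hle (hA ha'))
      have hmem : u • a + u' • a' ∈ L := L.add_mem (L.smul_mem u (hA ha)) (L.smul_mem u' (hA ha'))
      obtain ⟨x₀, hx₀, hx₀H⟩ := exists_mem_open_not_mem_finset hH K hKL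
        (Metric.isOpen_ball (x := u • a + u' • a') (ε := ε / 8))
        ⟨u • a + u' • a', Metric.mem_ball_self (by positivity), hmem⟩
      have hopen : IsOpen (Metric.ball (u • a + u' • a') (ε / 8) ∩
          ⋂ i ∈ K, ((H i : Set (StrongDual 𝕜 X)))ᶜ) :=
        Metric.isOpen_ball.inter (isOpen_biInter_finset fun i _ => (hH i).isOpen_compl)
      obtain ⟨a'', ⟨hball, haH⟩, ha''⟩ := mem_closure_iff.1 (hLA hx₀.2) _ hopen
        ⟨hx₀.1, mem_iInter₂.2 hx₀H⟩
      have hdist : ‖u • a + u' • a' - a''‖ < ε / 8 := by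
        rw [← dist_eq_norm, dist_comm]
        exact hball
      have hKsupp : (K : Set ι) ⊆ {i | a'' ∉ H i} := fun i hi =>
        mem_iInter₂.1 haH i (Finset.mem_coe.1 hi)
      obtain ⟨e3, e3'⟩ := hp a'' (hL (hA ha''))
      obtain ⟨v'', hv'', hdv''⟩ := Metric.mem_closure_iff.1 e3' (ε / 8) (by positivity)
      rw [dist_eq_norm] at hdv''
      obtain ⟨K₄, hK₄, hvK''⟩ := spanRep_finite hv''
      -- the vector to be controlled
      set w : StrongDual 𝕜 X := v'' - v with hw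
      have hwK : w ∈ (Submodule.span 𝕜
          (Rep r (Gen t ((K ∪ K₄ : Finset ι) : Set ι)))).topologicalClosure := by
        refine Submodule.le_topologicalClosure _ (Submodule.sub_mem _ ?_ ?_)
        · refine Submodule.span_mono (Rep_mono r (Gen_mono t ?_)) hvK''
          rw [Finset.coe_union]
          exact subset_union_right
        · refine Submodule.span_mono (Rep_mono r (Gen_mono t ?_)) hvK
          rw [Finset.coe_union, hK, Finset.coe_union]
          exact subset_union_right.trans subset_union_left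
      set y₁ : StrongDual 𝕜 X := u • (p a).1 + u' • (p a').1 - (p a'').1 with hy₁
      have hy₁Y : y₁ ∈ Y := Y.sub_mem (Y.add_mem (Y.smul_mem u (hpY a)) (Y.smul_mem u' (hpY a')))
        (hpY a'')
      have hkey : w - y₁ = -(u • a + u' • a' - a'') - ((p a'').2 - v'')
          + (u • (p a).2 + u' • (p a').2 - v) := by
        have h1 : u • a + u' • a' - a'' = (u • (p a).1 + u' • (p a').1 - (p a'').1)
            + (u • (p a).2 + u' • (p a').2 - (p a'').2) := by
          conv_lhs => rw [e1, e2, e3]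
          rw [smul_add, smul_add]
          abel
        rw [h1, hy₁, hw]
        abel
      have hnorm : ‖w - y₁‖ < 3 * ε / 8 := by
        rw [hkey]
        calc ‖-(u • a + u' • a' - a'') - ((p a'').2 - v'') + (u • (p a).2 + u' • (p a').2 - v)‖
            ≤ ‖-(u • a + u' • a' - a'') - ((p a'').2 - v'')‖
              + ‖u • (p a).2 + u' • (p a').2 - v‖ := norm_add_le _ _
          _ ≤ (‖-(u • a + u' • a' - a'')‖ + ‖(p a'').2 - v''‖)
              + ‖u • (p a).2 + u' • (p a').2 - v‖ := by gcongr; exact norm_sub_le _ _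
          _ < 3 * ε / 8 := by rw [norm_neg]; linarith
      obtain ⟨c'', hc'', hwc⟩ := hCctl (K ∪ K₄) w hwK y₁ hy₁Y (ε / 8) (by positivity)
      have hKK₄ : ((K ∪ K₄ : Finset ι) : Set ι) ⊆ {i | a'' ∉ H i} := by
        rw [Finset.coe_union]
        exact union_subset hKsupp hK₄
      have hc''' : c'' ∈ Ctl C {i | a'' ∉ H i} :=
        subset_qcl _ (mem_iUnion₂.2 ⟨K ∪ K₄, hKK₄, hc''⟩)
      have hcs : c ∈ Ctl C {i | a'' ∉ H i} := by
        refine Ctl_mono C (Subset.trans ?_ hKsupp) hcK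
        rw [hK, Finset.coe_union, Finset.coe_union]
        exact subset_union_left.trans subset_union_left
      have hcs' : c' ∈ Ctl C {i | a'' ∉ H i} := by
        refine Ctl_mono C (Subset.trans ?_ hKsupp) hcK'
        rw [hK, Finset.coe_union, Finset.coe_union]
        exact subset_union_right.trans subset_union_left
      refine ⟨(p a'').1 + (c'' + (c + c')), mem_iUnion₂.2 ⟨a'', ha'', ?_⟩, ?_⟩
      · refine qcl_add _ _ (subset_qcl _ (mem_insert _ _)) _ (subset_qcl _ (mem_insert_of_mem _ ?_))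
        exact qcl_add _ _ hc''' _ (qcl_add _ _ hcs _ hcs')
      · rw [dist_eq_norm]
        have : u • (p a).1 + c + (u' • (p a').1 + c') - ((p a'').1 + (c'' + (c + c')))
            = (w - c'') - (w - y₁) := by
          rw [hy₁]
          abel
        rw [this]
        calc ‖(w - c'') - (w - y₁)‖ ≤ ‖w - c''‖ + ‖w - y₁‖ := norm_sub_le _ _
          _ < ε := by linarith
    have hadd : ∀ b ∈ closure B, ∀ b' ∈ closure B, b + b' ∈ closure B := by
      intro b hb b' hb'
      have hcont : Continuous fun q : StrongDual 𝕜 X × StrongDual 𝕜 X => q.1 + q.2 :=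
        continuous_fst.add continuous_snd
      have hmem : ((b, b') : StrongDual 𝕜 X × StrongDual 𝕜 X) ∈ closure (B ×ˢ B) := by
        rw [closure_prod_eq]; exact ⟨hb, hb'⟩
      have h1 := image_closure_subset_closure_image hcont (mem_image_of_mem _ hmem)
      have h2 := closure_mono (s := (fun q : StrongDual 𝕜 X × StrongDual 𝕜 X => q.1 + q.2) ''
        (B ×ˢ B)) (t := closure B) (by
          rintro _ ⟨⟨u, v⟩, ⟨hu, hv⟩, rfl⟩
          exact hadd0 u hu v hv) h1
      rwa [closure_closure] at h2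
    have hsmul : ∀ (n : ℕ), ∀ b ∈ closure B, TopologicalSpace.denseSeq 𝕜 n • b ∈ closure B := by
      intro n b hb
      have hcont : Continuous fun q : StrongDual 𝕜 X => TopologicalSpace.denseSeq 𝕜 n • q :=
        continuous_const_smul _
      have h1 := image_closure_subset_closure_image hcont (mem_image_of_mem _ hb)
      refine closure_mono ?_ h1
      rintro _ ⟨q, hq, rfl⟩
      obtain ⟨a, ha, hq⟩ := mem_iUnion₂.1 hq
      exact mem_iUnion₂.2 ⟨a, ha, qcl_smul _ n q hq⟩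
    have hBne : (closure B).Nonempty := by
      obtain ⟨a, ha⟩ := hAne
      exact ⟨_, subset_closure (mem_iUnion₂.2 ⟨a, ha, subset_qcl _ (mem_insert _ _)⟩)⟩
    let M : Submodule 𝕜 (StrongDual 𝕜 X) := closureSub (closure B) hBne hadd hsmul
    have hM : (M : Set (StrongDual 𝕜 X)) = closure B := by
      rw [coe_closureSub, closure_closure]
    have hMw : ((wclSub M : Submodule 𝕜 (StrongDual 𝕜 X)) : Set (StrongDual 𝕜 X)) = wcl B := by
      rw [coe_wclSub, hM]
      exact Subset.antisymm (wcl_closure_subset B) (wcl_mono subset_closure)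
    have hAw : A ⊆ wcl B := by
      intro a ha
      obtain ⟨e1, e1'⟩ := hp a (hL (hA ha))
      rw [← hMw]
      rw [e1]
      refine (wclSub M).add_mem ?_ ?_
      · rw [← SetLike.mem_coe, hMw]
        exact subset_wcl _ (mem_iUnion₂.2 ⟨a, ha, subset_qcl _ (mem_insert _ _)⟩)
      · rw [← SetLike.mem_coe, hMw]
        refine wcl_mono ?_ (hRepCtl _ e1')
        intro c hc
        exact mem_iUnion₂.2 ⟨a, ha, subset_qcl _ (mem_insert_of_mem _ hc)⟩
    have hfB : f ∈ wcl B := by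
      refine wcl_subset_of_subset_wcl ?_ hf
      refine hLA.trans ((closure_mono hAw).trans ((closure_subset_wcl _).trans wcl_wcl_subset))
    refine hΦ.separates' hBY M hM.symm hfB ?_
    intro y hy x hx
    obtain ⟨a, ha, hya⟩ := mem_iUnion₂.1 hy
    exact hfN a ha x (mem_iUnion₂.2 ⟨y, hya, mem_iUnion.2 ⟨hBY hy, hx⟩⟩)

end Pool.Agent.Work.MP_6c3bcd_an

end
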