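import Mathlib
import Pool.Agent.Work.MP_6c3bcd_an.Bd.B05

/-! Bundle of small proof modules (one section per former module). -/

section

/-!
# Density at most `ℵ₃`: definitions and statements of the lemmas

`I`, `J`, `K` are the well-orders `ω₃`, `ω₂`, `ω₁`. Each `claimX` is proved in `ItemX.lean`.
-/

universe u v w

namespace Pool.Agent.Work.MP_6c3bcd_an.Dn

open Set Topology Metric

/-- Enumerations of the initial segments (`e3 i : J → Iic i`, `e2 j : K → Iic j`,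
`e1 k : ℕ → Iic k` onto, with right inverses `n3 i`, `n2 j`, `n1 k`), and cofinalities. -/
structure Maps (I J K : Type u) [LinearOrder I] [LinearOrder J] [LinearOrder K] where
  e3 : I → J → I
  n3 : I → I → J
  e3_le : ∀ i j, e3 i j ≤ i
  e3_n3 : ∀ i i', i' ≤ i → e3 i (n3 i i') = i'
  e2 : J → K → J
  n2 : J → J → K
  e2_le : ∀ j k, e2 j k ≤ j
  e2_n2 : ∀ j j', j' ≤ j → e2 j (n2 j j') = j'
  e1 : K → ℕ → K
  n1 : K → K → ℕ
  e1_le : ∀ k n, e1 k n ≤ k
  e1_n1 : ∀ k k', k' ≤ k → e1 k (n1 k k') = k'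
  bI : ∀ C : Set I, C.Countable → ∃ i, ∀ c ∈ C, c ≤ i
  bJ : ∀ C : Set J, C.Countable → ∃ j, ∀ c ∈ C, c ≤ j
  bK : ∀ C : Set K, C.Countable → ∃ k, ∀ c ∈ C, c ≤ k
  uK : ¬ (Set.univ : Set K).Countable

/-- MAPS: such maps exist for `ω₃`, `ω₂`, `ω₁`. -/
def claimMaps : Prop :=
  ∃ (I J K : Type u) (_ : LinearOrder I) (_ : LinearOrder J) (_ : LinearOrder K)
    (_ : Maps I J K), WellFoundedLT I ∧ WellFoundedLT J ∧ WellFoundedLT K ∧
      Cardinal.mk I = Cardinal.aleph 3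

/-! ### Jumps of decreasing families -/

/-- The index `i` is seen at `z`: a robust form of `g i z < inf_{j < i} g j z`. -/
def Sees {ι : Type*} {α : Type*} [LT ι] (g : ι → α → ℝ) (z : α) (i : ι) : Prop :=
  ∃ r r' : ℝ, r < r' ∧ g i z < r ∧ ∀ j, j < i → r' ≤ g j z

/-- The first index with `g i z < d`. -/
def First {ι : Type*} {α : Type*} [LT ι] (g : ι → α → ℝ) (z : α) (d : ℝ) (i : ι) : Prop :=
  g i z < d ∧ ∀ j, j < i → d ≤ g j z

/-- The countable set of the first indices for rational thresholds. -/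
def Jmp {ι : Type*} {α : Type*} [LT ι] (g : ι → α → ℝ) (z : α) : Set ι :=
  {i | ∃ q : ℚ, First g z q i}

/-- Upward links: both indices are seen at some parameter in `(lo, hi)`. -/
def Reach {ι : Type*} [LT ι] (G : ι → ℝ → ℝ) (lo hi : ℝ) : ι → ι → Prop :=
  Relation.ReflTransGen fun ρ ρ' => ρ < ρ' ∧ ∃ t ∈ Ioo lo hi, Sees G t ρ ∧ Sees G t ρ'

/-- SEE. -/
def claimSee : Prop :=
  ∀ (ι : Type u) [LinearOrder ι] [WellFoundedLT ι] (E : Type w) [PseudoMetricSpace E]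
    (g : ι → E → ℝ), (∀ i, LipschitzWith 1 (g i)) →
    (∀ z i, Sees g z i → ∀ᶠ z' in 𝓝 z, i ∈ Jmp g z') ∧
    (∀ z d i, First g z d i → Sees g z i) ∧
    (∀ z d, (∃ i, g i z < d) → ∃ i, First g z d i) ∧
    ∀ z, (Jmp g z).Countable

/-- LINK: the linking lemma for a decreasing family of convex functions on the line. -/
def claimLink : Prop :=
  ∀ (ι : Type u) [LinearOrder ι] [WellFoundedLT ι] (G : ι → ℝ → ℝ) (C : NNReal),
    (∀ i, ConvexOn ℝ univ (G i)) → (∀ i, LipschitzWith C (G i)) →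
    (∀ i j, i ≤ j → ∀ t, G j t ≤ G i t) →
    ∀ (lo hi d c : ℝ), c ∈ Ioo lo hi → (∀ t ∈ Ioo lo hi, ∃ i, G i t < d) →
    ∀ ξ, First G c d ξ →
      (∀ t ∈ Ioo c hi, ∃ ρ, Reach G lo hi ξ ρ ∧ Sees G t ρ) ∨
      (∀ t ∈ Ioo lo c, ∃ ρ, Reach G lo hi ξ ρ ∧ Sees G t ρ)

/-- The point `z + t b`. -/
noncomputable def ln (𝕜 : Type v) [RCLike 𝕜] {E : Type w} [NormedAddCommGroup E]
    [NormedSpace 𝕜 E] (z b : E) (t : ℝ) : E := z + ((t : ℝ) : 𝕜) • b

/-- TP: among three points of a line two are linked to a common third point. -/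
def claimTP : Prop :=
  ∀ (𝕜 : Type v) [RCLike 𝕜] (ι : Type u) [LinearOrder ι] [WellFoundedLT ι] (E : Type w)
    [NormedAddCommGroup E] [NormedSpace 𝕜 E] (g : ι → E → ℝ), (∀ i, LipschitzWith 1 (g i)) →
    (∀ i z b, ConvexOn ℝ univ fun t : ℝ => g i (ln 𝕜 z b t)) →
    (∀ i j, i ≤ j → ∀ z, g j z ≤ g i z) →
    ∀ (z b : E) (T d : ℝ), 0 < T → (∀ t ∈ Ioo 0 T, ∃ i, g i (ln 𝕜 z b t) < d) →
    ∃ t₁ ∈ Ioo 0 T, ∃ t₂ ∈ Ioo 0 T, ∃ t₃ ∈ Ioo 0 T, T / 4 ≤ t₂ - t₁ ∧
      ∃ ξ₁ ξ₂ ζ₁ ζ₂ : ι, First g (ln 𝕜 z b t₁) d ξ₁ ∧ First g (ln 𝕜 z b t₂) d ξ₂ ∧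
        Reach (fun i t => g i (ln 𝕜 z b t)) 0 T ξ₁ ζ₁ ∧
        Reach (fun i t => g i (ln 𝕜 z b t)) 0 T ξ₂ ζ₂ ∧
        Sees g (ln 𝕜 z b t₃) ζ₁ ∧ Sees g (ln 𝕜 z b t₃) ζ₂

/-! ### The hierarchy -/

section

variable {𝕜 : Type v} [RCLike 𝕜] {E : Type w} [NormedAddCommGroup E] [NormedSpace 𝕜 E]
variable {I J K : Type u} [LinearOrder I] [LinearOrder J] [LinearOrder K]

/-- The union of the `W Γ` over the countable subsets `Γ` of `S`. -/
def EE (W : Set I → Submodule 𝕜 E) (S : Set I) : Set E :=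
  {z | ∃ Γ : Set I, Γ ⊆ S ∧ Γ.Countable ∧ z ∈ W Γ}

/-- Distance to the members of the first hierarchy. -/
noncomputable def D3 (W : Set I → Submodule 𝕜 E) (i : I) (z : E) : ℝ :=
  infDist z (EE W (Iic i))

/-- Distance to the members of the second hierarchy. -/
noncomputable def D2 (m : Maps I J K) (W : Set I → Submodule 𝕜 E) (i : I) (j : J) (z : E) : ℝ :=
  infDist z (EE W (m.e3 i '' Iic j))

/-- Distance to the members of the third hierarchy. -/
noncomputable def D1 (m : Maps I J K) (W : Set I → Submodule 𝕜 E) (i : I) (j : J) (k : K)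
    (z : E) : ℝ := infDist z (EE W (m.e3 i '' (m.e2 j '' Iic k)))

/-- The exact rank of `z`, as a set with at most one element. -/
def rk (W : Set I → Submodule 𝕜 E) (z : E) : Set I :=
  {i | z ∈ EE W (Iic i) ∧ ∀ i', i' < i → z ∉ EE W (Iic i')}

/-- The index set of the hulls. -/
abbrev Ix (I J K : Type u) : Type u := I ⊕ (J ⊕ K)

/-- The closing-off operation given by the maps. -/
def op0 (m : Maps I J K) : Ix I J K → Ix I J K → Set (Ix I J K)
  | Sum.inl i, Sum.inl i' => {Sum.inr (Sum.inl (m.n3 i i'))}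
  | Sum.inl i, Sum.inr (Sum.inl j) => {Sum.inl (m.e3 i j)}
  | Sum.inr (Sum.inl j), Sum.inr (Sum.inl j') => {Sum.inr (Sum.inr (m.n2 j j'))}
  | Sum.inr (Sum.inl j), Sum.inr (Sum.inr k) => {Sum.inr (Sum.inl (m.e2 j k))}
  | Sum.inr (Sum.inr k), Sum.inr (Sum.inr _) => Set.range fun n => Sum.inr (Sum.inr (m.e1 k n))
  | _, _ => ∅

/-- The closing-off operation given by the jumps of `z`. -/
def opa (m : Maps I J K) (W : Set I → Submodule 𝕜 E) (z : E) :
    Ix I J K → Ix I J K → Set (Ix I J K)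
  | Sum.inl i, Sum.inl _ => (fun j => Sum.inr (Sum.inl j)) '' Jmp (D2 m W i) z
  | Sum.inl i, Sum.inr (Sum.inl j) => (fun k => Sum.inr (Sum.inr k)) '' Jmp (D1 m W i j) z
  | _, _ => ∅

/-- The hull of `z`. -/
def MM (m : Maps I J K) (W : Set I → Submodule 𝕜 E) (z : E) : Set (Ix I J K) :=
  cls (fun a b => op0 m a b ∪ opa m W z a b) (Sum.inl '' (Jmp (D3 W) z ∪ rk W z))

/-- The hull of a set of indices. -/
def Sk (m : Maps I J K) (s : Set (Ix I J K)) : Set (Ix I J K) := cls (op0 m) s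

/-- The elements of `I` in a hull. -/
def lt3 (s : Set (Ix I J K)) : Set I := {i | Sum.inl i ∈ s}

/-- The embedding of `K`. -/
def inK (N : Set K) : Set (Ix I J K) := (fun k => Sum.inr (Sum.inr k)) '' N

/-- Near `z` all elements of `A` have `s` in their hulls. -/
def Good (m : Maps I J K) (W : Set I → Submodule 𝕜 E) (A : Set E) (z : E)
    (s : Set (Ix I J K)) : Prop := ∀ᶠ z' in 𝓝 z, z' ∈ A → s ⊆ MM m W z'

/-- The conclusion of the main theorem. -/
def Goal (m : Maps I J K) (W : Set I → Submodule 𝕜 E) (L : Submodule 𝕜 E) (A : Set E) : Prop :=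
  ∃ S : Set I, L ≤ W S ∧ ∀ F : Finset I, (F : Set I) ⊆ S → ∃ a ∈ A, (F : Set I) ⊆ lt3 (MM m W a)

end

/-- EEF: facts on the hierarchy. -/
def claimEEF : Prop :=
  ∀ (𝕜 : Type v) [RCLike 𝕜] (E : Type w) [NormedAddCommGroup E] [NormedSpace 𝕜 E]
    (I J K : Type u) [LinearOrder I] [LinearOrder J] [LinearOrder K] (m : Maps I J K)
    (W : Set I → Submodule 𝕜 E), Monotone W → (∀ S, IsClosed (W S : Set E)) →
    (∀ S, ∃ P : Submodule 𝕜 E, (P : Set E) = EE W S ∧ IsClosed (P : Set E)) ∧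
    (∀ S, EE W S ⊆ W S) ∧ (∀ S S', S ⊆ S' → EE W S ⊆ EE W S') ∧
    (∀ i, EE W (Iic i) = ⋃ j, EE W (m.e3 i '' Iic j)) ∧
    (∀ i j, EE W (m.e3 i '' Iic j) = ⋃ k, EE W (m.e3 i '' (m.e2 j '' Iic k))) ∧
    (∀ S, LipschitzWith 1 fun z => infDist z (EE W S)) ∧
    (∀ S z b, ConvexOn ℝ univ fun t : ℝ => infDist (ln 𝕜 z b t) (EE W S)) ∧
    (∀ S S', S ⊆ S' → ∀ z, infDist z (EE W S') ≤ infDist z (EE W S)) ∧
    (∀ i z d, D3 W i z < d → ∃ j, D2 m W i j z < d) ∧
    ∀ i j z d, D2 m W i j z < d → ∃ k, D1 m W i j k z < d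

/-- CNT: the hulls are countable and closed under the operations. -/
def claimCnt : Prop :=
  ∀ (𝕜 : Type v) [RCLike 𝕜] (E : Type w) [NormedAddCommGroup E] [NormedSpace 𝕜 E]
    (I J K : Type u) [LinearOrder I] [LinearOrder J] [LinearOrder K]
    [WellFoundedLT I] [WellFoundedLT J] [WellFoundedLT K] (m : Maps I J K)
    (W : Set I → Submodule 𝕜 E) (z : E),
    (MM m W z).Countable ∧
    (∀ s, s ⊆ MM m W z → Sk m s ⊆ MM m W z) ∧
    (∀ i, i ∈ Jmp (D3 W) z → Sum.inl i ∈ MM m W z) ∧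
    (∀ i, i ∈ rk W z → Sum.inl i ∈ MM m W z) ∧
    (∀ i j, Sum.inl i ∈ MM m W z → j ∈ Jmp (D2 m W i) z → Sum.inr (Sum.inl j) ∈ MM m W z) ∧
    (∀ i j k, Sum.inl i ∈ MM m W z → Sum.inr (Sum.inl j) ∈ MM m W z →
      k ∈ Jmp (D1 m W i j) z → Sum.inr (Sum.inr k) ∈ MM m W z) ∧
    (∀ k k', Sum.inr (Sum.inr k) ∈ MM m W z → k' ≤ k → Sum.inr (Sum.inr k') ∈ MM m W z) ∧
    ∀ j j', Sum.inr (Sum.inl j) ∈ MM m W z → Sum.inr (Sum.inl j') ∈ MM m W z →
      Sum.inr (Sum.inr (m.n2 j j')) ∈ MM m W z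

/-- STEP. -/
def claimStep : Prop :=
  ∀ (𝕜 : Type v) [RCLike 𝕜] (E : Type w) [NormedAddCommGroup E] [NormedSpace 𝕜 E]
    (I J K : Type u) [LinearOrder I] [LinearOrder J] [LinearOrder K]
    [WellFoundedLT I] [WellFoundedLT J] [WellFoundedLT K] (m : Maps I J K)
    (W : Set I → Submodule 𝕜 E), Monotone W → (∀ S, IsClosed (W S : Set E)) →
    ∀ (A V : Set E) (N : Set K), IsOpen V →
    (∀ a ∈ A, a ∈ V → ∀ k, Sum.inr (Sum.inr k) ∈ MM m W a → k ∈ N) →
    ∀ (z b : E) (T δ : ℝ) (i : I) (s : Set (Ix I J K)), 0 < T → 0 < δ → s.Finite →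
    (∀ t ∈ Ioo 0 T, ln 𝕜 z b t ∈ V ∧ ln 𝕜 z b t ∈ closure A) →
    (∀ t ∈ Ioo 0 T, Good m W A (ln 𝕜 z b t) (s ∪ {Sum.inl i})) →
    (∀ t ∈ Ioo 0 T, D3 W i (ln 𝕜 z b t) < T * δ) →
    ∃ t ∈ Ioo 0 T, ∃ s' : Set (Ix I J K), s'.Finite ∧ s ∪ {Sum.inl i} ⊆ s' ∧
      Good m W A (ln 𝕜 z b t) s' ∧
      infDist b (W (lt3 (Sk m (s' ∪ inK N))) : Set E) ≤ 8 * δ

/-- UNIF: uniformisation of the countable ordinals which are seen. -/
def claimUnif : Prop :=
  ∀ (𝕜 : Type v) [RCLike 𝕜] (E : Type w) [NormedAddCommGroup E] [NormedSpace 𝕜 E]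
    (I J K : Type u) [LinearOrder I] [LinearOrder J] [LinearOrder K]
    [WellFoundedLT I] [WellFoundedLT J] [WellFoundedLT K] (m : Maps I J K)
    (W : Set I → Submodule 𝕜 E) (L : Submodule 𝕜 E) (A U : Set E), A.Countable → IsOpen U →
    (U ∩ L).Nonempty →
    ∃ V : Set E, V ⊆ U ∧ IsOpen V ∧ (V ∩ L).Nonempty ∧ ∃ N : Set K,
      (∀ a ∈ A, a ∈ V → ∀ k, Sum.inr (Sum.inr k) ∈ MM m W a → k ∈ N) ∧
      ∀ k ∈ N, ∀ V', V' ⊆ V → IsOpen V' → (V' ∩ L).Nonempty →
        ∃ a ∈ A, a ∈ V' ∧ Sum.inr (Sum.inr k) ∈ MM m W a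

/-- ITER: the iteration. -/
def claimIter : Prop :=
  ∀ (𝕜 : Type v) [RCLike 𝕜] (E : Type w) [NormedAddCommGroup E] [NormedSpace 𝕜 E]
    (I J K : Type u) [LinearOrder I] [LinearOrder J] [LinearOrder K]
    [WellFoundedLT I] [WellFoundedLT J] [WellFoundedLT K] (m : Maps I J K)
    (W : Set I → Submodule 𝕜 E), Monotone W → (∀ S, IsClosed (W S : Set E)) →
    ∀ (L : Submodule 𝕜 E) (A V B : Set E) (N : Set K), IsOpen V → (V ∩ L).Nonempty →
    V ∩ L ⊆ closure A → B.Countable → (L : Set E) ⊆ closure B →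
    (∀ k ∈ N, ∀ V', V' ⊆ V → IsOpen V' → (V' ∩ L).Nonempty →
        ∃ a ∈ A, a ∈ V' ∧ Sum.inr (Sum.inr k) ∈ MM m W a) →
    (∀ z ∈ V, z ∈ L → ∀ s : Set (Ix I J K), s.Finite → Good m W A z s → ∀ b ∈ B, ∀ ε : ℝ, 0 < ε →
      ∃ z' ∈ V, z' ∈ L ∧ ∃ s' : Set (Ix I J K), s'.Finite ∧ s ⊆ s' ∧ Good m W A z' s' ∧
        infDist b (W (lt3 (Sk m (s' ∪ inK N))) : Set E) ≤ ε) →
    Goal m W L A

/-- RANK: the rank of a separable subspace; most elements have this rank. -/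
def claimRank : Prop :=
  ∀ (𝕜 : Type v) [RCLike 𝕜] (E : Type w) [NormedAddCommGroup E] [NormedSpace 𝕜 E]
    [CompleteSpace E]
    (I J K : Type u) [LinearOrder I] [LinearOrder J] [LinearOrder K]
    [WellFoundedLT I] (m : Maps I J K)
    (W : Set I → Submodule 𝕜 E), Monotone W → (∀ S, IsClosed (W S : Set E)) →
    ∀ L : Submodule 𝕜 E, IsClosed (L : Set E) → TopologicalSpace.IsSeparable (L : Set E) →
    (L : Set E) ⊆ EE W univ →
    ∃ i : I, (L : Set E) ⊆ EE W (Iic i) ∧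
      ∀ O : Set E, IsOpen O → (O ∩ L).Nonempty → ∃ b ∈ O, b ∈ L ∧ i ∈ rk W b

/-- MAIN. -/
def claimMain : Prop :=
  ∀ (𝕜 : Type v) [RCLike 𝕜] (E : Type w) [NormedAddCommGroup E] [NormedSpace 𝕜 E]
    [CompleteSpace E]
    (I J K : Type u) [LinearOrder I] [LinearOrder J] [LinearOrder K]
    [WellFoundedLT I] [WellFoundedLT J] [WellFoundedLT K] (m : Maps I J K)
    (W : Set I → Submodule 𝕜 E), Monotone W → (∀ S, IsClosed (W S : Set E)) →
    ∀ L : Submodule 𝕜 E, IsClosed (L : Set E) → TopologicalSpace.IsSeparable (L : Set E) →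
    (L : Set E) ⊆ EE W univ → ∀ A U : Set E, A ⊆ L → A.Countable → IsOpen U →
    (U ∩ L).Nonempty → U ∩ L ⊆ closure A → Goal m W L A

/-! ### Functional analysis -/

/-- RED: reduction to separable subspaces. -/
def claimRed : Prop :=
  ∀ (𝕜 : Type v) [RCLike 𝕜] (X : Type w) [NormedAddCommGroup X] [NormedSpace 𝕜 X]
    (Y : Submodule 𝕜 (StrongDual 𝕜 X)) (Φ : Y → Set X), IsProjectionalGenerator Y Φ →
    ∀ N : StrongDual 𝕜 X → Set X, (∀ z ∈ hull Y, (N z).Countable) →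
    (∀ L : Submodule 𝕜 (StrongDual 𝕜 X), L ≤ hull Y → IsClosed (L : Set (StrongDual 𝕜 X)) →
      TopologicalSpace.IsSeparable (L : Set (StrongDual 𝕜 X)) →
      ∀ A U : Set (StrongDual 𝕜 X), A ⊆ L → A.Countable → IsOpen U → (U ∩ L).Nonempty →
      U ∩ L ⊆ closure A → ∀ f ∈ wcl (L : Set (StrongDual 𝕜 X)),
      (∀ a ∈ A, ∀ x ∈ N a, f x = 0) → f = 0) →
    ∃ Ψ : hull Y → Set X, IsProjectionalGenerator (hull Y) Ψ ∧
      ∀ y : Y, Ψ ⟨y, le_hull Y y.2⟩ = Φ y

/-- The closed set generated by the vectors `e i`, `i ∈ Γ`. -/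
def TT {𝕜 : Type v} [RCLike 𝕜] {X : Type w} [NormedAddCommGroup X] [NormedSpace 𝕜 X]
    {Y : Submodule 𝕜 (StrongDual 𝕜 X)} (Φ : Y → Set X) (nm : X → StrongDual 𝕜 X)
    {I : Type u} (e : I → X) (Γ : Set I) : Set (X ⊕ StrongDual 𝕜 X) :=
  cls (opT Φ nm) ((fun i => Sum.inl (e i)) '' Γ ∪ {Sum.inl 0, Sum.inr 0})

/-- TTF: facts on `TT`. -/
def claimTTF : Prop :=
  ∀ (𝕜 : Type v) [RCLike 𝕜] (X : Type w) [NormedAddCommGroup X] [NormedSpace 𝕜 X]
    (Y : Submodule 𝕜 (StrongDual 𝕜 X)) (Φ : Y → Set X), IsProjectionalGenerator Y Φ →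
    ∀ nm : X → StrongDual 𝕜 X, (∀ x, nm x ∈ Y) → ∀ (I : Type u) (e : I → X),
    (∀ Γ, Closed Φ nm (TT Φ nm e Γ)) ∧ (Monotone (TT Φ nm e)) ∧
    (∀ Γ : Set I, Γ.Countable → (TT Φ nm e Γ).Countable) ∧
    ∀ (Γ : Set I) (x : X ⊕ StrongDual 𝕜 X), x ∈ TT Φ nm e Γ →
      ∃ F : Finset I, (F : Set I) ⊆ Γ ∧ x ∈ TT Φ nm e (F : Set I)

/-- EXH: exhaustion of `D(Y)`. -/
def claimExh : Prop :=
  ∀ (𝕜 : Type v) [RCLike 𝕜] (X : Type w) [NormedAddCommGroup X] [NormedSpace 𝕜 X]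
    (Y : Submodule 𝕜 (StrongDual 𝕜 X)) (Φ : Y → Set X), IsProjectionalGenerator Y Φ →
    ∀ (c : ℝ) (nm : X → StrongDual 𝕜 X), 0 < c →
    (∀ x, nm x ∈ Y ∧ ‖nm x‖ ≤ 1 ∧ c * ‖x‖ ≤ ‖nm x x‖) → ∀ (I : Type u) (e : I → X),
    DenseRange e → ∀ z ∈ hull Y,
      ∃ Γ : Set I, Γ.Countable ∧ z ∈ wcl (fpart (TT Φ nm e Γ))

end Pool.Agent.Work.MP_6c3bcd_an.Dn

end

section

/-!
# CNT: the hulls are countable and closed under the operations
-/

universe u v w

namespace Pool.Agent.Work.MP_6c3bcd_an.Dn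

open Set Topology Metric

namespace ICnt

theorem jmp_countable {ι : Type*} {α : Type*} [LinearOrder ι] (g : ι → α → ℝ) (z : α) :
    (Jmp g z).Countable := by
  have h : Jmp g z = ⋃ q : ℚ, {i | First g z q i} := by
    ext i
    simp [Jmp]
  rw [h]
  refine countable_iUnion fun q => Set.Subsingleton.countable ?_
  intro i hi i' hi'
  rcases lt_trichotomy i i' with h1 | h1 | h1
  · exact absurd hi.1 (not_lt.2 (hi'.2 i h1))
  · exact h1
  · exact absurd hi'.1 (not_lt.2 (hi.2 i' h1))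

variable {𝕜 : Type v} [RCLike 𝕜] {E : Type w} [NormedAddCommGroup E] [NormedSpace 𝕜 E]
variable {I J K : Type u} [LinearOrder I] [LinearOrder J] [LinearOrder K]

theorem rk_countable (W : Set I → Submodule 𝕜 E) (z : E) : (rk W z).Countable := by
  refine Set.Subsingleton.countable ?_
  intro i hi i' hi'
  rcases lt_trichotomy i i' with h1 | h1 | h1
  · exact absurd hi.1 (hi'.2 i h1)
  · exact h1
  · exact absurd hi'.1 (hi.2 i' h1)

theorem op0_countable (m : Maps I J K) (a b : Ix I J K) : (op0 m a b).Countable := by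
  rcases a with i | j | k <;> rcases b with i' | j' | k' <;>
    first
      | exact countable_singleton _
      | exact countable_range _
      | exact countable_empty

theorem opa_countable (m : Maps I J K) (W : Set I → Submodule 𝕜 E) (z : E) (a b : Ix I J K) :
    (opa m W z a b).Countable := by
  rcases a with i | j | k <;> rcases b with i' | j' | k' <;>
    first
      | exact (jmp_countable _ _).image _
      | exact countable_empty

end ICnt

theorem prfCnt : claimCnt.{u, v, w} := by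
  intro 𝕜 _ E _ _ I J K _ _ _ _ _ _ m W z
  have hcl : ∀ a ∈ MM m W z, ∀ b ∈ MM m W z, op0 m a b ∪ opa m W z a b ⊆ MM m W z :=
    fun a ha b hb => cls_closed (fun a b => op0 m a b ∪ opa m W z a b) _ ha hb
  have h0 : ∀ a ∈ MM m W z, ∀ b ∈ MM m W z, op0 m a b ⊆ MM m W z :=
    fun a ha b hb => subset_union_left.trans (hcl a ha b hb)
  have ha : ∀ a ∈ MM m W z, ∀ b ∈ MM m W z, opa m W z a b ⊆ MM m W z :=
    fun a ha b hb => subset_union_right.trans (hcl a ha b hb)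
  have hs : Sum.inl '' (Jmp (D3 W) z ∪ rk W z) ⊆ MM m W z := subset_cls _ _
  refine ⟨?_, ?_, ?_, ?_, ?_, ?_, ?_, ?_⟩
  · exact cls_countable
      (fun a b => (ICnt.op0_countable m a b).union (ICnt.opa_countable m W z a b))
      (((ICnt.jmp_countable _ _).union (ICnt.rk_countable W z)).image _)
  · intro s hs
    exact cls_min hs h0
  · intro i hi
    exact hs ⟨i, Or.inl hi, rfl⟩
  · intro i hi
    exact hs ⟨i, Or.inr hi, rfl⟩
  · intro i j hi hj
    exact ha (Sum.inl i) hi (Sum.inl i) hi ⟨j, hj, rfl⟩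
  · intro i j k hi hj hk
    exact ha (Sum.inl i) hi (Sum.inr (Sum.inl j)) hj ⟨k, hk, rfl⟩
  · intro k k' hk hkk
    refine h0 (Sum.inr (Sum.inr k)) hk (Sum.inr (Sum.inr k)) hk ?_
    exact ⟨m.n1 k k', by simp only [m.e1_n1 k k' hkk]⟩
  · intro j j' hj hj'
    exact h0 (Sum.inr (Sum.inl j)) hj (Sum.inr (Sum.inl j')) hj' rfl

end Pool.Agent.Work.MP_6c3bcd_an.Dn

end

section

/-!
EEF: facts on the hierarchy.
-/

universe u v w

namespace Pool.Agent.Work.MP_6c3bcd_an.Dn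

open Set Topology Metric

namespace IEEF

variable {𝕜 : Type v} [RCLike 𝕜] {E : Type w} [NormedAddCommGroup E] [NormedSpace 𝕜 E]
variable {I J K : Type u} [LinearOrder I] [LinearOrder J] [LinearOrder K]

theorem EE_mono (W : Set I → Submodule 𝕜 E) {S S' : Set I} (h : S ⊆ S') : EE W S ⊆ EE W S' := by
  rintro z ⟨Γ, h1, h2, h3⟩
  exact ⟨Γ, h1.trans h, h2, h3⟩

/-- `EE W S` as a subspace. -/
def sub (W : Set I → Submodule 𝕜 E) (hW : Monotone W) (S : Set I) : Submodule 𝕜 E where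
  carrier := EE W S
  zero_mem' := ⟨∅, empty_subset _, countable_empty, (W ∅).zero_mem⟩
  add_mem' := by
    rintro x y ⟨Γ, h1, h2, h3⟩ ⟨Γ', h1', h2', h3'⟩
    refine ⟨Γ ∪ Γ', union_subset h1 h1', h2.union h2', ?_⟩
    exact (W (Γ ∪ Γ')).add_mem (hW subset_union_left h3) (hW subset_union_right h3')
  smul_mem' := by
    rintro c x ⟨Γ, h1, h2, h3⟩
    exact ⟨Γ, h1, h2, (W Γ).smul_mem c h3⟩

theorem EE_closed (W : Set I → Submodule 𝕜 E) (hW : Monotone W)
    (hc : ∀ S, IsClosed (W S : Set E)) (S : Set I) : IsClosed (EE W S) := by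
  apply isClosed_of_closure_subset
  intro z hz
  rw [mem_closure_iff_seq_limit] at hz
  obtain ⟨x, hx, hxz⟩ := hz
  choose Γ h1 h2 h3 using hx
  refine ⟨⋃ n, Γ n, iUnion_subset h1, countable_iUnion h2, ?_⟩
  exact (hc (⋃ n, Γ n)).mem_of_tendsto hxz
    (Filter.Eventually.of_forall fun n => hW (subset_iUnion Γ n) (h3 n))

theorem EE_nonempty (W : Set I → Submodule 𝕜 E) (S : Set I) : (EE W S).Nonempty :=
  ⟨0, ∅, empty_subset _, countable_empty, (W ∅).zero_mem⟩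

theorem EE_e3 (m : Maps I J K) (W : Set I → Submodule 𝕜 E) (i : I) :
    EE W (Iic i) = ⋃ j, EE W (m.e3 i '' Iic j) := by
  apply Subset.antisymm
  · rintro z ⟨Γ, h1, h2, h3⟩
    obtain ⟨j, hj⟩ := m.bJ (m.n3 i '' Γ) (h2.image _)
    refine mem_iUnion.2 ⟨j, Γ, ?_, h2, h3⟩
    intro γ hγ
    exact ⟨m.n3 i γ, hj _ (mem_image_of_mem _ hγ), m.e3_n3 i γ (h1 hγ)⟩
  · refine iUnion_subset fun j => EE_mono W ?_
    rintro _ ⟨j', _, rfl⟩
    exact m.e3_le i j'

theorem EE_e2 (m : Maps I J K) (W : Set I → Submodule 𝕜 E) (i : I) (j : J) :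
    EE W (m.e3 i '' Iic j) = ⋃ k, EE W (m.e3 i '' (m.e2 j '' Iic k)) := by
  apply Subset.antisymm
  · rintro z ⟨Γ, h1, h2, h3⟩
    have hch : ∀ γ : Γ, ∃ j' : J, j' ≤ j ∧ m.e3 i j' = γ.1 := fun γ => h1 γ.2
    choose f hf1 hf2 using hch
    have : Countable Γ := h2.to_subtype
    obtain ⟨k, hk⟩ := m.bK (range fun γ : Γ => m.n2 j (f γ)) (countable_range _)
    refine mem_iUnion.2 ⟨k, Γ, ?_, h2, h3⟩
    intro γ hγ
    refine ⟨f ⟨γ, hγ⟩, ⟨m.n2 j (f ⟨γ, hγ⟩), hk _ (mem_range_self _), m.e2_n2 j _ (hf1 _)⟩,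
      hf2 ⟨γ, hγ⟩⟩
  · refine iUnion_subset fun k => EE_mono W ?_
    rintro _ ⟨_, ⟨k', _, rfl⟩, rfl⟩
    exact mem_image_of_mem _ (m.e2_le j k')

theorem convex_infDist (P : Submodule 𝕜 E) (z b : E) :
    ConvexOn ℝ univ fun t : ℝ => infDist (ln 𝕜 z b t) (P : Set E) := by
  refine ⟨convex_univ, ?_⟩
  intro x _ y _ a c ha hc hac
  have hne : (P : Set E).Nonempty := ⟨0, P.zero_mem⟩
  simp only [smul_eq_mul]
  apply le_of_forall_pos_le_add
  intro ε hε
  obtain ⟨p, hp, hp'⟩ := (infDist_lt_iff hne).1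
    (lt_add_of_pos_right (infDist (ln 𝕜 z b x) (P : Set E)) hε)
  obtain ⟨q, hq, hq'⟩ := (infDist_lt_iff hne).1
    (lt_add_of_pos_right (infDist (ln 𝕜 z b y) (P : Set E)) hε)
  have hmem : ((a : ℝ) : 𝕜) • p + ((c : ℝ) : 𝕜) • q ∈ P :=
    P.add_mem (P.smul_mem _ hp) (P.smul_mem _ hq)
  have hln : ln 𝕜 z b (a * x + c * y) =
      ((a : ℝ) : 𝕜) • ln 𝕜 z b x + ((c : ℝ) : 𝕜) • ln 𝕜 z b y := by
    unfold ln
    have h1 : z = ((a : ℝ) : 𝕜) • z + ((c : ℝ) : 𝕜) • z := by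
      rw [← add_smul, ← RCLike.ofReal_add, hac, RCLike.ofReal_one, one_smul]
    rw [RCLike.ofReal_add, RCLike.ofReal_mul, RCLike.ofReal_mul, add_smul, mul_smul, mul_smul,
      smul_add, smul_add]
    nth_rewrite 1 [h1]
    abel
  have h2 : dist (ln 𝕜 z b (a * x + c * y)) (((a : ℝ) : 𝕜) • p + ((c : ℝ) : 𝕜) • q) ≤
      a * dist (ln 𝕜 z b x) p + c * dist (ln 𝕜 z b y) q := by
    rw [hln, dist_eq_norm, dist_eq_norm, dist_eq_norm]
    have h3 : ((a : ℝ) : 𝕜) • ln 𝕜 z b x + ((c : ℝ) : 𝕜) • ln 𝕜 z b y -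
        (((a : ℝ) : 𝕜) • p + ((c : ℝ) : 𝕜) • q) =
        ((a : ℝ) : 𝕜) • (ln 𝕜 z b x - p) + ((c : ℝ) : 𝕜) • (ln 𝕜 z b y - q) := by
      rw [smul_sub, smul_sub]
      abel
    rw [h3]
    refine (norm_add_le _ _).trans ?_
    rw [norm_smul, norm_smul, RCLike.norm_ofReal, RCLike.norm_ofReal, abs_of_nonneg ha,
      abs_of_nonneg hc]
  have h4 : infDist (ln 𝕜 z b (a * x + c * y)) (P : Set E) ≤
      dist (ln 𝕜 z b (a * x + c * y)) (((a : ℝ) : 𝕜) • p + ((c : ℝ) : 𝕜) • q) :=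
    infDist_le_dist_of_mem hmem
  have h5 : a * dist (ln 𝕜 z b x) p ≤ a * (infDist (ln 𝕜 z b x) (P : Set E) + ε) :=
    mul_le_mul_of_nonneg_left hp'.le ha
  have h6 : c * dist (ln 𝕜 z b y) q ≤ c * (infDist (ln 𝕜 z b y) (P : Set E) + ε) :=
    mul_le_mul_of_nonneg_left hq'.le hc
  have h7 : a * ε + c * ε = ε := by rw [← add_mul, hac, one_mul]
  linarith

end IEEF

open IEEF in
theorem prfEEF : claimEEF.{u, v, w} := by
  intro 𝕜 _ E _ _ I J K _ _ _ m W hW hc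
  refine ⟨fun S => ⟨sub W hW S, rfl, EE_closed W hW hc S⟩, ?_, fun S S' h => EE_mono W h,
    EE_e3 m W, EE_e2 m W, fun S => lipschitz_infDist_pt _, fun S z b =>
      convex_infDist (sub W hW S) z b, fun S S' h z =>
      infDist_le_infDist_of_subset (EE_mono W h) (EE_nonempty W S), ?_, ?_⟩
  · rintro S z ⟨Γ, h1, _, h3⟩
    exact hW h1 h3
  · intro i z d h
    unfold D3 at h
    rw [infDist_lt_iff (EE_nonempty W _), EE_e3 m W i] at h
    obtain ⟨y, hy, hd⟩ := h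
    obtain ⟨j, hj⟩ := mem_iUnion.1 hy
    exact ⟨j, (infDist_le_dist_of_mem hj).trans_lt hd⟩
  · intro i j z d h
    unfold D2 at h
    rw [infDist_lt_iff (EE_nonempty W _), EE_e2 m W i j] at h
    obtain ⟨y, hy, hd⟩ := h
    obtain ⟨k, hk⟩ := mem_iUnion.1 hy
    exact ⟨k, (infDist_le_dist_of_mem hk).trans_lt hd⟩

end Pool.Agent.Work.MP_6c3bcd_an.Dn

end

section

/-!
# EXH: exhaustion of `D(Y)`
-/

universe u v w

namespace Pool.Agent.Work.MP_6c3bcd_an.Dn

open Set Topology Metric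

namespace IExh

theorem finset_subset {I : Type u} {Sn : ℕ → Set I} (hmono : Monotone Sn) (F : Finset I)
    (hF : (F : Set I) ⊆ ⋃ n, Sn n) : ∃ n, (F : Set I) ⊆ Sn n := by
  classical
  induction F using Finset.induction_on with
  | empty => exact ⟨0, by simp⟩
  | insert a F _ ih =>
    rw [Finset.coe_insert] at hF
    obtain ⟨n, hn⟩ := ih ((subset_insert _ _).trans hF)
    obtain ⟨m, hm⟩ := mem_iUnion.1 (hF (mem_insert _ _))
    refine ⟨max n m, ?_⟩
    rw [Finset.coe_insert]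
    exact insert_subset (hmono (le_max_right _ _) hm) (hn.trans (hmono (le_max_left _ _)))

end IExh

theorem prfExh (hTTF : claimTTF.{u, v, w}) : claimExh.{u, v, w} := by
  intro 𝕜 _ X _ _ Y Φ hΦ c nm hc hnm I e he z hz
  obtain ⟨hClosed, hMono, hCount, hFin⟩ := hTTF 𝕜 X Y Φ hΦ nm (fun x => (hnm x).1) I e
  obtain ⟨C, hCY, hCc, hzC⟩ := mem_hull_iff.1 hz
  have hJ : ∀ x : X, ∃ J : Set I, J.Countable ∧ x ∈ closure (e '' J) := by
    intro x
    obtain ⟨u, hu, hlim⟩ := mem_closure_iff_seq_limit.1 (he x)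
    choose k hk using hu
    refine ⟨range k, countable_range k, mem_closure_of_tendsto hlim
      (Filter.Eventually.of_forall fun n => ⟨k n, mem_range_self n, hk n⟩)⟩
  choose J hJc hJcl using hJ
  let g : Set I → Set I := fun S =>
    S ∪ ⋃ y ∈ qcl (fpart (TT Φ nm e S) ∪ C), ⋃ x ∈ pull Φ {y}, J x
  let Sn : ℕ → Set I := fun n => Nat.rec ∅ (fun _ S => g S) n
  have hSn0 : Sn 0 = ∅ := rfl
  have hSn1 : ∀ n, Sn (n + 1) = g (Sn n) := fun n => rfl
  have hcount : ∀ n, (Sn n).Countable := by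
    intro n
    induction n with
    | zero => exact countable_empty
    | succ n ih =>
      rw [hSn1]
      refine ih.union ((qcl_countable ((fpart_countable (hCount _ ih)).union hCc)).biUnion
        fun y _ => ?_)
      exact (pull_countable hΦ (countable_singleton _)).biUnion fun x _ => hJc x
  have hmono : Monotone Sn := by
    refine monotone_nat_of_le_succ fun n => ?_
    rw [hSn1]
    exact subset_union_left
  set S : Set I := ⋃ n, Sn n with hS
  have hcl : Closed Φ nm (TT Φ nm e S) := hClosed S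
  refine ⟨S, countable_iUnion hcount, ?_⟩
  set Q : Set (StrongDual 𝕜 X) := fpart (TT Φ nm e S) ∪ C with hQ
  have hQY : Q ⊆ Y := by
    rintro f (hf | hf)
    · exact hcl.sub f hf
    · exact hCY hf
  have hΦcl : ∀ y (hy : y ∈ qcl Q), ∀ x ∈ Φ ⟨y, qcl_subset_submodule hQY hy⟩,
      x ∈ closure (vpart (TT Φ nm e S)) := by
    intro y hy x hx
    obtain ⟨F, hF, hyF⟩ := qcl_finite hy
    have hex : ∃ n, (F : Set (StrongDual 𝕜 X)) ⊆ fpart (TT Φ nm e (Sn n)) ∪ C := by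
      have : ∀ F : Finset (StrongDual 𝕜 X), (F : Set (StrongDual 𝕜 X)) ⊆ Q →
          ∃ n, (F : Set (StrongDual 𝕜 X)) ⊆ fpart (TT Φ nm e (Sn n)) ∪ C := by
        classical
        intro F
        induction F using Finset.induction_on with
        | empty => exact fun _ => ⟨0, by simp⟩
        | insert a F _ ih =>
          intro hF
          rw [Finset.coe_insert] at hF
          obtain ⟨n, hn⟩ := ih ((subset_insert _ _).trans hF)
          have ha : ∃ m, a ∈ fpart (TT Φ nm e (Sn m)) ∪ C := by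
            rcases hF (mem_insert _ _) with h | h
            · obtain ⟨F', hF', hx'⟩ := hFin S (Sum.inr a) h
              obtain ⟨m, hm⟩ := IExh.finset_subset hmono F' hF'
              exact ⟨m, Or.inl (hMono hm hx')⟩
            · exact ⟨0, Or.inr h⟩
          obtain ⟨m, hm⟩ := ha
          have hmon : ∀ {k l : ℕ}, k ≤ l →
              fpart (TT Φ nm e (Sn k)) ∪ C ⊆ fpart (TT Φ nm e (Sn l)) ∪ C := by
            intro k l hkl
            refine union_subset_union_left _ ?_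
            exact preimage_mono (f := Sum.inr) (hMono (hmono hkl))
          refine ⟨max n m, ?_⟩
          rw [Finset.coe_insert]
          refine insert_subset (hmon (le_max_right _ _) hm) (hn.trans (hmon (le_max_left _ _)))
      exact this F hF
    obtain ⟨n, hn⟩ := hex
    have hyn : y ∈ qcl (fpart (TT Φ nm e (Sn n)) ∪ C) := qcl_mono hn hyF
    have hJsub : J x ⊆ Sn (n + 1) := by
      rw [hSn1]
      refine Subset.trans ?_ subset_union_right
      intro j hj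
      refine mem_iUnion₂.2 ⟨y, hyn, mem_iUnion₂.2 ⟨x, ?_, hj⟩⟩
      exact mem_iUnion₂.2 ⟨y, rfl, mem_iUnion.2 ⟨qcl_subset_submodule hQY hy, hx⟩⟩
    refine closure_mono ?_ (hJcl x)
    rintro _ ⟨j, hj, rfl⟩
    have hjS : j ∈ S := mem_iUnion.2 ⟨n + 1, hJsub hj⟩
    exact subset_cls _ _ (Or.inl ⟨j, hjS, rfl⟩)
  obtain ⟨z', hz', hzz'⟩ := hcl.exists_eqOn hc hnm z
  have hw : z - z' ∈ wcl (qcl Q) := by
    have h1 : z ∈ wqSub Q := by
      rw [← SetLike.mem_coe, coe_wqSub]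
      exact wcl_mono (subset_union_right.trans (subset_qcl Q)) hzC
    have h2 : z' ∈ wqSub Q := by
      rw [← SetLike.mem_coe, coe_wqSub]
      exact wcl_mono (subset_union_left.trans (subset_qcl Q)) hz'
    have h3 := (wqSub Q).sub_mem h1 h2
    rwa [← SetLike.mem_coe, coe_wqSub] at h3
  have hw0 : ∀ x ∈ closure (vpart (TT Φ nm e S)), (z - z') x = 0 := by
    have hclosed : IsClosed {x : X | (z - z') x = 0} :=
      isClosed_eq (z - z').continuous continuous_const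
    refine fun x hx => closure_minimal (fun x hx => ?_) hclosed hx
    change (z - z') x = 0
    rw [sub_apply, hzz' x hx, sub_self]
  have hzero : z - z' = 0 :=
    hΦ.separates_qcl hQY hw fun y hy x hx => hw0 x (hΦcl y hy x hx)
  rw [sub_eq_zero.1 hzero]
  exact hz'

end Pool.Agent.Work.MP_6c3bcd_an.Dn

end

section

/-!
# ITER: the iteration
-/

universe u v w

namespace Pool.Agent.Work.MP_6c3bcd_an.Dn

open Set Topology Metric

namespace IIter

theorem exists_of_mono {α : Type*} {T : ℕ → Set α} (hT : Monotone T) (F : Finset α)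
    (hF : (F : Set α) ⊆ ⋃ n, T n) : ∃ n, (F : Set α) ⊆ T n := by
  classical
  induction F using Finset.induction_on with
  | empty => exact ⟨0, by simp⟩
  | insert a F ha ih =>
    rw [Finset.coe_insert] at hF ⊢
    obtain ⟨n, hn⟩ := ih ((subset_insert _ _).trans hF)
    obtain ⟨k, hk⟩ := mem_iUnion.1 (hF (mem_insert _ _))
    refine ⟨max n k, insert_subset (hT (le_max_right n k) hk) (hn.trans (hT (le_max_left n k)))⟩

/-- finitely many elements of a closure come from one finite set -/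
theorem cls_finset {α β : Type*} {op : α → α → Set α} {S : Set α} (f : β → α) (F : Finset β)
    (hF : ∀ x ∈ F, f x ∈ cls op S) :
    ∃ G : Finset α, (G : Set α) ⊆ S ∧ ∀ x ∈ F, f x ∈ cls op (G : Set α) := by
  classical
  induction F using Finset.induction_on with
  | empty => exact ⟨∅, by simp, by simp⟩
  | insert a F ha ih =>
    obtain ⟨G, hG, hG'⟩ := ih (fun x hx => hF x (Finset.mem_insert_of_mem hx))
    obtain ⟨G1, hG1, hG1'⟩ := cls_finite (hF a (Finset.mem_insert_self _ _))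
    refine ⟨G ∪ G1, ?_, ?_⟩
    · rw [Finset.coe_union]
      exact union_subset hG hG1
    · intro x hx
      rw [Finset.mem_insert] at hx
      rcases hx with rfl | hx
      · exact cls_mono (by rw [Finset.coe_union]; exact subset_union_right) hG1'
      · exact cls_mono (by rw [Finset.coe_union]; exact subset_union_left) (hG' x hx)

theorem exists_seq {α : Type*} (a0 : α) (R : ℕ → α → α → Prop) (h : ∀ n a, ∃ b, R n a b) :
    ∃ s : ℕ → α, ∀ n, R n (s n) (s (n + 1)) := by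
  choose g hg using h
  exact ⟨fun n => Nat.rec a0 (fun n a => g n a) n, fun n => hg n _⟩

end IIter

open IIter in
theorem prfIter (hCnt : claimCnt.{u, v, w}) : claimIter.{u, v, w} := by
  intro 𝕜 _ E _ _ I J K _ _ _ _ _ _ m W hWm hWc L A V B N hVo hVL hcl hBc hLB hN hstep
  classical
  -- an enumeration of `B`
  have hBne : B.Nonempty := by
    have h0 : (0 : E) ∈ closure B := hLB L.zero_mem
    exact closure_nonempty_iff.1 ⟨0, h0⟩
  obtain ⟨f, hf⟩ := hBc.exists_eq_range hBne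
  have hfB : ∀ n, f n ∈ B := fun n => by rw [hf]; exact mem_range_self n
  -- the sequence
  have hεpos : ∀ n : ℕ, (0 : ℝ) < 1 / ((n.unpair.2 : ℝ) + 1) := fun n => by positivity
  obtain ⟨z0, hz0V, hz0L⟩ := hVL
  obtain ⟨st, hst⟩ : ∃ st : ℕ → {p : E × Set (Ix I J K) //
      p.1 ∈ V ∧ p.1 ∈ L ∧ p.2.Finite ∧ Good m W A p.1 p.2}, ∀ n,
      (st n).1.2 ⊆ (st (n + 1)).1.2 ∧
      infDist (f n.unpair.1) (W (lt3 (Sk m ((st (n + 1)).1.2 ∪ inK N))) : Set E)
        ≤ 1 / ((n.unpair.2 : ℝ) + 1) := by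
    apply exists_seq (⟨(z0, ∅), hz0V, hz0L, finite_empty,
      Filter.Eventually.of_forall fun _ _ => empty_subset _⟩ : {p : E × Set (Ix I J K) //
      p.1 ∈ V ∧ p.1 ∈ L ∧ p.2.Finite ∧ Good m W A p.1 p.2})
      (fun n p p' => p.1.2 ⊆ p'.1.2 ∧
        infDist (f n.unpair.1) (W (lt3 (Sk m (p'.1.2 ∪ inK N))) : Set E)
          ≤ 1 / ((n.unpair.2 : ℝ) + 1))
    rintro n ⟨⟨z, s⟩, hz1, hz2, hs, hg⟩
    obtain ⟨z', hz'1, hz'2, s', hs', hss', hg', hd⟩ := hstep z hz1 hz2 s hs hg _ (hfB _) _ (hεpos n)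
    exact ⟨⟨(z', s'), hz'1, hz'2, hs', hg'⟩, hss', hd⟩
  have hmono : Monotone fun n => (st n).1.2 := monotone_nat_of_le_succ fun n => (hst n).1
  obtain ⟨T, hT⟩ : ∃ T : ℕ → Set I, T = fun n => lt3 (Sk m ((st n).1.2 ∪ inK N)) := ⟨_, rfl⟩
  have hTmono : Monotone T := by
    intro n k hnk i hi
    rw [hT] at hi ⊢
    exact cls_mono (union_subset_union_left _ (hmono hnk)) hi
  refine ⟨⋃ n, T n, ?_, ?_⟩
  · -- density
    have hB : B ⊆ (W (⋃ n, T n) : Set E) := by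
      rw [hf]
      rintro _ ⟨i, rfl⟩
      rw [(hWc _).mem_iff_infDist_zero ⟨0, (W _).zero_mem⟩]
      apply le_antisymm _ infDist_nonneg
      apply le_of_forall_pos_le_add
      intro ε hε
      obtain ⟨j, hj⟩ := exists_nat_one_div_lt hε
      have h1 := (hst (Nat.pair i j)).2
      rw [Nat.unpair_pair] at h1
      simp only at h1
      have hT1 : lt3 (Sk m ((st (Nat.pair i j + 1)).1.2 ∪ inK N)) = T (Nat.pair i j + 1) := by
        rw [hT]
      rw [hT1] at h1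
      have h2 : infDist (f i) (W (⋃ n, T n) : Set E)
          ≤ infDist (f i) (W (T (Nat.pair i j + 1)) : Set E) :=
        infDist_le_infDist_of_subset (hWm (subset_iUnion T (Nat.pair i j + 1))) ⟨0, (W _).zero_mem⟩
      rw [zero_add]
      exact (h2.trans h1).trans hj.le
    intro x hx
    have h1 := closure_mono hB (hLB hx)
    rwa [(hWc _).closure_eq] at h1
  · intro F hF
    obtain ⟨n, hn⟩ := exists_of_mono hTmono F hF
    rw [hT] at hn
    obtain ⟨G, hG, hG'⟩ := cls_finset (op := op0 m) (S := (st n).1.2 ∪ inK N)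
      (fun i : I => (Sum.inl i : Ix I J K)) F (fun i hi => hn (Finset.mem_coe.2 hi))
    obtain ⟨hzV, hzL, hsf, hgood⟩ := (st n).2
    set z := (st n).1.1 with hz
    set s := (st n).1.2 with hs
    set V' : Set E := V ∩ interior {z' | z' ∈ A → s ⊆ MM m W z'} with hV'
    have hV'o : IsOpen V' := hVo.inter isOpen_interior
    have hzV' : z ∈ V' := ⟨hzV, mem_interior_iff_mem_nhds.2 hgood⟩
    have hsub : ∀ a ∈ A, a ∈ V' → s ⊆ MM m W a := fun a ha haV =>
      interior_subset haV.2 ha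
    set N0 : Set K := {k | k ∈ N ∧ (Sum.inr (Sum.inr k) : Ix I J K) ∈ (G : Set (Ix I J K))}
      with hN0
    have hN0f : N0.Finite := by
      have h1 : ((fun k : K => (Sum.inr (Sum.inr k) : Ix I J K)) ⁻¹' (G : Set (Ix I J K))).Finite :=
        G.finite_toSet.preimage (fun a _ b _ h => Sum.inr_injective (Sum.inr_injective h))
      exact h1.subset fun k hk => hk.2
    have hex : ∃ a ∈ A, a ∈ V' ∧ ∀ k ∈ N0, (Sum.inr (Sum.inr k) : Ix I J K) ∈ MM m W a := by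
      rcases N0.eq_empty_or_nonempty with h0 | hne
      · obtain ⟨a, haV, haA⟩ := mem_closure_iff.1 (hcl ⟨hzV, hzL⟩) V' hV'o hzV'
        refine ⟨a, haA, haV, ?_⟩
        intro k hk
        rw [h0] at hk
        exact absurd hk (notMem_empty k)
      · obtain ⟨k0, hk0, hmax⟩ := hN0f.exists_maximalFor id N0 hne
        have hmax' : ∀ k ∈ N0, k ≤ k0 := by
          intro k hk
          rcases le_total k k0 with h | h
          · exact h
          · exact hmax hk h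
        obtain ⟨a, haA, haV, hak⟩ := hN k0 hk0.1 V' inter_subset_left hV'o ⟨z, hzV', hzL⟩
        refine ⟨a, haA, haV, fun k hk => ?_⟩
        exact (hCnt 𝕜 E I J K m W a).2.2.2.2.2.2.1 k0 k hak (hmax' k hk)
    obtain ⟨a, haA, haV, hak⟩ := hex
    refine ⟨a, haA, ?_⟩
    have hGa : (G : Set (Ix I J K)) ⊆ MM m W a := by
      intro x hx
      rcases hG hx with h1 | ⟨k, hk, rfl⟩
      · exact hsub a haA haV h1
      · exact hak k ⟨hk, hx⟩
    intro i hi
    exact (hCnt 𝕜 E I J K m W a).2.1 _ hGa (hG' i (Finset.mem_coe.1 hi))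

end Pool.Agent.Work.MP_6c3bcd_an.Dn

end

section

/-!
The linking lemma for a decreasing family of convex functions on the line.
-/

universe u v w

namespace Pool.Agent.Work.MP_6c3bcd_an.Dn

open Set Topology Metric

namespace ILink

variable {ι : Type u} [LinearOrder ι] {G : ι → ℝ → ℝ} {C : NNReal}

/-- the set where an index is seen is open -/
lemma isOpen_sees (hL : ∀ i, LipschitzWith C (G i)) (ρ : ι) : IsOpen {t : ℝ | Sees G t ρ} := by
  rw [isOpen_iff_mem_nhds]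
  rintro t ⟨r, r', hr, h1, h2⟩
  have hC : (0 : ℝ) ≤ C := C.2
  have hpos : 0 < (r' - r) / (4 * ((C : ℝ) + 1)) := div_pos (by linarith) (by positivity)
  filter_upwards [Metric.ball_mem_nhds t hpos] with t' ht'
  rw [Metric.mem_ball] at ht'
  have h3 : (C : ℝ) * dist t' t ≤ (r' - r) / 4 := by
    have h4 : (C : ℝ) * dist t' t ≤ ((C : ℝ) + 1) * ((r' - r) / (4 * ((C : ℝ) + 1))) := by
      apply mul_le_mul (by linarith) ht'.le dist_nonneg (by linarith)
    have h5 : ((C : ℝ) + 1) * ((r' - r) / (4 * ((C : ℝ) + 1))) = (r' - r) / 4 := by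
      field_simp
    linarith
  have h6 : ∀ i, |G i t' - G i t| ≤ (r' - r) / 4 := by
    intro i
    have := (hL i).dist_le_mul t' t
    rw [Real.dist_eq] at this
    exact this.trans h3
  refine ⟨r + (r' - r) / 4, r' - (r' - r) / 4, by linarith, ?_, ?_⟩
  · have := (abs_le.1 (h6 ρ)).2
    linarith
  · intro j hj
    have h7 := (abs_le.1 (h6 j)).1
    have h8 := h2 j hj
    linarith

/-- an index which is not seen is approximated by smaller ones -/
lemma approx_of_not_sees {t : ℝ} {ρ : ι} (h : ¬ Sees G t ρ) {ε : ℝ} (hε : 0 < ε) :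
    ∃ η, η < ρ ∧ G η t < G ρ t + ε := by
  by_contra hcon
  push Not at hcon
  exact h ⟨G ρ t + ε / 2, G ρ t + ε, by linarith, by linarith, hcon⟩

lemma sees_of_first {c d : ℝ} {ξ : ι} (h : First G c d ξ) : Sees G c ξ :=
  ⟨(G ξ c + d) / 2, d, by linarith [h.1], by linarith [h.1], h.2⟩

/-- the chord inequality passes to an index which is not seen at both ends -/
lemma approx_chord (hm : ∀ i j, i ≤ j → ∀ t, G j t ≤ G i t) {d p c q : ℝ} (hpc : p < c)
    (hcq : c < q) {ρ : ι} (hp : ¬ Sees G p ρ) (hq : ¬ Sees G q ρ)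
    (H : ∀ η, η < ρ → ∃ η', η ≤ η' ∧ η' < ρ ∧
      d * (q - p) ≤ G η' p * (q - c) + G η' q * (c - p)) :
    d * (q - p) ≤ G ρ p * (q - c) + G ρ q * (c - p) := by
  by_contra hcon
  push Not at hcon
  set gap := d * (q - p) - (G ρ p * (q - c) + G ρ q * (c - p)) with hgap
  have hg : 0 < gap := by linarith
  have hqp : 0 < q - p := by linarith
  have hε : 0 < gap / (2 * (q - p)) := by positivity
  obtain ⟨η₁, h1, h2⟩ := approx_of_not_sees hp hε
  obtain ⟨η₂, h3, h4⟩ := approx_of_not_sees hq hε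
  obtain ⟨η', h5, h6, h7⟩ := H (max η₁ η₂) (max_lt h1 h3)
  have h8 : G η' p < G ρ p + gap / (2 * (q - p)) :=
    (hm η₁ η' ((le_max_left _ _).trans h5) p).trans_lt h2
  have h9 : G η' q < G ρ q + gap / (2 * (q - p)) :=
    (hm η₂ η' ((le_max_right _ _).trans h5) q).trans_lt h4
  have h10 : G η' p * (q - c) ≤ (G ρ p + gap / (2 * (q - p))) * (q - c) :=
    mul_le_mul_of_nonneg_right h8.le (by linarith)
  have h11 : G η' q * (c - p) ≤ (G ρ q + gap / (2 * (q - p))) * (c - p) :=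
    mul_le_mul_of_nonneg_right h9.le (by linarith)
  have h12 : gap / (2 * (q - p)) * (q - c) + gap / (2 * (q - p)) * (c - p) = gap / 2 := by
    rw [← mul_add, show q - c + (c - p) = q - p by ring]
    field_simp
  nlinarith

lemma conv3 {f : ℝ → ℝ} (hf : ConvexOn ℝ univ f) {u c v : ℝ} (huc : u ≤ c) (hcv : c ≤ v)
    (huv : u < v) : f c * (v - u) ≤ f u * (v - c) + f v * (c - u) := by
  have hvu : 0 < v - u := by linarith
  have ha : 0 ≤ (v - c) / (v - u) := div_nonneg (by linarith) hvu.le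
  have hb : 0 ≤ (c - u) / (v - u) := div_nonneg (by linarith) hvu.le
  have hab : (v - c) / (v - u) + (c - u) / (v - u) = 1 := by
    rw [← add_div, div_eq_one_iff_eq hvu.ne']
    ring
  have h := hf.2 (mem_univ u) (mem_univ v) ha hb hab
  simp only [smul_eq_mul] at h
  have h1 : (v - c) / (v - u) * u + (c - u) / (v - u) * v = c := by
    field_simp
    ring
  rw [h1] at h
  have h2 := mul_le_mul_of_nonneg_right h hvu.le
  have h3 : ((v - c) / (v - u) * f u + (c - u) / (v - u) * f v) * (v - u)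
      = f u * (v - c) + f v * (c - u) := by
    field_simp
  linarith

/-- the main claim -/
lemma main [WellFoundedLT ι] (hcv : ∀ i, ConvexOn ℝ univ (G i))
    (hL : ∀ i, LipschitzWith C (G i)) (hm : ∀ i j, i ≤ j → ∀ t, G j t ≤ G i t)
    {lo hi d c : ℝ} (hc : c ∈ Ioo lo hi) {ξ : ι} (hξ : First G c d ξ) :
    ∀ ρ, ξ ≤ ρ → ∀ u v : ℝ, u ∈ Ioo lo hi → v ∈ Ioo lo hi → u < c → c < v →
      (∀ ρ', Reach G lo hi ξ ρ' → ρ' ≤ ρ → ¬ Sees G u ρ' ∧ ¬ Sees G v ρ') →
      d * (v - u) ≤ G ρ u * (v - c) + G ρ v * (c - u) := by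
  intro ρ
  induction ρ using WellFoundedLT.induction with
  | ind ρ ih =>
  intro hρ u v hu hv huc hcv' hns
  rcases hρ.eq_or_lt with h | h
  · -- the first index
    subst h
    have h0 := hns ξ Relation.ReflTransGen.refl le_rfl
    apply approx_chord hm huc hcv' h0.1 h0.2
    intro η hη
    refine ⟨η, le_rfl, hη, ?_⟩
    have h1 := hξ.2 η hη
    have h2 := conv3 (hcv η) huc.le hcv'.le (huc.trans hcv')
    have h3 : d * (v - u) ≤ G η c * (v - u) := mul_le_mul_of_nonneg_right h1 (by linarith)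
    linarith
  · by_cases hR : Reach G lo hi ξ ρ
    · have h0 := hns ρ hR le_rfl
      apply approx_chord hm huc hcv' h0.1 h0.2
      intro η hη
      have hlt : max η ξ < ρ := max_lt hη h
      exact ⟨max η ξ, le_max_left _ _, hlt, ih _ hlt (le_max_right _ _) u v hu hv huc hcv'
        fun ρ' h1 h2 => hns ρ' h1 (h2.trans hlt.le)⟩
    · -- the set covered by the reachable indices
      set S : Set ℝ := {t | ∃ ρ', Reach G lo hi ξ ρ' ∧ ρ' ≤ ρ ∧ Sees G t ρ'} with hS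
      have hSo : IsOpen S := by
        have : S = ⋃ ρ' ∈ {ρ' | Reach G lo hi ξ ρ' ∧ ρ' ≤ ρ}, {t | Sees G t ρ'} := by
          ext t
          simp only [hS, mem_ofPred_eq, mem_iUnion, exists_prop, and_assoc]
        rw [this]
        exact isOpen_biUnion fun ρ' _ => isOpen_sees hL ρ'
      have hcS : c ∈ S := ⟨ξ, Relation.ReflTransGen.refl, hρ, sees_of_first hξ⟩
      have huS : u ∉ S := by
        rintro ⟨ρ', h1, h2, h3⟩
        exact (hns ρ' h1 h2).1 h3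
      have hvS : v ∉ S := by
        rintro ⟨ρ', h1, h2, h3⟩
        exact (hns ρ' h1 h2).2 h3
      -- overlap with the set of `ρ` is impossible
      have hdisj : ∀ t ∈ Ioo lo hi, t ∈ S → ¬ Sees G t ρ := by
        rintro t ht ⟨ρ', h1, h2, h3⟩ h4
        rcases h2.eq_or_lt with h5 | h5
        · exact hR (h5 ▸ h1)
        · exact hR (h1.tail ⟨h5, t, ht, h3, h4⟩)
      -- the left end
      have hK1 : IsCompact (Icc u c ∩ Sᶜ) := isCompact_Icc.inter_right hSo.isClosed_compl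
      have hne1 : (Icc u c ∩ Sᶜ).Nonempty := ⟨u, ⟨le_rfl, huc.le⟩, huS⟩
      obtain ⟨p, hpmem, hpmax⟩ := hK1.exists_isGreatest hne1
      have hpc : p < c := lt_of_le_of_ne hpmem.1.2 (fun h1 => hpmem.2 (h1 ▸ hcS))
      have hpI : ∀ t, p < t → t ≤ c → t ∈ S := by
        intro t h1 h2
        by_contra h3
        exact absurd (hpmax ⟨⟨hpmem.1.1.trans h1.le, h2⟩, h3⟩) (not_le.2 h1)
      have hplo : p ∈ Ioo lo hi := ⟨hu.1.trans_le hpmem.1.1, hpc.trans hc.2⟩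
      have hpρ : ¬ Sees G p ρ := by
        intro h1
        have h2 : {t | Sees G t ρ} ∈ 𝓝 p := (isOpen_sees hL ρ).mem_nhds h1
        obtain ⟨e, he, hball⟩ := Metric.mem_nhds_iff.1 h2
        have h3 : min (p + e / 2) c ∈ Metric.ball p e := by
          rw [Metric.mem_ball, Real.dist_eq, abs_lt]
          constructor
          · have : p < min (p + e / 2) c := lt_min (by linarith) hpc
            linarith
          · have : min (p + e / 2) c ≤ p + e / 2 := min_le_left _ _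
            linarith
        have h4 : p < min (p + e / 2) c := lt_min (by linarith) hpc
        exact hdisj _ ⟨hplo.1.trans h4, (min_le_right _ _).trans_lt hc.2⟩
          (hpI _ h4 (min_le_right _ _)) (hball h3)
      -- the right end
      have hK2 : IsCompact (Icc c v ∩ Sᶜ) := isCompact_Icc.inter_right hSo.isClosed_compl
      have hne2 : (Icc c v ∩ Sᶜ).Nonempty := ⟨v, ⟨hcv'.le, le_rfl⟩, hvS⟩
      obtain ⟨q, hqmem, hqmin⟩ := hK2.exists_isLeast hne2
      have hcq : c < q := lt_of_le_of_ne hqmem.1.1 (fun h1 => hqmem.2 (h1 ▸ hcS))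
      have hqI : ∀ t, t < q → c ≤ t → t ∈ S := by
        intro t h1 h2
        by_contra h3
        exact absurd (hqmin ⟨⟨h2, h1.le.trans hqmem.1.2⟩, h3⟩) (not_le.2 h1)
      have hqlo : q ∈ Ioo lo hi := ⟨hc.1.trans hcq, hqmem.1.2.trans_lt hv.2⟩
      have hqρ : ¬ Sees G q ρ := by
        intro h1
        have h2 : {t | Sees G t ρ} ∈ 𝓝 q := (isOpen_sees hL ρ).mem_nhds h1
        obtain ⟨e, he, hball⟩ := Metric.mem_nhds_iff.1 h2
        have h4 : max (q - e / 2) c < q := max_lt (by linarith) hcq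
        have h3 : max (q - e / 2) c ∈ Metric.ball q e := by
          rw [Metric.mem_ball, Real.dist_eq, abs_lt]
          constructor
          · have : q - e / 2 ≤ max (q - e / 2) c := le_max_left _ _
            linarith
          · linarith
        exact hdisj _ ⟨hc.1.trans_le (le_max_right _ _), h4.trans hqlo.2⟩
          (hqI _ h4 (le_max_right _ _)) (hball h3)
      have hkey : d * (q - p) ≤ G ρ p * (q - c) + G ρ q * (c - p) := by
        apply approx_chord hm hpc hcq hpρ hqρ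
        intro η hη
        have hlt : max η ξ < ρ := max_lt hη h
        refine ⟨max η ξ, le_max_left _ _, hlt, ih _ hlt (le_max_right _ _) p q hplo hqlo hpc hcq
          fun ρ' h1 h2 => ⟨fun h3 => hpmem.2 ⟨ρ', h1, h2.trans hlt.le, h3⟩,
            fun h3 => hqmem.2 ⟨ρ', h1, h2.trans hlt.le, h3⟩⟩⟩
      -- comparison of the chords
      have huv : u < v := huc.trans hcv'
      have c1 := conv3 (hcv ρ) hpmem.1.1 (hpc.le.trans hcv'.le) huv
      have c2 := conv3 (hcv ρ) (huc.le.trans hcq.le) hqmem.1.2 huv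
      have hqc : 0 < q - c := by linarith
      have hcp : 0 < c - p := by linarith
      have hqp : 0 < q - p := by linarith
      have c3 := mul_le_mul_of_nonneg_right c1 hqc.le
      have c4 := mul_le_mul_of_nonneg_right c2 hcp.le
      have c5 := mul_le_mul_of_nonneg_right hkey (by linarith : (0 : ℝ) ≤ v - u)
      have c6 : d * (v - u) * (q - p) ≤ (G ρ u * (v - c) + G ρ v * (c - u)) * (q - p) := by
        nlinarith
      exact le_of_mul_le_mul_right c6 hqp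

end ILink

theorem prfLink : claimLink.{u} := by
  intro ι _ _ G C hcv hL hm lo hi d c hc hall ξ hξ
  by_contra hcon
  push Not at hcon
  obtain ⟨⟨v, hv, hv2⟩, ⟨u, hu, hu2⟩⟩ := hcon
  have hu' : u ∈ Ioo lo hi := ⟨hu.1, hu.2.trans hc.2⟩
  have hv' : v ∈ Ioo lo hi := ⟨hc.1.trans hv.1, hv.2⟩
  obtain ⟨iu, hiu⟩ := hall u hu'
  obtain ⟨iv, hiv⟩ := hall v hv'
  set ρ := max (max iu iv) ξ with hρ
  have h1 := ILink.main hcv hL hm hc hξ ρ (le_max_right _ _) u v hu' hv' hu.2 hv.1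
    fun ρ' h1 _ => ⟨hu2 ρ' h1, hv2 ρ' h1⟩
  have h2 : G ρ u < d := (hm iu ρ ((le_max_left _ _).trans (le_max_left _ _)) u).trans_lt hiu
  have h3 : G ρ v < d := (hm iv ρ ((le_max_right _ _).trans (le_max_left _ _)) v).trans_lt hiv
  have h4 : G ρ u * (v - c) < d * (v - c) := mul_lt_mul_of_pos_right h2 (by linarith [hv.1])
  have h5 : G ρ v * (c - u) < d * (c - u) := mul_lt_mul_of_pos_right h3 (by linarith [hu.2])
  linarith

end Pool.Agent.Work.MP_6c3bcd_an.Dn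

end

section

universe u v w

namespace Pool.Agent.Work.MP_6c3bcd_an.Dn

open Set Topology Metric

namespace IMain

variable {𝕜 : Type v} [RCLike 𝕜] {E : Type w} [NormedAddCommGroup E] [NormedSpace 𝕜 E]

theorem continuous_ln (z b : E) : Continuous (fun t : ℝ => ln 𝕜 z b t) := by
  unfold ln
  exact continuous_const.add ((RCLike.continuous_ofReal).smul continuous_const)

theorem ln_zero (z b : E) : ln 𝕜 z b 0 = z := by
  unfold ln
  have h : (0 : 𝕜) • b = 0 := zero_smul 𝕜 b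
  rw [RCLike.ofReal_zero, h, add_zero]

theorem ln_mem {L : Submodule 𝕜 E} {z b : E} (hz : z ∈ L) (hb : b ∈ L) (t : ℝ) :
    ln 𝕜 z b t ∈ L := L.add_mem hz (L.smul_mem _ hb)

theorem exists_T (z b : E) {P : E → Prop} (h : ∀ᶠ z' in 𝓝 z, P z') :
    ∃ T : ℝ, 0 < T ∧ ∀ t ∈ Ioo 0 T, P (ln 𝕜 z b t) := by
  have h1 : ∀ᶠ t in 𝓝 (0 : ℝ), P (ln 𝕜 z b t) := by
    have hc : Filter.Tendsto (fun t : ℝ => ln 𝕜 z b t) (𝓝 0) (𝓝 z) := by
      simpa only [ln_zero] using (continuous_ln (𝕜 := 𝕜) z b).tendsto 0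
    exact hc.eventually h
  obtain ⟨T, hT, hT'⟩ := Metric.eventually_nhds_iff.1 h1
  refine ⟨T, hT, fun t ht => hT' ?_⟩
  rw [Real.dist_eq, sub_zero, abs_of_pos ht.1]
  exact ht.2

theorem infDist_le_smul (P : Submodule 𝕜 E) {a : E} (ha : a ∈ P) (c : 𝕜) (x : E) :
    infDist (a + c • x) (P : Set E) ≤ ‖c‖ * infDist x (P : Set E) := by
  apply le_of_forall_pos_le_add
  intro ε hε
  have hne : (P : Set E).Nonempty := ⟨0, P.zero_mem⟩
  have hlt : infDist x (P : Set E) < infDist x (P : Set E) + ε / (‖c‖ + 1) := by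
    have : 0 < ε / (‖c‖ + 1) := by positivity
    linarith
  obtain ⟨p, hp, hxp⟩ := (infDist_lt_iff hne).1 hlt
  have h1 : infDist (a + c • x) (P : Set E) ≤ dist (a + c • x) (a + c • p) :=
    infDist_le_dist_of_mem (P.add_mem ha (P.smul_mem c hp))
  have h2 : dist (a + c • x) (a + c • p) = ‖c‖ * dist x p := by
    rw [dist_add_left, dist_smul₀]
  have h3 : ‖c‖ * dist x p ≤ ‖c‖ * (infDist x (P : Set E) + ε / (‖c‖ + 1)) :=
    mul_le_mul_of_nonneg_left hxp.le (norm_nonneg c)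
  have h4 : ‖c‖ * (ε / (‖c‖ + 1)) ≤ ε := by
    rw [mul_div_assoc', div_le_iff₀ (by positivity)]
    nlinarith [norm_nonneg c]
  rw [h2] at h1
  rw [mul_add] at h3
  linarith

theorem norm_ofReal' {t : ℝ} (ht : 0 < t) : ‖((t : ℝ) : 𝕜)‖ = t := by
  rw [RCLike.norm_ofReal, abs_of_pos ht]

theorem infDist_ln_le (P : Submodule 𝕜 E) {a : E} (ha : a ∈ P) (x : E) {t : ℝ} (ht : 0 < t) :
    infDist (ln 𝕜 a x t) (P : Set E) ≤ t * infDist x (P : Set E) := by
  have := infDist_le_smul P ha ((t : ℝ) : 𝕜) x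
  rwa [norm_ofReal' ht] at this

theorem le_infDist_ln (P : Submodule 𝕜 E) {a : E} (ha : a ∈ P) (x : E) {t : ℝ} (ht : 0 < t) :
    t * infDist x (P : Set E) ≤ infDist (ln 𝕜 a x t) (P : Set E) := by
  have htk : ((t : ℝ) : 𝕜) ≠ 0 := by
    intro h
    have := norm_ofReal' (𝕜 := 𝕜) ht
    rw [h, norm_zero] at this
    linarith
  have h1 := infDist_le_smul P (P.neg_mem (P.smul_mem ((t : ℝ) : 𝕜)⁻¹ ha)) ((t : ℝ) : 𝕜)⁻¹
    (ln 𝕜 a x t)
  have h2 : -(((t : ℝ) : 𝕜)⁻¹ • a) + ((t : ℝ) : 𝕜)⁻¹ • ln 𝕜 a x t = x := by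
    unfold ln
    rw [smul_add, smul_smul, inv_mul_cancel₀ htk, one_smul]
    abel
  rw [h2, norm_inv, norm_ofReal' ht, inv_mul_eq_div, le_div_iff₀ ht] at h1
  linarith

end IMain

open IMain in
theorem prfMain (hS : claimSee.{u, w}) (hE : claimEEF.{u, v, w}) (hC : claimCnt.{u, v, w})
    (hSt : claimStep.{u, v, w}) (hU : claimUnif.{u, v, w}) (hI : claimIter.{u, v, w})
    (hR : claimRank.{u, v, w}) : claimMain.{u, v, w} := by
  intro 𝕜 _ E _ _ _ I J K _ _ _ _ _ _ m W hWm hWc L hLc hLs hLE A U hAL hA hUo hne hUA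
  obtain ⟨g0, hg0, hdense⟩ := hR 𝕜 E I J K m W hWm hWc L hLc hLs hLE
  obtain ⟨e1, e2, e3, -, -, e6, -, e8, -, -⟩ := hE 𝕜 E I J K m W hWm hWc
  by_cases hcase : U ∩ L ⊆ closure {a | a ∈ A ∧ g0 ∈ rk W a}
  · -- case I
    set A' : Set E := {a | a ∈ A ∧ g0 ∈ rk W a} with hA'
    obtain ⟨V, hVU, hV, hVL, N, hN1, hN2⟩ := hU 𝕜 E I J K m W L A' U
      (hA.mono fun a h => h.1) hUo hne
    obtain ⟨B, hBL, hB, hLB⟩ := hLs.exists_countable_dense_subset
    have hVA : V ∩ L ⊆ closure A' := fun x hx => hcase ⟨hVU hx.1, hx.2⟩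
    obtain ⟨S, hLS, hSF⟩ : Goal m W L A' := by
      refine hI 𝕜 E I J K m W hWm hWc L A' V B N hV hVL hVA hB hLB hN2 ?_
      intro z hzV hzL s hs hgood b hb ε hε
      have hg2 : ∀ᶠ z' in 𝓝 z, z' ∈ V ∧ Good m W A' z' s :=
        (hV.eventually_mem hzV).and (eventually_eventually_nhds.2 hgood)
      obtain ⟨T, hT, hT'⟩ := exists_T (𝕜 := 𝕜) z b hg2
      obtain ⟨t, ht, s', hs', hss', hg', hdist⟩ := hSt 𝕜 E I J K m W hWm hWc A' V N hV hN1 z b T
        (ε / 8) g0 s hT (by positivity) hs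
        (fun t ht => ⟨(hT' t ht).1, hVA ⟨(hT' t ht).1, ln_mem hzL (hBL hb) t⟩⟩)
        (fun t ht => (hT' t ht).2.mono fun z' h hz' => union_subset (h hz')
          (singleton_subset_iff.2 ((hC 𝕜 E I J K m W z').2.2.2.1 g0 hz'.2)))
        (fun t ht => by
          have h0 : D3 W g0 (ln 𝕜 z b t) = 0 :=
            infDist_zero_of_mem (hg0 (ln_mem hzL (hBL hb) t))
          rw [h0]
          positivity)
      exact ⟨ln 𝕜 z b t, (hT' t ht).1, ln_mem hzL (hBL hb) t, s', hs',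
        subset_union_left.trans hss', hg', by linarith⟩
    exact ⟨S, hLS, fun F hF => by
      obtain ⟨a, ha, haF⟩ := hSF F hF
      exact ⟨a, ha.1, haF⟩⟩
  · -- case II
    set A' : Set E := {a | a ∈ A ∧ g0 ∈ rk W a} with hA'
    obtain ⟨z0, hz0, hz0'⟩ := not_subset.1 hcase
    obtain ⟨V, hVU, hV, hVL, N, hN1, hN2⟩ := hU 𝕜 E I J K m W L A (U ∩ (closure A')ᶜ)
      hA (hUo.inter isClosed_closure.isOpen_compl) ⟨z0, ⟨hz0.1, hz0'⟩, hz0.2⟩
    have hVA : V ∩ L ⊆ closure A := fun x hx => hUA ⟨(hVU hx.1).1, hx.2⟩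
    -- exact ranks
    have hrank : ∀ a ∈ A, a ∈ V → ∃ j0, j0 < g0 ∧ j0 ∈ rk W a := by
      intro a ha haV
      have hex : ∃ i, a ∈ EE W (Iic i) := ⟨g0, hg0 (hAL ha)⟩
      have hwf := (wellFounded_lt (α := I))
      refine ⟨hwf.min {i | a ∈ EE W (Iic i)} hex, ?_, ?_⟩
      · have hle : hwf.min {i | a ∈ EE W (Iic i)} hex ≤ g0 :=
          not_lt.1 (hwf.not_lt_min {i | a ∈ EE W (Iic i)} (hg0 (hAL ha)))
        rcases hle.lt_or_eq with h | h
        · exact h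
        · exfalso
          apply (hVU haV).2
          apply subset_closure
          refine ⟨ha, ?_⟩
          rw [← h]
          exact ⟨hwf.min_mem _ hex, fun i' hi' hmem =>
            hwf.not_lt_min {i | a ∈ EE W (Iic i)} hmem hi'⟩
      · exact ⟨hwf.min_mem _ hex, fun i' hi' hmem =>
            hwf.not_lt_min {i | a ∈ EE W (Iic i)} hmem hi'⟩
    -- the directions
    set R0 : Set E := {b | b ∈ L ∧ g0 ∈ rk W b} with hR0
    have hLR : (L : Set E) ⊆ closure R0 := by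
      intro x hx
      rw [_root_.mem_closure_iff]
      intro O hO hxO
      obtain ⟨b, hbO, hbL, hb⟩ := hdense O hO ⟨x, hxO, hx⟩
      exact ⟨b, hbO, hbL, hb⟩
    have hR0s : TopologicalSpace.IsSeparable R0 := hLs.mono fun b hb => hb.1
    obtain ⟨B, hBR, hB, hRB⟩ := hR0s.exists_countable_dense_subset
    have hLB : (L : Set E) ⊆ closure B :=
      hLR.trans (closure_minimal hRB isClosed_closure)
    refine hI 𝕜 E I J K m W hWm hWc L A V B N hV hVL hVA hB hLB hN2 ?_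
    intro z hzV hzL s hs hgood b hb ε hε
    have hbL : b ∈ L := (hBR hb).1
    have hbr : g0 ∈ rk W b := (hBR hb).2
    have hg2 : ∀ᶠ z' in 𝓝 z, z' ∈ V ∧ Good m W A z' s :=
      (hV.eventually_mem hzV).and (eventually_eventually_nhds.2 hgood)
    obtain ⟨a1, ha1A, ha1V, ha1G⟩ :=
      ((mem_closure_iff_frequently.1 (hVA ⟨hzV, hzL⟩)).and_eventually hg2).exists
    obtain ⟨j0, hj0, hj0r⟩ := hrank a1 ha1A ha1V
    -- distances
    have hanti : ∀ {i j : I}, i ≤ j → ∀ x, D3 W j x ≤ D3 W i x := fun h x =>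
      e8 _ _ (Iic_subset_Iic.2 h) x
    have hpos : 0 < D3 W j0 b := by
      obtain ⟨P, hP, hPc⟩ := e1 (Iic j0)
      have hnot : b ∉ EE W (Iic j0) := hbr.2 j0 hj0
      have hne : (EE W (Iic j0)).Nonempty := by rw [← hP]; exact ⟨0, P.zero_mem⟩
      rw [hP] at hPc
      exact (hPc.notMem_iff_infDist_pos hne).1 hnot
    have hzero : D3 W g0 b = 0 := infDist_zero_of_mem hbr.1
    set e : ℝ := min (ε / 8) (D3 W j0 b) with he
    have he0 : 0 < e := lt_min (by positivity) hpos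
    have hlip : ∀ i, LipschitzWith 1 (D3 W i) := fun i => e6 _
    obtain ⟨hS1, hS2, hS3, -⟩ := hS I E (D3 W) hlip
    obtain ⟨i, hi1, hi2⟩ := hS3 b e ⟨g0, by rw [hzero]; exact he0⟩
    have hj0i : j0 < i := by
      by_contra hcon
      have h1 := hanti (not_lt.1 hcon) b
      have h2 : e ≤ D3 W j0 b := min_le_right _ _
      linarith
    have hmem : ∀ j, j0 ≤ j → a1 ∈ EE W (Iic j) := fun j hj =>
      e3 _ _ (Iic_subset_Iic.2 hj) hj0r.1
    have hup : ∀ t, 0 < t → D3 W i (ln 𝕜 a1 b t) < t * e := by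
      intro t ht
      obtain ⟨P, hP, -⟩ := e1 (Iic i)
      have h1 : a1 ∈ P := by
        rw [← SetLike.mem_coe, hP]
        exact hmem i hj0i.le
      have h2 := infDist_ln_le P h1 b ht
      rw [hP] at h2
      exact h2.trans_lt (mul_lt_mul_of_pos_left hi1 ht)
    have hlow : ∀ t, 0 < t → ∀ j, j < i → t * e ≤ D3 W j (ln 𝕜 a1 b t) := by
      intro t ht j hj
      have key : ∀ j, j0 ≤ j → j < i → t * e ≤ D3 W j (ln 𝕜 a1 b t) := by
        intro j hj0j hji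
        obtain ⟨P, hP, -⟩ := e1 (Iic j)
        have h1 : a1 ∈ P := by
          rw [← SetLike.mem_coe, hP]
          exact hmem j hj0j
        have h2 := le_infDist_ln P h1 b ht
        rw [hP] at h2
        exact (mul_le_mul_of_nonneg_left (hi2 j hji) ht.le).trans h2
      rcases le_total j0 j with h | h
      · exact key j h hj
      · exact (key j0 le_rfl hj0i).trans (hanti h _)
    have hsees : ∀ t, 0 < t → ∀ᶠ z' in 𝓝 (ln 𝕜 a1 b t), Sum.inl i ∈ MM m W z' := by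
      intro t ht
      have h1 : First (D3 W) (ln 𝕜 a1 b t) (t * e) i := ⟨hup t ht, fun j hj => hlow t ht j hj⟩
      exact (hS1 _ i (hS2 _ _ i h1)).mono fun z' hz' => (hC 𝕜 E I J K m W z').2.2.1 i hz'
    have hg3 : ∀ᶠ z' in 𝓝 a1, z' ∈ V ∧ Good m W A z' s :=
      (hV.eventually_mem ha1V).and (eventually_eventually_nhds.2 ha1G)
    obtain ⟨T, hT, hT'⟩ := exists_T (𝕜 := 𝕜) a1 b hg3
    have ha1L : a1 ∈ L := hAL ha1A
    obtain ⟨t, ht, s', hs', hss', hg', hdist⟩ := hSt 𝕜 E I J K m W hWm hWc A V N hV hN1 a1 b T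
      (ε / 8) i s hT (by positivity) hs
      (fun t ht => ⟨(hT' t ht).1, hVA ⟨(hT' t ht).1, ln_mem ha1L hbL t⟩⟩)
      (fun t ht => by
        filter_upwards [(hT' t ht).2, hsees t ht.1] with z' h h' hz'
        exact union_subset (h hz') (singleton_subset_iff.2 h'))
      (fun t ht => by
        have h1 := hup t ht.1
        have h2 : t * e ≤ T * (ε / 8) :=
          mul_le_mul ht.2.le (min_le_left _ _) he0.le hT.le
        linarith)
    exact ⟨ln 𝕜 a1 b t, (hT' t ht).1, ln_mem ha1L hbL t, s', hs',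
      subset_union_left.trans hss', hg', by linarith⟩

end Pool.Agent.Work.MP_6c3bcd_an.Dn

end

section

/-!
# MAPS: enumerations of the initial segments of `ω₃`, `ω₂`, `ω₁`
-/

universe u

namespace Pool.Agent.Work.MP_6c3bcd_an.Dn

open Set

namespace IMaps

/-- the well-order `ω_(o+1)` -/
abbrev Om (o : Ordinal.{u}) : Type u := (Cardinal.aleph (o + 1)).ord.ToType

theorem mk_Om (o : Ordinal.{u}) : Cardinal.mk (Om o) = Cardinal.aleph (o + 1) := by
  rw [Cardinal.mk_toType, Cardinal.card_ord]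

theorem mk_Iio_le (o : Ordinal.{u}) (i : Om o) : Cardinal.mk (Iio i) ≤ Cardinal.aleph o := by
  have h2 := Cardinal.mk_Iio_lt i (by rw [mk_Om]; simp)
  have h3 : Cardinal.mk (Iio i) < Order.succ (Cardinal.aleph o) := by
    rw [Cardinal.succ_aleph]
    exact h2.trans_le (mk_Om o).le
  exact Order.lt_succ_iff.mp h3

theorem mk_Iic_le (o : Ordinal.{u}) (i : Om o) : Cardinal.mk (Iic i) ≤ Cardinal.aleph o := by
  have h3 : Iic i = insert i (Iio i) := by rw [Iio_insert]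
  rw [h3]
  refine (Cardinal.mk_insert_le).trans ?_
  refine (add_le_add_left (mk_Iio_le o i) 1).trans ?_
  exact (Cardinal.add_one_eq (Cardinal.aleph0_le_aleph o)).le

theorem bounded (o : Ordinal.{u}) (C : Set (Om o)) (hC : C.Countable) :
    ∃ i, ∀ c ∈ C, c ≤ i := by
  by_contra hne
  push Not at hne
  have h1 : (Set.univ : Set (Om o)) = ⋃ c ∈ C, Iic c := by
    ext i
    simp only [mem_univ, mem_iUnion, mem_Iic, true_iff]
    obtain ⟨c, hc, hi⟩ := hne i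
    exact ⟨c, hc, hi.le⟩
  have h2 : Cardinal.mk (⋃ c ∈ C, Iic c : Set (Om o)) ≤ Cardinal.aleph o := by
    refine (Cardinal.mk_biUnion_le _ _).trans ?_
    have h3 : Cardinal.mk C ≤ Cardinal.aleph0 := Cardinal.le_aleph0_iff_set_countable.mpr hC
    have h4 : (⨆ x : C, Cardinal.mk (Iic (x : Om o))) ≤ Cardinal.aleph o :=
      ciSup_le' (fun x => mk_Iic_le o x)
    calc Cardinal.mk C * ⨆ x : C, Cardinal.mk (Iic (x : Om o))
        ≤ Cardinal.aleph0 * Cardinal.aleph o := mul_le_mul' h3 h4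
      _ = Cardinal.aleph o := Cardinal.aleph0_mul_aleph o
  rw [← h1, Cardinal.mk_univ, mk_Om, ← Cardinal.succ_aleph] at h2
  exact absurd h2 (not_le.mpr (Order.lt_succ _))

theorem enum {A B : Type u} [LinearOrder A] (a : A)
    (h : Cardinal.mk (Iic a) ≤ Cardinal.mk B) :
    ∃ (e : B → A) (n : A → B), (∀ b, e b ≤ a) ∧ ∀ a', a' ≤ a → e (n a') = a' := by
  classical
  obtain ⟨emb⟩ := h
  have _ : Nonempty (Iic a) := ⟨⟨a, le_rfl⟩⟩
  refine ⟨fun b => ((Function.invFun emb b : Iic a) : A),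
    fun a' => if h : a' ≤ a then emb ⟨a', h⟩ else emb ⟨a, le_rfl⟩, ?_, ?_⟩
  · intro b
    exact (Function.invFun emb b).2
  · intro a' ha'
    simp only [dif_pos ha']
    rw [Function.leftInverse_invFun emb.injective ⟨a', ha'⟩]

end IMaps

open IMaps in
theorem prfMaps : claimMaps.{u} := by
  classical
  have e3 : (3 : Ordinal.{u}) = 2 + 1 := by norm_num
  have e2 : (2 : Ordinal.{u}) = 1 + 1 := by norm_num
  have e1 : (1 : Ordinal.{u}) = 0 + 1 := by norm_num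
  have hI : ∀ i : Om.{u} 2, ∃ (e : Om.{u} 1 → Om.{u} 2) (n : Om.{u} 2 → Om.{u} 1),
      (∀ b, e b ≤ i) ∧ ∀ a', a' ≤ i → e (n a') = a' := by
    intro i
    apply enum
    rw [mk_Om]
    exact (mk_Iic_le 2 i).trans (by rw [e2])
  have hJ : ∀ j : Om.{u} 1, ∃ (e : Om.{u} 0 → Om.{u} 1) (n : Om.{u} 1 → Om.{u} 0),
      (∀ b, e b ≤ j) ∧ ∀ a', a' ≤ j → e (n a') = a' := by
    intro j
    apply enum
    rw [mk_Om]
    exact (mk_Iic_le 1 j).trans (by rw [zero_add])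
  have hK : ∀ k : Om.{u} 0, ∃ (e : ULift.{u} ℕ → Om.{u} 0) (n : Om.{u} 0 → ULift.{u} ℕ),
      (∀ b, e b ≤ k) ∧ ∀ a', a' ≤ k → e (n a') = a' := by
    intro k
    apply enum
    refine (mk_Iic_le 0 k).trans ?_
    simp
  choose e3' n3' h3a h3b using hI
  choose e2' n2' h2a h2b using hJ
  choose e1' n1' h1a h1b using hK
  refine ⟨Om.{u} 2, Om.{u} 1, Om.{u} 0, inferInstance, inferInstance, inferInstance,
    { e3 := e3', n3 := n3', e3_le := h3a, e3_n3 := h3b
      e2 := e2', n2 := n2', e2_le := h2a, e2_n2 := h2b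
      e1 := fun k n => e1' k (ULift.up n), n1 := fun k k' => (n1' k k').down
      e1_le := fun k n => h1a k _, e1_n1 := fun k k' hk => h1b k k' hk
      bI := bounded 2, bJ := bounded 1, bK := bounded 0, uK := ?_ },
    inferInstance, inferInstance, inferInstance, ?_⟩
  · intro hc
    have h1 : Cardinal.mk (Set.univ : Set (Om.{u} 0)) ≤ Cardinal.aleph0 :=
      Cardinal.le_aleph0_iff_set_countable.mpr hc
    rw [Cardinal.mk_univ, mk_Om, ← Cardinal.succ_aleph, Cardinal.aleph_zero] at h1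
    exact absurd h1 (not_le.mpr (Order.lt_succ _))
  · rw [mk_Om, e3]

end Pool.Agent.Work.MP_6c3bcd_an.Dn

end

section

set_option autoImplicit false

universe u v w

namespace Pool.Agent.Work.MP_6c3bcd_an.Dn

open Set Topology Metric

theorem prfRank (hE : claimEEF.{u, v, w}) : claimRank.{u, v, w} := by
  intro 𝕜 _ E _ _ _ I J K _ _ _ _ m W hmono hcl L hLc hLs hLE
  obtain ⟨hP, -, hEm, -⟩ := hE 𝕜 E I J K m W hmono hcl
  have hclE : ∀ S, IsClosed (EE W S) := by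
    intro S
    obtain ⟨P, h1, h2⟩ := hP S
    rw [← h1]
    exact h2
  -- existence
  have hex : ∃ i : I, (L : Set E) ⊆ EE W (Iic i) := by
    obtain ⟨Q, hQL, hQc, hQd⟩ := hLs.exists_countable_dense_subset
    have h1 : ∀ q : E, ∃ Γ : Set I, q ∈ Q → Γ.Countable ∧ q ∈ W Γ := by
      intro q
      by_cases h : q ∈ Q
      · obtain ⟨Γ, -, h2, h3⟩ := hLE (hQL h)
        exact ⟨Γ, fun _ => ⟨h2, h3⟩⟩
      · exact ⟨∅, fun h' => absurd h' h⟩
    choose Γ hΓ using h1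
    obtain ⟨i, hi⟩ := m.bI (⋃ q ∈ Q, Γ q) (hQc.biUnion fun q hq => (hΓ q hq).1)
    refine ⟨i, hQd.trans (closure_minimal ?_ (hclE _))⟩
    intro q hq
    exact ⟨Γ q, fun c hc => hi c (mem_biUnion hq hc), (hΓ q hq).1, (hΓ q hq).2⟩
  -- the least one
  let i := WellFounded.min (wellFounded_lt (α := I)) {i | (L : Set E) ⊆ EE W (Iic i)} hex
  have hi : (L : Set E) ⊆ EE W (Iic i) :=
    WellFounded.min_mem (wellFounded_lt (α := I)) {i | (L : Set E) ⊆ EE W (Iic i)} hex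
  have hmin : ∀ i', i' < i → ¬ (L : Set E) ⊆ EE W (Iic i') := by
    intro i' hi' h
    exact WellFounded.not_lt_min (wellFounded_lt (α := I))
      {i | (L : Set E) ⊆ EE W (Iic i)} h hi'
  -- submodules with interior
  have hint : ∀ S : Set I, (interior {x : L | (x : E) ∈ EE W S}).Nonempty →
      (L : Set E) ⊆ EE W S := by
    intro S hS
    obtain ⟨P, h1, -⟩ := hP S
    have h2 : ((P.comap L.subtype : Submodule 𝕜 L) : Set L) = {x : L | (x : E) ∈ EE W S} := by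
      ext x
      rw [← h1]
      rfl
    rw [← h2] at hS
    have h3 := Submodule.eq_top_of_nonempty_interior' _ hS
    intro x hx
    have h4 : (⟨x, hx⟩ : L) ∈ (P.comap L.subtype : Submodule 𝕜 L) := by
      rw [h3]
      exact Submodule.mem_top
    rw [← h1]
    exact h4
  refine ⟨i, hi, ?_⟩
  intro O hO hne
  by_contra hcon
  push Not at hcon
  have hrank : ∀ b, b ∈ O → b ∈ L → ∃ i', i' < i ∧ b ∈ EE W (Iic i') := by
    intro b hbO hbL
    by_contra h
    push Not at h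
    exact hcon b hbO hbL ⟨hi hbL, h⟩
  obtain ⟨x0, hx0O, hx0L⟩ := hne
  -- the open set in L
  have hO' : IsOpen {x : L | (x : E) ∈ O} := hO.preimage continuous_subtype_val
  have hsep : TopologicalSpace.IsSeparable (O ∩ (L : Set E)) := hLs.mono inter_subset_right
  obtain ⟨Q, hQA, hQc, hQd⟩ := hsep.exists_countable_dense_subset
  have h1 : ∀ q : E, ∃ i' : I, q ∈ Q → i' < i ∧ q ∈ EE W (Iic i') := by
    intro q
    by_cases h : q ∈ Q
    · obtain ⟨i', h2⟩ := hrank q (hQA h).1 (hQA h).2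
      exact ⟨i', fun _ => h2⟩
    · exact ⟨i, fun h' => absurd h' h⟩
  choose r hr using h1
  by_cases hcase : ∃ i1, i1 < i ∧ ∀ q ∈ Q, r q ≤ i1
  · obtain ⟨i1, hi1, hq⟩ := hcase
    apply hmin i1 hi1
    apply hint
    refine ⟨⟨x0, hx0L⟩, ?_⟩
    rw [mem_interior]
    refine ⟨{x : L | (x : E) ∈ O}, ?_, hO', hx0O⟩
    intro x hx
    have h2 : Q ⊆ EE W (Iic i1) := fun q hqQ =>
      hEm _ _ (Iic_subset_Iic.2 (hq q hqQ)) (hr q hqQ).2
    exact closure_minimal h2 (hclE _) (hQd ⟨hx, x.2⟩)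
  · push Not at hcase
    have : CompleteSpace L := hLc.completeSpace_coe
    have hQc' : Countable Q := hQc.to_subtype
    let f : Option Q → Set L := fun o =>
      match o with
      | none => {x : L | (x : E) ∈ O}ᶜ
      | some q => {x : L | (x : E) ∈ EE W (Iic (r q))}
    have hfc : ∀ o, IsClosed (f o) := by
      intro o
      match o with
      | none => exact hO'.isClosed_compl
      | some q => exact (hclE (Iic (r q))).preimage continuous_subtype_val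
    have hfU : ⋃ o, f o = univ := by
      rw [eq_univ_iff_forall]
      intro x
      rw [mem_iUnion]
      by_cases hx : (x : E) ∈ O
      · obtain ⟨i', hi', hxi'⟩ := hrank x hx x.2
        obtain ⟨q, hqQ, hq⟩ := hcase i' hi'
        exact ⟨some ⟨q, hqQ⟩, hEm _ _ (Iic_subset_Iic.2 hq.le) hxi'⟩
      · exact ⟨none, hx⟩
    have hd := dense_iUnion_interior_of_closed hfc hfU
    obtain ⟨x, hx1, hx2⟩ := hd.inter_open_nonempty _ hO' ⟨⟨x0, hx0L⟩, hx0O⟩
    rw [mem_iUnion] at hx2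
    obtain ⟨o, ho⟩ := hx2
    match o with
    | none => exact (interior_subset ho) hx1
    | some q => exact hmin (r q) (hr q q.2).1 (hint _ ⟨x, ho⟩)

end Pool.Agent.Work.MP_6c3bcd_an.Dn

end

section

/-!
# Reduction to separable subspaces
-/

universe u v w

namespace Pool.Agent.Work.MP_6c3bcd_an.Dn

open Set Topology Metric

namespace IRed

variable {𝕜 : Type v} [RCLike 𝕜] {X : Type w} [NormedAddCommGroup X] [NormedSpace 𝕜 X]
variable {Y : Submodule 𝕜 (StrongDual 𝕜 X)} {Φ : Y → Set X} {nm : X → StrongDual 𝕜 X}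

/-- The annihilator of a set of functionals, as a subspace. -/
def ann (F : Set (StrongDual 𝕜 X)) : Submodule 𝕜 X where
  carrier := {w | ∀ f ∈ F, f w = 0}
  add_mem' := fun {x y} hx hy a ha => by rw [map_add, hx a ha, hy a ha, add_zero]
  zero_mem' := fun a _ => map_zero a
  smul_mem' := fun c x hx a ha => by rw [map_smul, hx a ha, smul_zero]

theorem mem_ann {F : Set (StrongDual 𝕜 X)} {w : X} : w ∈ ann F ↔ ∀ f ∈ F, f w = 0 := Iff.rfl

theorem isClosed_ann (F : Set (StrongDual 𝕜 X)) : IsClosed (ann F : Set X) := by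
  have : (ann F : Set X) = ⋂ a ∈ F, {x | a x = 0} := by
    ext x
    rw [mem_iInter₂]
    exact Iff.rfl
  rw [this]
  exact isClosed_biInter fun a _ => isClosed_eq a.continuous continuous_const

/-- Decomposition of the space. -/
theorem decomp [CompleteSpace X] (hΦ : IsProjectionalGenerator Y Φ) {c : ℝ} (hc : 0 < c)
    (hnm : ∀ x, nm x ∈ Y ∧ ‖nm x‖ ≤ 1 ∧ c * ‖x‖ ≤ ‖nm x x‖) {T : Set (X ⊕ StrongDual 𝕜 X)}
    (h : Closed Φ nm T) (x : X) :
    ∃ b ∈ closure (vpart T), ∃ w : X, (∀ f ∈ fpart T, f w = 0) ∧ x = b + w := by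
  set B : Submodule 𝕜 X := closureSubX (𝕜 := 𝕜) (vpart T) h.zl h.vadd h.vsmul with hB
  have hBc : (B : Set X) = closure (vpart T) := rfl
  set W : Submodule 𝕜 X := ann (fpart T) with hW
  have hbound : ∀ b ∈ B, ∀ w ∈ W, ‖b‖ ≤ c⁻¹ * ‖b + w‖ := by
    intro b hb w hw
    have hclosed : IsClosed {b : X | ‖b‖ ≤ c⁻¹ * ‖b + w‖} :=
      isClosed_le continuous_norm (continuous_const.mul
        (continuous_norm.comp (continuous_id.add continuous_const)))
    have hsub : vpart T ⊆ {b : X | ‖b‖ ≤ c⁻¹ * ‖b + w‖} := by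
      intro b hb
      have h1 := (hnm b).2.2
      have h2 : nm b w = 0 := hw _ (h.vnm hb)
      have h3 : ‖nm b b‖ ≤ ‖b + w‖ := by
        have h4 : nm b b = nm b (b + w) := by rw [map_add, h2, add_zero]
        rw [h4]
        calc ‖nm b (b + w)‖ ≤ ‖nm b‖ * ‖b + w‖ := (nm b).le_opNorm _
          _ ≤ 1 * ‖b + w‖ := by gcongr; exact (hnm b).2.1
          _ = ‖b + w‖ := one_mul _
      change ‖b‖ ≤ c⁻¹ * ‖b + w‖
      rw [inv_mul_eq_div, le_div_iff₀ hc]
      linarith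
    exact closure_minimal hsub hclosed hb
  -- the sum is closed
  have hclosed : IsClosed ((B ⊔ W : Submodule 𝕜 X) : Set X) := by
    rw [← closure_subset_iff_isClosed]
    intro z hz
    obtain ⟨u, hu, hlim⟩ := mem_closure_iff_seq_limit.1 hz
    have hu' : ∀ n, ∃ b ∈ B, ∃ w ∈ W, b + w = u n := fun n => Submodule.mem_sup.1 (hu n)
    choose b hb w hw hbw using hu'
    have hcau : CauchySeq b := by
      have hcu := hlim.cauchySeq
      rw [Metric.cauchySeq_iff] at hcu ⊢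
      intro ε hε
      obtain ⟨n₀, hn₀⟩ := hcu (ε * c) (by positivity)
      refine ⟨n₀, fun m hm n hn => ?_⟩
      have h1 := hn₀ m hm n hn
      rw [dist_eq_norm] at h1 ⊢
      have h2 := hbound (b m - b n) (B.sub_mem (hb m) (hb n)) (w m - w n)
        (W.sub_mem (hw m) (hw n))
      have h3 : b m - b n + (w m - w n) = u m - u n := by rw [← hbw m, ← hbw n]; abel
      rw [h3] at h2
      calc ‖b m - b n‖ ≤ c⁻¹ * ‖u m - u n‖ := h2
        _ < c⁻¹ * (ε * c) := by gcongr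
        _ = ε := by field_simp
    obtain ⟨b₀, hb₀⟩ := cauchySeq_tendsto_of_complete hcau
    have hb₀B : b₀ ∈ B := by
      have hBcl : IsClosed (B : Set X) := by rw [hBc]; exact isClosed_closure
      exact hBcl.mem_of_tendsto hb₀ (Filter.Eventually.of_forall hb)
    have hw₀ : Filter.Tendsto w Filter.atTop (𝓝 (z - b₀)) := by
      have h1 := hlim.sub hb₀
      refine h1.congr fun n => ?_
      rw [← hbw n]
      abel
    have hw₀W : z - b₀ ∈ W :=
      (isClosed_ann (fpart T)).mem_of_tendsto hw₀ (Filter.Eventually.of_forall hw)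
    exact Submodule.mem_sup.2 ⟨b₀, hb₀B, z - b₀, hw₀W, by abel⟩
  have hx : x ∈ B ⊔ W := by
    by_contra hx
    have hq : (B ⊔ W).mkQ x ≠ 0 := by
      intro h0
      exact hx ((Submodule.Quotient.mk_eq_zero _).1 h0)
    have := hclosed
    obtain ⟨g', _, hg'⟩ := exists_dual_vector 𝕜 ((B ⊔ W).mkQ x) (by simpa using hq)
    set g : StrongDual 𝕜 X := g'.comp (B ⊔ W).mkQL with hg
    have hgB : ∀ z ∈ B ⊔ W, g z = 0 := by
      intro z hz
      change g' ((B ⊔ W).mkQ z) = 0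
      have : (B ⊔ W).mkQ z = 0 := (Submodule.Quotient.mk_eq_zero _).2 hz
      rw [this, map_zero]
    have hgw : g ∈ wcl (h.fsub : Set (StrongDual 𝕜 X)) := by
      refine mem_wcl_of_annih fun z hz => hgB z (Submodule.mem_sup_right ?_)
      intro a ha
      exact hz a (subset_closure ha)
    have hg0 : g = 0 := by
      refine h.separates hΦ (wcl_closure_subset _ hgw) fun z hz => hgB z (Submodule.mem_sup_left ?_)
      exact subset_closure hz
    have h1 : g x = g' ((B ⊔ W).mkQ x) := rfl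
    rw [hg0, hg'] at h1
    have h2 : ‖(B ⊔ W).mkQ x‖ ≠ 0 := by
      intro h0
      exact hq (by simpa using h0)
    apply h2
    have h3 : ((‖(B ⊔ W).mkQ x‖ : ℝ) : 𝕜) = 0 := h1.symm
    exact_mod_cast h3
  obtain ⟨b, hb, w, hw, hbw⟩ := Submodule.mem_sup.1 hx
  exact ⟨b, hb, w, hw, hbw.symm⟩

/-- The four sorts of objects of the closing-off process. -/
inductive Car (𝕜 : Type v) [RCLike 𝕜] (X : Type w) [NormedAddCommGroup X] [NormedSpace 𝕜 X] :
    Type (max v w)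
  | vx : X → Car 𝕜 X
  | fy : StrongDual 𝕜 X → Car 𝕜 X
  | fl : StrongDual 𝕜 X → Car 𝕜 X
  | fa : StrongDual 𝕜 X → Car 𝕜 X

/-- The closing-off operation. -/
def op (Φ : Y → Set X) (nm : X → StrongDual 𝕜 X) (lm : X → ℕ → StrongDual 𝕜 X)
    (Cs Ap : StrongDual 𝕜 X → Set (StrongDual 𝕜 X)) (N : StrongDual 𝕜 X → Set X) :
    Car 𝕜 X → Car 𝕜 X → Set (Car 𝕜 X)
  | .vx x, .vx y => ({Car.vx (x + y)} ∪ range fun n : ℕ => Car.vx (TopologicalSpace.denseSeq 𝕜 n • x)) ∪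
      ({Car.fy (nm x)} ∪ range fun n : ℕ => Car.fl (lm x n))
  | .fy f, .fy g => ({Car.fy (f + g)} ∪ range fun n : ℕ => Car.fy (TopologicalSpace.denseSeq 𝕜 n • f)) ∪
      Car.vx '' (pull Φ {f})
  | .fl f, .fl g => ({Car.fl (f + g)} ∪ range fun n : ℕ => Car.fl (TopologicalSpace.denseSeq 𝕜 n • f)) ∪
      (Car.fy '' (Cs f) ∪ Car.fa '' (Ap f))
  | .fa f, .fa _ => {Car.fl f} ∪ Car.vx '' (N f)
  | _, _ => ∅

/-- What is allowed in the closing-off process. -/
def okc (Y : Submodule 𝕜 (StrongDual 𝕜 X)) (L : Submodule 𝕜 (StrongDual 𝕜 X))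
    (A : Set (StrongDual 𝕜 X)) : Car 𝕜 X → Prop
  | .vx _ => True
  | .fy f => f ∈ Y
  | .fl f => f ∈ L
  | .fa f => f ∈ A

theorem op_countable (hΦ : IsProjectionalGenerator Y Φ) {lm : X → ℕ → StrongDual 𝕜 X}
    {Cs Ap : StrongDual 𝕜 X → Set (StrongDual 𝕜 X)} {N : StrongDual 𝕜 X → Set X}
    (hCs : ∀ f, (Cs f).Countable) (hAp : ∀ f, (Ap f).Countable) (hN : ∀ f, (N f).Countable)
    (a b : Car 𝕜 X) : (op Φ nm lm Cs Ap N a b).Countable := by
  rcases a with x | f | f | f <;> rcases b with y | g | g | g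
  · exact ((countable_singleton _).union (countable_range _)).union
      ((countable_singleton _).union (countable_range _))
  · exact countable_empty
  · exact countable_empty
  · exact countable_empty
  · exact countable_empty
  · exact ((countable_singleton _).union (countable_range _)).union
      ((pull_countable hΦ (countable_singleton _)).image _)
  · exact countable_empty
  · exact countable_empty
  · exact countable_empty
  · exact countable_empty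
  · exact ((countable_singleton _).union (countable_range _)).union
      (((hCs f).image _).union ((hAp f).image _))
  · exact countable_empty
  · exact countable_empty
  · exact countable_empty
  · exact countable_empty
  · exact (countable_singleton _).union ((hN f).image _)

theorem op_ok {L : Submodule 𝕜 (StrongDual 𝕜 X)} {A : Set (StrongDual 𝕜 X)} (hAL : A ⊆ L)
    {lm : X → ℕ → StrongDual 𝕜 X}
    {Cs Ap : StrongDual 𝕜 X → Set (StrongDual 𝕜 X)} {N : StrongDual 𝕜 X → Set X}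
    (hnm : ∀ x, nm x ∈ Y) (hlm : ∀ x n, lm x n ∈ L) (hCs : ∀ f, Cs f ⊆ Y) (hAp : ∀ f, Ap f ⊆ A)
    (a : Car 𝕜 X) (ha : okc Y L A a) (b : Car 𝕜 X) (hb : okc Y L A b) :
    op Φ nm lm Cs Ap N a b ⊆ {c | okc Y L A c} := by
  intro c hc
  change okc Y L A c
  rcases a with x | f | f | f <;> rcases b with y | g | g | g
  · rcases hc with (hc | ⟨n, rfl⟩) | (hc | ⟨n, rfl⟩)
    · rw [mem_singleton_iff] at hc; subst hc; trivial
    · trivial
    · rw [mem_singleton_iff] at hc; subst hc; exact hnm x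
    · exact hlm x n
  · exact absurd hc (by simp [op])
  · exact absurd hc (by simp [op])
  · exact absurd hc (by simp [op])
  · exact absurd hc (by simp [op])
  · rcases hc with (hc | ⟨n, rfl⟩) | ⟨w, _, rfl⟩
    · rw [mem_singleton_iff] at hc; subst hc; exact Y.add_mem ha hb
    · exact Y.smul_mem _ ha
    · trivial
  · exact absurd hc (by simp [op])
  · exact absurd hc (by simp [op])
  · exact absurd hc (by simp [op])
  · exact absurd hc (by simp [op])
  · rcases hc with (hc | ⟨n, rfl⟩) | (⟨w, hw, rfl⟩ | ⟨w, hw, rfl⟩)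
    · rw [mem_singleton_iff] at hc; subst hc; exact L.add_mem ha hb
    · exact L.smul_mem _ ha
    · exact hCs f hw
    · exact hAp f hw
  · exact absurd hc (by simp [op])
  · exact absurd hc (by simp [op])
  · exact absurd hc (by simp [op])
  · exact absurd hc (by simp [op])
  · rcases hc with hc | ⟨w, _, rfl⟩
    · rw [mem_singleton_iff] at hc; subst hc; exact hAL ha
    · trivial

/-- The reduction. -/
theorem reduce [CompleteSpace X] (hΦ : IsProjectionalGenerator Y Φ) (N : StrongDual 𝕜 X → Set X)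
    (hNc : ∀ z ∈ hull Y, (N z).Countable)
    (L : Submodule 𝕜 (StrongDual 𝕜 X)) (hL : L ≤ hull Y) (A U : Set (StrongDual 𝕜 X))
    (hAL : A ⊆ L) (hU : IsOpen U) (hne : (U ∩ L).Nonempty) (hUA : U ∩ L ⊆ closure A)
    (f : StrongDual 𝕜 X) (hf : f ∈ wcl (L : Set (StrongDual 𝕜 X)))
    (hfN : ∀ a ∈ A, ∀ x ∈ N a, f x = 0) (x₀ : X) (hx₀ : f x₀ ≠ 0) :
    ∃ L₂ : Submodule 𝕜 (StrongDual 𝕜 X), L₂ ≤ hull Y ∧ IsClosed (L₂ : Set (StrongDual 𝕜 X)) ∧
      TopologicalSpace.IsSeparable (L₂ : Set (StrongDual 𝕜 X)) ∧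
      ∃ A₂ : Set (StrongDual 𝕜 X), A₂ ⊆ L₂ ∧ A₂.Countable ∧ (U ∩ L₂).Nonempty ∧
        U ∩ L₂ ⊆ closure A₂ ∧ ∃ f₂ ∈ wcl (L₂ : Set (StrongDual 𝕜 X)),
          (∀ a ∈ A₂, ∀ x ∈ N a, f₂ x = 0) ∧ f₂ ≠ 0 := by
  classical
  obtain ⟨c, hc, nm, hnm⟩ := exists_norming_functional hΦ.norming
  obtain ⟨u₀, hu₀U, hu₀L⟩ := hne
  -- almost maximal functionals of `L`
  have hlm : ∀ (x : X) (n : ℕ), ∃ l : StrongDual 𝕜 X, l ∈ L ∧ ‖l‖ ≤ 1 ∧
      ∀ l' ∈ L, ‖l'‖ ≤ 1 → ‖l' x‖ ≤ ‖l x‖ + 1 / ((n : ℝ) + 1) := by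
    intro x n
    set S : Set ℝ := {r : ℝ | ∃ l ∈ L, ‖l‖ ≤ 1 ∧ r = ‖l x‖} with hS
    have hbd : BddAbove S := by
      refine ⟨‖x‖, ?_⟩
      rintro r ⟨l, _, hl1, rfl⟩
      calc ‖l x‖ ≤ ‖l‖ * ‖x‖ := l.le_opNorm x
        _ ≤ 1 * ‖x‖ := by gcongr
        _ = ‖x‖ := one_mul _
    have hpos : (0 : ℝ) < 1 / ((n : ℝ) + 1) := by positivity
    obtain ⟨r, ⟨l, hl, hl1, rfl⟩, hr⟩ := exists_lt_of_lt_csSup
      (s := S) ⟨0, 0, L.zero_mem, by simp, by simp⟩
      (show sSup S - 1 / ((n : ℝ) + 1) < sSup S by linarith)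
    refine ⟨l, hl, hl1, fun l' hl' hl1' => ?_⟩
    have := le_csSup hbd (show ‖l' x‖ ∈ S from ⟨l', hl', hl1', rfl⟩)
    linarith
  choose lm hlmL hlm1 hlmx using hlm
  -- countable sets of functionals
  have hCs : ∀ g : StrongDual 𝕜 X, ∃ C : Set (StrongDual 𝕜 X), C ⊆ Y ∧ C.Countable ∧
      (g ∈ hull Y → g ∈ wcl C) := by
    intro g
    by_cases hg : g ∈ hull Y
    · obtain ⟨C, h1, h2, h3⟩ := mem_hull_iff.1 hg
      exact ⟨C, h1, h2, fun _ => h3⟩
    · exact ⟨∅, empty_subset _, countable_empty, fun h => absurd h hg⟩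
  choose Cs hCsY hCsc hCsw using hCs
  have hAp : ∀ g : StrongDual 𝕜 X, ∃ C : Set (StrongDual 𝕜 X), C ⊆ A ∧ C.Countable ∧
      (g ∈ closure A → g ∈ closure C) := by
    intro g
    by_cases hg : g ∈ closure A
    · obtain ⟨u, hu, hlim⟩ := mem_closure_iff_seq_limit.1 hg
      refine ⟨range u, ?_, countable_range u, fun _ => mem_closure_of_tendsto hlim
        (Filter.Eventually.of_forall fun n => mem_range_self n)⟩
      rintro _ ⟨n, rfl⟩
      exact hu n
    · exact ⟨∅, empty_subset _, countable_empty, fun h => absurd h hg⟩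
  choose Ap hApA hApc hApcl using hAp
  set N' : StrongDual 𝕜 X → Set X := fun g => {x | x ∈ N g ∧ g ∈ hull Y} with hN'
  have hN'c : ∀ g, (N' g).Countable := by
    intro g
    by_cases hg : g ∈ hull Y
    · exact (hNc g hg).mono fun x hx => hx.1
    · have : N' g = ∅ := by
        rw [eq_empty_iff_forall_notMem]
        exact fun x hx => hg hx.2
      rw [this]
      exact countable_empty
  -- the closed set
  set T₀ : Set (Car 𝕜 X) := {Car.vx 0, Car.vx x₀, Car.fy 0, Car.fl 0, Car.fl u₀} with hT₀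
  set T : Set (Car 𝕜 X) := cls (op Φ nm lm Cs Ap N') T₀ with hT
  have hTc : T.Countable := by
    refine cls_countable (op_countable hΦ hCsc hApc hN'c) ?_
    exact ((((countable_singleton _).insert _).insert _).insert _).insert _
  have hTcl : ∀ a ∈ T, ∀ b ∈ T, op Φ nm lm Cs Ap N' a b ⊆ T := fun a ha b hb =>
    cls_closed _ _ ha hb
  have hTok : T ⊆ {a | okc Y L A a} := by
    refine cls_min ?_ ?_
    · rintro a (rfl | rfl | rfl | rfl | h)
      · trivial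
      · trivial
      · exact Y.zero_mem
      · exact L.zero_mem
      · rw [mem_singleton_iff] at h
        subst h
        exact hu₀L
    · intro a ha b hb
      exact op_ok hAL (fun x => (hnm x).1) hlmL hCsY hApA a ha b hb
  have hT₀T : T₀ ⊆ T := subset_cls _ _
  set T' : Set (X ⊕ StrongDual 𝕜 X) := {a | Sum.elim (fun x => Car.vx x ∈ T)
    (fun g => Car.fy g ∈ T) a} with hT'
  have hcl : Closed Φ nm T' := by
    refine ⟨?_, ?_, ?_, ?_⟩
    · rintro (x | g) ha (y | k) hb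
      · have ha' : Car.vx x ∈ T := ha
        have hb' : Car.vx y ∈ T := hb
        rintro c ((hc | ⟨n, rfl⟩) | hc)
        · rw [mem_singleton_iff] at hc; subst hc
          exact hTcl _ ha' _ hb' (Or.inl (Or.inl rfl))
        · exact hTcl _ ha' _ hb' (Or.inl (Or.inr ⟨n, rfl⟩))
        · rw [mem_singleton_iff] at hc; subst hc
          exact hTcl _ ha' _ hb' (Or.inr (Or.inl rfl))
      · exact empty_subset _
      · exact empty_subset _
      · have ha' : Car.fy g ∈ T := ha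
        have hb' : Car.fy k ∈ T := hb
        rintro c ((hc | ⟨n, rfl⟩) | ⟨w, hw, rfl⟩)
        · rw [mem_singleton_iff] at hc; subst hc
          exact hTcl _ ha' _ hb' (Or.inl (Or.inl rfl))
        · exact hTcl _ ha' _ hb' (Or.inl (Or.inr ⟨n, rfl⟩))
        · exact hTcl _ ha' _ hb' (Or.inr ⟨w, hw, rfl⟩)
    · exact hT₀T (by simp [hT₀])
    · exact hT₀T (by simp [hT₀])
    · intro g hg
      exact hTok hg
  -- the part in `L`
  set FL : Set (StrongDual 𝕜 X) := {g | Car.fl g ∈ T} with hFL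
  set FA : Set (StrongDual 𝕜 X) := {g | Car.fa g ∈ T} with hFA
  have hFLL : FL ⊆ L := fun g hg => hTok hg
  have hFAA : FA ⊆ A := fun g hg => hTok hg
  have hFLc : FL.Countable := hTc.preimage (f := Car.fl) (fun a b h => by injection h)
  have hFAc : FA.Countable := hTc.preimage (f := Car.fa) (fun a b h => by injection h)
  have hu₀ : u₀ ∈ FL := hT₀T (by simp [hT₀])
  have hFAFL : FA ⊆ FL := fun g hg => hTcl _ hg _ hg (Or.inl rfl)
  set L₂ : Submodule 𝕜 (StrongDual 𝕜 X) := closureSub FL ⟨u₀, hu₀⟩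
    (fun g hg k hk => hTcl _ hg _ hk (Or.inl (Or.inl rfl)))
    (fun n g hg => hTcl _ hg _ hg (Or.inl (Or.inr ⟨n, rfl⟩))) with hL₂
  have hL₂c : (L₂ : Set (StrongDual 𝕜 X)) = closure FL := rfl
  have hL₂H : L₂ ≤ hull Y := by
    intro g hg
    exact (isClosed_hull Y).closure_subset_iff.2 (hFLL.trans hL) hg
  have hlw : ∀ l ∈ FL, l ∈ wcl (fpart T') := by
    intro l hl
    refine wcl_mono ?_ (hCsw l (hL (hFLL hl)))
    intro g hg
    exact hTcl _ hl _ hl (Or.inr (Or.inl ⟨g, hg, rfl⟩))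
  obtain ⟨f₂, hf₂w, hf₂⟩ := hcl.exists_eqOn hc hnm f
  have hf₂' : ∀ b ∈ closure (vpart T'), f₂ b = f b := by
    have hclosed : IsClosed {x : X | f₂ x = f x} := isClosed_eq f₂.continuous f.continuous
    exact fun b hb => closure_minimal (fun x hx => hf₂ x hx) hclosed hb
  have hf₂w' : ∀ w : X, (∀ g ∈ fpart T', g w = 0) → f₂ w = 0 := fun w hw =>
    wcl_apply_eq_zero hw hf₂w
  have hf₂L : f₂ ∈ wcl (L₂ : Set (StrongDual 𝕜 X)) := by
    refine mem_wcl_of_annih fun x hx => ?_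
    obtain ⟨b, hb, w, hw, rfl⟩ := decomp hΦ hc hnm hcl x
    rw [map_add, hf₂w' w hw, add_zero, hf₂' b hb]
    have hlb : ∀ l ∈ FL, l b = 0 := by
      intro l hl
      have h1 := hx l (subset_closure hl)
      have h2 : l w = 0 := wcl_apply_eq_zero hw (hlw l hl)
      rwa [map_add, h2, add_zero] at h1
    -- all functionals of `L` of norm at most one vanish at `b`
    have hLb : ∀ l ∈ L, ‖l‖ ≤ 1 → l b = 0 := by
      intro l hl hl1
      by_contra hne
      have hpos : 0 < ‖l b‖ := norm_pos_iff.2 hne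
      obtain ⟨x, hx, hxb⟩ := Metric.mem_closure_iff.1 hb (‖l b‖ / 4) (by positivity)
      rw [dist_eq_norm] at hxb
      obtain ⟨n, hn⟩ := exists_nat_one_div_lt (show 0 < ‖l b‖ / 4 by positivity)
      have hlx : Car.fl (lm x n) ∈ T := by
        have hx' : Car.vx x ∈ T := hx
        exact hTcl _ hx' _ hx' (Or.inr (Or.inr ⟨n, rfl⟩))
      have h0 : lm x n b = 0 := hlb _ hlx
      have h1 := hlmx x n l hl hl1
      have h2 : ∀ k : StrongDual 𝕜 X, ‖k‖ ≤ 1 → ‖k (b - x)‖ ≤ ‖b - x‖ := by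
        intro k hk
        calc ‖k (b - x)‖ ≤ ‖k‖ * ‖b - x‖ := k.le_opNorm _
          _ ≤ 1 * ‖b - x‖ := by gcongr
          _ = ‖b - x‖ := one_mul _
      have h3 : ‖lm x n x‖ ≤ ‖b - x‖ := by
        have h4 := h2 (lm x n) (hlm1 x n)
        rw [map_sub, h0, zero_sub, norm_neg] at h4
        exact h4
      have h5 : ‖l b‖ ≤ ‖l x‖ + ‖b - x‖ := by
        have h6 := h2 l hl1
        have h7 : l b = l x + l (b - x) := by rw [map_sub]; ring
        calc ‖l b‖ = ‖l x + l (b - x)‖ := by rw [← h7]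
          _ ≤ ‖l x‖ + ‖l (b - x)‖ := norm_add_le _ _
          _ ≤ ‖l x‖ + ‖b - x‖ := by linarith
      linarith
    have hLb' : ∀ l ∈ L, l b = 0 := by
      intro l hl
      have hpos : 0 < ‖l‖ + 1 := by positivity
      have h1 := hLb ((((‖l‖ + 1)⁻¹ : ℝ) : 𝕜) • l) (L.smul_mem _ hl) (by
        rw [norm_smul, RCLike.norm_ofReal, abs_of_pos (by positivity), inv_mul_le_iff₀ hpos]
        linarith)
      rw [smul_apply, smul_eq_mul] at h1
      rcases mul_eq_zero.1 h1 with h2 | h2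
      · exfalso
        have h3 : (‖l‖ + 1)⁻¹ = (0 : ℝ) := by exact_mod_cast h2
        exact (inv_ne_zero hpos.ne') h3
      · exact h2
    exact wcl_apply_eq_zero hLb' hf
  refine ⟨L₂, hL₂H, isClosed_closure, ?_, FA, ?_, hFAc, ⟨u₀, hu₀U, subset_closure hu₀⟩, ?_,
    f₂, hf₂L, ?_, ?_⟩
  · exact hFLc.isSeparable.closure
  · exact hFAFL.trans subset_closure
  · rintro g ⟨hgU, hgL⟩
    rw [Metric.mem_closure_iff]
    intro ε hε
    obtain ⟨l, ⟨hlU, hlε⟩, hlF⟩ := mem_closure_iff.1 (show g ∈ closure FL from hgL)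
      (U ∩ Metric.ball g (ε / 2)) (hU.inter Metric.isOpen_ball)
      ⟨hgU, Metric.mem_ball_self (by positivity)⟩
    have h1 : l ∈ closure (Ap l) := hApcl l (hUA ⟨hlU, hFLL hlF⟩)
    obtain ⟨a, ha, hla⟩ := Metric.mem_closure_iff.1 h1 (ε / 2) (by positivity)
    refine ⟨a, hTcl _ hlF _ hlF (Or.inr (Or.inr ⟨a, ha, rfl⟩)), ?_⟩
    have h2 : dist g l < ε / 2 := by rw [dist_comm]; exact hlε
    calc dist g a ≤ dist g l + dist l a := dist_triangle _ _ _
      _ < ε / 2 + ε / 2 := add_lt_add h2 hla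
      _ = ε := by ring
  · intro a ha x hx
    have hxT : Car.vx x ∈ T :=
      hTcl _ ha _ ha (Or.inr ⟨x, ⟨hx, hL (hAL (hFAA ha))⟩, rfl⟩)
    rw [hf₂ x hxT]
    exact hfN a (hFAA ha) x hx
  · intro h0
    have hx₀T : Car.vx x₀ ∈ T := hT₀T (by simp [hT₀])
    have h1 := hf₂ x₀ hx₀T
    rw [h0] at h1
    exact hx₀ h1.symm

end IRed

/-- The statement of `claimRed` for complete spaces. -/
def claimRedC : Prop :=
  ∀ (𝕜 : Type v) [RCLike 𝕜] (X : Type w) [NormedAddCommGroup X] [NormedSpace 𝕜 X]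
    [CompleteSpace X]
    (Y : Submodule 𝕜 (StrongDual 𝕜 X)) (Φ : Y → Set X), IsProjectionalGenerator Y Φ →
    ∀ N : StrongDual 𝕜 X → Set X, (∀ z ∈ hull Y, (N z).Countable) →
    (∀ L : Submodule 𝕜 (StrongDual 𝕜 X), L ≤ hull Y → IsClosed (L : Set (StrongDual 𝕜 X)) →
      TopologicalSpace.IsSeparable (L : Set (StrongDual 𝕜 X)) →
      ∀ A U : Set (StrongDual 𝕜 X), A ⊆ L → A.Countable → IsOpen U → (U ∩ L).Nonempty →
      U ∩ L ⊆ closure A → ∀ f ∈ wcl (L : Set (StrongDual 𝕜 X)),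
      (∀ a ∈ A, ∀ x ∈ N a, f x = 0) → f = 0) →
    ∃ Ψ : hull Y → Set X, IsProjectionalGenerator (hull Y) Ψ ∧
      ∀ y : Y, Ψ ⟨y, le_hull Y y.2⟩ = Φ y

theorem prfRedC : claimRedC.{v, w} := by
  intro 𝕜 _ X _ _ _ Y Φ hΦ N hNc hN
  refine extension_somewhere_dense hΦ N hNc ?_
  intro L hL A hAL U hU hne hUA f hf hfN
  by_contra hf0
  obtain ⟨x₀, hx₀⟩ : ∃ x₀, f x₀ ≠ 0 := by
    by_contra hcon
    push Not at hcon
    exact hf0 (ContinuousLinearMap.ext hcon)
  obtain ⟨L₂, h1, h2, h3, A₂, h4, h5, h6, h7, f₂, h8, h9, h10⟩ :=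
    IRed.reduce hΦ N hNc L hL A U hAL hU hne hUA f hf hfN x₀ hx₀
  exact h10 (hN L₂ h1 h2 h3 A₂ U h4 h5 hU h6 h7 f₂ h8 h9)

end Pool.Agent.Work.MP_6c3bcd_an.Dn

end

section

/-!
# SEE: jumps of families of 1-Lipschitz functions
-/

universe u v w

namespace Pool.Agent.Work.MP_6c3bcd_an.Dn

open Set Topology Metric

namespace ISee

theorem lip {E : Type w} [PseudoMetricSpace E] {f : E → ℝ} (hf : LipschitzWith 1 f) (x y : E) :
    f y - dist x y ≤ f x := by
  have h := hf.dist_le_mul y x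
  rw [Real.dist_eq, NNReal.coe_one, one_mul, dist_comm] at h
  have h2 := (abs_le.1 h).2
  linarith

theorem first_unique {ι : Type u} [LinearOrder ι] {α : Type w} {g : ι → α → ℝ} {z : α} {d : ℝ}
    {i i' : ι} (h : First g z d i) (h' : First g z d i') : i = i' := by
  rcases lt_trichotomy i i' with h1 | h1 | h1
  · exact absurd h.1 (not_lt.2 (h'.2 i h1))
  · exact h1
  · exact absurd h'.1 (not_lt.2 (h.2 i' h1))

end ISee

theorem prfSee : claimSee.{u, w} := by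
  intro ι _ _ E _ g hg
  refine ⟨?_, ?_, ?_, ?_⟩
  · rintro z i ⟨r, r', hrr, hr, hr'⟩
    obtain ⟨q, hq1, hq2⟩ := exists_rat_btwn hrr
    have h1 : ∀ᶠ z' in 𝓝 z, g i z' < q :=
      (hg i).continuous.continuousAt.eventually_lt continuousAt_const (hr.trans hq1)
    have h2 : ∀ᶠ z' in 𝓝 z, dist z' z < r' - q :=
      Metric.ball_mem_nhds z (sub_pos.2 hq2)
    filter_upwards [h1, h2] with z' hz1 hz2
    refine ⟨q, hz1, fun j hj => ?_⟩
    have h3 := hr' j hj
    have h4 := ISee.lip (hg j) z' z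
    linarith
  · rintro z d i ⟨h1, h2⟩
    obtain ⟨r, hr1, hr2⟩ := exists_between h1
    exact ⟨r, d, hr2, hr1, h2⟩
  · rintro z d ⟨i, hi⟩
    obtain ⟨m, hm, hmin⟩ := (wellFounded_lt (α := ι)).has_min {i | g i z < d} ⟨i, hi⟩
    exact ⟨m, hm, fun j hj => not_lt.1 (fun h => hmin j h hj)⟩
  · intro z
    have h1 : Jmp g z = ⋃ q : ℚ, {i | First g z q i} := by
      ext i
      simp [Jmp]
    rw [h1]
    apply countable_iUnion
    intro q
    apply Set.Subsingleton.countable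
    intro i hi i' hi'
    exact ISee.first_unique hi hi'

end Pool.Agent.Work.MP_6c3bcd_an.Dn

end

section

/-!
# STEP: one step of the iteration
-/

universe u v w

namespace Pool.Agent.Work.MP_6c3bcd_an.Dn

open Set Topology Metric

namespace IStep

variable {𝕜 : Type v} [RCLike 𝕜] {E : Type w} [NormedAddCommGroup E] [NormedSpace 𝕜 E]

/-- two points of a line near a subspace: the direction is near the subspace -/
theorem infDist_dir (W' : Submodule 𝕜 E) (z b : E) (t₁ t₂ d r : ℝ) (hr : 0 < r)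
    (hrt : r ≤ t₂ - t₁) (h1 : infDist (ln 𝕜 z b t₁) (W' : Set E) < d)
    (h2 : infDist (ln 𝕜 z b t₂) (W' : Set E) < d) :
    infDist b (W' : Set E) ≤ 2 * d / r := by
  have hne : (W' : Set E).Nonempty := ⟨0, W'.zero_mem⟩
  obtain ⟨w1, hw1, hd1⟩ := (Metric.infDist_lt_iff hne).1 h1
  obtain ⟨w2, hw2, hd2⟩ := (Metric.infDist_lt_iff hne).1 h2
  have ht : 0 < t₂ - t₁ := lt_of_lt_of_le hr hrt
  have hd : 0 < d := lt_of_le_of_lt dist_nonneg hd1
  have hc : ((t₂ - t₁ : ℝ) : 𝕜) ≠ 0 := by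
    rw [Ne, RCLike.ofReal_eq_zero]
    exact ht.ne'
  obtain ⟨y, hy⟩ : ∃ y : E, y = (((t₂ - t₁ : ℝ) : 𝕜))⁻¹ • (w2 - w1) := ⟨_, rfl⟩
  have hyW : y ∈ (W' : Set E) := by
    rw [hy]
    exact W'.smul_mem _ (W'.sub_mem hw2 hw1)
  have e1 : b - y = (((t₂ - t₁ : ℝ) : 𝕜))⁻¹ • ((ln 𝕜 z b t₂ - w2) - (ln 𝕜 z b t₁ - w1)) := by
    have e2 : (ln 𝕜 z b t₂ - w2) - (ln 𝕜 z b t₁ - w1) =
        (((t₂ - t₁ : ℝ) : 𝕜)) • b - (w2 - w1) := by
      unfold ln
      rw [RCLike.ofReal_sub, sub_smul]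
      abel
    rw [e2, smul_sub, smul_smul, inv_mul_cancel₀ hc, one_smul, hy]
  have e3 : ‖b - y‖ ≤ 2 * d / r := by
    rw [e1, norm_smul, norm_inv, RCLike.norm_ofReal, abs_of_pos ht]
    have e4 : ‖(ln 𝕜 z b t₂ - w2) - (ln 𝕜 z b t₁ - w1)‖ ≤ 2 * d := by
      refine (norm_sub_le _ _).trans ?_
      rw [dist_eq_norm] at hd1 hd2
      linarith
    calc (t₂ - t₁)⁻¹ * ‖(ln 𝕜 z b t₂ - w2) - (ln 𝕜 z b t₁ - w1)‖
        ≤ r⁻¹ * (2 * d) := by
          refine mul_le_mul ?_ e4 (norm_nonneg _) (by positivity)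
          exact inv_anti₀ hr hrt
      _ = 2 * d / r := by rw [div_eq_mul_inv, mul_comm]
  calc infDist b (W' : Set E) ≤ dist b y := Metric.infDist_le_dist_of_mem hyW
    _ = ‖b - y‖ := dist_eq_norm _ _
    _ ≤ 2 * d / r := e3

end IStep

theorem prfStep (hTP : claimTP.{u, v, w}) (hE : claimEEF.{u, v, w}) (hC : claimCnt.{u, v, w})
    (hS : claimSee.{u, w}) : claimStep.{u, v, w} := by
  intro 𝕜 _ E _ _ I J K _ _ _ _ _ _ m W hW hWc A V N hV hN z b T δ i s hT hδ hs h1 h2 h3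
  obtain ⟨hP, hEW, hEmono, -, -, hlip, hconv, hanti, hD32, hD21⟩ := hE 𝕜 E I J K m W hW hWc
  have hcnt := fun z' => hC 𝕜 E I J K m W z'
  -- the family `g`
  have hglip : ∀ j, LipschitzWith 1 (D2 m W i j) := fun j => hlip _
  have hgconv : ∀ j (z b : E), ConvexOn ℝ univ fun t : ℝ => D2 m W i j (ln 𝕜 z b t) :=
    fun j z b => hconv _ z b
  have hganti : ∀ j j', j ≤ j' → ∀ z, D2 m W i j' z ≤ D2 m W i j z := by
    intro j j' hjj z
    refine hanti _ _ ?_ z
    exact image_mono (Iic_subset_Iic.2 hjj)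
  obtain ⟨t₁, ht₁, t₂, ht₂, t₃, ht₃, htt, ξ₁, ξ₂, ζ₁, ζ₂, hf1, hf2, hr1, hr2, hs1, hs2⟩ :=
    hTP 𝕜 J E (D2 m W i) hglip hgconv hganti z b T (T * δ) hT
      (fun t ht => hD32 i _ _ (h3 t ht))
  obtain ⟨hseeJ, hfsJ, -, -⟩ := hS J E (D2 m W i) hglip
  -- near a point of the line, elements of `A` have `i` and the seen indices in their hulls
  have hI : ∀ t ∈ Ioo 0 T, ∀ᶠ z' in 𝓝 (ln 𝕜 z b t), z' ∈ A → Sum.inl i ∈ MM m W z' := by
    intro t ht
    filter_upwards [h2 t ht] with z' hz' hA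
    exact hz' hA (Or.inr rfl)
  have hJ : ∀ t ∈ Ioo 0 T, ∀ ρ, Sees (D2 m W i) (ln 𝕜 z b t) ρ →
      ∀ᶠ z' in 𝓝 (ln 𝕜 z b t), z' ∈ A → Sum.inr (Sum.inl ρ) ∈ MM m W z' := by
    intro t ht ρ hρ
    filter_upwards [hI t ht, hseeJ _ _ hρ] with z' hz' hj hA
    exact (hcnt z').2.2.2.2.1 i ρ (hz' hA) hj
  -- choice of an element of `A`
  have hpick : ∀ t ∈ Ioo 0 T, ∀ P : E → Prop, (∀ᶠ z' in 𝓝 (ln 𝕜 z b t), z' ∈ A → P z') →
      ∃ a ∈ A, a ∈ V ∧ P a := by
    intro t ht P hP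
    have hVn : V ∈ 𝓝 (ln 𝕜 z b t) := hV.mem_nhds (h1 t ht).1
    obtain ⟨a, ha, haA⟩ := mem_closure_iff_nhds.1 (h1 t ht).2 _ (Filter.inter_mem hP hVn)
    exact ⟨a, haA, ha.2, ha.1 haA⟩
  -- fact 1
  have fact1 : ∀ t ∈ Ioo 0 T, ∀ ρ ρ', Sees (D2 m W i) (ln 𝕜 z b t) ρ →
      Sees (D2 m W i) (ln 𝕜 z b t) ρ' → m.n2 ρ' ρ ∈ N := by
    intro t ht ρ ρ' hρ hρ'
    obtain ⟨a, haA, haV, hPa⟩ := hpick t ht
      (fun z' => Sum.inr (Sum.inl ρ) ∈ MM m W z' ∧ Sum.inr (Sum.inl ρ') ∈ MM m W z') (by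
        filter_upwards [hJ t ht ρ hρ, hJ t ht ρ' hρ'] with z' e1 e2 hA
        exact ⟨e1 hA, e2 hA⟩)
    exact hN a haA haV _ ((hcnt a).2.2.2.2.2.2.2 ρ' ρ hPa.2 hPa.1)
  obtain ⟨s', hs'⟩ : ∃ s' : Set (Ix I J K),
    s' = (s ∪ {Sum.inl i}) ∪ {Sum.inr (Sum.inl ζ₁), Sum.inr (Sum.inl ζ₂)} := ⟨_, rfl⟩
  obtain ⟨H, hH⟩ : ∃ H : Set (Ix I J K), H = Sk m (s' ∪ inK N) := ⟨_, rfl⟩
  have hs'H : s' ⊆ H := by
    rw [hH]
    exact subset_union_left.trans (subset_cls _ _)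
  have hNH : ∀ k ∈ N, (Sum.inr (Sum.inr k) : Ix I J K) ∈ H := by
    intro k hk
    rw [hH]
    exact subset_cls _ _ (Or.inr ⟨k, hk, rfl⟩)
  have hcl : ∀ x ∈ H, ∀ y ∈ H, op0 m x y ⊆ H := by
    intro x hx y hy
    rw [hH] at hx hy ⊢
    exact cls_closed _ _ hx hy
  have hiH : (Sum.inl i : Ix I J K) ∈ H := hs'H (by rw [hs']; exact Or.inl (Or.inr rfl))
  have hζ1H : (Sum.inr (Sum.inl ζ₁) : Ix I J K) ∈ H :=
    hs'H (by rw [hs']; exact Or.inr (Or.inl rfl))
  have hζ2H : (Sum.inr (Sum.inl ζ₂) : Ix I J K) ∈ H :=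
    hs'H (by rw [hs']; exact Or.inr (Or.inr rfl))
  -- induction along the links
  have hreach : ∀ ξ ζ : J, Reach (fun j t => D2 m W i j (ln 𝕜 z b t)) 0 T ξ ζ →
      (Sum.inr (Sum.inl ζ) : Ix I J K) ∈ H → (Sum.inr (Sum.inl ξ) : Ix I J K) ∈ H := by
    intro ξ ζ hr hζ
    induction hr using Relation.ReflTransGen.head_induction_on with
    | refl => exact hζ
    | head hab hbc ih =>
      rename_i ρ ρ'
      obtain ⟨hlt, t, ht, hsρ, hsρ'⟩ := hab
      have hk := fact1 t ht ρ ρ' hsρ hsρ'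
      have hmem := hcl _ ih _ (hNH _ hk)
      apply hmem
      simp only [op0, mem_singleton_iff, m.e2_n2 ρ' ρ hlt.le]
  have hξ1H := hreach ξ₁ ζ₁ hr1 hζ1H
  have hξ2H := hreach ξ₂ ζ₂ hr2 hζ2H
  -- fact 2
  have fact2 : ∀ t ∈ Ioo 0 T, ∀ ξ, First (D2 m W i) (ln 𝕜 z b t) (T * δ) ξ →
      (Sum.inr (Sum.inl ξ) : Ix I J K) ∈ H →
      infDist (ln 𝕜 z b t) (W (lt3 H) : Set E) < T * δ := by
    intro t ht ξ hξ hξH
    have hk := hD21 i ξ _ _ hξ.1
    obtain ⟨hseeK, hfsK, hexK, -⟩ := hS K E (D1 m W i ξ) (fun k => hlip _)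
    obtain ⟨ν, hν⟩ := hexK _ _ hk
    have hsν := hseeK _ _ (hfsK _ _ _ hν)
    obtain ⟨a, haA, haV, hPa⟩ := hpick t ht
      (fun z' => Sum.inr (Sum.inr ν) ∈ MM m W z') (by
        filter_upwards [hI t ht, hJ t ht ξ (hfsJ _ _ _ hξ), hsν] with z' e1 e2 e3 hA
        exact (hcnt z').2.2.2.2.2.1 i ξ ν (e1 hA) (e2 hA) e3)
    have hIic : ∀ k, k ≤ ν → k ∈ N := fun k hk =>
      hN a haA haV _ ((hcnt a).2.2.2.2.2.2.1 ν k hPa hk)
    have hsub : m.e3 i '' (m.e2 ξ '' Iic ν) ⊆ lt3 H := by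
      rintro _ ⟨_, ⟨k, hk, rfl⟩, rfl⟩
      have a1 : (Sum.inr (Sum.inl (m.e2 ξ k)) : Ix I J K) ∈ H := by
        apply hcl _ hξH _ (hNH k (hIic k hk))
        simp only [op0, mem_singleton_iff]
      have a2 : (Sum.inl (m.e3 i (m.e2 ξ k)) : Ix I J K) ∈ H := by
        apply hcl _ hiH _ a1
        simp only [op0, mem_singleton_iff]
      exact a2
    refine lt_of_le_of_lt ?_ hν.1
    refine Metric.infDist_le_infDist_of_subset ((hEmono _ _ hsub).trans (hEW _)) ?_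
    obtain ⟨P, hP1, -⟩ := hP (m.e3 i '' (m.e2 ξ '' Iic ν))
    rw [← hP1]
    exact ⟨0, P.zero_mem⟩
  refine ⟨t₃, ht₃, s', ?_, ?_, ?_, ?_⟩
  · rw [hs']
    exact (hs.union (finite_singleton _)).union (by simp)
  · rw [hs']
    exact subset_union_left
  · have e0 := h2 t₃ ht₃
    filter_upwards [e0, hJ t₃ ht₃ ζ₁ hs1, hJ t₃ ht₃ ζ₂ hs2] with z' a1 a2 a3 hA
    rw [hs']
    refine union_subset (a1 hA) ?_
    rintro x (hx | hx)
    · rw [hx]; exact a2 hA
    · rw [mem_singleton_iff] at hx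
      rw [hx]; exact a3 hA
  · rw [← hH]
    have a1 := fact2 t₁ ht₁ ξ₁ hf1 hξ1H
    have a2 := fact2 t₂ ht₂ ξ₂ hf2 hξ2H
    refine (IStep.infDist_dir (W (lt3 H)) z b t₁ t₂ (T * δ) (T / 4) (by positivity) htt a1
      a2).trans (le_of_eq ?_)
    field_simp
    ring

end Pool.Agent.Work.MP_6c3bcd_an.Dn

end

section

universe u v w

namespace Pool.Agent.Work.MP_6c3bcd_an.Dn

open Set Topology Metric

theorem prfTP (hL : claimLink.{u}) (hS : claimSee.{u, w}) : claimTP.{u, v, w} := by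
  intro 𝕜 _ ι _ _ E _ _ g hlip hconv hanti z b T d hT hd
  have hlip' : ∀ i, LipschitzWith ‖b‖₊ (fun t : ℝ => g i (ln 𝕜 z b t)) := by
    intro i
    apply LipschitzWith.of_dist_le_mul
    intro s t
    have h1 := (hlip i).dist_le_mul (ln 𝕜 z b s) (ln 𝕜 z b t)
    rw [NNReal.coe_one, one_mul] at h1
    refine h1.trans (le_of_eq ?_)
    unfold ln
    rw [dist_add_left, dist_eq_norm, ← sub_smul, norm_smul, ← RCLike.ofReal_sub,
      RCLike.norm_ofReal, Real.dist_eq, coe_nnnorm, mul_comm]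
  have hlink := hL ι (fun i t => g i (ln 𝕜 z b t)) ‖b‖₊ (fun i => hconv i z b) hlip'
    (fun i j h t => hanti i j h _) 0 T d
  obtain ⟨-, -, hfirst, -⟩ := hS ι E g hlip
  -- two points which are good to the right
  have hR : ∀ p q ξ η, p ∈ Ioo 0 T → q ∈ Ioo 0 T → T / 4 ≤ q - p →
      First g (ln 𝕜 z b p) d ξ → First g (ln 𝕜 z b q) d η →
      (∀ t ∈ Ioo p T, ∃ ρ, Reach (fun i t => g i (ln 𝕜 z b t)) 0 T ξ ρ ∧
        Sees (fun i t => g i (ln 𝕜 z b t)) t ρ) →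
      (∀ t ∈ Ioo q T, ∃ ρ, Reach (fun i t => g i (ln 𝕜 z b t)) 0 T η ρ ∧
        Sees (fun i t => g i (ln 𝕜 z b t)) t ρ) →
      ∃ t₁ ∈ Ioo 0 T, ∃ t₂ ∈ Ioo 0 T, ∃ t₃ ∈ Ioo 0 T, T / 4 ≤ t₂ - t₁ ∧
      ∃ ξ₁ ξ₂ ζ₁ ζ₂ : ι, First g (ln 𝕜 z b t₁) d ξ₁ ∧ First g (ln 𝕜 z b t₂) d ξ₂ ∧
        Reach (fun i t => g i (ln 𝕜 z b t)) 0 T ξ₁ ζ₁ ∧
        Reach (fun i t => g i (ln 𝕜 z b t)) 0 T ξ₂ ζ₂ ∧
        Sees g (ln 𝕜 z b t₃) ζ₁ ∧ Sees g (ln 𝕜 z b t₃) ζ₂ := by
    intro p q ξ η hp hq hpq hξ hη h1 h2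
    have hpq' : p < q := by linarith
    obtain ⟨ρ, hρ1, hρ2⟩ := h1 ((q + T) / 2) ⟨by linarith [hq.2], by linarith [hq.2]⟩
    obtain ⟨σ, hσ1, hσ2⟩ := h2 ((q + T) / 2) ⟨by linarith [hq.2], by linarith [hq.2]⟩
    exact ⟨p, hp, q, hq, (q + T) / 2, ⟨by linarith [hq.1], by linarith [hq.2]⟩, hpq, ξ, η, ρ, σ,
      hξ, hη, hρ1, hσ1, hρ2, hσ2⟩
  have hLf : ∀ p q ξ η, p ∈ Ioo 0 T → q ∈ Ioo 0 T → T / 4 ≤ q - p →
      First g (ln 𝕜 z b p) d ξ → First g (ln 𝕜 z b q) d η →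
      (∀ t ∈ Ioo 0 p, ∃ ρ, Reach (fun i t => g i (ln 𝕜 z b t)) 0 T ξ ρ ∧
        Sees (fun i t => g i (ln 𝕜 z b t)) t ρ) →
      (∀ t ∈ Ioo 0 q, ∃ ρ, Reach (fun i t => g i (ln 𝕜 z b t)) 0 T η ρ ∧
        Sees (fun i t => g i (ln 𝕜 z b t)) t ρ) →
      ∃ t₁ ∈ Ioo 0 T, ∃ t₂ ∈ Ioo 0 T, ∃ t₃ ∈ Ioo 0 T, T / 4 ≤ t₂ - t₁ ∧
      ∃ ξ₁ ξ₂ ζ₁ ζ₂ : ι, First g (ln 𝕜 z b t₁) d ξ₁ ∧ First g (ln 𝕜 z b t₂) d ξ₂ ∧
        Reach (fun i t => g i (ln 𝕜 z b t)) 0 T ξ₁ ζ₁ ∧
        Reach (fun i t => g i (ln 𝕜 z b t)) 0 T ξ₂ ζ₂ ∧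
        Sees g (ln 𝕜 z b t₃) ζ₁ ∧ Sees g (ln 𝕜 z b t₃) ζ₂ := by
    intro p q ξ η hp hq hpq hξ hη h1 h2
    have hpq' : p < q := by linarith
    obtain ⟨ρ, hρ1, hρ2⟩ := h1 (p / 2) ⟨by linarith [hp.1], by linarith [hp.1]⟩
    obtain ⟨σ, hσ1, hσ2⟩ := h2 (p / 2) ⟨by linarith [hp.1], by linarith [hp.1]⟩
    exact ⟨p, hp, q, hq, p / 2, ⟨by linarith [hp.1], by linarith [hp.1, hp.2]⟩, hpq, ξ, η, ρ, σ,
      hξ, hη, hρ1, hσ1, hρ2, hσ2⟩
  have h1 : T / 4 ∈ Ioo 0 T := ⟨by linarith, by linarith⟩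
  have h2 : T / 2 ∈ Ioo 0 T := ⟨by linarith, by linarith⟩
  have h3 : 3 * T / 4 ∈ Ioo 0 T := ⟨by linarith, by linarith⟩
  obtain ⟨ξ1, hξ1⟩ := hfirst (ln 𝕜 z b (T / 4)) d (hd _ h1)
  obtain ⟨ξ2, hξ2⟩ := hfirst (ln 𝕜 z b (T / 2)) d (hd _ h2)
  obtain ⟨ξ3, hξ3⟩ := hfirst (ln 𝕜 z b (3 * T / 4)) d (hd _ h3)
  rcases hlink (T / 4) h1 hd ξ1 hξ1 with r1 | l1
  · rcases hlink (T / 2) h2 hd ξ2 hξ2 with r2 | l2
    · exact hR _ _ ξ1 ξ2 h1 h2 (by linarith) hξ1 hξ2 r1 r2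
    · rcases hlink (3 * T / 4) h3 hd ξ3 hξ3 with r3 | l3
      · exact hR _ _ ξ1 ξ3 h1 h3 (by linarith) hξ1 hξ3 r1 r3
      · exact hLf _ _ ξ2 ξ3 h2 h3 (by linarith) hξ2 hξ3 l2 l3
  · rcases hlink (T / 2) h2 hd ξ2 hξ2 with r2 | l2
    · rcases hlink (3 * T / 4) h3 hd ξ3 hξ3 with r3 | l3
      · exact hR _ _ ξ2 ξ3 h2 h3 (by linarith) hξ2 hξ3 r2 r3
      · exact hLf _ _ ξ1 ξ3 h1 h3 (by linarith) hξ1 hξ3 l1 l3
    · exact hLf _ _ ξ1 ξ2 h1 h2 (by linarith) hξ1 hξ2 l1 l2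

end Pool.Agent.Work.MP_6c3bcd_an.Dn

end

section

/-!
# Item TTF: facts on `TT`
-/

universe u v w

namespace Pool.Agent.Work.MP_6c3bcd_an.Dn

open Set Topology Metric

namespace ITTF

variable {𝕜 : Type v} [RCLike 𝕜] {X : Type w} [NormedAddCommGroup X] [NormedSpace 𝕜 X]
  {Y : Submodule 𝕜 (StrongDual 𝕜 X)} {Φ : Y → Set X} {nm : X → StrongDual 𝕜 X}
  {I : Type u}

theorem good (hnm : ∀ x, nm x ∈ Y) (e : I → X) (Γ : Set I) :
    ∀ f, Sum.inr f ∈ TT Φ nm e Γ → f ∈ Y := by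
  have key : TT Φ nm e Γ ⊆ {a | ∀ f, a = Sum.inr f → f ∈ Y} := by
    refine cls_min ?_ ?_
    · rintro a (⟨i, _, hi⟩ | h | h) f rfl
      · exact absurd hi (by simp)
      · exact absurd h (by simp)
      · have : f = 0 := by simpa using h
        rw [this]
        exact Y.zero_mem
    · rintro (x | f) ha (y | g) hb c hc k rfl
      · rcases hc with (hc | ⟨n, hn⟩) | hc
        · exact absurd hc (by simp)
        · exact absurd hn (by simp)
        · have : k = nm x := by simpa using hc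
          rw [this]
          exact hnm x
      · exact absurd hc (by simp [opT])
      · exact absurd hc (by simp [opT])
      · rcases hc with (hc | ⟨n, hn⟩) | ⟨w, _, hw⟩
        · have : k = f + g := by simpa using hc
          rw [this]
          exact Y.add_mem (ha f rfl) (hb g rfl)
        · have : TopologicalSpace.denseSeq 𝕜 n • f = k := by simpa using hn
          rw [← this]
          exact Y.smul_mem _ (ha f rfl)
        · exact absurd hw (by simp)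
  intro f hf
  exact key hf f rfl

theorem mono (e : I → X) : Monotone (TT Φ nm e) := by
  intro Γ Γ' h
  exact cls_mono (union_subset_union_left _ (image_mono h))

end ITTF

theorem prfTTF : claimTTF.{u, v, w} := by
  intro 𝕜 _ X _ _ Y Φ hΦ nm hnm I e
  refine ⟨fun Γ => ⟨?_, ?_, ?_, ITTF.good hnm e Γ⟩, ITTF.mono e, ?_, ?_⟩
  · intro a ha b hb
    exact cls_closed _ _ ha hb
  · exact subset_cls _ _ (Or.inr (Or.inl rfl))
  · exact subset_cls _ _ (Or.inr (Or.inr rfl))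
  · intro Γ hΓ
    refine cls_countable (opT_countable hΦ nm) (Countable.union (hΓ.image _) ?_)
    exact (countable_singleton _).insert _
  · intro Γ x hx
    classical
    obtain ⟨F, hF, hxF⟩ := cls_finite hx
    have hch : ∀ a ∈ F, a ∈ (fun i : I => (Sum.inl (e i) : X ⊕ StrongDual 𝕜 X)) '' Γ →
        ∃ i, i ∈ Γ ∧ Sum.inl (e i) = a := by
      rintro a _ ⟨i, hi, hia⟩
      exact ⟨i, hi, hia⟩
    -- choose the indices
    let G : Finset (X ⊕ StrongDual 𝕜 X) :=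
      F.filter (fun a => a ∈ (fun i : I => (Sum.inl (e i) : X ⊕ StrongDual 𝕜 X)) '' Γ)
    have hG : ∀ a ∈ G, ∃ i, i ∈ Γ ∧ (Sum.inl (e i) : X ⊕ StrongDual 𝕜 X) = a := by
      intro a ha
      have ha' := Finset.mem_filter.1 ha
      exact hch a ha'.1 ha'.2
    choose φ hφ using hG
    refine ⟨G.attach.image (fun a => φ a.1 a.2), ?_, ?_⟩
    · intro i hi
      obtain ⟨a, _, rfl⟩ := Finset.mem_image.1 (Finset.mem_coe.1 hi)
      exact (hφ a.1 a.2).1
    · refine cls_mono ?_ hxF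
      intro a ha
      rcases hF ha with h | h
      · have haG : a ∈ G := Finset.mem_filter.2 ⟨Finset.mem_coe.1 ha, h⟩
        refine Or.inl ⟨φ a haG, Finset.mem_coe.2 (Finset.mem_image.2
          ⟨⟨a, haG⟩, Finset.mem_attach _ _, rfl⟩), (hφ a haG).2⟩
      · exact Or.inr h

end Pool.Agent.Work.MP_6c3bcd_an.Dn

end

section

/-!
UNIF: uniformisation of the countable ordinals which are seen.
-/

universe u v w

namespace Pool.Agent.Work.MP_6c3bcd_an.Dn

open Set Topology Metric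

theorem prfUnif (hc : claimCnt.{u, v, w}) : claimUnif.{u, v, w} := by
  intro 𝕜 _ E _ _ I J K _ _ _ _ _ _ m W L A U hA hU hUL
  let κ : Set E → Set K := fun V => {k | ∃ a ∈ A, a ∈ V ∧ Sum.inr (Sum.inr k) ∈ MM m W a}
  have hlow : ∀ V k k', k ∈ κ V → k' ≤ k → k' ∈ κ V := by
    rintro V k k' ⟨a, ha, haV, hk⟩ hle
    obtain ⟨-, -, -, -, -, -, h7, -⟩ := hc 𝕜 E I J K m W a
    exact ⟨a, ha, haV, h7 k k' hk hle⟩
  have hmono : ∀ V V', V ⊆ V' → κ V ⊆ κ V' := by
    rintro V V' h k ⟨a, ha, haV, hk⟩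
    exact ⟨a, ha, h haV, hk⟩
  have hcount : ∀ V, (κ V).Countable := by
    intro V
    have hsub : κ V ⊆ ⋃ a ∈ A, {k : K | (Sum.inr (Sum.inr k) : Ix I J K) ∈ MM m W a} := by
      rintro k ⟨a, ha, -, hk⟩
      exact mem_biUnion ha hk
    refine Set.Countable.mono hsub (hA.biUnion fun a _ => ?_)
    have hinj : Function.Injective (fun k : K => (Sum.inr (Sum.inr k) : Ix I J K)) := by
      intro k k' h
      simpa using h
    exact (hc 𝕜 E I J K m W a).1.preimage hinj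
  have hne : ∀ V, ((κ V)ᶜ).Nonempty := by
    intro V
    by_contra h
    rw [Set.not_nonempty_iff_eq_empty, Set.compl_empty_iff] at h
    apply m.uK
    rw [← h]
    exact hcount V
  have hν : ∀ V, ∃ n : K, κ V = Iio n := by
    intro V
    refine ⟨WellFounded.min (wellFounded_lt (α := K)) (κ V)ᶜ (hne V), ?_⟩
    ext k
    constructor
    · intro hk
      rw [mem_Iio]
      by_contra hlt
      rw [not_lt] at hlt
      exact WellFounded.min_mem (wellFounded_lt (α := K)) (κ V)ᶜ (hne V) (hlow V _ _ hk hlt)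
    · intro hk
      by_contra hnot
      exact WellFounded.not_lt_min (wellFounded_lt (α := K)) (κ V)ᶜ hnot hk
  choose ν hν using hν
  let T : Set K := {n | ∃ V : Set E, V ⊆ U ∧ IsOpen V ∧ (V ∩ L).Nonempty ∧ ν V = n}
  have hT : T.Nonempty := ⟨ν U, U, Subset.rfl, hU, hUL, rfl⟩
  obtain ⟨V, hVU, hV, hVL, hVn⟩ := WellFounded.min_mem (wellFounded_lt (α := K)) T hT
  refine ⟨V, hVU, hV, hVL, κ V, ?_, ?_⟩
  · intro a ha haV k hk
    exact ⟨a, ha, haV, hk⟩
  · intro k hk V' hV'V hV' hV'L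
    have h1 : ¬ ν V' < ν V := by
      rw [hVn]
      exact WellFounded.not_lt_min (wellFounded_lt (α := K)) T
        ⟨V', hV'V.trans hVU, hV', hV'L, rfl⟩
    have h2 : k ∈ κ V' := by
      rw [hν V', mem_Iio]
      rw [hν V, mem_Iio] at hk
      exact lt_of_lt_of_le hk (not_lt.1 h1)
    exact h2

end Pool.Agent.Work.MP_6c3bcd_an.Dn

end
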